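import Pool.Agent.DBB.Targets3

/-!
# DBB, target CI3: an exceptional zero gives an interval of bad heights
-/

set_option autoImplicit false

namespace Pool.Agent.DBB

open Complex MeasureTheory Set Filter
open Pool.Agent.DBN Pool.Agent.DBC

namespace CI3_

/-- the lower bound for the time, at the heights `T` between `X / 2` and `4 X` -/
theorem low (A X T : ℝ) (hA : 0 < A) (hX : Real.exp 10 ≤ X) (h1 : X / 2 ≤ T) (h2 : T ≤ 4 * X) :
    A * Real.log (Real.log T) / Real.log T ^ 2 ≤
      2 * A * Real.log (Real.log X) / Real.log X ^ 2 := by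
  have hX0 : (0 : ℝ) < X := lt_of_lt_of_le (Real.exp_pos _) hX
  have hL : 10 ≤ Real.log X := by
    have := Real.log_le_log (Real.exp_pos _) hX
    rwa [Real.log_exp] at this
  have hlog2 : 0 < Real.log 2 := Real.log_pos one_lt_two
  have hlog2' : Real.log 2 ≤ 1 := by
    have := Real.log_two_lt_d9
    linarith
  have e4 : Real.log 4 = 2 * Real.log 2 := by
    rw [show (4 : ℝ) = 2 ^ 2 by norm_num, Real.log_pow]
    norm_num
  have l1 : 9 / 10 * Real.log X ≤ Real.log T := by
    have := Real.log_le_log (by positivity) h1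
    rw [Real.log_div hX0.ne' two_ne_zero] at this
    linarith
  have l2 : Real.log T ≤ 2 * Real.log X := by
    have := Real.log_le_log (by linarith) h2
    rw [Real.log_mul (by norm_num) hX0.ne'] at this
    linarith
  have hT0 : 0 < Real.log T := by linarith
  have hll : Real.log (Real.log T) ≤ Real.log 2 + Real.log (Real.log X) := by
    have := Real.log_le_log hT0 l2
    rwa [Real.log_mul two_ne_zero (by linarith)] at this
  have h4 : 2 * Real.log 2 ≤ Real.log (Real.log X) := by
    rw [← e4]
    exact Real.log_le_log (by norm_num) (by linarith)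
  have hlp : 0 < Real.log (Real.log X) := by linarith
  rw [div_le_div_iff₀ (by positivity) (by positivity)]
  have hsq : Real.log X ^ 2 ≤ 100 / 81 * Real.log T ^ 2 := by nlinarith
  have a1 : Real.log (Real.log T) * Real.log X ^ 2 ≤
      3 / 2 * Real.log (Real.log X) * Real.log X ^ 2 :=
    mul_le_mul_of_nonneg_right (by linarith) (by positivity)
  have a2 : 3 / 2 * Real.log (Real.log X) * Real.log X ^ 2 ≤
      3 / 2 * Real.log (Real.log X) * (100 / 81 * Real.log T ^ 2) :=
    mul_le_mul_of_nonneg_left hsq (by positivity)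
  have a3 : 3 / 2 * Real.log (Real.log X) * (100 / 81 * Real.log T ^ 2) ≤
      2 * (Real.log (Real.log X) * Real.log T ^ 2) := by
    have : 0 ≤ Real.log (Real.log X) * Real.log T ^ 2 := by positivity
    nlinarith
  have a4 := mul_le_mul_of_nonneg_left (a1.trans (a2.trans a3)) hA.le
  calc A * Real.log (Real.log T) * Real.log X ^ 2
      = A * (Real.log (Real.log T) * Real.log X ^ 2) := by ring
    _ ≤ A * (2 * (Real.log (Real.log X) * Real.log T ^ 2)) := a4
    _ = 2 * A * Real.log (Real.log X) * Real.log T ^ 2 := by ring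

end CI3_

open CI3_ in
theorem p_CI3 : T_CI3 := by
  intro A c K hA hc hK
  have hE : (16 : ℝ) ≤ Real.exp 10 + 16 := by
    have := Real.exp_pos (10 : ℝ)
    linarith
  refine ⟨Real.exp 10 + 16, by linarith, ?_⟩
  intro t X z hX h1 h2 hz hz1 hz2 him hd T hT
  obtain ⟨ha, hb⟩ := hT
  have hX16 : 16 ≤ X := by linarith
  have hXE : Real.exp 10 ≤ X := by linarith
  have hX0 : (0 : ℝ) < X := by linarith
  have hL : 10 ≤ Real.log X := by
    have := Real.log_le_log (Real.exp_pos _) hXE
    rwa [Real.log_exp] at this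
  have e4 : Real.log 4 = 2 * Real.log 2 := by
    rw [show (4 : ℝ) = 2 ^ 2 by norm_num, Real.log_pow]
    norm_num
  have hlog2' : Real.log 2 ≤ 1 := by
    have := Real.log_two_lt_d9
    linarith
  have hT1 : X / 2 ≤ T := by linarith
  have hT2 : T ≤ 4 * X := by linarith
  have l2 : Real.log T ≤ 2 * Real.log X := by
    have := Real.log_le_log (by linarith) hT2
    rw [Real.log_mul (by norm_num) hX0.ne'] at this
    linarith
  have hlp : 0 < Real.log (Real.log X) := Real.log_pos (by linarith)
  have ht : 0 < t := by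
    refine lt_of_lt_of_le ?_ h1
    have : 0 < Real.log X := by linarith
    positivity
  have m2 := mul_le_mul_of_nonneg_left l2 ht.le
  refine ⟨hT1, hT2, t, (low A X T hA hXE hT1 hT2).trans h1, by linarith, fun hC => ?_⟩
  have hn : ‖z - 2 * (T : ℂ)‖ ≤ K + 2 := by
    refine (Complex.norm_le_abs_re_add_abs_im _).trans ?_
    have r1 : (z - 2 * (T : ℂ)).re = z.re - 2 * T := by simp
    have r2 : (z - 2 * (T : ℂ)).im = z.im := by simp
    rw [r1, r2]
    have r3 : |z.re - 2 * T| ≤ 1 := by
      rw [abs_le]
      constructor <;> linarith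
    linarith
  obtain ⟨i1, i2⟩ := hC.1 z hn hz
  exact i2 (hd i1)

end Pool.Agent.DBB
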