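import Pool.Agent.DBB.Targets3

set_option autoImplicit false

/-!
# IN3: an elementary inequality
-/

namespace Pool.Agent.DBB

namespace IN3_

theorem sq_bound (κ c u v : ℝ) (hκ0 : 0 < κ) (hκ : κ ≤ 1 / 4) (hc : 0 < c)
    (h : u ^ 2 ≤ 2 * v ^ 2 + c ^ 2 / 8) :
    κ * (u ^ 2 / c) ≤ 1 / 2 * (v ^ 2 / c) + κ * c / 8 := by
  have h1 : u ^ 2 / c ≤ (2 * v ^ 2 + c ^ 2 / 8) / c := div_le_div_of_nonneg_right h hc.le
  have h2 : (2 * v ^ 2 + c ^ 2 / 8) / c = 2 * (v ^ 2 / c) + c / 8 := by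
    field_simp
  have h3 : κ * (u ^ 2 / c) ≤ κ * (2 * (v ^ 2 / c) + c / 8) := by
    rw [← h2]
    exact mul_le_mul_of_nonneg_left h1 hκ0.le
  have h4 : κ * (v ^ 2 / c) ≤ 1 / 4 * (v ^ 2 / c) :=
    mul_le_mul_of_nonneg_right hκ (by positivity)
  linarith

end IN3_

open IN3_ in
theorem p_IN3 : T_IN3 := by
  intro c₂ r hc2 hr
  obtain ⟨g, hg⟩ : ∃ g, g = min (1 / 4) (r ^ 2 / (4 * c₂)) := ⟨_, rfl⟩
  obtain ⟨κ, hκ⟩ : ∃ κ, κ = min (1 / 4) (min (2 * r ^ 2 / c₂ ^ 2) (4 / c₂)) := ⟨_, rfl⟩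
  have hg0 : 0 < g := by
    rw [hg]
    positivity
  have hκ0 : 0 < κ := by
    rw [hκ]
    positivity
  have hg1 : g ≤ 1 / 4 := hg ▸ min_le_left _ _
  have hg2 : g ≤ r ^ 2 / (4 * c₂) := hg ▸ min_le_right _ _
  have hκ1 : κ ≤ 1 / 4 := hκ ▸ min_le_left _ _
  have hκ2 : κ ≤ 2 * r ^ 2 / c₂ ^ 2 := hκ ▸ (min_le_right _ _).trans (min_le_left _ _)
  have hκ3 : κ ≤ 4 / c₂ := hκ ▸ (min_le_right _ _).trans (min_le_right _ _)
  refine ⟨g, κ, hg0, hκ0, ?_⟩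
  intro c x u hc hcc hx hu
  have hκc : κ * c / 8 ≤ κ * c₂ / 8 := by
    have := mul_le_mul_of_nonneg_left hcc hκ0.le
    linarith
  have hκc3 : κ * c₂ / 8 ≤ 1 / 2 := by
    rw [le_div_iff₀ hc2] at hκ3
    linarith
  have hκc2 : κ * c₂ / 8 ≤ r ^ 2 / (4 * c₂) := by
    rw [le_div_iff₀ (by positivity)] at hκ2
    rw [le_div_iff₀ (by positivity)]
    nlinarith
  have hq : 0 ≤ u ^ 2 / c := by positivity
  have hκq : κ * (u ^ 2 / c) ≤ 1 / 4 * (u ^ 2 / c) := mul_le_mul_of_nonneg_right hκ1 hq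
  rw [sub_le_iff_le_add]
  refine max_le ?_ (by linarith)
  have e1 : u / 2 - u ^ 2 / c = c / 16 - (u - c / 4) ^ 2 / c := by
    field_simp
    ring
  have e2 : -u / 2 - u ^ 2 / c = c / 16 - (u + c / 4) ^ 2 / c := by
    field_simp
    ring
  have b1 := sq_bound κ c u (u - c / 4) hκ0 hκ1 hc (by nlinarith [sq_nonneg (u - c / 2)])
  have b2 := sq_bound κ c u (u + c / 4) hκ0 hκ1 hc (by nlinarith [sq_nonneg (u + c / 2)])
  have b3 : r ^ 2 / c₂ ≤ (u - c / 4) ^ 2 / c := by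
    have h1 : r ^ 2 ≤ (u - c / 4) ^ 2 := by
      rw [← sq_abs (u - c / 4)]
      exact pow_le_pow_left₀ hr.le hu 2
    exact div_le_div₀ (sq_nonneg _) h1 hc hcc
  have b4 : 0 ≤ (u + c / 4) ^ 2 / c := by positivity
  have e3 : r ^ 2 / c₂ = 4 * (r ^ 2 / (4 * c₂)) := by
    field_simp
  rcases abs_cases (x + u) with ⟨h, -⟩ | ⟨h, -⟩
  · rw [h]
    linarith
  · rw [h]
    linarith

end Pool.Agent.DBB
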