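import Pool.Agent.DBB.Targets3
import Pool.Agent.DBC.P_NEA
import Pool.Agent.DBC.P_SPL
import Pool.Agent.DBC.P_SAD
import Pool.Agent.DBC.P_OFA
import Pool.Agent.DBN.ZA

/-!
# Target LW3: a lower bound for the flow, uniform in small times
-/

set_option autoImplicit false

namespace Pool.Agent.DBB

open Complex MeasureTheory Set Filter
open Pool.Agent.DBN Pool.Agent.DBC

namespace LW3_

/-- pointwise bound away from the saddle -/
theorem bound {κ₀ g₀ c₂ K : ℝ} (hκ : 0 < κ₀) (hg : 0 < g₀) (hc₂ : 0 < c₂) (hK : 0 < K) :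
    ∃ C : ℝ, 0 ≤ C ∧ ∀ t T y τ u B : ℝ, 2 ≤ T → 0 < t → t * Real.log T ≤ c₂ → |y| ≤ K →
      |τ - T| ≤ K →
      max (|y + u| / 2) (1 / 4) - u ^ 2 / (t * Real.log T) ≤
        B - g₀ - κ₀ * (u ^ 2 / (t * Real.log T)) →
      Real.exp (-(u ^ 2 / t)) * ‖xi (Pool.Agent.DBC.pt y τ + u)‖ ≤
        C * (size T * T ^ (B - g₀ / 2)) * Real.exp (-(κ₀ / (2 * t)) * u ^ 2) := by
  obtain ⟨κ', hκ'⟩ : ∃ κ', κ' = min (κ₀ / (4 * c₂)) (g₀ / (12 * K ^ 2 + 12)) := ⟨_, rfl⟩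
  have hκ0 : 0 < κ' := by
    rw [hκ']
    exact lt_min (by positivity) (by positivity)
  have hκ1 : κ' ≤ κ₀ / (4 * c₂) := by
    rw [hκ']
    exact min_le_left _ _
  have hκ2 : κ' * (3 * K ^ 2) ≤ g₀ / 4 := by
    have h1 : κ' ≤ g₀ / (12 * K ^ 2 + 12) := by
      rw [hκ']
      exact min_le_right _ _
    calc κ' * (3 * K ^ 2) ≤ g₀ / (12 * K ^ 2 + 12) * (3 * K ^ 2) := by gcongr
      _ ≤ g₀ / (12 * K ^ 2 + 12) * (3 * K ^ 2 + 3) := by
          gcongr
          linarith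
      _ = g₀ / 4 := by
          field_simp
          ring
  obtain ⟨C, hC, h⟩ := xi_quarter_le (g₀ / 4) κ' (by positivity) hκ0
  refine ⟨C, hC, ?_⟩
  intro t T y τ u B hT ht htc hy hτ hm
  have hL := OFA_.log_ge hT
  have hL0 : 0 < Real.log T := by linarith
  have hT0 : 0 < T := by linarith
  obtain ⟨c, hc⟩ : ∃ c : ℝ, c = t * Real.log T := ⟨_, rfl⟩
  rw [← hc] at htc hm
  have hc0 : 0 < c := by
    rw [hc]
    positivity
  obtain ⟨w, hw⟩ : ∃ w : ℂ, w = ((y + u : ℝ) : ℂ) + ((τ - T : ℝ) : ℂ) * I := ⟨_, rfl⟩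
  have e1 : Pool.Agent.DBC.pt y τ + u = 1 / 2 + T * I + w := by
    rw [hw, Pool.Agent.DBC.pt]
    push_cast
    ring
  have e2 : w.re = y + u := by
    rw [hw]
    simp
  have e3 : ‖w‖ ^ 2 ≤ 2 * u ^ 2 + 3 * K ^ 2 := by
    have e4 : ‖w‖ ^ 2 = (y + u) ^ 2 + (τ - T) ^ 2 := by
      rw [Complex.sq_norm, Complex.normSq_apply, hw]
      simp
      ring
    have e5 : y ^ 2 ≤ K ^ 2 := by
      rw [← sq_abs y]
      gcongr
    have e6 : (τ - T) ^ 2 ≤ K ^ 2 := by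
      rw [← sq_abs (τ - T)]
      gcongr
    rw [e4]
    nlinarith [sq_nonneg (y - u)]
  have h1 := h T w hT
  rw [← e1, e2] at h1
  beta_reduce at h1
  obtain ⟨m, hmd⟩ : ∃ m : ℝ, m = max (|y + u| / 2) (1 / 4) := ⟨_, rfl⟩
  rw [← hmd] at h1 hm
  have h2 : u ^ 2 / t = Real.log T * (u ^ 2 / c) := by
    rw [hc]
    field_simp
  have h2' : κ₀ / (2 * t) * u ^ 2 = Real.log T * (κ₀ / 2 * (u ^ 2 / c)) := by
    rw [hc]
    field_simp
  have h3 : Real.log T * (m + g₀ / 4) - u ^ 2 / t + κ' * ‖w‖ ^ 2 * Real.log T ≤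
      Real.log T * (B - g₀ / 2) - κ₀ / (2 * t) * u ^ 2 := by
    have h8 : u ^ 2 / c₂ ≤ u ^ 2 / c := by
      gcongr
    have h4 : κ' * ‖w‖ ^ 2 ≤ κ₀ / 2 * (u ^ 2 / c) + g₀ / 4 := by
      calc κ' * ‖w‖ ^ 2 ≤ κ' * (2 * u ^ 2 + 3 * K ^ 2) := by gcongr
        _ = κ' * (2 * u ^ 2) + κ' * (3 * K ^ 2) := by ring
        _ ≤ κ₀ / (4 * c₂) * (2 * u ^ 2) + g₀ / 4 := by gcongr
        _ = κ₀ / 2 * (u ^ 2 / c₂) + g₀ / 4 := by
            field_simp
            ring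
        _ ≤ κ₀ / 2 * (u ^ 2 / c) + g₀ / 4 := by gcongr
    have h5 : m + g₀ / 4 - u ^ 2 / c + κ' * ‖w‖ ^ 2 ≤
        B - g₀ / 2 - κ₀ / 2 * (u ^ 2 / c) := by linarith
    have h6 : Real.log T * (m + g₀ / 4 - u ^ 2 / c + κ' * ‖w‖ ^ 2) ≤
        Real.log T * (B - g₀ / 2 - κ₀ / 2 * (u ^ 2 / c)) :=
      mul_le_mul_of_nonneg_left h5 hL0.le
    rw [h2, h2']
    linarith
  calc Real.exp (-(u ^ 2 / t)) * ‖xi (Pool.Agent.DBC.pt y τ + u)‖
      ≤ Real.exp (-(u ^ 2 / t)) * (C * size T * T ^ (m + g₀ / 4) *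
        Real.exp (κ' * ‖w‖ ^ 2 * Real.log T)) := by gcongr
    _ = C * size T * Real.exp (Real.log T * (m + g₀ / 4) - u ^ 2 / t +
        κ' * ‖w‖ ^ 2 * Real.log T) := by
        rw [Real.rpow_def_of_pos hT0, Real.exp_add, Real.exp_sub, Real.exp_neg]
        ring
    _ ≤ C * size T * Real.exp (Real.log T * (B - g₀ / 2) - κ₀ / (2 * t) * u ^ 2) := by
        have := OFA_.size_nonneg' hT
        gcongr
    _ = C * (size T * T ^ (B - g₀ / 2)) * Real.exp (-(κ₀ / (2 * t)) * u ^ 2) := by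
        rw [Real.rpow_def_of_pos hT0, sub_eq_add_neg, Real.exp_add]
        ring_nf

/-- the integral of the norm over a set away from the saddle -/
theorem int_bound {b A : ℝ} (hb : 0 < b) (hA : 0 ≤ A) {S : Set ℝ}
    (hS : MeasurableSet S) {f : ℝ → ℝ} (hf0 : ∀ u, 0 ≤ f u)
    (hf : ∀ u ∈ S, f u ≤ A * Real.exp (-b * u ^ 2)) :
    ∫ u in S, f u ≤ A * √(Real.pi / b) := by
  have h1 := integrable_exp_neg_mul_sq hb
  calc ∫ u in S, f u ≤ ∫ u in S, A * Real.exp (-b * u ^ 2) := by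
        refine integral_mono_of_nonneg ?_ (h1.const_mul A).integrableOn ?_
        · filter_upwards with u
          exact hf0 u
        · filter_upwards [ae_restrict_mem hS] with u hu
          exact hf u hu
    _ ≤ ∫ u : ℝ, A * Real.exp (-b * u ^ 2) := by
        refine setIntegral_le_integral (h1.const_mul A) ?_
        filter_upwards with u
        show (0 : ℝ) ≤ A * Real.exp (-b * u ^ 2)
        positivity
    _ = A * √(Real.pi / b) := by
        rw [integral_const_mul, integral_gaussian]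

/-- splitting the whole line -/
lemma split {F : ℝ → ℂ} {I : Set ℝ} {b : ℝ} (hI : MeasurableSet I)
    (hF : Integrable F) (h2 : ∫ u in Iᶜ, ‖F u‖ ≤ b) :
    ‖∫ u in I, F u‖ - b ≤ ‖∫ u, F u‖ := by
  have e : ∫ u, F u = (∫ u in I, F u) + ∫ u in Iᶜ, F u :=
    (integral_add_compl hI hF).symm
  have h3 : ‖∫ u in Iᶜ, F u‖ ≤ b := (norm_integral_le_integral_norm _).trans h2
  rw [e]
  have := norm_sub_le_norm_add (∫ u in I, F u) (∫ u in Iᶜ, F u)
  linarith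

end LW3_

open LW3_

theorem p_LW3 (h1 : Pool.Agent.DBC.T_LOC) (h2 : Pool.Agent.DBC.T_GAU) (h3 : T_IN3) : T_LW3 := by
  intro c₂ K hc₂ hK
  obtain ⟨r, C, T₁, hr, hC, hT₁, hloc⟩ := h1 (1 / 2) (K + c₂ + 1) (by norm_num) (by linarith)
  obtain ⟨g, κ, hg, hκ, hin⟩ := h3 c₂ r hc₂ hr
  obtain ⟨D, hD, hb⟩ := bound hκ hg hc₂ hK
  obtain ⟨t₀, ht₀, hsm⟩ := NEA_.small_err hr hC (show (0 : ℝ) < 1 / 2 by norm_num)
  obtain ⟨T₃, hT₃, hA⟩ := SAD_.absorb (D * √(2 / κ)) (g / 2) (1 / (4 * C)) (by linarith)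
    (by positivity)
  obtain ⟨T₄, hT₄, hA'⟩ := SAD_.absorb (4 * C) (1 / 2) 1 (by norm_num) (by norm_num)
  obtain ⟨T₀, hT₀⟩ : ∃ T₀ : ℝ, T₀ = T₁ + T₃ + T₄ + Real.exp (max 1 (c₂ / t₀)) := ⟨_, rfl⟩
  have hexp : 0 < Real.exp (max 1 (c₂ / t₀)) := Real.exp_pos _
  refine ⟨T₀, by linarith, ?_⟩
  intro t T x τ hT ht0 h4 h5 h6 h7
  have hT0 : 0 < T := by linarith
  have hT2 : 2 ≤ T := by linarith
  have hL : max 1 (c₂ / t₀) ≤ Real.log T := by
    rw [Real.le_log_iff_exp_le hT0]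
    linarith
  have hL1 : 1 ≤ Real.log T := (le_max_left _ _).trans hL
  have hL2 : c₂ / t₀ ≤ Real.log T := (le_max_right _ _).trans hL
  have hL0 : 0 < Real.log T := by linarith
  have htt : t ≤ t₀ := by
    rw [div_le_iff₀ ht₀] at hL2
    refine le_of_mul_le_mul_right (?_ : t * Real.log T ≤ t₀ * Real.log T) hL0
    rw [mul_comm t₀]
    exact h4.trans hL2
  obtain ⟨hs1, hs2⟩ := hsm t ht0 htt
  obtain ⟨hg1, hg2, hg3⟩ := h2 r t hr ht0
  have a1 := hA T (by linarith)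
  have a2 := hA' T (by linarith)
  set s : ℂ := Pool.Agent.DBC.pt x τ with hs
  set X : ℂ := xi (s + sd t T) with hX
  have hsre : s.re = 1 / 2 + x := by rw [hs, Pool.Agent.DBC.pt]; simp
  have hsim : s.im = τ := by rw [hs, Pool.Agent.DBC.pt]; simp
  have hre : (s + sd t T).re = 1 / 2 + x + t * Real.log T / 4 := by
    rw [add_re, hsre, ofReal_re, sd]
  have him : (s + sd t T).im = τ := by
    rw [add_im, hsim, ofReal_im, add_zero]
  have htL : 0 < t * Real.log T := by positivity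
  obtain ⟨h8, h9⟩ := hloc T (s + sd t T) (by linarith) (by rw [hre]; linarith)
    (by rw [hre]; linarith) (by rw [him]; linarith)
  rw [← hX] at h8 h9
  obtain ⟨l1, l2⟩ := NEA_.local_est (s := s) (X := X) ht0 hT0 hr hC h9
  have hAe : Real.exp (-(sd t T ^ 2 / t)) = T ^ (-(t * Real.log T / 16)) := by
    rw [Real.rpow_def_of_pos hT0]
    congr 1
    unfold sd
    field_simp
    ring
  set A := Real.exp (-(sd t T ^ 2 / t)) with hAd
  have hA0 : 0 < A := Real.exp_pos _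
  set q := √(Real.pi * t) with hq
  have hq0 : 0 < q := Real.sqrt_pos.mpr (by positivity)
  have hXn : 0 ≤ ‖X‖ := norm_nonneg _
  set G := ∫ v in Ioo (-r) r, Real.exp (-(v ^ 2 / t)) with hG
  set M := ∫ v in Ioo (-r) r, |v| * Real.exp (-(v ^ 2 / t)) with hM
  have hint := SPL_.integrable_exp_xi ht0 s
  have hsplit := SPL_.integral_split ht0 s
  have hfl := p_SPL t s ht0
  have hnorm : ∀ u : ℝ, ‖((Real.exp (-(u ^ 2 / t)) : ℝ) : ℂ) * xi (s + u)‖ =
      Real.exp (-(u ^ 2 / t)) * ‖xi (s + u)‖ := fun u => by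
    rw [norm_mul, norm_real, Real.norm_eq_abs, abs_of_pos (Real.exp_pos _)]
  -- the far part
  obtain ⟨E, hE⟩ : ∃ E : ℝ, E = size T * T ^ (t * Real.log T / 16 + x / 2 - g / 2) := ⟨_, rfl⟩
  have hsz : 0 < size T := by
    unfold size
    positivity
  have hE0 : 0 ≤ E := by
    rw [hE]
    positivity
  have hfar : ∫ u in (Ioo (sd t T - r) (sd t T + r))ᶜ,
      ‖((Real.exp (-(u ^ 2 / t)) : ℝ) : ℂ) * xi (s + u)‖ ≤
        D * E * √(Real.pi / (κ / (2 * t))) := by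
    refine int_bound (by positivity) (by positivity) measurableSet_Ioo.compl
      (fun u => norm_nonneg _) fun u hu => ?_
    rw [hnorm, hE]
    refine hb t T x τ u (t * Real.log T / 16 + x / 2) hT2 ht0 h4
      (abs_le.2 ⟨by linarith, h6⟩) h7 ?_
    refine hin (t * Real.log T) x u htL h4 h5 ?_
    by_contra hcon
    push Not at hcon
    rw [abs_lt] at hcon
    exact hu ⟨by unfold sd; linarith, by unfold sd; linarith⟩
  have hroot : √(Real.pi / (κ / (2 * t))) = √(2 / κ) * q := by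
    rw [hq, ← Real.sqrt_mul (by positivity)]
    congr 1
    field_simp
  rw [hroot] at hfar
  have k0 := split measurableSet_Ioo hint hfar
  set I1 := ∫ u in Ioo (sd t T - r) (sd t T + r),
      ((Real.exp (-(u ^ 2 / t)) : ℝ) : ℂ) * xi (s + u) with hI1
  clear_value I1 G M A q X
  -- the near part
  have k1 : ‖I1 - ((A * q : ℝ) : ℂ) * X‖ ≤ 1 / 2 * (A * q * ‖X‖) := by
    have e1 : I1 - ((A * q : ℝ) : ℂ) * X =
        (I1 - ((A * G : ℝ) : ℂ) * X) + ((A * (G - q) : ℝ) : ℂ) * X := by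
      push_cast
      ring
    have h10 : |G - q| ≤ 2 * q * Real.exp (-(r ^ 2 / (2 * t))) := by
      rw [abs_le]
      constructor
      · linarith
      · have : 0 ≤ 2 * q * Real.exp (-(r ^ 2 / (2 * t))) := by positivity
        linarith
    have h11 : ‖((A * (G - q) : ℝ) : ℂ) * X‖ ≤
        A * (2 * q * Real.exp (-(r ^ 2 / (2 * t)))) * ‖X‖ := by
      rw [norm_mul, Complex.norm_real, Real.norm_eq_abs, abs_mul, abs_of_pos hA0]
      gcongr
    rw [e1]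
    calc ‖(I1 - ((A * G : ℝ) : ℂ) * X) + ((A * (G - q) : ℝ) : ℂ) * X‖
        ≤ ‖I1 - ((A * G : ℝ) : ℂ) * X‖ + ‖((A * (G - q) : ℝ) : ℂ) * X‖ := norm_add_le _ _
      _ ≤ A * ‖X‖ * C * M + A * (2 * q * Real.exp (-(r ^ 2 / (2 * t)))) * ‖X‖ :=
          add_le_add l1 h11
      _ ≤ A * ‖X‖ * C * t + A * (2 * q * Real.exp (-(r ^ 2 / (2 * t)))) * ‖X‖ := by gcongr
      _ = A * ‖X‖ * (2 * q * Real.exp (-(r ^ 2 / (2 * t))) + C * t) := by ring
      _ ≤ A * ‖X‖ * (1 / 2 * q) := by gcongr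
      _ = _ := by ring
  have k2 : 1 / 2 * (A * q * ‖X‖) ≤ ‖I1‖ := by
    have e5 : ‖((A * q : ℝ) : ℂ) * X‖ = A * q * ‖X‖ := by
      rw [norm_mul, Complex.norm_real, Real.norm_of_nonneg (by positivity)]
    have e6 := norm_sub_norm_le (((A * q : ℝ) : ℂ) * X) I1
    rw [norm_sub_rev, e5] at e6
    linarith
  obtain ⟨B, hB⟩ : ∃ B : ℝ, B = size T * T ^ (t * Real.log T / 16 + x / 2) := ⟨_, rfl⟩
  have hB0 : 0 < B := by
    rw [hB]
    positivity
  have k3 : B ≤ A * (C * ‖X‖) := by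
    have e3 : ((s + sd t T).re - 1 / 2) / 2 = x / 2 + t * Real.log T / 8 := by
      rw [hre]
      ring
    rw [e3] at h8
    have e4 : B = A * (size T * T ^ (x / 2 + t * Real.log T / 8)) := by
      rw [hB, hAe, mul_left_comm, ← Real.rpow_add hT0]
      congr 2
      ring
    rw [e4]
    gcongr
  have k4 : E = B * T ^ (-(g / 2)) := by
    rw [hE, hB, mul_assoc, ← Real.rpow_add hT0]
    congr 2
  have k5 : B / (2 * C) ≤ 1 / 2 * (A * ‖X‖) := by
    rw [div_le_iff₀ (by positivity)]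
    linarith
  have k6 : D * E * √(2 / κ) ≤ B / (4 * C) := by
    rw [k4]
    calc D * (B * T ^ (-(g / 2))) * √(2 / κ) = B * (D * √(2 / κ) * T ^ (-(g / 2))) := by ring
      _ ≤ B * (1 / (4 * C)) := by gcongr
      _ = B / (4 * C) := by ring
  have k7 : q * (B / (4 * C)) ≤ ‖∫ u : ℝ, ((Real.exp (-(u ^ 2 / t)) : ℝ) : ℂ) * xi (s + u)‖ := by
    have k8 : q * (B / (2 * C)) ≤ q * (1 / 2 * (A * ‖X‖)) := by gcongr
    have k9 : q * (D * E * √(2 / κ)) ≤ q * (B / (4 * C)) := by gcongr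
    have k10 : B / (2 * C) = B / (4 * C) + B / (4 * C) := by
      field_simp
      norm_num
    rw [k10] at k8
    linarith
  have k11 : size T ≤ B / (4 * C) := by
    rw [le_div_iff₀ (by positivity), hB]
    have e7 : T ^ (1 / 2 : ℝ) ≤ T ^ (t * Real.log T / 16 + x / 2) :=
      Real.rpow_le_rpow_of_exponent_le (by linarith) (by linarith)
    have e8 : 4 * C ≤ T ^ (1 / 2 : ℝ) := by
      rw [Real.rpow_neg hT0.le] at a2
      have : 0 < T ^ (1 / 2 : ℝ) := by positivity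
      rwa [← div_eq_mul_inv, div_le_one this] at a2
    gcongr
    exact e8.trans e7
  rw [hfl, ← hsplit, norm_mul, norm_real, Real.norm_of_nonneg (by positivity), ← hq]
  calc size T ≤ B / (4 * C) := k11
    _ = q⁻¹ * (q * (B / (4 * C))) := by field_simp
    _ ≤ _ := by gcongr

end Pool.Agent.DBB
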