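import Pool.Agent.DBB.Targets3

/-!
# DBB part 3, target `T_MX3`: measure of the bad heights in `[X / 2, 4 X]`
-/

set_option autoImplicit false

namespace Pool.Agent.DBB

open Complex MeasureTheory Set Filter
open Pool.Agent.DBN Pool.Agent.DBC

theorem p_MX3 : T_MX3 := by
  intro c hS K ε D hK hε hD
  obtain ⟨A, X₀, hA, h⟩ := hS K ε (D + 1) hK hε (by linarith)
  obtain ⟨e, he⟩ : ∃ e : ℝ, e = (2 : ℝ) ^ (D + 1) := ⟨_, rfl⟩
  have he0 : 0 < e := by rw [he]; positivity
  refine ⟨A, max (max 4 (2 * |X₀|)) (Real.exp (6 * e)), hA, ?_, ?_⟩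
  · exact le_trans (by norm_num) ((le_max_left (4 : ℝ) _).trans (le_max_left _ _))
  intro X hX
  have hX4 : 4 ≤ X := ((le_max_left _ _).trans (le_max_left _ _)).trans hX
  have hX3 : 2 * |X₀| ≤ X := ((le_max_right _ _).trans (le_max_left _ _)).trans hX
  have hX6 : Real.exp (6 * e) ≤ X := (le_max_right _ _).trans hX
  have hX0 : 0 < X := by linarith
  obtain ⟨L, hL⟩ : ∃ L : ℝ, L = Real.log X := ⟨_, rfl⟩
  have hL6 : 6 * e ≤ L := by
    rw [hL]
    exact (Real.le_log_iff_exp_le hX0).2 hX6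
  have hL0 : 0 < L := by linarith
  have hl4 : 2 * Real.log 2 ≤ L := by
    rw [hL]
    have h1 : Real.log 4 ≤ Real.log X := Real.log_le_log (by norm_num) hX4
    have h2 : Real.log 4 = 2 * Real.log 2 := by
      rw [show (4 : ℝ) = 2 ^ 2 by norm_num, Real.log_pow]
      norm_num
    linarith
  obtain ⟨q, hq⟩ : ∃ q : ℝ, q = L ^ D := ⟨_, rfl⟩
  have hq0 : 0 < q := by rw [hq]; positivity
  have hp : (L / 2) ^ (D + 1) = q * L / e := by
    rw [Real.div_rpow hL0.le (by norm_num), Real.rpow_add_one hL0.ne', ← hq, ← he]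
  have hXa : X₀ ≤ |X₀| := le_abs_self _
  have hXb : 0 ≤ |X₀| := abs_nonneg _
  have key : ∀ Y : ℝ, X / 2 ≤ Y → Y ≤ 2 * X →
      volume {T : ℝ | Y ≤ T ∧ T ≤ 2 * Y ∧ ∃ t : ℝ,
        A * Real.log (Real.log T) / Real.log T ^ 2 ≤ t ∧ t * Real.log T ≤ c ∧
        ¬ CrysAt K ε t T} ≤ ENNReal.ofReal (2 * X * e / (q * L)) := by
    intro Y h1 h2
    refine (h Y (by linarith)).trans (ENNReal.ofReal_le_ofReal ?_)
    have h3 : L / 2 ≤ Real.log Y := by
      have h4 : Real.log (X / 2) ≤ Real.log Y := Real.log_le_log (by linarith) h1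
      rw [Real.log_div hX0.ne' (by norm_num), ← hL] at h4
      linarith
    have h5 : q * L / e ≤ Real.log Y ^ (D + 1) := by
      rw [← hp]
      exact Real.rpow_le_rpow (by linarith) h3 (by linarith)
    have h6 : 0 < q * L / e := by positivity
    calc Y / Real.log Y ^ (D + 1) ≤ 2 * X / (q * L / e) :=
          div_le_div₀ (by linarith) h2 h6 h5
      _ = 2 * X * e / (q * L) := by
          field_simp
  have hs : SX A c K ε X ⊆
      ({T : ℝ | X / 2 ≤ T ∧ T ≤ 2 * (X / 2) ∧ ∃ t : ℝ,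
        A * Real.log (Real.log T) / Real.log T ^ 2 ≤ t ∧ t * Real.log T ≤ c ∧
        ¬ CrysAt K ε t T} ∪
      {T : ℝ | X ≤ T ∧ T ≤ 2 * X ∧ ∃ t : ℝ,
        A * Real.log (Real.log T) / Real.log T ^ 2 ≤ t ∧ t * Real.log T ≤ c ∧
        ¬ CrysAt K ε t T}) ∪
      {T : ℝ | 2 * X ≤ T ∧ T ≤ 2 * (2 * X) ∧ ∃ t : ℝ,
        A * Real.log (Real.log T) / Real.log T ^ 2 ≤ t ∧ t * Real.log T ≤ c ∧
        ¬ CrysAt K ε t T} := by
    intro T hT
    obtain ⟨h1, h2, h3⟩ := hT
    rcases le_total T X with h4 | h4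
    · exact Or.inl (Or.inl ⟨h1, by linarith, h3⟩)
    · rcases le_total T (2 * X) with h5 | h5
      · exact Or.inl (Or.inr ⟨h4, h5, h3⟩)
      · exact Or.inr ⟨h5, by linarith, h3⟩
  have p0 : 0 ≤ 2 * X * e / (q * L) := by positivity
  refine (measure_mono hs).trans ((measure_union_le _ _).trans
    ((add_le_add (measure_union_le _ _) le_rfl).trans
    ((add_le_add (add_le_add (key (X / 2) (by linarith) (by linarith))
      (key X (by linarith) (by linarith))) (key (2 * X) (by linarith) (by linarith))).trans ?_)))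
  rw [← ENNReal.ofReal_add p0 p0, ← ENNReal.ofReal_add (by linarith) p0]
  refine ENNReal.ofReal_le_ofReal ?_
  rw [← hL, ← hq]
  have h7 : 2 * X * e / (q * L) + 2 * X * e / (q * L) + 2 * X * e / (q * L) =
      X / q * (6 * e / L) := by
    field_simp
    ring
  rw [h7]
  have h8 : 6 * e / L ≤ 1 := by
    rw [div_le_one hL0]
    exact hL6
  have h9 : 0 ≤ X / q := by positivity
  calc X / q * (6 * e / L) ≤ X / q * 1 := mul_le_mul_of_nonneg_left h8 h9
    _ = X / q := mul_one _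

end Pool.Agent.DBB
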