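import Pool.Agent.DBB.Targets3
import Pool.Agent.DBA.P_UPX
import Pool.Agent.DBA.P_XI4

/-!
# DBB part 3, target `T_UW3`: crude upper bound for the flow, uniformly down to the time `0`
-/

set_option autoImplicit false

namespace Pool.Agent.DBB

open Complex MeasureTheory Set Filter Topology
open Pool.Agent.DBN Pool.Agent.DBC

namespace UW3_

/-- the Gaussian integral over the half line -/
theorem int_le {b A : ℝ} (hb : 0 < b) {F : ℝ → ℂ}
    (hF : ∀ u : ℝ, 0 ≤ u → ‖F u‖ ≤ A * Real.exp (-b * u ^ 2)) :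
    ‖∫ u in Ioi (0 : ℝ), F u‖ ≤ A * (√(Real.pi / b) / 2) := by
  have hg : IntegrableOn (fun u : ℝ => A * Real.exp (-b * u ^ 2)) (Ioi 0) :=
    ((integrable_exp_neg_mul_sq hb).const_mul A).integrableOn
  calc ‖∫ u in Ioi (0 : ℝ), F u‖ ≤ ∫ u in Ioi (0 : ℝ), A * Real.exp (-b * u ^ 2) := by
        refine norm_integral_le_of_norm_le hg ?_
        filter_upwards [ae_restrict_mem measurableSet_Ioi] with u hu
        exact hF u (le_of_lt hu)
    _ = A * (√(Real.pi / b) / 2) := by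
        rw [integral_const_mul, integral_gaussian_Ioi]

end UW3_

open UW3_ in
theorem p_UW3 (h1 : Pool.Agent.DBC.T_SPL) (h2 : Pool.Agent.DBC.T_CNJ) : T_UW3 := by
  intro c₂ K hc₂ hK
  obtain ⟨B, hB⟩ : ∃ B : ℝ, B = K / 2 + 3 / 2 + (2 * c₂) / 8 := ⟨_, rfl⟩
  obtain ⟨κ, hκe⟩ : ∃ κ : ℝ, κ = 1 / (2 * (2 * c₂)) := ⟨_, rfl⟩
  have hκ : 0 < κ := by
    rw [hκe]
    positivity
  obtain ⟨C, hC, hb⟩ := OFA_.bound (g₀ := 1) Pool.Agent.DBA.p_XI4 hκ one_pos hK
  refine ⟨B + 2, max 2 (2 * C), ?_, le_max_left _ _, ?_⟩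
  · rw [hB]
    positivity
  intro t T x τ hTm ht h5 h6 h7
  have hT : 2 ≤ T := (le_max_left _ _).trans hTm
  have hT2 : 2 * C ≤ T := (le_max_right _ _).trans hTm
  have hT0 : 0 < T := by linarith
  have hLp : 0 < Real.log T := Real.log_pos (by linarith)
  have hc : 0 < 2 * t * Real.log T := by positivity
  have hcc : 2 * t * Real.log T ≤ 2 * c₂ := by linarith
  have hs := OFA_.size_nonneg' hT
  obtain ⟨A, hAe⟩ : ∃ A, A = size T * T ^ (B - 1 / 2) := ⟨_, rfl⟩
  have hA : 0 ≤ A := by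
    rw [hAe]
    positivity
  obtain ⟨S, hSe⟩ : ∃ S, S = √(Real.pi * t) := ⟨_, rfl⟩
  have hS : 0 < S := by
    rw [hSe]
    exact Real.sqrt_pos.2 (by positivity)
  have hS2 : √(Real.pi / (1 / (2 * t))) / 2 ≤ S := by
    have e1 : √(Real.pi / (1 / (2 * t))) ≤ √(2 ^ 2 * (Real.pi * t)) := by
      apply Real.sqrt_le_sqrt
      have e2 : Real.pi / (1 / (2 * t)) = 2 * (Real.pi * t) := by
        field_simp
      have e3 : 0 < Real.pi * t := by positivity
      rw [e2]
      linarith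
    rw [Real.sqrt_mul (by norm_num), Real.sqrt_sq (by norm_num), ← hSe] at e1
    linarith
  have hW : ∀ y : ℝ, |y| ≤ K → ‖W t (Pool.Agent.DBC.pt y τ)‖ ≤ C * A * S := by
    intro y hy
    have hp : ∀ u : ℝ, 0 ≤ u →
        ‖((Real.exp (-(u ^ 2 / t)) : ℝ) : ℂ) * xi (Pool.Agent.DBC.pt y τ + u)‖ ≤
        C * A * Real.exp (-(1 / (2 * t)) * u ^ 2) := by
      intro u hu
      rw [norm_mul, Complex.norm_real, Real.norm_of_nonneg (Real.exp_pos _).le]
      have h8 := hb (2 * t) T y τ u B hT (by positivity) hy h7 (by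
        rw [hB, hκe]
        exact Pool.Agent.DBA.UPX_.expo hc le_rfl hcc hy hu)
      rw [← hAe] at h8
      have h9 : Real.exp (-(κ / 4) * u ^ 2) ≤ 1 := by
        rw [Real.exp_le_one_iff]
        have : 0 ≤ κ / 4 * u ^ 2 := by positivity
        linarith
      have h10 : Real.exp (-(u ^ 2 / (2 * t))) * ‖xi (Pool.Agent.DBC.pt y τ + u)‖ ≤ C * A := by
        refine h8.trans ?_
        have h11 : 0 ≤ C * A := by positivity
        nlinarith
      have h12 : Real.exp (-(u ^ 2 / t)) =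
          Real.exp (-(1 / (2 * t)) * u ^ 2) * Real.exp (-(u ^ 2 / (2 * t))) := by
        rw [← Real.exp_add]
        congr 1
        field_simp
        ring
      rw [h12, mul_assoc, mul_comm (C * A)]
      exact mul_le_mul_of_nonneg_left h10 (Real.exp_pos _).le
    refine (int_le (b := 1 / (2 * t)) (by positivity) hp).trans ?_
    exact mul_le_mul_of_nonneg_left hS2 (by positivity)
  have hW1 := hW x h6
  have hW2 : ‖W t (1 - Pool.Agent.DBC.pt x τ)‖ ≤ C * A * S := by
    rw [ZER_.one_sub_pt, h2, Complex.norm_conj]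
    exact hW (-x) (by rwa [abs_neg])
  have hsum : ‖W t (Pool.Agent.DBC.pt x τ) + W t (1 - Pool.Agent.DBC.pt x τ)‖ ≤
      S * (2 * C * A) := by
    refine (norm_add_le _ _).trans ?_
    linarith
  rw [h1 t _ ht, norm_mul, Complex.norm_real, Real.norm_of_nonneg (by positivity), ← hSe]
  calc S⁻¹ * ‖W t (Pool.Agent.DBC.pt x τ) + W t (1 - Pool.Agent.DBC.pt x τ)‖
      ≤ S⁻¹ * (S * (2 * C * A)) := mul_le_mul_of_nonneg_left hsum (by positivity)
    _ = 2 * C * A := by field_simp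
    _ ≤ T * A := mul_le_mul_of_nonneg_right hT2 hA
    _ = size T * T ^ (B + 1 / 2) := by
        have e1 : T ^ (B + 1 / 2) = T * T ^ (B - 1 / 2) := by
          have e2 : T ^ (1 + (B - 1 / 2)) = T ^ (1 : ℝ) * T ^ (B - 1 / 2) :=
            Real.rpow_add hT0 _ _
          rw [Real.rpow_one] at e2
          rw [← e2]
          congr 1
          ring
        rw [e1, hAe]
        ring
    _ ≤ size T * T ^ (B + 2) := by
        refine mul_le_mul_of_nonneg_left ?_ hs
        exact Real.rpow_le_rpow_of_exponent_le (by linarith) (by linarith)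

end Pool.Agent.DBB
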