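import Pool.Agent.DBB.Targets3

/-!
# DBB, target WD3: long windows, the measure of the exceptional set
-/

set_option autoImplicit false

namespace Pool.Agent.DBB

open Complex MeasureTheory Set Filter
open Pool.Agent.DBN Pool.Agent.DBC

/-- WD3 -/
theorem p_WD3 (h1 : Pool.Agent.DBA.T_COV) (h2 : T_MX3) (h3 : T_WI3) : T_WD3 := by
  intro c hc hS K ε D hK hε hD
  obtain ⟨A, X₁, hA, hX1, hmax⟩ := h2 _ hS (K + 2) (ε / 2) (2 * D + 1) (by linarith)
    (by linarith) (by linarith)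
  obtain ⟨X₂, hX2, hwia⟩ := h3 A c K ε D hA hc hK hε hD
  refine ⟨2 * A, max X₁ (max X₂ (Real.exp (4 * (2 ^ D + 1)))), by positivity, fun X hX => ?_⟩
  have hXa : X₁ ≤ X := (le_max_left _ _).trans hX
  have hXb : X₂ ≤ X := ((le_max_left _ _).trans (le_max_right _ _)).trans hX
  have hXc : Real.exp (4 * (2 ^ D + 1)) ≤ X :=
    ((le_max_right _ _).trans (le_max_right _ _)).trans hX
  have hX0 : 0 < X := by linarith
  have hP : (0 : ℝ) < 2 ^ D := by positivity
  have hL : 4 * ((2 : ℝ) ^ D + 1) ≤ Real.log X := by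
    rw [Real.le_log_iff_exp_le hX0]
    exact hXc
  have hL1 : 1 ≤ Real.log X := by linarith
  have hL0 : 0 < Real.log X := by linarith
  have hL2 : Real.log (2 * X) ≤ 2 * Real.log X := by
    rw [Real.log_mul (by norm_num) hX0.ne']
    have : Real.log 2 ≤ Real.log X := Real.log_le_log (by norm_num) (by linarith)
    linarith
  have hL3 : 0 ≤ Real.log (2 * X) := Real.log_nonneg (by linarith)
  have hcov := h1 (SX A (2 * c) (K + 2) (ε / 2) X)
    {T : ℝ | X ≤ T ∧ T ≤ 2 * X ∧ ∃ t : ℝ,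
      2 * A * Real.log (Real.log T) / Real.log T ^ 2 ≤ t ∧ t * Real.log T ≤ c ∧
      ¬ CrysR (Real.log T ^ D) K ε t T} (Real.log (2 * X) ^ D)
    (X / Real.log X ^ (2 * D + 1)) (by positivity)
    (by positivity) (fun T hT => hwia X T hXb hT.1 hT.2.1 hT.2.2) (hmax X hXa)
  refine hcov.trans (ENNReal.ofReal_le_ofReal ?_)
  have e1 : Real.log (2 * X) ^ D ≤ 2 ^ D * Real.log X ^ D := by
    rw [← Real.mul_rpow (by norm_num) hL0.le]
    exact Real.rpow_le_rpow hL3 hL2 hD.le
  have e2 : 1 ≤ Real.log X ^ D := Real.one_le_rpow hL1 hD.le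
  have hQ : 0 < Real.log X ^ D := by positivity
  have e3 : Real.log X ^ (2 * D + 1) = Real.log X ^ D * Real.log X ^ D * Real.log X := by
    rw [← Real.rpow_add hL0, ← Real.rpow_add_one hL0.ne']
    congr 1
    ring
  rw [e3, ← mul_div_assoc, div_le_div_iff₀ (by positivity) hQ]
  calc 4 * (Real.log (2 * X) ^ D + 1) * X * Real.log X ^ D
      ≤ 4 * (2 ^ D * Real.log X ^ D + Real.log X ^ D) * X * Real.log X ^ D := by gcongr
    _ = X * (Real.log X ^ D * Real.log X ^ D * (4 * (2 ^ D + 1))) := by ring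
    _ ≤ X * (Real.log X ^ D * Real.log X ^ D * Real.log X) := by gcongr

end Pool.Agent.DBB
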