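import Pool.Agent.DBB.Targets3
import Pool.Agent.DBA.P_WIA

/-!
# WI3: a bad long window contains a unit interval of bad heights (edit of DBA/P_WIA.lean)
-/

set_option autoImplicit false

namespace Pool.Agent.DBB

open Complex MeasureTheory Set Filter
open Pool.Agent.DBN Pool.Agent.DBC

namespace WI3_

theorem log_pow (D : ℝ) : ∃ X₀ : ℝ, ∀ x : ℝ, X₀ ≤ x →
    Real.log x ^ D ≤ x ^ (1 / 4 : ℝ) := by
  have h := (isLittleO_log_rpow_rpow_atTop D (show (0 : ℝ) < 1 / 4 by norm_num)).def one_pos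
  obtain ⟨X₀, hX₀⟩ := Filter.eventually_atTop.1 h
  refine ⟨max X₀ 1, fun x hx => ?_⟩
  have h1 := hX₀ x (le_trans (le_max_left _ _) hx)
  have h2 : (1 : ℝ) ≤ x := le_trans (le_max_right _ _) hx
  rw [one_mul, Real.norm_of_nonneg (Real.rpow_nonneg (Real.log_nonneg h2) _),
    Real.norm_of_nonneg (Real.rpow_nonneg (by linarith) _)] at h1
  exact h1

/-- the lower end of the range of the times changes by a factor of at most `2` -/
theorem loglog {A L L' : ℝ} (hA : 0 < A) (hL : 10 ≤ L) (h : |L' - L| ≤ 1 / 4) :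
    0 < 2 * A * Real.log L / L ^ 2 ∧ A * Real.log L' / L' ^ 2 ≤ 2 * A * Real.log L / L ^ 2 := by
  obtain ⟨h1, h2⟩ := abs_le.1 h
  have hL0 : 0 < L := by linarith
  have hL'0 : 0 < L' := by linarith
  have hlog : 1 ≤ Real.log L := by
    rw [Real.le_log_iff_exp_le hL0]
    have := Real.exp_one_lt_d9
    linarith
  have hlog0 : 0 < Real.log L := by linarith
  have q1 : Real.log L' ≤ 5 / 4 * Real.log L := by
    have e1 : Real.log L' ≤ Real.log (5 / 4 * L) := Real.log_le_log hL'0 (by linarith)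
    rw [Real.log_mul (by norm_num) hL0.ne'] at e1
    have e2 := Real.log_le_sub_one_of_pos (show (0 : ℝ) < 5 / 4 by norm_num)
    linarith
  have q2 : L ^ 2 ≤ 3 / 2 * L' ^ 2 := by nlinarith
  refine ⟨by positivity, ?_⟩
  rw [div_le_div_iff₀ (by positivity) (by positivity)]
  calc A * Real.log L' * L ^ 2 ≤ A * (5 / 4 * Real.log L) * (3 / 2 * L' ^ 2) := by
        apply mul_le_mul (mul_le_mul_of_nonneg_left q1 hA.le) q2 (by positivity) (by positivity)
    _ = 15 / 8 * (A * Real.log L * L' ^ 2) := by ring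
    _ ≤ 2 * (A * Real.log L * L' ^ 2) := by
        apply mul_le_mul_of_nonneg_right (by norm_num) (by positivity)
    _ = 2 * A * Real.log L * L' ^ 2 := by ring

end WI3_

theorem p_WI3 : T_WI3 := by
  intro A c K ε D hA hc hK hε hD
  obtain ⟨X₁, hX₁, hN⟩ := Pool.Agent.DBA.WIA_.near (min ε 1) (1 / 4) (4 * Real.pi + ε + 10)
    (lt_min hε one_pos) (by norm_num) le_rfl
  obtain ⟨X₂, hX₂⟩ := WI3_.log_pow D
  refine ⟨max X₁ X₂, le_trans hX₁ (le_max_left _ _), ?_⟩
  intro X T hX hT hT2 ⟨t, ht1, ht2, hnc⟩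
  have hXa : X₁ ≤ X := le_trans (le_max_left _ _) hX
  have hX2 : 2 ≤ X := le_trans hX₁ hXa
  have hXb : X₂ ≤ 2 * X := le_trans (le_trans (le_max_right _ _) hX) (by linarith)
  have hT0 : 0 < T := by linarith
  have hpi := Real.pi_pos
  have hlogT : 0 ≤ Real.log T := Real.log_nonneg (by linarith)
  have hpw : Real.log T ^ D ≤ Real.log (2 * X) ^ D :=
    Real.rpow_le_rpow hlogT (Real.log_le_log hT0 hT2) hD.le
  have hpw0 : 0 ≤ Real.log T ^ D := Real.rpow_nonneg hlogT D
  have hpw1 : Real.log (2 * X) ^ D ≤ (2 * X) ^ (1 / 4 : ℝ) := hX₂ _ hXb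
  have key : ∀ a : ℝ, |a - 2 * T| ≤ Real.log T ^ D →
      (∀ T'' : ℝ, |T'' - a / 2| ≤ 1 / 2 → |Real.log T'' - Real.log T| ≤ ε / 4 →
        4 * Real.pi + ε + 1 ≤ Real.log T'' → 4 * Real.pi + ε + 1 ≤ Real.log T →
        ¬ CrysAt (K + 2) (ε / 2) t T'') →
      ∃ T' : ℝ, |T' - T| ≤ Real.log (2 * X) ^ D ∧
        Icc (T' - 1 / 2) (T' + 1 / 2) ⊆ SX A (2 * c) (K + 2) (ε / 2) X := by
    intro a ha h
    have ha' := abs_le.1 ha
    refine ⟨a / 2, abs_le.2 ⟨by linarith, by linarith⟩, ?_⟩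
    intro T'' hT''
    have h1 : |T'' - a / 2| ≤ 1 / 2 := abs_le.2 ⟨by linarith [hT''.1], by linarith [hT''.2]⟩
    have h2 : |T'' - T| ≤ (2 * X) ^ (1 / 4 : ℝ) + 1 :=
      abs_le.2 ⟨by linarith [hT''.1], by linarith [hT''.2]⟩
    obtain ⟨n1, n2, n3, n4, n5, n6, n7, n8⟩ := hN X T T'' hXa hT hT2 h2
    have m1 : min ε 1 ≤ ε := min_le_left _ _
    have m2 : min ε 1 ≤ 1 := min_le_right _ _
    obtain ⟨l1, l2⟩ := WI3_.loglog (A := A) (L := Real.log T) (L' := Real.log T'') hA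
      (by linarith) (by linarith)
    have ht0 : 0 < t := by linarith
    refine ⟨n7, n8, t, ?_, ?_, h T'' h1 (by linarith) (by linarith) (by linarith)⟩
    · linarith
    · have := mul_le_mul_of_nonneg_left n6 ht0.le
      linarith
  unfold CrysR at hnc
  rw [not_and_or, not_and_or] at hnc
  rcases hnc with h | h | h
  · push Not at h
    obtain ⟨z, hz1, hz2, hz3, hz4⟩ := h
    refine key z.re hz1 ?_
    intro T'' h1 h2 h3 h4 hC
    have h5 : ‖z - 2 * (T'' : ℂ)‖ ≤ K + 2 := by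
      have e1 := Complex.norm_le_abs_re_add_abs_im (z - 2 * (T'' : ℂ))
      have e2 : (z - 2 * (T'' : ℂ)).re = z.re - 2 * T'' := by simp
      have e3 : (z - 2 * (T'' : ℂ)).im = z.im := by simp
      rw [e2, e3] at e1
      have e4 : |z.re - 2 * T''| ≤ 1 := by
        have := abs_le.1 h1
        exact abs_le.2 ⟨by linarith, by linarith⟩
      linarith
    obtain ⟨q1, q2⟩ := hC.1 z h5 hz3
    exact q2 (hz4 q1)
  · push Not at h
    obtain ⟨x, y, hx, hy, hxy, hHx, hHy, hlt⟩ := h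
    refine key x hx ?_
    intro T'' h1 h2 h3 h4 hC
    have e1 := abs_le.1 h1
    have e2 := abs_le.1 h2
    have hyx : y - x ≤ 1 := by
      by_contra hcon
      have : 1 * (4 * Real.pi + ε + 1) ≤ (y - x) * Real.log T :=
        mul_le_mul (by linarith) h4 (by linarith) (by linarith)
      linarith
    have h5 := hC.2.1 x y (abs_le.2 ⟨by linarith, by linarith⟩)
      (abs_le.2 ⟨by linarith, by linarith⟩) hxy hHx hHy
    have h6 : (y - x) * Real.log T'' ≤ (y - x) * (Real.log T + ε / 4) :=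
      mul_le_mul_of_nonneg_left (by linarith) (by linarith)
    have h7 : (y - x) * (ε / 4) ≤ 1 * (ε / 4) :=
      mul_le_mul_of_nonneg_right hyx (by linarith)
    nlinarith
  · push Not at h
    obtain ⟨x, hx, hno⟩ := h
    refine key x hx ?_
    intro T'' h1 h2 h3 h4 hC
    have e1 := abs_le.1 h1
    have e2 := abs_le.1 h2
    obtain ⟨y, hxy, hy, hHy⟩ := hC.2.2 x (abs_le.2 ⟨by linarith, by linarith⟩)
    have hyx : y - x ≤ 1 := by
      by_contra hcon
      have : 1 * (4 * Real.pi + ε + 1) ≤ (y - x) * Real.log T'' :=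
        mul_le_mul (by linarith) h3 (by linarith) (by linarith)
      linarith
    have h6 : (y - x) * Real.log T ≤ (y - x) * (Real.log T'' + ε / 4) :=
      mul_le_mul_of_nonneg_left (by linarith) (by linarith)
    have h7 : (y - x) * (ε / 4) ≤ 1 * (ε / 4) :=
      mul_le_mul_of_nonneg_right hyx (by linarith)
    exact hno y hxy (by nlinarith) hHy

end Pool.Agent.DBB
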