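import Pool.Agent.DBB.AllA
import Pool.Agent.DBA.All3
import Pool.Agent.DBB.P_IN3
import Pool.Agent.DBB.P_LW3
import Pool.Agent.DBB.P_UW3
import Pool.Agent.DBB.P_JN3
import Pool.Agent.DBB.P_MX3
import Pool.Agent.DBB.P_CI3
import Pool.Agent.DBB.P_CN3
import Pool.Agent.DBB.P_WI3
import Pool.Agent.DBB.P_WD3
import Pool.Agent.DBC.P_LOC
import Pool.Agent.DBC.P_GAU

/-!
# DBB: long windows and the number of exceptional zeros
-/

set_option autoImplicit false

namespace Pool.Agent.DBB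

open Pool.Agent.DBC Pool.Agent.DBA

theorem jn3 : T_JN3 := p_JN3 (p_LW3 p_LOC p_GAU p_IN3) (p_UW3 p_SPL p_CNJ)

theorem sharpFew : ∀ c : ℝ, 0 < c → SharpFew c := fun c hc =>
  p_CN3 p_CVJ p_ORD p_MX3 p_CI3 jn3 c hc (sharp (2 * c) (by positivity))

theorem sharpWide : ∀ c : ℝ, 0 < c → SharpWide c := fun c hc =>
  p_WD3 (p_COV p_CVJ) p_MX3 p_WI3 c hc (sharp (2 * c) (by positivity))

end Pool.Agent.DBB
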