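import Pool.Agent.DBB.Targets4

/-!
# DBB, target AR4: assembly of the arithmetic part, uniform version
-/

set_option autoImplicit false

namespace Pool.Agent.DBB

open Complex MeasureTheory Set Filter
open Pool.Agent.DBN Pool.Agent.DBC
open scoped ENNReal

namespace AR4_

/-- the pointwise part -/
theorem pw {K a y X m T u : ℝ} (hu0 : 0 ≤ u) (hu : u + 1 ≤ a * m)
    (hy : 2 * y ≤ a * m / Real.log X) (hy0 : 0 ≤ y)
    (H5 : ∀ s : ℂ, |s.im - T| ≤ K → 5 / 8 ≤ s.re → Real.exp (-(a * m)) ≤ ‖riemannZeta s‖)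
    (P1 : (∀ s : ℂ, |s.im - T| ≤ K + 6 → 1 / 2 ≤ s.re → ‖riemannZeta s‖ ≤ Real.exp u) ∧
      ∀ s : ℂ, |s.im - T| ≤ K + 6 → 1 / 2 ≤ s.re → s.re ≤ 1 →
        ‖Pool.Agent.DBA.Mp ⌊X ^ (1 / 8 : ℝ)⌋₊ s‖ ≤ Real.exp u)
    (P2 : ∀ s : ℂ, |s.im - T| ≤ K → 1 / 2 + 2 * y ≤ s.re → s.re ≤ 5 / 8 →
      ‖riemannZeta s * Pool.Agent.DBA.Mp ⌊X ^ (1 / 8 : ℝ)⌋₊ s - 1‖ ≤ 1 / 2) :
    PE a K X m T := by
  intro s hs _
  have hs6 : |s.im - T| ≤ K + 6 := by linarith
  refine ⟨fun hre => (P1.1 s hs6 hre).trans (Real.exp_le_exp.2 (by linarith)), fun hre => ?_⟩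
  by_cases h58 : 5 / 8 ≤ s.re
  · exact H5 s hs h58
  · have h58' : s.re ≤ 5 / 8 := (not_le.1 h58).le
    have hm := P2 s hs (by linarith) h58'
    have hM := P1.2 s hs6 (by linarith) (by linarith)
    set M := Pool.Agent.DBA.Mp ⌊X ^ (1 / 8 : ℝ)⌋₊ s with hMdef
    have e4 : 1 / 2 ≤ ‖riemannZeta s * M‖ := by
      have h1 : ‖(1 : ℂ)‖ ≤ ‖riemannZeta s * M‖ + ‖riemannZeta s * M - 1‖ := by
        have h2 : (1 : ℂ) = riemannZeta s * M - (riemannZeta s * M - 1) := by ring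
        calc ‖(1 : ℂ)‖ = ‖riemannZeta s * M - (riemannZeta s * M - 1)‖ := by rw [← h2]
          _ ≤ _ := norm_sub_le _ _
      rw [norm_one] at h1
      linarith
    rw [norm_mul] at e4
    have e5 : ‖riemannZeta s‖ * ‖M‖ ≤ ‖riemannZeta s‖ * Real.exp u :=
      mul_le_mul_of_nonneg_left hM (norm_nonneg _)
    have e6 : Real.exp (-u) / 2 ≤ ‖riemannZeta s‖ := by
      have h1 : 1 / 2 ≤ ‖riemannZeta s‖ * Real.exp u := e4.trans e5
      have h2 : Real.exp (-u) * Real.exp u = 1 := by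
        rw [← Real.exp_add, neg_add_cancel, Real.exp_zero]
      have h3 := mul_le_mul_of_nonneg_left h1 (Real.exp_pos (-u)).le
      have h4 : Real.exp (-u) * (‖riemannZeta s‖ * Real.exp u) = ‖riemannZeta s‖ := by
        calc Real.exp (-u) * (‖riemannZeta s‖ * Real.exp u) =
            (Real.exp (-u) * Real.exp u) * ‖riemannZeta s‖ := by ring
          _ = _ := by rw [h2, one_mul]
      rw [h4] at h3
      linarith
    refine le_trans ?_ e6
    have e7 : Real.exp (-(a * m)) ≤ Real.exp (-u + -1) := Real.exp_le_exp.2 (by linarith)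
    have e8 : Real.exp (-1) ≤ 1 / 2 := by
      rw [Real.exp_neg, inv_eq_one_div, div_le_div_iff₀ (Real.exp_pos _) (by norm_num)]
      linarith [Real.add_one_le_exp (1 : ℝ)]
    rw [Real.exp_add] at e7
    have e9 := mul_le_mul_of_nonneg_left e8 (Real.exp_pos (-u)).le
    linarith

/-- the sum of the three measures -/
theorem size_le {X L l m b β c d κ : ℝ} (hX : 0 < X) (hL : Real.log X = L)
    (hl : Real.log L = l) (hL0 : 0 < L) (hl1 : 1 ≤ l) (hc : 0 < c) (hm : m ≤ c * L)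
    (hb : 4 * κ ≤ 2 * b) (hβ : 4 * κ ≤ β / 4) (hd : 4 * κ ≤ d / c) (hd0 : 0 ≤ d)
    (hκ : 4 * l ≤ κ * m) (hm0 : 0 ≤ m) :
    X * L ^ 6 / Real.exp (b * m) ^ 2 + X * L ^ 8 * X ^ (-(β * m / L / 4)) + X ^ (1 - d) ≤
      X * Real.exp (-(κ * m)) := by
  have hLe : L = Real.exp l := by rw [← hl, Real.exp_log hL0]
  have hXe : X = Real.exp L := by rw [← hL, Real.exp_log hX]
  have e1 : X * L ^ 6 / Real.exp (b * m) ^ 2 ≤ X * Real.exp (-(2 * (κ * m))) := by
    have h1 : L ^ 6 / Real.exp (b * m) ^ 2 = Real.exp (6 * l - 2 * (b * m)) := by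
      rw [Real.exp_sub, hLe]
      congr 1
      · rw [← Real.exp_nat_mul]
        norm_num
      · rw [← Real.exp_nat_mul]
        norm_num
    rw [mul_div_assoc, h1]
    refine mul_le_mul_of_nonneg_left (Real.exp_le_exp.2 ?_) hX.le
    have h2 := mul_le_mul_of_nonneg_right hb hm0
    linarith
  have e2 : X * L ^ 8 * X ^ (-(β * m / L / 4)) ≤ X * Real.exp (-(2 * (κ * m))) := by
    have h1 : L ^ 8 * X ^ (-(β * m / L / 4)) = Real.exp (8 * l - β / 4 * m) := by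
      have h2 : X ^ (-(β * m / L / 4)) = Real.exp (-(β / 4 * m)) := by
        rw [Real.rpow_def_of_pos hX, hL]
        congr 1
        field_simp
      rw [h2, sub_eq_add_neg, Real.exp_add, hLe, ← Real.exp_nat_mul]
      norm_num
    rw [mul_assoc, h1]
    refine mul_le_mul_of_nonneg_left (Real.exp_le_exp.2 ?_) hX.le
    have h2 := mul_le_mul_of_nonneg_right hβ hm0
    linarith
  have e3 : X ^ (1 - d) ≤ X * Real.exp (-(2 * (κ * m))) := by
    have h1 : X ^ (1 - d) = X * Real.exp (-(d * L)) := by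
      rw [Real.rpow_sub hX, Real.rpow_one, Real.exp_neg, Real.rpow_def_of_pos hX, hL,
        div_eq_mul_inv, mul_comm L d]
    rw [h1]
    refine mul_le_mul_of_nonneg_left (Real.exp_le_exp.2 ?_) hX.le
    have h2 := mul_le_mul_of_nonneg_right hd hm0
    have h3 : d / c * m ≤ d * L := by
      rw [div_mul_eq_mul_div, div_le_iff₀ hc]
      have := mul_le_mul_of_nonneg_left hm hd0
      linarith
    linarith
  have e4 : 3 * Real.exp (-(2 * (κ * m))) ≤ Real.exp (-(κ * m)) := by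
    have h1 : Real.exp (-(κ * m)) = Real.exp (-(2 * (κ * m))) * Real.exp (κ * m) := by
      rw [← Real.exp_add]
      congr 1
      ring
    rw [h1, mul_comm]
    refine mul_le_mul_of_nonneg_left ?_ (Real.exp_pos _).le
    linarith [Real.add_one_le_exp (κ * m)]
  have e5 := mul_le_mul_of_nonneg_left e4 hX.le
  linarith

end AR4_

open AR4_ in
theorem p_AR4 (h1 : Pool.Agent.DBA.T_FIN) (h2 : T_UZ4) (h3 : T_FS4) (h4 : T_BC4) : T_AR4 := by
  intro K a c hK ha hc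
  obtain ⟨C₁, T₀, hC₁, H5⟩ := h4 K hK
  obtain ⟨C, X₁, hC, H1⟩ := h2 (K + 6) (by linarith)
  obtain ⟨X₂, H2⟩ := h3 K hK
  obtain ⟨ρ, d, X₃, hρ, hd, hX₃, H3⟩ := h1 (1 / 16) (K + 6) (by norm_num) (by linarith)
  obtain ⟨b, hb⟩ : ∃ b : ℝ, b = a / (4 * (C₁ + 1)) := ⟨_, rfl⟩
  have hb0 : 0 < b := by
    rw [hb]
    positivity
  have hba : 4 * b * (C₁ + 1) = a := by
    rw [hb]
    field_simp
  obtain ⟨β, hβ⟩ : ∃ β : ℝ, β = min (a / 2) (1 / (16 * c)) := ⟨_, rfl⟩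
  have hβ0 : 0 < β := by
    rw [hβ]
    exact lt_min (by positivity) (by positivity)
  have hβa : β ≤ a / 2 := hβ ▸ min_le_left _ _
  have hβc : β ≤ 1 / (16 * c) := hβ ▸ min_le_right _ _
  obtain ⟨κ, hκ⟩ : ∃ κ : ℝ, κ = min (2 * b) (min (β / 4) (d / c)) / 4 := ⟨_, rfl⟩
  have hκ0 : 0 < κ := by
    rw [hκ]
    have : 0 < min (2 * b) (min (β / 4) (d / c)) :=
      lt_min (by positivity) (lt_min (by positivity) (by positivity))
    positivity
  have hκ1 : 4 * κ ≤ 2 * b := by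
    rw [hκ]
    linarith [min_le_left (2 * b) (min (β / 4) (d / c))]
  have hκ2 : 4 * κ ≤ β / 4 := by
    rw [hκ]
    linarith [(min_le_right (2 * b) (min (β / 4) (d / c))).trans (min_le_left _ _)]
  have hκ3 : 4 * κ ≤ d / c := by
    rw [hκ]
    linarith [(min_le_right (2 * b) (min (β / 4) (d / c))).trans (min_le_right _ _)]
  refine ⟨1 / b + 1 / β + 4 / κ, κ, max (max X₁ X₂) (max (max X₃ T₀)
    (Real.exp (Real.exp (max 1 (Real.log C))))), by positivity, hκ0, fun X m hX hm hmc => ?_⟩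
  have hXa : X₁ ≤ X := ((le_max_left _ _).trans (le_max_left _ _)).trans hX
  have hXb : X₂ ≤ X := ((le_max_right _ _).trans (le_max_left _ _)).trans hX
  have hXc : X₃ ≤ X :=
    (((le_max_left _ _).trans (le_max_left _ _)).trans (le_max_right _ _)).trans hX
  have hXe : T₀ ≤ X :=
    (((le_max_right _ _).trans (le_max_left _ _)).trans (le_max_right _ _)).trans hX
  have hXf : Real.exp (Real.exp (max 1 (Real.log C))) ≤ X :=
    ((le_max_right _ _).trans (le_max_right _ _)).trans hX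
  have hX0 : 0 < X := lt_of_lt_of_le (Real.exp_pos _) hXf
  have hLe : Real.exp (max 1 (Real.log C)) ≤ Real.log X := (Real.le_log_iff_exp_le hX0).2 hXf
  have hL0 : 0 < Real.log X := lt_of_lt_of_le (Real.exp_pos _) hLe
  have hle : max 1 (Real.log C) ≤ Real.log (Real.log X) :=
    (Real.le_log_iff_exp_le hL0).2 hLe
  have hl1 : 1 ≤ Real.log (Real.log X) := (le_max_left _ _).trans hle
  have hlC : Real.log C ≤ Real.log (Real.log X) := (le_max_right _ _).trans hle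
  obtain ⟨L, hL⟩ : ∃ L : ℝ, Real.log X = L := ⟨_, rfl⟩
  obtain ⟨l, hl⟩ : ∃ l : ℝ, Real.log L = l := ⟨_, rfl⟩
  rw [hL, hl] at hm hl1 hlC
  rw [hL] at hmc hL0
  have hL2 : 2 ≤ L := by
    have h5 : Real.exp l = L := by rw [← hl, Real.exp_log hL0]
    linarith [Real.add_one_le_exp l]
  have hm0 : 0 ≤ m := by
    refine le_trans ?_ hm
    positivity
  -- the consequences of `m ≥ A l`
  have hA : ∀ q : ℝ, 0 < q → 1 / q ≤ 1 / b + 1 / β + 4 / κ → l ≤ q * m := by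
    intro q hq h5
    have h6 : 1 / q * l ≤ m := (mul_le_mul_of_nonneg_right h5 (by linarith)).trans hm
    have h7 := mul_le_mul_of_nonneg_left h6 hq.le
    have h8 : q * (1 / q * l) = l := by field_simp
    linarith
  have p1 : 0 < 1 / b := by positivity
  have p2 : 0 < 1 / β := by positivity
  have p3 : 0 < 4 / κ := by positivity
  have hbm : l ≤ b * m := hA b hb0 (by linarith)
  have hβm : l ≤ β * m := hA β hβ0 (by linarith)
  have hκm : 4 * l ≤ κ * m := by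
    have h5 := hA (κ / 4) (by positivity) (by rw [one_div_div]; linarith)
    linarith
  obtain ⟨B, -, -, hBm, hB⟩ := H3 X hXc
  -- the numbers
  have hCv : C * Real.exp (b * m) ≤ Real.exp (2 * (b * m)) := by
    have h5 : C ≤ Real.exp (b * m) := by
      rw [← Real.exp_log hC]
      exact Real.exp_le_exp.2 (hlC.trans hbm)
    have h6 : Real.exp (2 * (b * m)) = Real.exp (b * m) * Real.exp (b * m) := by
      rw [← Real.exp_add]
      congr 1
      ring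
    rw [h6]
    exact mul_le_mul_of_nonneg_right h5 (Real.exp_pos _).le
  have hbm0 : 0 ≤ b * m := mul_nonneg hb0.le hm0
  have hbC : 0 ≤ b * m * C₁ := mul_nonneg hbm0 hC₁.le
  have ham : a * m = 4 * (b * m) * C₁ + 4 * (b * m) := by
    rw [← hba]
    ring
  have hu : 2 * (b * m) + 1 ≤ a * m := by
    rw [ham]
    linarith
  have hy1 : β * m / L ≤ 1 / 16 := by
    rw [div_le_iff₀ hL0]
    have h5 := mul_le_mul_of_nonneg_right hβc hm0
    have h6 : 1 / (16 * c) * m ≤ 1 / 16 * L := by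
      rw [one_div, inv_mul_le_iff₀ (by positivity)]
      linarith
    linarith
  have hy2 : l / L ≤ β * m / L := div_le_div_of_nonneg_right hβm hL0.le
  have hy3 : 2 * (β * m / L) ≤ a * m / L := by
    rw [← mul_div_assoc]
    refine div_le_div_of_nonneg_right ?_ hL0.le
    have h5 := mul_le_mul_of_nonneg_right hβa hm0
    linarith
  have hy0 : 0 ≤ β * m / L := by positivity
  have hsub : {T : ℝ | X ≤ T ∧ T ≤ 2 * X ∧ ¬ PE a K X m T} ⊆
      ({T : ℝ | X ≤ T ∧ T ≤ 2 * X ∧ ¬ ((∀ s : ℂ, |s.im - T| ≤ K + 6 → 1 / 2 ≤ s.re →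
        ‖riemannZeta s‖ ≤ C * Real.exp (b * m)) ∧ ∀ s : ℂ, |s.im - T| ≤ K + 6 →
        1 / 2 ≤ s.re → s.re ≤ 1 →
        ‖Pool.Agent.DBA.Mp ⌊X ^ (1 / 8 : ℝ)⌋₊ s‖ ≤ C * Real.exp (b * m))} ∪
      {T : ℝ | X ≤ T ∧ T ≤ 2 * X ∧ ¬ ∀ s : ℂ, |s.im - T| ≤ K →
        1 / 2 + 2 * (β * m / L) ≤ s.re → s.re ≤ 5 / 8 →
        ‖riemannZeta s * Pool.Agent.DBA.Mp ⌊X ^ (1 / 8 : ℝ)⌋₊ s - 1‖ ≤ 1 / 2}) ∪ B := by
    rintro T ⟨hT1, hT2, hT3⟩
    by_contra hcon
    rw [mem_union, mem_union, not_or, not_or] at hcon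
    obtain ⟨⟨hc1, hc2⟩, hc3⟩ := hcon
    have P1 : (∀ s : ℂ, |s.im - T| ≤ K + 6 → 1 / 2 ≤ s.re →
        ‖riemannZeta s‖ ≤ C * Real.exp (b * m)) ∧ ∀ s : ℂ, |s.im - T| ≤ K + 6 →
        1 / 2 ≤ s.re → s.re ≤ 1 →
        ‖Pool.Agent.DBA.Mp ⌊X ^ (1 / 8 : ℝ)⌋₊ s‖ ≤ C * Real.exp (b * m) := by
      by_contra h
      exact hc1 ⟨hT1, hT2, h⟩
    have P2 : ∀ s : ℂ, |s.im - T| ≤ K → 1 / 2 + 2 * (β * m / L) ≤ s.re → s.re ≤ 5 / 8 →
        ‖riemannZeta s * Pool.Agent.DBA.Mp ⌊X ^ (1 / 8 : ℝ)⌋₊ s - 1‖ ≤ 1 / 2 := by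
      by_contra h
      exact hc2 ⟨hT1, hT2, h⟩
    have P3 : ∀ s : ℂ, |s.im - T| ≤ K + 6 → 9 / 16 ≤ s.re → riemannZeta s ≠ 0 := by
      intro s hs hre
      exact (hB T ⟨hT1, hT2⟩ hc3 s hs).2 (by linarith)
    have P4 : ∀ s : ℂ, |s.im - T| ≤ K + 6 → 1 / 2 ≤ s.re →
        ‖riemannZeta s‖ ≤ Real.exp (2 * (b * m)) := fun s hs hre => (P1.1 s hs hre).trans hCv
    have hlogT : Real.log T ≤ Real.exp (2 * (b * m)) := by
      have h5 : Real.log T ≤ Real.log (2 * X) := Real.log_le_log (hX0.trans_le hT1) hT2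
      rw [Real.log_mul (by norm_num) hX0.ne', hL] at h5
      have h6 : Real.exp (2 * l) ≤ Real.exp (2 * (b * m)) :=
        Real.exp_le_exp.2 (by linarith)
      have h7 : Real.exp (2 * l) = L * L := by
        rw [two_mul, Real.exp_add, ← hl, Real.exp_log hL0]
      have h8 : 2 * L ≤ L * L := mul_le_mul_of_nonneg_right hL2 hL0.le
      linarith [Real.log_two_lt_d9]
    have H6 := H5 T (Real.exp (2 * (b * m))) (hXe.trans hT1) hlogT P4 P3
    refine hT3 (pw (u := 2 * (b * m)) (y := β * m / L) (by linarith) hu (by rw [hL]; exact hy3)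
      hy0 (fun s hs hre => ?_) ⟨P4, fun s hs h5 h6 => (P1.2 s hs h5 h6).trans hCv⟩ P2)
    refine le_trans (Real.exp_le_exp.2 ?_) (H6 s hs hre)
    rw [Real.log_exp, ham]
    linarith
  have hv1 : 1 ≤ Real.exp (b * m) := Real.one_le_exp hbm0
  have q1 := H1 X (Real.exp (b * m)) hXa hv1
  have q2 := H2 X (β * m / L) hXb (by rw [hL, hl]; exact hy2) hy1
  rw [hL] at q1 q2
  have hq : 0 ≤ X * L ^ 6 / Real.exp (b * m) ^ 2 := by positivity
  have hq' : 0 ≤ X * L ^ 8 * X ^ (-(β * m / L / 4)) := by positivity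
  calc volume {T : ℝ | X ≤ T ∧ T ≤ 2 * X ∧ ¬ PE a K X m T} ≤ _ := measure_mono hsub
    _ ≤ _ := (measure_union_le _ _).trans (add_le_add (measure_union_le _ _) le_rfl)
    _ ≤ ENNReal.ofReal (X * L ^ 6 / Real.exp (b * m) ^ 2) +
        ENNReal.ofReal (X * L ^ 8 * X ^ (-(β * m / L / 4))) + ENNReal.ofReal (X ^ (1 - d)) :=
        add_le_add (add_le_add q1 q2) hBm
    _ = ENNReal.ofReal (X * L ^ 6 / Real.exp (b * m) ^ 2 +
        X * L ^ 8 * X ^ (-(β * m / L / 4)) + X ^ (1 - d)) := by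
        rw [ENNReal.ofReal_add (by positivity) (by positivity), ENNReal.ofReal_add hq hq']
    _ ≤ ENNReal.ofReal (X * Real.exp (-(κ * m))) :=
        ENNReal.ofReal_le_ofReal (size_le hX0 hL hl hL0 hl1 hc hmc hκ1 hκ2 hκ3 hd.le hκm hm0)

end Pool.Agent.DBB
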