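import Pool.Agent.DBB.Targets4

/-!
# DBB part 4, target CI4: an exceptional zero gives an interval of bad heights
-/

set_option autoImplicit false

namespace Pool.Agent.DBB

open Complex MeasureTheory Set Filter
open Pool.Agent.DBN Pool.Agent.DBC

theorem p_CI4 : T_CI4 := by
  intro c K hc hK
  refine ⟨16, by norm_num, ?_⟩
  intro t X z hX16 ht h2 hz hz1 hz2 him hd T hT
  obtain ⟨ha, hb⟩ := hT
  have hX0 : (0 : ℝ) < X := by linarith
  have e4 : Real.log 4 = 2 * Real.log 2 := by
    rw [show (4 : ℝ) = 2 ^ 2 by norm_num, Real.log_pow]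
    norm_num
  have e16 : Real.log 16 = 4 * Real.log 2 := by
    rw [show (16 : ℝ) = 2 ^ 4 by norm_num, Real.log_pow]
    norm_num
  have hlog2 : 0 < Real.log 2 := Real.log_pos one_lt_two
  have hL : 4 * Real.log 2 ≤ Real.log X := by
    rw [← e16]
    exact Real.log_le_log (by norm_num) hX16
  have hT1 : X / 2 ≤ T := by linarith
  have hT2 : T ≤ 4 * X := by linarith
  have l2 : Real.log T ≤ 2 * Real.log X := by
    have := Real.log_le_log (by linarith) hT2
    rw [Real.log_mul (by norm_num) hX0.ne'] at this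
    linarith
  have m2 := mul_le_mul_of_nonneg_left l2 ht.le
  refine ⟨hT1, hT2, t, le_rfl, by linarith, fun hC => ?_⟩
  have hn : ‖z - 2 * (T : ℂ)‖ ≤ K + 2 := by
    refine (Complex.norm_le_abs_re_add_abs_im _).trans ?_
    have r1 : (z - 2 * (T : ℂ)).re = z.re - 2 * T := by simp
    have r2 : (z - 2 * (T : ℂ)).im = z.im := by simp
    rw [r1, r2]
    have r3 : |z.re - 2 * T| ≤ 1 := by
      rw [abs_le]
      constructor <;> linarith
    linarith
  obtain ⟨i1, i2⟩ := hC.1 z hn hz
  exact i2 (hd i1)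

end Pool.Agent.DBB
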