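import Pool.Agent.DBB.Targets4

set_option autoImplicit false

/-! The uniform version for all times (target `T_FN4`). -/

namespace Pool.Agent.DBB.FN4_

open Complex MeasureTheory Set Filter
open Pool.Agent.DBN Pool.Agent.DBC

theorem lv {n : ℕ} {A t t₀ X T : ℝ} (hA : 0 < A) (hX : Real.exp (Real.exp 1) ≤ X) (hXT : X ≤ T)
    (ht₀ : (A + n) * Real.log (Real.log X) / Real.log X ^ 2 ≤ t₀) (ht : t₀ ≤ t)
    (hPE : PE (1 / ((n : ℝ) + 1)) ((n : ℝ) + 1) X (t₀ * Real.log X ^ 2) T) : Lv n t T := by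
  have hX0 : 0 < X := lt_of_lt_of_le (Real.exp_pos _) hX
  have hL : Real.exp 1 ≤ Real.log X := (Real.le_log_iff_exp_le hX0).2 hX
  have hL0 : 0 < Real.log X := lt_of_lt_of_le (Real.exp_pos _) hL
  have hLL : 1 ≤ Real.log (Real.log X) := (Real.le_log_iff_exp_le hL0).2 hL
  have hLT : Real.log X ≤ Real.log T := Real.log_le_log hX0 hXT
  have hn : (0 : ℝ) ≤ n := Nat.cast_nonneg n
  have hn1 : (0 : ℝ) < (n : ℝ) + 1 := by linarith
  have h1 : (A + n) * Real.log (Real.log X) ≤ t₀ * Real.log X ^ 2 :=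
    (div_le_iff₀ (by positivity)).1 ht₀
  have ht0' : 0 < t₀ := by
    refine lt_of_lt_of_le ?_ ht₀
    have : 0 < Real.log (Real.log X) := by linarith
    positivity
  have ht0 : 0 < t := lt_of_lt_of_le ht0' ht
  have hmm : t₀ * Real.log X ^ 2 ≤ mt t T := by
    unfold mt
    have h2 : Real.log X ^ 2 ≤ Real.log T ^ 2 := pow_le_pow_left₀ hL0.le hLT 2
    exact mul_le_mul ht h2 (by positivity) ht0.le
  refine ⟨ht0, ?_, ?_⟩
  · refine le_trans ?_ (h1.trans hmm)
    have h3 : (A + n) * 1 ≤ (A + n) * Real.log (Real.log X) :=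
      mul_le_mul_of_nonneg_left hLL (by positivity)
    linarith
  · intro s hs1 hs2
    obtain ⟨g1, g2⟩ := hPE s (by linarith) (by linarith)
    have hdiv : 1 / ((n : ℝ) + 1) * (t₀ * Real.log X ^ 2) ≤ mt t T / ((n : ℝ) + 1) := by
      rw [one_div, inv_mul_eq_div]
      exact div_le_div_of_nonneg_right hmm hn1.le
    constructor
    · intro h
      exact (g1 h).trans (Real.exp_le_exp.2 hdiv)
    · intro h
      have h4 : 1 / ((n : ℝ) + 1) * (t₀ * Real.log X ^ 2) / Real.log X ≤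
          t * Real.log T / ((n : ℝ) + 1) := by
        have h5 : 1 / ((n : ℝ) + 1) * (t₀ * Real.log X ^ 2) / Real.log X =
            t₀ * Real.log X / ((n : ℝ) + 1) := by
          field_simp
        rw [h5]
        exact div_le_div_of_nonneg_right (mul_le_mul ht hLT hL0.le ht0.le) hn1.le
      refine le_trans (Real.exp_le_exp.2 ?_) (g2 (by linarith))
      linarith

theorem main (h1 : T_DG2) (h2 : T_AR4) : T_FN4 := by
  intro c hc K ε hK hε
  obtain ⟨n, hn⟩ := h1 c K ε hc hK hε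
  obtain ⟨A, κ, X1, hA, hκ, hX⟩ := h2 ((n : ℝ) + 1) (1 / ((n : ℝ) + 1)) c (by positivity)
    (by positivity) hc
  refine ⟨A + n, κ, max X1 (max (n : ℝ) (Real.exp (Real.exp 1))), by positivity, hκ, ?_⟩
  intro X t₀ hXX ht₀ htc
  have m1 : X1 ≤ X := le_trans (le_max_left _ _) hXX
  have m2 : (n : ℝ) ≤ X := le_trans (le_trans (le_max_left _ _) (le_max_right _ _)) hXX
  have m3 : Real.exp (Real.exp 1) ≤ X :=
    le_trans (le_trans (le_max_right _ _) (le_max_right _ _)) hXX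
  have hX0 : 0 < X := lt_of_lt_of_le (Real.exp_pos _) m3
  have hL : Real.exp 1 ≤ Real.log X := (Real.le_log_iff_exp_le hX0).2 m3
  have hL0 : 0 < Real.log X := lt_of_lt_of_le (Real.exp_pos _) hL
  have hLL : 1 ≤ Real.log (Real.log X) := (Real.le_log_iff_exp_le hL0).2 hL
  have k1 : (A + n) * Real.log (Real.log X) ≤ t₀ * Real.log X ^ 2 :=
    (div_le_iff₀ (by positivity)).1 ht₀
  have k2 : A * Real.log (Real.log X) ≤ t₀ * Real.log X ^ 2 := by
    refine le_trans ?_ k1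
    exact mul_le_mul_of_nonneg_right (by linarith [Nat.cast_nonneg (α := ℝ) n]) (by linarith)
  have k3 : t₀ * Real.log X ^ 2 ≤ c * Real.log X := by
    have := mul_le_mul_of_nonneg_right htc hL0.le
    nlinarith
  refine (measure_mono ?_).trans (hX X (t₀ * Real.log X ^ 2) m1 k2 k3)
  rintro T ⟨hT1, hT2, t, ht1, ht2, hcr⟩
  refine ⟨hT1, hT2, fun hPE => hcr ?_⟩
  exact hn t T (m2.trans hT1) ht2 (lv hA m3 hT1 ht₀ ht1 hPE)

end Pool.Agent.DBB.FN4_

namespace Pool.Agent.DBB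

theorem p_FN4 (h1 : T_DG2) (h2 : T_AR4) : T_FN4 := FN4_.main h1 h2

end Pool.Agent.DBB
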