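import Pool.Agent.DBB.Targets4
import Pool.Agent.DBA.P_NZR

set_option autoImplicit false

/-! The function `ζ M - 1` is small at almost all heights, uniform version (target `T_FS4`). -/

namespace Pool.Agent.DBB.FS4_

open Complex MeasureTheory Set Filter
open Pool.Agent.DBA (T_DSC T_MRK bx Mp NZR_f NZR_diff NZR_ne NZR_box)

/-- the numerical bound of the mean value -/
theorem vb {C0 X X' σ y : ℝ} {Y : ℕ} (hC0 : 0 < C0) (hX : 256 ≤ X)
    (hL : 8 ≤ Real.log X) (hll : 1 ≤ Real.log (Real.log X)) (h1 : X / 2 ≤ X') (h2 : X' ≤ 2 * X)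
    (hY : X ^ (1 / 8 : ℝ) / 2 ≤ Y) (hy : Real.log (Real.log X) / Real.log X ≤ y)
    (hσ : 1 / 2 + y ≤ σ) (hσ2 : σ ≤ 3 / 4) :
    0 < 2 * σ - 1 ∧ C0 * (1 + Real.log X') ^ 4 / (2 * σ - 1) * X' * (Y : ℝ) ^ (-(2 * σ - 1)) ≤
      64 * C0 * X * (Real.log X ^ 5 * X ^ (-(y / 4))) := by
  have hX0 : 0 < X := by linarith
  have hX'0 : 0 < X' := by linarith
  have hL0 : 0 < Real.log X := by linarith
  have hl0 : 0 < Real.log (Real.log X) := by linarith
  have hb : 2 * Real.log (Real.log X) ≤ (2 * σ - 1) * Real.log X := by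
    have h3 : Real.log (Real.log X) / Real.log X ≤ σ - 1 / 2 := by linarith
    rw [div_le_iff₀ hL0] at h3
    linarith
  have hone : 1 ≤ (2 * σ - 1) * Real.log X := by linarith
  have hs0 : 0 < 2 * σ - 1 := by
    by_contra hc
    have : (2 * σ - 1) * Real.log X ≤ 0 :=
      mul_nonpos_of_nonpos_of_nonneg (not_lt.1 hc) hL0.le
    linarith
  have e1 : 1 / (2 * σ - 1) ≤ Real.log X := by
    rw [div_le_iff₀ hs0]
    linarith
  have e2 : (1 + Real.log X') ^ 4 ≤ 16 * Real.log X ^ 4 := by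
    have g1 : Real.log X' ≤ Real.log (2 * X) := Real.log_le_log hX'0 h2
    rw [Real.log_mul (by norm_num) hX0.ne'] at g1
    have g2 := Real.log_two_lt_d9
    have g3 : 0 ≤ Real.log X' := Real.log_nonneg (by linarith)
    calc (1 + Real.log X') ^ 4 ≤ (2 * Real.log X) ^ 4 :=
          pow_le_pow_left₀ (by linarith) (by linarith) 4
      _ = 16 * Real.log X ^ 4 := by ring
  have e3 : (Y : ℝ) ^ (-(2 * σ - 1)) ≤ 2 * X ^ (-(y / 4)) := by
    have g0 : 0 < X ^ (1 / 8 : ℝ) := by positivity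
    have g1 : (X ^ (1 / 8 : ℝ)) ^ (-(2 * σ - 1)) ≤ X ^ (-(y / 4)) := by
      rw [← Real.rpow_mul hX0.le]
      exact Real.rpow_le_rpow_of_exponent_le (by linarith) (by linarith)
    have g2 : ((2 : ℝ) ^ (-(2 * σ - 1)))⁻¹ ≤ 2 := by
      rw [← Real.rpow_neg (by norm_num), neg_neg]
      calc (2 : ℝ) ^ (2 * σ - 1) ≤ (2 : ℝ) ^ (1 : ℝ) :=
            Real.rpow_le_rpow_of_exponent_le (by norm_num) (by linarith)
        _ = 2 := Real.rpow_one 2
    calc (Y : ℝ) ^ (-(2 * σ - 1)) ≤ (X ^ (1 / 8 : ℝ) / 2) ^ (-(2 * σ - 1)) :=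
          Real.rpow_le_rpow_of_nonpos (by positivity) hY (by linarith)
      _ = (X ^ (1 / 8 : ℝ)) ^ (-(2 * σ - 1)) * ((2 : ℝ) ^ (-(2 * σ - 1)))⁻¹ := by
          rw [Real.div_rpow g0.le (by norm_num), div_eq_mul_inv]
      _ ≤ X ^ (-(y / 4)) * 2 := mul_le_mul g1 g2 (by positivity) (by positivity)
      _ = _ := by ring
  refine ⟨hs0, ?_⟩
  calc C0 * (1 + Real.log X') ^ 4 / (2 * σ - 1) * X' * (Y : ℝ) ^ (-(2 * σ - 1))
      = C0 * (1 + Real.log X') ^ 4 * (1 / (2 * σ - 1)) * X' * (Y : ℝ) ^ (-(2 * σ - 1)) := by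
        ring
    _ ≤ C0 * (16 * Real.log X ^ 4) * Real.log X * (2 * X) * (2 * X ^ (-(y / 4))) := by
        gcongr
    _ = 64 * C0 * X * (Real.log X ^ 5 * X ^ (-(y / 4))) := by ring

theorem ev (C' K : ℝ) : ∃ X₀ : ℝ, ∀ X : ℝ, X₀ ≤ X → 256 ≤ X ∧ 8 ≤ Real.log X ∧
    1 ≤ Real.log (Real.log X) ∧ C' ≤ Real.log X ∧ 2 * (K + 1) ≤ X := by
  have t1 := Real.tendsto_log_atTop
  have t2 : Tendsto (fun X : ℝ => Real.log (Real.log X)) atTop atTop := t1.comp t1
  have h := (eventually_ge_atTop (256 : ℝ)).and ((t1.eventually_ge_atTop 8).and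
    ((t2.eventually_ge_atTop 1).and ((t1.eventually_ge_atTop C').and
      (eventually_ge_atTop (2 * (K + 1))))))
  obtain ⟨X₀, hX₀⟩ := eventually_atTop.1 h
  exact ⟨X₀, fun X hX => hX₀ X hX⟩

theorem main (h1 : T_MM2) (h2 : T_DSC) (h3 : T_MRK) : T_FS4 := by
  intro K hK
  obtain ⟨C0, hC0, HM⟩ := h1
  obtain ⟨CD, hCD, HD⟩ := h2
  obtain ⟨X₀, hX₀⟩ := ev (6 * (K + 1) * (64 * C0) * (4 * CD)) K
  refine ⟨X₀, fun X y hX hy hy2 => ?_⟩
  obtain ⟨hX1, hL, hll, hCL, hKX⟩ := hX₀ X hX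
  have hX0 : 0 < X := by linarith
  have hL0 : 0 < Real.log X := by linarith
  have hl0 : 0 < Real.log (Real.log X) := by linarith
  have hy0 : 0 < y := lt_of_lt_of_le (by positivity) hy
  set Y : ℕ := ⌊X ^ (1 / 8 : ℝ)⌋₊ with hY
  have hX8 : 2 ≤ X ^ (1 / 8 : ℝ) := by
    calc (2 : ℝ) = (256 : ℝ) ^ (1 / 8 : ℝ) := by
          rw [show (256 : ℝ) = 2 ^ (8 : ℝ) by norm_num, ← Real.rpow_mul (by norm_num)]
          norm_num
      _ ≤ X ^ (1 / 8 : ℝ) := Real.rpow_le_rpow (by norm_num) hX1 (by norm_num)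
  have hY1 : X ^ (1 / 8 : ℝ) / 2 ≤ Y := by
    have := Nat.lt_floor_add_one (X ^ (1 / 8 : ℝ))
    rw [← hY] at this
    linarith
  have hY2 : (Y : ℝ) ≤ X ^ (1 / 8 : ℝ) := Nat.floor_le (by positivity)
  have hY3 : 1 ≤ Y := by
    have : (1 : ℝ) ≤ Y := by linarith
    exact_mod_cast this
  have hY4 : (Y : ℝ) ^ 4 ≤ X / 2 := by
    have g1 : (Y : ℝ) ^ 4 ≤ (X ^ (1 / 8 : ℝ)) ^ 4 := pow_le_pow_left₀ (by positivity) hY2 4
    have g2 : (X ^ (1 / 8 : ℝ)) ^ 8 = X := by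
      rw [← Real.rpow_natCast, ← Real.rpow_mul hX0.le]
      norm_num
    have g3 : (2 : ℝ) ^ 4 ≤ (X ^ (1 / 8 : ℝ)) ^ 4 := pow_le_pow_left₀ (by norm_num) hX8 4
    nlinarith
  set a : ℝ := 1 / 2 + y with ha
  have ha2 : a ≤ 3 / 4 := by linarith
  have ha1 : 1 / 2 < a := by linarith
  set r : ℝ := 1 / Real.log X with hr
  have hr0 : 0 < r := by positivity
  have hr8 : r ≤ 1 / 8 := by
    rw [hr]
    exact one_div_le_one_div_of_le (by norm_num) hL
  have hry : r ≤ y := by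
    refine le_trans ?_ hy
    rw [hr]
    exact div_le_div_of_nonneg_right hll hL0.le
  set lam : ℝ := r ^ 2 / (4 * CD) with hlam
  have hlam0 : 0 < lam := by positivity
  set V : ℝ := 64 * C0 * X * (Real.log X ^ 5 * X ^ (-(y / 4))) with hV
  have hV0 : 0 ≤ V := by positivity
  obtain ⟨B, hBm, hBs, hBv, hB⟩ := h3 (NZR_f Y) a (3 / 4) (K + 1) X V lam ha2 (by linarith)
    hKX hlam0 hV0
    (fun s _ _ hs => (NZR_diff Y s (NZR_ne s (by linarith))).continuousAt)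
    (fun x hx1 hx2 T hT => by
      have hT1 : X / 2 ≤ T := by rcases hT with h | h | h <;> rw [h] <;> linarith
      have hT2 : T ≤ 2 * X := by rcases hT with h | h | h <;> rw [h] <;> linarith
      obtain ⟨_, g2⟩ := vb (X' := T) hC0 hX1 hL hll hT1 hT2 hY1 hy hx1 hx2
      exact (HM Y T x hY3 (by linarith) (hY4.trans hT1) (lt_of_lt_of_le ha1 hx1) hx2).trans g2)
  refine (measure_mono (t := B) ?_).trans (hBv.trans (ENNReal.ofReal_le_ofReal ?_))
  · rintro T ⟨hT1, hT2, hn⟩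
    by_contra hTB
    refine hn (fun s hsT hs1 hs2 => ?_)
    obtain ⟨hq1, hq2⟩ := abs_le.mp hsT
    have hf : Pool.Agent.DBA.pt s.re s.im = s := by
      unfold Pool.Agent.DBA.pt
      exact Complex.re_add_im s
    have k1 := HD (NZR_f Y) s.re s.im r hr0 (fun w _ hw => by
      obtain ⟨hw1, hw2⟩ := abs_le.mp hw
      exact NZR_diff Y w (NZR_ne w (by linarith)))
    have hsa : a ≤ s.re - r := by linarith
    have k2 := NZR_box Y a (3 / 4) (K + 1) T s.re s.im r (by linarith) hr0 hsa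
      (by linarith) (by linarith) (by linarith)
    have k3 := hB T ⟨hT1, hT2⟩ hTB
    have k4 : CD * bx (NZR_f Y) a (3 / 4) (K + 1) T < CD * lam :=
      mul_lt_mul_of_pos_left k3 hCD
    have k5 : CD * lam = r ^ 2 * (1 / 4) := by
      rw [hlam]
      field_simp
    have k6 := mul_le_mul_of_nonneg_left k2 hCD.le
    rw [hf] at k1
    have k7 : r ^ 2 * ‖NZR_f Y s‖ ^ 2 < r ^ 2 * (1 / 4) := by linarith
    have k8 : ‖NZR_f Y s‖ ^ 2 < 1 / 4 := lt_of_mul_lt_mul_left k7 (by positivity)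
    have k9 : ‖NZR_f Y s‖ ≤ 1 / 2 := by
      by_contra hc
      push Not at hc
      nlinarith [norm_nonneg (NZR_f Y s)]
    exact k9
  · have hba : 3 / 4 - a ≤ 1 := by linarith
    have hrr : V / lam = 64 * C0 * (4 * CD) * (X * (Real.log X ^ 7 * X ^ (-(y / 4)))) := by
      rw [hV, hlam, hr]
      field_simp
    have hVl : 0 ≤ V / lam := by positivity
    calc 6 * (K + 1) * (3 / 4 - a) * V / lam = 6 * (K + 1) * (V / lam) * (3 / 4 - a) := by ring
      _ ≤ 6 * (K + 1) * (V / lam) * 1 := mul_le_mul_of_nonneg_left hba (by positivity)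
      _ = (6 * (K + 1) * (64 * C0) * (4 * CD)) *
          (X * (Real.log X ^ 7 * X ^ (-(y / 4)))) := by
          rw [hrr]
          ring
      _ ≤ Real.log X * (X * (Real.log X ^ 7 * X ^ (-(y / 4)))) :=
          mul_le_mul_of_nonneg_right hCL (by positivity)
      _ = X * Real.log X ^ 8 * X ^ (-(y / 4)) := by ring

end Pool.Agent.DBB.FS4_

namespace Pool.Agent.DBB

theorem p_FS4 (h1 : T_MM2) (h2 : Pool.Agent.DBA.T_DSC) (h3 : Pool.Agent.DBA.T_MRK) : T_FS4 :=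
  FS4_.main h1 h2 h3

end Pool.Agent.DBB
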