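import Pool.Agent.DBB.Targets2
import Pool.Agent.DBA.P_SMA

/-!
# DBB, target UZP: polylogarithmic bounds at almost all heights
-/

set_option autoImplicit false

namespace Pool.Agent.DBB

open Complex MeasureTheory Set Filter

namespace UZP_

open Pool.Agent.DBA.SMA_

/-- the general statement -/
theorem gen (h2 : Pool.Agent.DBA.T_DSC) (h3 : Pool.Agent.DBA.T_MRK) (C1 K D : ℝ) (hC1 : 0 < C1)
    (hK : 0 < K) (_ : 0 < D) : ∃ M : ℝ, ∀ X : ℝ, M ≤ Real.log X → 2 * K + 4 ≤ X → ∀ g : ℂ → ℂ,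
    (∀ s : ℂ, 0 < s.im → DifferentiableAt ℂ g s) →
    (∀ x, 1 / 2 - 1 / (4 * Real.log X) ≤ x → x ≤ 3 → ∀ T, (T = X / 2 ∨ T = X ∨ T = 2 * X) →
      (∫ t in T..(2 * T), ‖g (Pool.Agent.DBA.pt x t)‖ ^ 2) ≤ C1 * X * Real.log X ^ 3) →
    ∃ B : Set ℝ, volume B ≤ ENNReal.ofReal (X / Real.log X ^ D / 2) ∧
      ∀ T ∈ Icc X (2 * X), T ∉ B → ∀ s : ℂ, |s.im - T| ≤ K → 1 / 2 ≤ s.re → s.re ≤ 2 →
        ‖g s‖ ≤ Real.log X ^ ((D + 7) / 2) := by
  obtain ⟨C2, hC2, hDs⟩ := h2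
  set C3 : ℝ := 6 * (K + 1) * 3 * C1 with hC3
  have hC30 : 0 < C3 := by positivity
  refine ⟨max 1 (max (2 * C3) (16 * C2)), fun X hM hXK g hg hI => ?_⟩
  set L := Real.log X with hL
  have hL1 : 1 ≤ L := (le_max_left _ _).trans hM
  have hL3 : 2 * C3 ≤ L := ((le_max_left _ _).trans (le_max_right _ _)).trans hM
  have hL2 : 16 * C2 ≤ L := ((le_max_right _ _).trans (le_max_right _ _)).trans hM
  have hL0 : 0 < L := by linarith
  have hX0 : 0 < X := by linarith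
  set r : ℝ := 1 / (4 * L) with hr
  have hr0 : 0 < r := by positivity
  have hr1 : r ≤ 1 / 4 := by
    rw [hr]
    exact one_div_le_one_div_of_le (by norm_num) (by linarith)
  set K1 : ℝ := K + 1 with hK1
  have hK10 : 0 < K1 := by linarith
  set lam : ℝ := L ^ (D + 4) with hlam
  have hlam0 : 0 < lam := Real.rpow_pos_of_pos hL0 _
  set V : ℝ := C1 * X * L ^ 3 with hV
  have hV0 : 0 ≤ V := by positivity
  obtain ⟨B, -, hBs, hBv, hB⟩ := h3 g (1 / 2 - r) 3 K1 X V lam (by linarith) hK10 (by linarith)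
    hlam0 hV0 (fun s _ _ h6 => (hg s (by linarith)).continuousAt) hI
  refine ⟨B, hBv.trans (ENNReal.ofReal_le_ofReal ?_), ?_⟩
  · have e0 : L ^ (D + 4) = L ^ D * L ^ 3 * L := by
      rw [Real.rpow_add hL0]
      have : L ^ (4 : ℝ) = L ^ 3 * L := by
        rw [show (4 : ℝ) = ((4 : ℕ) : ℝ) by norm_num, Real.rpow_natCast]
        ring
      rw [this]
      ring
    have hLD : 0 < L ^ D := Real.rpow_pos_of_pos hL0 _
    have e1 : 6 * K1 * (3 - (1 / 2 - r)) * V / lam ≤ C3 * (X / L ^ D) / L := by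
      rw [hV, hlam, e0, hC3]
      have e2 : 6 * (K + 1) * 3 * C1 * (X / L ^ D) / L =
          6 * K1 * 3 * (C1 * X * L ^ 3) / (L ^ D * L ^ 3 * L) := by
        rw [hK1]
        field_simp
      rw [e2]
      refine div_le_div_of_nonneg_right ?_ (by positivity)
      refine mul_le_mul_of_nonneg_right ?_ (by positivity)
      exact mul_le_mul_of_nonneg_left (by linarith) (by positivity)
    refine e1.trans ?_
    rw [div_le_div_iff₀ hL0 (by norm_num)]
    have e3 : 0 ≤ X / L ^ D := by positivity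
    calc C3 * (X / L ^ D) * 2 = X / L ^ D * (2 * C3) := by ring
      _ ≤ X / L ^ D * L := mul_le_mul_of_nonneg_left hL3 e3
  · intro T hT hTB s hs1 hs2 hs3
    have hlt := hB T hT hTB
    have him := abs_le.1 hs1
    have hs4 : s = Pool.Agent.DBA.pt s.re s.im := by simp [Pool.Agent.DBA.pt]
    have hdiff : ∀ w : ℂ, |w.re - s.re| ≤ r → |w.im - s.im| ≤ r → DifferentiableAt ℂ g w := by
      intro w _ hw
      have hw' := abs_le.1 hw
      exact hg w (by linarith [hT.1])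
    have hmain := hDs g s.re s.im r hr0 hdiff
    have hbox : (∫ u in (s.re - r)..(s.re + r), ∫ v in (s.im - r)..(s.im + r),
        ‖g (Pool.Agent.DBA.pt u v)‖ ^ 2) ≤ Pool.Agent.DBA.bx g (1 / 2 - r) 3 K1 T := by
      unfold Pool.Agent.DBA.bx
      refine box_mono g (1 / 2 - r) 3 (T - K1) (T + K1) _ _ _ _ ?_ ?_ ?_ ?_ ?_ ?_ ?_
      · linarith
      · linarith
      · linarith
      · rw [hK1]; linarith
      · linarith
      · rw [hK1]; linarith
      · intro w _ _ hw _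
        exact (hg w (by linarith [hT.1])).continuousAt
    rw [← hs4] at hmain
    have e1 : r ^ 2 * ‖g s‖ ^ 2 ≤ C2 * lam :=
      hmain.trans (mul_le_mul_of_nonneg_left (hbox.trans hlt.le) hC2.le)
    have e2 : ‖g s‖ ^ 2 ≤ (L ^ ((D + 7) / 2)) ^ 2 := by
      have e3 : (L ^ ((D + 7) / 2)) ^ 2 = L ^ (D + 4) * L ^ 2 * L := by
        have e4 : (L ^ ((D + 7) / 2)) ^ 2 = L ^ (D + 7) := by
          rw [← Real.rpow_natCast, ← Real.rpow_mul hL0.le]
          congr 1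
          push_cast
          ring
        have e5 : L ^ (3 : ℝ) = L ^ 2 * L := by
          rw [show (3 : ℝ) = ((3 : ℕ) : ℝ) by norm_num, Real.rpow_natCast]
          ring
        rw [e4, show D + 7 = (D + 4) + 3 by ring, Real.rpow_add hL0, e5]
        ring
      rw [e3]
      have e6 : ‖g s‖ ^ 2 = 16 * L ^ 2 * (r ^ 2 * ‖g s‖ ^ 2) := by
        rw [hr]
        field_simp
        norm_num
      rw [e6]
      calc 16 * L ^ 2 * (r ^ 2 * ‖g s‖ ^ 2) ≤ 16 * L ^ 2 * (C2 * lam) :=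
            mul_le_mul_of_nonneg_left e1 (by positivity)
        _ = L ^ (D + 4) * L ^ 2 * (16 * C2) := by
            rw [hlam]
            ring
        _ ≤ L ^ (D + 4) * L ^ 2 * L := mul_le_mul_of_nonneg_left hL2 (by positivity)
    exact (pow_le_pow_iff_left₀ (norm_nonneg _) (by positivity) (by norm_num)).1 e2

theorem diff_Mp (Y : ℕ) (s : ℂ) : DifferentiableAt ℂ (Pool.Agent.DBA.Mp Y) s := by
  unfold Pool.Agent.DBA.Mp
  refine DifferentiableAt.fun_sum fun n hn => ?_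
  have hn0 : (n : ℂ) ≠ 0 := by
    have := (Finset.mem_Icc.1 hn).1
    exact_mod_cast (by omega : n ≠ 0)
  refine DifferentiableAt.const_mul ?_ _
  exact (differentiableAt_id.neg).const_cpow (Or.inl hn0)

end UZP_

open UZP_ in
theorem p_UZP (h1 : T_ZMP) (h2 : Pool.Agent.DBA.T_DSC) (h3 : Pool.Agent.DBA.T_MRK) : T_UZP := by
  intro K D hK hD
  obtain ⟨C1, hC1, hZ⟩ := h1
  obtain ⟨M, hM⟩ := gen h2 h3 (54 * C1) K D (by positivity) hK hD
  refine ⟨(D + 7) / 2, max (Real.exp (max M 2)) (2 * K + 4), by positivity, fun X hX => ?_⟩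
  have hXe : Real.exp (max M 2) ≤ X := (le_max_left _ _).trans hX
  have hXK : 2 * K + 4 ≤ X := (le_max_right _ _).trans hX
  have hX0 : 0 < X := by linarith
  have hLm : max M 2 ≤ Real.log X := (Real.le_log_iff_exp_le hX0).2 hXe
  have hLM : M ≤ Real.log X := (le_max_left _ _).trans hLm
  have hL2 : 2 ≤ Real.log X := (le_max_right _ _).trans hLm
  set L := Real.log X with hL
  have hL0 : 0 < L := by linarith
  -- the three heights
  have hT : ∀ T, (T = X / 2 ∨ T = X ∨ T = 2 * X) → 2 ≤ T ∧ X / 2 ≤ T ∧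
      Real.log T ≤ 2 * L ∧ T * (1 + Real.log T) ^ 3 ≤ 54 * (X * L ^ 3) := by
    intro T hT
    have hT1 : X / 2 ≤ T := by rcases hT with h | h | h <;> rw [h] <;> linarith
    have hT2 : T ≤ 2 * X := by rcases hT with h | h | h <;> rw [h] <;> linarith
    have hT3 : 2 ≤ T := by linarith
    have hl : Real.log T ≤ 2 * L := by
      have e1 : Real.log T ≤ Real.log (2 * X) := Real.log_le_log (by linarith) hT2
      rw [Real.log_mul (by norm_num) hX0.ne'] at e1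
      have := Real.log_two_lt_d9
      linarith
    have hl0 : 0 ≤ Real.log T := Real.log_nonneg (by linarith)
    refine ⟨hT3, hT1, hl, ?_⟩
    calc T * (1 + Real.log T) ^ 3 ≤ (2 * X) * (3 * L) ^ 3 := by
          refine mul_le_mul hT2 ?_ (by positivity) (by positivity)
          exact pow_le_pow_left₀ (by linarith) (by linarith) 3
      _ = 54 * (X * L ^ 3) := by ring
  have hsig : ∀ x, 1 / 2 - 1 / (4 * L) ≤ x → ∀ T, (T = X / 2 ∨ T = X ∨ T = 2 * X) →
      1 / 2 - 1 / Real.log T ≤ x ∧ 1 / 4 ≤ x := by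
    intro x hx T hTT
    obtain ⟨t1, -, t3, -⟩ := hT T hTT
    have hl0 : 0 < Real.log T := Real.log_pos (by linarith)
    have e1 : 1 / (4 * L) ≤ 1 / Real.log T :=
      one_div_le_one_div_of_le hl0 (by linarith)
    have e2 : 1 / (4 * L) ≤ 1 / 4 := one_div_le_one_div_of_le (by norm_num) (by linarith)
    constructor <;> linarith
  obtain ⟨B1, hB1v, hB1⟩ := hM X hLM hXK riemannZeta
    (fun s hs => Pool.Agent.DBA.SMA_.cont_zeta s hs) (fun x hx1 hx3 T hTT => by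
      obtain ⟨s1, s2⟩ := hsig x hx1 T hTT
      obtain ⟨t1, -, -, t4⟩ := hT T hTT
      refine (hZ T x t1 s1 s2 hx3).1.trans ?_
      calc C1 * T * (1 + Real.log T) ^ 3 = C1 * (T * (1 + Real.log T) ^ 3) := by ring
        _ ≤ C1 * (54 * (X * L ^ 3)) := mul_le_mul_of_nonneg_left t4 hC1.le
        _ = 54 * C1 * X * L ^ 3 := by ring)
  have hY1 : 1 ≤ ⌊X ^ (1 / 8 : ℝ)⌋₊ := by
    rw [Nat.one_le_floor_iff]
    exact Real.one_le_rpow (by linarith) (by norm_num)
  have hY2 : ((⌊X ^ (1 / 8 : ℝ)⌋₊ : ℕ) : ℝ) ≤ X / 2 := by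
    refine (Nat.floor_le (by positivity)).trans ?_
    have e1 : X ^ (1 / 8 : ℝ) ≤ X ^ (1 / 2 : ℝ) :=
      Real.rpow_le_rpow_of_exponent_le (by linarith) (by norm_num)
    refine e1.trans ?_
    rw [← Real.sqrt_eq_rpow, Real.sqrt_le_left (by linarith)]
    nlinarith
  obtain ⟨B2, hB2v, hB2⟩ := hM X hLM hXK (Pool.Agent.DBA.Mp ⌊X ^ (1 / 8 : ℝ)⌋₊)
    (fun s _ => diff_Mp _ s) (fun x hx1 hx3 T hTT => by
      obtain ⟨s1, s2⟩ := hsig x hx1 T hTT
      obtain ⟨t1, t2, -, t4⟩ := hT T hTT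
      refine ((hZ T x t1 s1 s2 hx3).2 _ hY1 (hY2.trans t2)).trans ?_
      calc C1 * T * (1 + Real.log T) ^ 3 = C1 * (T * (1 + Real.log T) ^ 3) := by ring
        _ ≤ C1 * (54 * (X * L ^ 3)) := mul_le_mul_of_nonneg_left t4 hC1.le
        _ = 54 * C1 * X * L ^ 3 := by ring)
  have hsub : {T : ℝ | X ≤ T ∧ T ≤ 2 * X ∧ ¬ ((∀ s : ℂ, |s.im - T| ≤ K → 1 / 2 ≤ s.re →
      ‖riemannZeta s‖ ≤ L ^ ((D + 7) / 2)) ∧ ∀ s : ℂ, |s.im - T| ≤ K → 1 / 2 ≤ s.re →
      s.re ≤ 1 → ‖Pool.Agent.DBA.Mp ⌊X ^ (1 / 8 : ℝ)⌋₊ s‖ ≤ L ^ ((D + 7) / 2))} ⊆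
      B1 ∪ B2 := by
    rintro T ⟨hT1, hT2, hT3⟩
    by_contra hcon
    rw [mem_union, not_or] at hcon
    refine hT3 ⟨fun s hs1 hs2 => ?_, fun s hs1 hs2 hs3 => ?_⟩
    · rcases le_total s.re 2 with h5 | h5
      · exact hB1 T ⟨hT1, hT2⟩ hcon.1 s hs1 hs2 h5
      · refine (Pool.Agent.DBA.SMA_.zeta_upper h5).trans (hL2.trans ?_)
        calc L = L ^ (1 : ℝ) := (Real.rpow_one L).symm
          _ ≤ L ^ ((D + 7) / 2) :=
              Real.rpow_le_rpow_of_exponent_le (by linarith) (by linarith)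
    · exact hB2 T ⟨hT1, hT2⟩ hcon.2 s hs1 hs2 (by linarith)
  refine (measure_mono hsub).trans ((measure_union_le _ _).trans ?_)
  refine (add_le_add hB1v hB2v).trans ?_
  rw [← ENNReal.ofReal_add (by positivity) (by positivity)]
  exact ENNReal.ofReal_le_ofReal (by linarith)

end Pool.Agent.DBB
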