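import Pool.Agent.DBB.Targets4

/-!
# DBB, target WD4: long windows, the uniform version
-/

set_option autoImplicit false

namespace Pool.Agent.DBB

open Complex MeasureTheory Set Filter
open Pool.Agent.DBN Pool.Agent.DBC

/-- WD4 -/
theorem p_WD4 (h1 : Pool.Agent.DBA.T_COV) (h2 : T_MX4) (h3 : T_WI4) : T_WD4 := by
  intro c hc hU K ε hK hε
  obtain ⟨A₀, κ₀, X₁, hA₀, hκ₀, hX1, hmax⟩ := h2 _ hU (K + 2) (ε / 2) (by linarith)
    (by linarith)
  obtain ⟨κ, hκ⟩ : ∃ κ : ℝ, κ = min (κ₀ / 4) (1 / (4 * c)) := ⟨_, rfl⟩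
  have hκ0 : 0 < κ := by
    rw [hκ]
    exact lt_min (by linarith) (by positivity)
  have hκ1 : κ ≤ κ₀ / 4 := by
    rw [hκ]
    exact min_le_left _ _
  have hκc : κ * c ≤ 1 / 4 := by
    have e1 : κ ≤ 1 / (4 * c) := by
      rw [hκ]
      exact min_le_right _ _
    calc κ * c ≤ 1 / (4 * c) * c := mul_le_mul_of_nonneg_right e1 hc.le
      _ = 1 / 4 := by field_simp
  obtain ⟨X₂, hX2, hwi⟩ := h3 c K ε κ hc hK hε hκ0 hκc
  refine ⟨A₀ + 6 / κ₀, κ, max X₁ (max X₂ (Real.exp (Real.exp 1))), by positivity, hκ0,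
    fun X t₀ hX ht hc' => ?_⟩
  have hXa : X₁ ≤ X := (le_max_left _ _).trans hX
  have hXb : X₂ ≤ X := ((le_max_left _ _).trans (le_max_right _ _)).trans hX
  have hXc : Real.exp (Real.exp 1) ≤ X :=
    ((le_max_right _ _).trans (le_max_right _ _)).trans hX
  have hX0 : 0 < X := by linarith
  have hL : Real.exp 1 ≤ Real.log X := by
    rw [Real.le_log_iff_exp_le hX0]
    exact hXc
  have hL0 : 0 < Real.log X := (Real.exp_pos 1).trans_le hL
  have hl : 1 ≤ Real.log (Real.log X) := by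
    rw [Real.le_log_iff_exp_le hL0]
    exact hL
  have hL2 : Real.log (2 * X) ≤ 2 * Real.log X := by
    rw [Real.log_mul (by norm_num) hX0.ne']
    have : Real.log 2 ≤ Real.log X := Real.log_le_log (by norm_num) (by linarith)
    linarith
  have hA6 : 0 < 6 / κ₀ := by positivity
  have ht0 : 0 < t₀ := by
    refine lt_of_lt_of_le ?_ ht
    positivity
  have hm : (A₀ + 6 / κ₀) * Real.log (Real.log X) ≤ t₀ * Real.log X ^ 2 := by
    rwa [div_le_iff₀ (by positivity)] at ht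
  set m : ℝ := t₀ * Real.log X ^ 2 with hmdef
  have hm6 : 6 / κ₀ ≤ m := by
    refine le_trans ?_ hm
    calc 6 / κ₀ ≤ (A₀ + 6 / κ₀) * 1 := by linarith
      _ ≤ _ := mul_le_mul_of_nonneg_left hl (by positivity)
  have hm0 : 0 < m := by positivity
  have hκm : 6 ≤ κ₀ * m := by
    rw [div_le_iff₀ hκ₀] at hm6
    linarith
  have ht1 : A₀ * Real.log (Real.log X) / Real.log X ^ 2 ≤ t₀ := by
    refine le_trans ?_ ht
    refine div_le_div_of_nonneg_right ?_ (by positivity)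
    exact mul_le_mul_of_nonneg_right (by linarith) (by linarith)
  have ht2 : t₀ * Real.log (2 * X) ≤ 2 * c := by
    calc t₀ * Real.log (2 * X) ≤ t₀ * (2 * Real.log X) :=
          mul_le_mul_of_nonneg_left hL2 ht0.le
      _ = 2 * (t₀ * Real.log X) := by ring
      _ ≤ 2 * c := by linarith
  have hcov := h1 (UX t₀ (2 * c) (K + 2) (ε / 2) X)
    {T : ℝ | X ≤ T ∧ T ≤ 2 * X ∧ ∃ t : ℝ, t₀ ≤ t ∧ t * Real.log T ≤ c ∧
      ¬ CrysR (Real.exp (κ * m)) K ε t T} (Real.exp (κ * m)) (X * Real.exp (-(κ₀ * m)))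
    (by positivity) (by positivity)
    (fun T hT => hwi X T t₀ hXb hT.1 hT.2.1 ht0 hc' hT.2.2) (hmax X t₀ hXa ht1 ht2)
  refine hcov.trans (ENNReal.ofReal_le_ofReal ?_)
  have e1 : 1 ≤ Real.exp (κ * m) := Real.one_le_exp (by positivity)
  have e2 : (8 : ℝ) ≤ Real.exp (κ₀ * m - 2 * (κ * m)) := by
    have e3 : 3 ≤ κ₀ * m - 2 * (κ * m) := by
      have : κ * m ≤ κ₀ / 4 * m := mul_le_mul_of_nonneg_right hκ1 hm0.le
      linarith
    have e4 : (8 : ℝ) ≤ Real.exp 3 := by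
      have e5 : Real.exp 3 = Real.exp 1 ^ 3 := by
        rw [← Real.exp_nat_mul]
        norm_num
      have e6 : (2 : ℝ) ≤ Real.exp 1 := by
        have := Real.exp_one_gt_d9
        linarith
      rw [e5]
      calc (8 : ℝ) = 2 ^ 3 := by norm_num
        _ ≤ Real.exp 1 ^ 3 := pow_le_pow_left₀ (by norm_num) e6 3
    exact e4.trans (Real.exp_le_exp.2 e3)
  have e7 : Real.exp (κ₀ * m - 2 * (κ * m)) * (Real.exp (κ * m) * Real.exp (-(κ₀ * m))) =
      Real.exp (-(κ * m)) := by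
    rw [← Real.exp_add, ← Real.exp_add]
    congr 1
    ring
  calc 4 * (Real.exp (κ * m) + 1) * (X * Real.exp (-(κ₀ * m)))
      ≤ 4 * (Real.exp (κ * m) + Real.exp (κ * m)) * (X * Real.exp (-(κ₀ * m))) := by gcongr
    _ = X * (8 * (Real.exp (κ * m) * Real.exp (-(κ₀ * m)))) := by ring
    _ ≤ X * (Real.exp (κ₀ * m - 2 * (κ * m)) * (Real.exp (κ * m) * Real.exp (-(κ₀ * m)))) := by
        gcongr
    _ = X * Real.exp (-(κ * m)) := by rw [e7]

end Pool.Agent.DBB
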