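import Pool.Agent.DBB.Targets4
import Pool.Agent.DBA.P_WIA

/-!
# WI4: a bad long window contains a unit interval of bad heights (edit of P_WI3.lean)
-/

set_option autoImplicit false

namespace Pool.Agent.DBB

open Complex MeasureTheory Set Filter
open Pool.Agent.DBN Pool.Agent.DBC

theorem p_WI4 : T_WI4 := by
  intro c K ε κ hc hK hε hκ hκc
  obtain ⟨X₁, hX₁, hN⟩ := Pool.Agent.DBA.WIA_.near ε (1 / 4) (4 * Real.pi + ε + 10)
    hε (by norm_num) le_rfl
  refine ⟨X₁, hX₁, ?_⟩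
  intro X T t₀ hXa hT hT2 ht0 hc0 ⟨t, ht1, ht2, hnc⟩
  have hX2 : 2 ≤ X := le_trans hX₁ hXa
  have hX0 : 0 < X := by linarith
  have hT0 : 0 < T := by linarith
  have hpi := Real.pi_pos
  have hlogX : 0 ≤ Real.log X := Real.log_nonneg (by linarith)
  have hpw1 : Real.exp (κ * (t₀ * Real.log X ^ 2)) ≤ (2 * X) ^ (1 / 4 : ℝ) := by
    have e1 : κ * (t₀ * Real.log X ^ 2) ≤ Real.log X * (1 / 4) := by
      have e2 : κ * (t₀ * Real.log X) ≤ 1 / 4 :=
        (mul_le_mul_of_nonneg_left hc0 hκ.le).trans hκc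
      have e3 := mul_le_mul_of_nonneg_left e2 hlogX
      linarith [show Real.log X * (κ * (t₀ * Real.log X)) = κ * (t₀ * Real.log X ^ 2) by ring]
    calc Real.exp (κ * (t₀ * Real.log X ^ 2)) ≤ Real.exp (Real.log X * (1 / 4)) :=
          Real.exp_le_exp.2 e1
      _ = X ^ (1 / 4 : ℝ) := (Real.rpow_def_of_pos hX0 _).symm
      _ ≤ (2 * X) ^ (1 / 4 : ℝ) :=
          Real.rpow_le_rpow hX0.le (by linarith) (by norm_num)
  set R : ℝ := Real.exp (κ * (t₀ * Real.log X ^ 2)) with hR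
  have hpw0 : 0 ≤ R := (Real.exp_pos _).le
  have key : ∀ a : ℝ, |a - 2 * T| ≤ R →
      (∀ T'' : ℝ, |T'' - a / 2| ≤ 1 / 2 → |Real.log T'' - Real.log T| ≤ ε / 4 →
        4 * Real.pi + ε + 1 ≤ Real.log T'' → 4 * Real.pi + ε + 1 ≤ Real.log T →
        ¬ CrysAt (K + 2) (ε / 2) t T'') →
      ∃ T' : ℝ, |T' - T| ≤ R ∧
        Icc (T' - 1 / 2) (T' + 1 / 2) ⊆ UX t₀ (2 * c) (K + 2) (ε / 2) X := by
    intro a ha h
    have ha' := abs_le.1 ha
    refine ⟨a / 2, abs_le.2 ⟨by linarith, by linarith⟩, ?_⟩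
    intro T'' hT''
    have h1 : |T'' - a / 2| ≤ 1 / 2 := abs_le.2 ⟨by linarith [hT''.1], by linarith [hT''.2]⟩
    have h2 : |T'' - T| ≤ (2 * X) ^ (1 / 4 : ℝ) + 1 :=
      abs_le.2 ⟨by linarith [hT''.1], by linarith [hT''.2]⟩
    obtain ⟨n1, n2, n3, n4, n5, n6, n7, n8⟩ := hN X T T'' hXa hT hT2 h2
    have ht0' : 0 < t := by linarith
    refine ⟨n7, n8, t, ht1, ?_, h T'' h1 n1 (by linarith) (by linarith)⟩
    have := mul_le_mul_of_nonneg_left n6 ht0'.le
    linarith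
  unfold CrysR at hnc
  rw [not_and_or, not_and_or] at hnc
  rcases hnc with h | h | h
  · push Not at h
    obtain ⟨z, hz1, hz2, hz3, hz4⟩ := h
    refine key z.re hz1 ?_
    intro T'' h1 h2 h3 h4 hC
    have h5 : ‖z - 2 * (T'' : ℂ)‖ ≤ K + 2 := by
      have e1 := Complex.norm_le_abs_re_add_abs_im (z - 2 * (T'' : ℂ))
      have e2 : (z - 2 * (T'' : ℂ)).re = z.re - 2 * T'' := by simp
      have e3 : (z - 2 * (T'' : ℂ)).im = z.im := by simp
      rw [e2, e3] at e1
      have e4 : |z.re - 2 * T''| ≤ 1 := by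
        have := abs_le.1 h1
        exact abs_le.2 ⟨by linarith, by linarith⟩
      linarith
    obtain ⟨q1, q2⟩ := hC.1 z h5 hz3
    exact q2 (hz4 q1)
  · push Not at h
    obtain ⟨x, y, hx, hy, hxy, hHx, hHy, hlt⟩ := h
    refine key x hx ?_
    intro T'' h1 h2 h3 h4 hC
    have e1 := abs_le.1 h1
    have e2 := abs_le.1 h2
    have hyx : y - x ≤ 1 := by
      by_contra hcon
      have : 1 * (4 * Real.pi + ε + 1) ≤ (y - x) * Real.log T :=
        mul_le_mul (by linarith) h4 (by linarith) (by linarith)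
      linarith
    have h5 := hC.2.1 x y (abs_le.2 ⟨by linarith, by linarith⟩)
      (abs_le.2 ⟨by linarith, by linarith⟩) hxy hHx hHy
    have h6 : (y - x) * Real.log T'' ≤ (y - x) * (Real.log T + ε / 4) :=
      mul_le_mul_of_nonneg_left (by linarith) (by linarith)
    have h7 : (y - x) * (ε / 4) ≤ 1 * (ε / 4) :=
      mul_le_mul_of_nonneg_right hyx (by linarith)
    nlinarith
  · push Not at h
    obtain ⟨x, hx, hno⟩ := h
    refine key x hx ?_
    intro T'' h1 h2 h3 h4 hC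
    have e1 := abs_le.1 h1
    have e2 := abs_le.1 h2
    obtain ⟨y, hxy, hy, hHy⟩ := hC.2.2 x (abs_le.2 ⟨by linarith, by linarith⟩)
    have hyx : y - x ≤ 1 := by
      by_contra hcon
      have : 1 * (4 * Real.pi + ε + 1) ≤ (y - x) * Real.log T'' :=
        mul_le_mul (by linarith) h3 (by linarith) (by linarith)
      linarith
    have h6 : (y - x) * Real.log T ≤ (y - x) * (Real.log T'' + ε / 4) :=
      mul_le_mul_of_nonneg_left (by linarith) (by linarith)
    have h7 : (y - x) * (ε / 4) ≤ 1 * (ε / 4) :=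
      mul_le_mul_of_nonneg_right hyx (by linarith)
    exact hno y hxy (by nlinarith) hHy

end Pool.Agent.DBB
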