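import Pool.Agent.DBB.All3
import Pool.Agent.DBB.P_UZ4
import Pool.Agent.DBB.P_FS4
import Pool.Agent.DBB.P_BC4
import Pool.Agent.DBB.P_AR4
import Pool.Agent.DBB.P_FN4
import Pool.Agent.DBB.P_MX4
import Pool.Agent.DBB.P_CI4
import Pool.Agent.DBB.P_CN4
import Pool.Agent.DBB.P_WI4
import Pool.Agent.DBB.P_WD4

/-!
# DBB: the uniform version
-/

set_option autoImplicit false

namespace Pool.Agent.DBB

open Pool.Agent.DBC Pool.Agent.DBA

theorem ar4 : T_AR4 :=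
  p_AR4 fin (p_UZ4 (p_ZMP rem' (p_MVS34 p_MVD)) p_DSC p_MRK) (p_FS4 mm2 p_DSC p_MRK) (p_BC4 q_BCL)

theorem uni : ∀ c : ℝ, 0 < c → Uni c := p_FN4 dg2 ar4

theorem uniFew : ∀ c : ℝ, 0 < c → UniFew c := fun c hc =>
  p_CN4 p_CVJ p_ORD p_MX4 p_CI4 jn3 c hc (uni (2 * c) (by positivity))

theorem uniWide : ∀ c : ℝ, 0 < c → UniWide c := fun c hc =>
  p_WD4 (p_COV p_CVJ) p_MX4 p_WI4 c hc (uni (2 * c) (by positivity))

end Pool.Agent.DBB
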