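import Pool.Agent.DBB.Targets2

/-!
# AM2: the coefficients of the mollified series
-/

set_option autoImplicit false

namespace Pool.Agent.DBB

open Complex MeasureTheory Set Filter
open Pool.Agent.DBN Pool.Agent.DBC
open scoped ENNReal

namespace AM2_

theorem am_zero (Y n : ℕ) (h2 : 2 ≤ n) (hY : n ≤ Y) : am Y n = 0 := by
  have h1 : (Finset.Icc 1 Y).filter (fun d => d ∣ n) = n.divisors := by
    ext d
    simp only [Finset.mem_filter, Finset.mem_Icc, Nat.mem_divisors]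
    constructor
    · rintro ⟨_, h⟩
      exact ⟨h, by omega⟩
    · rintro ⟨h, _⟩
      exact ⟨⟨Nat.pos_of_dvd_of_pos h (by omega), (Nat.le_of_dvd (by omega) h).trans hY⟩, h⟩
  have h3 : ∑ d ∈ n.divisors, ArithmeticFunction.moebius d = 0 := by
    rw [← ArithmeticFunction.coe_mul_zeta_apply, ArithmeticFunction.moebius_mul_coe_zeta,
      ArithmeticFunction.one_apply_ne (by omega)]
  unfold am
  rw [h1]
  exact_mod_cast h3

theorem am_abs (Y n : ℕ) (h1 : 1 ≤ n) : |am Y n| ≤ (n.divisors.card : ℝ) := by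
  unfold am
  refine (Finset.abs_sum_le_sum_abs _ _).trans ?_
  have h2 : (Finset.Icc 1 Y).filter (fun d => d ∣ n) ⊆ n.divisors := by
    intro d hd
    simp only [Finset.mem_filter, Finset.mem_Icc] at hd
    exact Nat.mem_divisors.2 ⟨hd.2, by omega⟩
  calc ∑ d ∈ (Finset.Icc 1 Y).filter (fun d => d ∣ n),
        |((ArithmeticFunction.moebius d : ℤ) : ℝ)|
      ≤ ∑ _d ∈ (Finset.Icc 1 Y).filter (fun d => d ∣ n), (1 : ℝ) := by
        refine Finset.sum_le_sum fun d _ => ?_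
        exact_mod_cast ArithmeticFunction.abs_moebius_le_one
    _ ≤ (n.divisors.card : ℝ) := by
        rw [Finset.sum_const, nsmul_eq_mul, mul_one]
        exact_mod_cast Finset.card_le_card h2

theorem term (Y n : ℕ) (σ : ℝ) (hY : 1 ≤ Y) (hn2 : 2 ≤ n) (hσ : 1 / 2 ≤ σ) :
    am Y n ^ 2 * (n : ℝ) ^ (-(2 * σ)) ≤
      (Y : ℝ) ^ (-(2 * σ - 1)) * (((n.divisors.card : ℝ)) ^ 2 / n) := by
  have hYp : (0 : ℝ) < Y := by exact_mod_cast hY
  have hnp : (0 : ℝ) < n := by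
    have : 0 < n := by omega
    exact_mod_cast this
  rcases le_or_gt n Y with h | h
  · rw [am_zero Y n hn2 h]
    have : 0 ≤ (Y : ℝ) ^ (-(2 * σ - 1)) * (((n.divisors.card : ℝ)) ^ 2 / n) := by positivity
    simpa using this
  · have h4 : am Y n ^ 2 ≤ ((n.divisors.card : ℝ)) ^ 2 := by
      rw [← sq_abs]
      exact pow_le_pow_left₀ (abs_nonneg _) (am_abs Y n (by omega)) 2
    have h5 : (n : ℝ) ^ (-(2 * σ - 1)) ≤ (Y : ℝ) ^ (-(2 * σ - 1)) :=
      Real.rpow_le_rpow_of_nonpos hYp (by exact_mod_cast h.le) (by linarith)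
    have h6 : (n : ℝ) ^ (-(2 * σ)) = (n : ℝ) ^ (-(2 * σ - 1)) * (n : ℝ)⁻¹ := by
      rw [← Real.rpow_neg_one, ← Real.rpow_add hnp]
      congr 1
      ring
    calc am Y n ^ 2 * (n : ℝ) ^ (-(2 * σ))
        ≤ ((n.divisors.card : ℝ)) ^ 2 * ((Y : ℝ) ^ (-(2 * σ - 1)) * (n : ℝ)⁻¹) := by
          rw [h6]
          gcongr
      _ = _ := by
          rw [div_eq_mul_inv]
          ring

end AM2_

open AM2_ in
theorem p_AM2 (h1 : T_DV4) : T_AM2 := by
  intro Y N σ hY hN hσ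
  have hYp : (0 : ℝ) < Y := by exact_mod_cast hY
  calc ∑ n ∈ Finset.Icc 2 N, am Y n ^ 2 * (n : ℝ) ^ (-(2 * σ))
      ≤ ∑ n ∈ Finset.Icc 2 N,
        (Y : ℝ) ^ (-(2 * σ - 1)) * (((n.divisors.card : ℝ)) ^ 2 / n) :=
        Finset.sum_le_sum fun n hn => term Y n σ hY (Finset.mem_Icc.1 hn).1 hσ
    _ ≤ ∑ n ∈ Finset.Icc 1 N,
        (Y : ℝ) ^ (-(2 * σ - 1)) * (((n.divisors.card : ℝ)) ^ 2 / n) := by
        refine Finset.sum_le_sum_of_subset_of_nonneg ?_ fun n _ _ => by positivity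
        exact Finset.Icc_subset_Icc (by norm_num) le_rfl
    _ = (Y : ℝ) ^ (-(2 * σ - 1)) *
        ∑ n ∈ Finset.Icc 1 N, ((n.divisors.card : ℝ)) ^ 2 / n := by rw [Finset.mul_sum]
    _ ≤ _ := by
        gcongr
        exact h1 N hN

end Pool.Agent.DBB
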