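import Pool.Agent.DBB.Targets2

/-!
# DBB, target AR3: assembly of the arithmetic part
-/

set_option autoImplicit false

namespace Pool.Agent.DBB

open Complex MeasureTheory Set Filter
open Pool.Agent.DBN Pool.Agent.DBC
open scoped ENNReal

namespace AR3_

/-- the sum of the three measures -/
theorem size_ev (D d : ℝ) (hd : 0 < d) : ∃ X₀ : ℝ, ∀ X : ℝ, X₀ ≤ X →
    X / Real.log X ^ (D + 1) + X / Real.log X ^ (D + 1) + X ^ (1 - d) ≤ X / Real.log X ^ D := by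
  have h1 : ∀ᶠ X : ℝ in atTop, ‖Real.log X ^ D‖ ≤ 1 / 2 * ‖X ^ d‖ :=
    (isLittleO_log_rpow_rpow_atTop D hd).def (by norm_num)
  have h2 : ∀ᶠ X : ℝ in atTop, Real.exp 4 ≤ X := eventually_ge_atTop _
  obtain ⟨X₀, h3⟩ := (h1.and h2).exists_forall_of_atTop
  refine ⟨X₀, fun X hX => ?_⟩
  obtain ⟨h4, h5⟩ := h3 X hX
  have hX0 : 0 < X := lt_of_lt_of_le (Real.exp_pos _) h5
  have hL : 4 ≤ Real.log X := (Real.le_log_iff_exp_le hX0).2 h5
  have hL0 : 0 < Real.log X := by linarith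
  have hLD : 0 < Real.log X ^ D := Real.rpow_pos_of_pos hL0 _
  have hXd : 0 < X ^ d := Real.rpow_pos_of_pos hX0 _
  rw [Real.norm_of_nonneg hLD.le, Real.norm_of_nonneg hXd.le] at h4
  have h6 : X / Real.log X ^ (D + 1) ≤ 1 / 4 * (X / Real.log X ^ D) := by
    rw [Real.rpow_add hL0, Real.rpow_one, ← div_div, div_le_iff₀ hL0]
    have h7 : 0 ≤ X / Real.log X ^ D := by positivity
    nlinarith
  have h8 : X ^ (1 - d) ≤ 1 / 2 * (X / Real.log X ^ D) := by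
    rw [Real.rpow_sub hX0, Real.rpow_one, div_le_iff₀ hXd]
    have h9 : 1 / 2 * (X / Real.log X ^ D) * X ^ d = X * ((1 / 2 * X ^ d) / Real.log X ^ D) := by
      ring
    rw [h9]
    exact le_mul_of_one_le_right hX0.le ((one_le_div hLD).2 h4)
  linarith

/-- the pointwise part -/
theorem pw {K B₁ B₂ B' C₁ X T : ℝ} (hB₂ : 0 < B₂) (hC₁ : 0 < C₁)
    (hB' : B₁ ≤ B') (hB1 : 1 ≤ B') (hX : Real.exp 2 ≤ X) (hXT : X ≤ T) (hT2 : T ≤ 2 * X)
    (H5 : (∀ s : ℂ, |s.im - T| ≤ K + 6 → 1 / 2 ≤ s.re → ‖riemannZeta s‖ ≤ Real.log T ^ B') →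
      (∀ s : ℂ, |s.im - T| ≤ K + 6 → 9 / 16 ≤ s.re → riemannZeta s ≠ 0) →
      ∀ s : ℂ, |s.im - T| ≤ K → 5 / 8 ≤ s.re → Real.log T ^ (-(C₁ * B')) ≤ ‖riemannZeta s‖)
    (P1 : (∀ s : ℂ, |s.im - T| ≤ K + 6 → 1 / 2 ≤ s.re → ‖riemannZeta s‖ ≤ Real.log X ^ B₁) ∧
      ∀ s : ℂ, |s.im - T| ≤ K + 6 → 1 / 2 ≤ s.re → s.re ≤ 1 →
        ‖Pool.Agent.DBA.Mp ⌊X ^ (1 / 8 : ℝ)⌋₊ s‖ ≤ Real.log X ^ B₁)
    (P2 : ∀ s : ℂ, |s.im - T| ≤ K →
      1 / 2 + B₂ * Real.log (Real.log X) / Real.log X ≤ s.re → s.re ≤ 5 / 8 →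
      ‖riemannZeta s * Pool.Agent.DBA.Mp ⌊X ^ (1 / 8 : ℝ)⌋₊ s - 1‖ ≤ 1 / 2)
    (P3 : ∀ s : ℂ, |s.im - T| ≤ K + 6 → 9 / 16 ≤ s.re → riemannZeta s ≠ 0) :
    PL (B' + 2 * B₂ + C₁ * B' + 1) K T := by
  have hX0 : 0 < X := lt_of_lt_of_le (Real.exp_pos _) hX
  have hT0 : 0 < T := hX0.trans_le hXT
  have hLX : 2 ≤ Real.log X := (Real.le_log_iff_exp_le hX0).2 hX
  have hLXT : Real.log X ≤ Real.log T := Real.log_le_log hX0 hXT
  have hLT : 2 ≤ Real.log T := hLX.trans hLXT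
  have hLT0 : 0 < Real.log T := by linarith
  have hLX0 : 0 < Real.log X := by linarith
  have hLT2 : Real.log T ≤ 2 * Real.log X := by
    have h1 : Real.log T ≤ Real.log (2 * X) := Real.log_le_log hT0 hT2
    rw [Real.log_mul (by norm_num) hX0.ne'] at h1
    have h2 : Real.log 2 ≤ 1 := by linarith [Real.log_two_lt_d9]
    linarith
  have hCB : 0 < C₁ * B' := mul_pos hC₁ (by linarith)
  have hup : Real.log X ^ B₁ ≤ Real.log T ^ B' := by
    have h1 : Real.log X ^ B₁ ≤ Real.log X ^ B' :=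
      Real.rpow_le_rpow_of_exponent_le (by linarith) hB'
    exact h1.trans (Real.rpow_le_rpow hLX0.le hLXT (by linarith))
  have hz : ∀ s : ℂ, |s.im - T| ≤ K + 6 → 1 / 2 ≤ s.re → ‖riemannZeta s‖ ≤ Real.log T ^ B' :=
    fun s h1 h2 => (P1.1 s h1 h2).trans hup
  intro s hs _
  have hs6 : |s.im - T| ≤ K + 6 := by linarith
  refine ⟨fun hre => (hz s hs6 hre).trans ?_, fun hre => ?_⟩
  · exact Real.rpow_le_rpow_of_exponent_le (by linarith) (by linarith)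
  · by_cases h58 : 5 / 8 ≤ s.re
    · refine le_trans ?_ (H5 hz P3 s hs h58)
      exact Real.rpow_le_rpow_of_exponent_le (by linarith) (by linarith)
    · have h58' : s.re ≤ 5 / 8 := (not_le.1 h58).le
      have hll : 0 ≤ Real.log (Real.log X) := Real.log_nonneg (by linarith)
      have hllT : Real.log (Real.log X) ≤ Real.log (Real.log T) := Real.log_le_log hLX0 hLXT
      have hq : B₂ * Real.log (Real.log X) / Real.log X ≤
          (B' + 2 * B₂ + C₁ * B' + 1) * Real.log (Real.log T) / Real.log T := by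
        rw [div_le_div_iff₀ hLX0 hLT0]
        have e1 : B₂ * Real.log (Real.log X) * Real.log T ≤
            B₂ * Real.log (Real.log X) * (2 * Real.log X) :=
          mul_le_mul_of_nonneg_left hLT2 (mul_nonneg hB₂.le hll)
        have e2 : 2 * B₂ * Real.log (Real.log X) ≤
            (B' + 2 * B₂ + C₁ * B' + 1) * Real.log (Real.log T) :=
          mul_le_mul (by linarith) hllT hll (by linarith)
        have e3 := mul_le_mul_of_nonneg_right e2 hLX0.le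
        linarith
      have hq0 : 0 ≤ B₂ * Real.log (Real.log X) / Real.log X := by positivity
      have hm := P2 s hs (by linarith) h58'
      have hM := P1.2 s hs6 (by linarith) (by linarith)
      set M := Pool.Agent.DBA.Mp ⌊X ^ (1 / 8 : ℝ)⌋₊ s with hMdef
      have e4 : 1 / 2 ≤ ‖riemannZeta s * M‖ := by
        have h1 : ‖(1 : ℂ)‖ ≤ ‖riemannZeta s * M‖ + ‖riemannZeta s * M - 1‖ := by
          have h2 : (1 : ℂ) = riemannZeta s * M - (riemannZeta s * M - 1) := by ring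
          calc ‖(1 : ℂ)‖ = ‖riemannZeta s * M - (riemannZeta s * M - 1)‖ := by rw [← h2]
            _ ≤ _ := norm_sub_le _ _
        rw [norm_one] at h1
        linarith
      rw [norm_mul] at e4
      have e5 : ‖riemannZeta s‖ * ‖M‖ ≤ ‖riemannZeta s‖ * Real.log T ^ B' :=
        mul_le_mul_of_nonneg_left (hM.trans hup) (norm_nonneg _)
      have hP : 0 < Real.log T ^ B' := Real.rpow_pos_of_pos hLT0 _
      have e6 : 1 / 2 / Real.log T ^ B' ≤ ‖riemannZeta s‖ := by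
        rw [div_le_iff₀ hP]
        linarith
      refine le_trans ?_ e6
      have e7 : Real.log T ^ (-(B' + 2 * B₂ + C₁ * B' + 1)) ≤ Real.log T ^ (-(B' + 1)) :=
        Real.rpow_le_rpow_of_exponent_le (by linarith) (by linarith)
      refine e7.trans ?_
      rw [Real.rpow_neg hLT0.le, Real.rpow_add hLT0, Real.rpow_one, div_div, one_div]
      refine inv_anti₀ (by positivity) ?_
      rw [mul_comm]
      exact mul_le_mul_of_nonneg_left hLT hP.le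

end AR3_

open AR3_ in
theorem p_AR3 (h1 : Pool.Agent.DBA.T_FIN) (h2 : T_UZP) (h3 : T_FSP) (h4 : T_BCP) : T_AR3 := by
  intro K D hK hD
  obtain ⟨B₁, X₁, hB₁, H1⟩ := h2 (K + 6) (D + 1) (by linarith) (by linarith)
  obtain ⟨B₂, X₂, hB₂, H2⟩ := h3 K (D + 1) hK (by linarith)
  obtain ⟨ρ, d, X₃, hρ, hd, hX₃, H3⟩ := h1 (1 / 16) (K + 6) (by norm_num) (by linarith)
  obtain ⟨C₁, hC₁, H4⟩ := h4 K hK
  obtain ⟨T₀, H5⟩ := H4 (max B₁ 1) (le_max_right _ _)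
  obtain ⟨X₄, H6⟩ := size_ev D d hd
  have hB1 : 1 ≤ max B₁ 1 := le_max_right _ _
  have hCB : 0 < C₁ * max B₁ 1 := mul_pos hC₁ (by linarith)
  refine ⟨max B₁ 1 + 2 * B₂ + C₁ * max B₁ 1 + 1,
    max (max X₁ X₂) (max (max X₃ X₄) (max T₀ (Real.exp 2))), by linarith, fun X hX => ?_⟩
  have hXa : X₁ ≤ X := ((le_max_left _ _).trans (le_max_left _ _)).trans hX
  have hXb : X₂ ≤ X := ((le_max_right _ _).trans (le_max_left _ _)).trans hX
  have hXc : X₃ ≤ X :=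
    (((le_max_left _ _).trans (le_max_left _ _)).trans (le_max_right _ _)).trans hX
  have hXd : X₄ ≤ X :=
    (((le_max_right _ _).trans (le_max_left _ _)).trans (le_max_right _ _)).trans hX
  have hXe : T₀ ≤ X :=
    (((le_max_left _ _).trans (le_max_right _ _)).trans (le_max_right _ _)).trans hX
  have hXf : Real.exp 2 ≤ X :=
    (((le_max_right _ _).trans (le_max_right _ _)).trans (le_max_right _ _)).trans hX
  have hX0 : 0 < X := lt_of_lt_of_le (Real.exp_pos _) hXf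
  have hLX : 2 ≤ Real.log X := (Real.le_log_iff_exp_le hX0).2 hXf
  obtain ⟨B, -, -, hBm, hB⟩ := H3 X hXc
  have hsub : {T : ℝ | X ≤ T ∧ T ≤ 2 * X ∧
      ¬ PL (max B₁ 1 + 2 * B₂ + C₁ * max B₁ 1 + 1) K T} ⊆
      ({T : ℝ | X ≤ T ∧ T ≤ 2 * X ∧ ¬ ((∀ s : ℂ, |s.im - T| ≤ K + 6 → 1 / 2 ≤ s.re →
        ‖riemannZeta s‖ ≤ Real.log X ^ B₁) ∧ ∀ s : ℂ, |s.im - T| ≤ K + 6 → 1 / 2 ≤ s.re →
        s.re ≤ 1 → ‖Pool.Agent.DBA.Mp ⌊X ^ (1 / 8 : ℝ)⌋₊ s‖ ≤ Real.log X ^ B₁)} ∪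
      {T : ℝ | X ≤ T ∧ T ≤ 2 * X ∧ ¬ ∀ s : ℂ, |s.im - T| ≤ K →
        1 / 2 + B₂ * Real.log (Real.log X) / Real.log X ≤ s.re → s.re ≤ 5 / 8 →
        ‖riemannZeta s * Pool.Agent.DBA.Mp ⌊X ^ (1 / 8 : ℝ)⌋₊ s - 1‖ ≤ 1 / 2}) ∪ B := by
    rintro T ⟨hT1, hT2, hT3⟩
    by_contra hcon
    rw [mem_union, mem_union, not_or, not_or] at hcon
    obtain ⟨⟨hc1, hc2⟩, hc3⟩ := hcon
    have P1 : (∀ s : ℂ, |s.im - T| ≤ K + 6 → 1 / 2 ≤ s.re →
        ‖riemannZeta s‖ ≤ Real.log X ^ B₁) ∧ ∀ s : ℂ, |s.im - T| ≤ K + 6 → 1 / 2 ≤ s.re →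
        s.re ≤ 1 → ‖Pool.Agent.DBA.Mp ⌊X ^ (1 / 8 : ℝ)⌋₊ s‖ ≤ Real.log X ^ B₁ := by
      by_contra h
      exact hc1 ⟨hT1, hT2, h⟩
    have P2 : ∀ s : ℂ, |s.im - T| ≤ K →
        1 / 2 + B₂ * Real.log (Real.log X) / Real.log X ≤ s.re → s.re ≤ 5 / 8 →
        ‖riemannZeta s * Pool.Agent.DBA.Mp ⌊X ^ (1 / 8 : ℝ)⌋₊ s - 1‖ ≤ 1 / 2 := by
      by_contra h
      exact hc2 ⟨hT1, hT2, h⟩
    have P3 : ∀ s : ℂ, |s.im - T| ≤ K + 6 → 9 / 16 ≤ s.re → riemannZeta s ≠ 0 := by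
      intro s hs hre
      exact (hB T ⟨hT1, hT2⟩ hc3 s hs).2 (by linarith)
    exact hT3 (pw hB₂ hC₁ (le_max_left _ _) hB1 hXf hT1 hT2 (H5 T (hXe.trans hT1)) P1 P2 P3)
  have hLD : 0 < Real.log X ^ (D + 1) := Real.rpow_pos_of_pos (by linarith) _
  have hq : 0 ≤ X / Real.log X ^ (D + 1) := by positivity
  calc volume {T : ℝ | X ≤ T ∧ T ≤ 2 * X ∧
        ¬ PL (max B₁ 1 + 2 * B₂ + C₁ * max B₁ 1 + 1) K T} ≤ _ := measure_mono hsub
    _ ≤ _ := (measure_union_le _ _).trans (add_le_add (measure_union_le _ _) le_rfl)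
    _ ≤ ENNReal.ofReal (X / Real.log X ^ (D + 1)) + ENNReal.ofReal (X / Real.log X ^ (D + 1)) +
          ENNReal.ofReal (X ^ (1 - d)) :=
        add_le_add (add_le_add (H1 X hXa) (H2 X hXb)) hBm
    _ = ENNReal.ofReal (X / Real.log X ^ (D + 1) + X / Real.log X ^ (D + 1) +
          X ^ (1 - d)) := by
        rw [ENNReal.ofReal_add (by positivity) (by positivity), ENNReal.ofReal_add hq hq]
    _ ≤ ENNReal.ofReal (X / Real.log X ^ D) := ENNReal.ofReal_le_ofReal (H6 X hXd)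

end Pool.Agent.DBB
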