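import Pool.Agent.DBB.Targets2
import Pool.Agent.SPZ.S4

/-!
# DBB, target BCP: Borel-Caratheodory for `1 / ζ` with powers of `log T`
-/

set_option autoImplicit false

namespace Pool.Agent.DBB

open Complex MeasureTheory Set Filter Topology
open Pool.Agent.DBN Pool.Agent.DBC

/-- BCP: a lower bound for zeta near a nice height -/
theorem p_BCP (h1 : Pool.Agent.DBC.U_BCL) : T_BCP := by
  intro K hK
  obtain ⟨c₀, hc₀, hlow⟩ := (Pool.Agent.SPZ.s4).2 1 one_pos
  refine ⟨641, by norm_num, fun B hB1 => ?_⟩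
  have hev : ∀ᶠ T : ℝ in atTop, (max 2 (1 / c₀) ≤ Real.log T) ∧ K + 8 ≤ T :=
    (Real.tendsto_log_atTop.eventually_ge_atTop _).and (eventually_ge_atTop _)
  obtain ⟨T₀, hT₀⟩ := eventually_atTop.1 hev
  refine ⟨T₀, fun T hT hup hnz s him hre => ?_⟩
  obtain ⟨hA, hKT⟩ := hT₀ T hT
  set L : ℝ := Real.log T with hL
  have hL2 : 2 ≤ L := (le_max_left _ _).trans hA
  have hL1 : 1 ≤ L := by linarith
  have hLc : 1 / c₀ ≤ L := (le_max_right _ _).trans hA
  have hL0 : 0 < L := by linarith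
  have hl0 : 0 < Real.log L := Real.log_pos (by linarith)
  have hexp : ∀ a : ℝ, Real.exp (a * Real.log L) = L ^ a := by
    intro a
    rw [Real.rpow_def_of_pos hL0, mul_comm]
  have hLB : L ≤ L ^ B := by
    calc L = L ^ (1 : ℝ) := (Real.rpow_one L).symm
      _ ≤ L ^ B := Real.rpow_le_rpow_of_exponent_le hL1 hB1
  have hLB0 : 0 < L ^ B := Real.rpow_pos_of_pos hL0 _
  -- `c₀` is at least `L ^ (-B)`
  have hcB : L ^ (-B) ≤ c₀ := by
    rw [Real.rpow_neg hL0.le]
    have h3 := hLc.trans hLB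
    rw [one_div] at h3
    exact inv_le_of_inv_le₀ hc₀ h3
  rcases le_or_gt 2 s.re with h2 | h2
  · have h3 : L ^ (-(641 * B)) ≤ L ^ (-B) :=
      Real.rpow_le_rpow_of_exponent_le hL1 (by linarith)
    exact h3.trans (hcB.trans (hlow s (by linarith)))
  set s₁ : ℂ := ((5 : ℝ) : ℂ) + s.im * I with hs₁
  have hs₁re : s₁.re = 5 := by simp [hs₁]
  have hs₁im : s₁.im = s.im := by simp [hs₁]
  obtain ⟨ρ, hρ⟩ : ∃ ρ : ℝ, ρ = 141 / 32 := ⟨_, rfl⟩
  have hρ0 : 0 < ρ := by rw [hρ]; norm_num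
  obtain ⟨h4, h5⟩ := abs_le.mp him
  have hbre : ∀ v ∈ Metric.ball (0 : ℂ) ρ, 19 / 32 ≤ (s₁ + v).re ∧
      |(s₁ + v).im - T| ≤ K + 6 := by
    intro v hv
    rw [mem_ball_zero_iff] at hv
    have g1 := abs_le.mp ((Complex.abs_re_le_norm v).trans hv.le)
    have g2 := abs_le.mp ((Complex.abs_im_le_norm v).trans hv.le)
    rw [add_re, hs₁re, add_im, hs₁im]
    refine ⟨by linarith [g1.1], ?_⟩
    rw [abs_le]
    constructor <;> linarith [g2.1, g2.2]
  have hdiff : DifferentiableOn ℂ (fun v => riemannZeta (s₁ + v)) (Metric.ball 0 ρ) := by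
    intro v hv
    have hne : s₁ + v ≠ 1 := by
      intro hc
      have g1 := (abs_le.mp (hbre v hv).2).1
      rw [hc, one_im] at g1
      linarith
    have g2 : DifferentiableAt ℂ (fun v => riemannZeta (s₁ + v)) v :=
      DifferentiableAt.comp v (differentiableAt_riemannZeta hne)
        ((differentiableAt_const _).add differentiableAt_id)
    exact g2.differentiableWithinAt
  have hg0 : c₀ ≤ ‖riemannZeta (s₁ + 0)‖ := by
    refine hlow _ ?_
    rw [add_zero, hs₁re]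
    norm_num
  have hval : ∀ v ∈ Metric.ball (0 : ℂ) ρ, riemannZeta (s₁ + v) ≠ 0 ∧
      ‖riemannZeta (s₁ + v)‖ ≤ Real.exp (2 * B * Real.log L) * ‖riemannZeta (s₁ + 0)‖ := by
    intro v hv
    obtain ⟨g1, g3⟩ := hbre v hv
    refine ⟨hnz _ g3 (by linarith), ?_⟩
    refine (hup _ g3 (by linarith)).trans ?_
    rw [hexp]
    have g4 : 1 ≤ L ^ B * c₀ := by
      have h3 := hLc.trans hLB
      rwa [div_le_iff₀ hc₀] at h3
    have g5 : L ^ (2 * B) = L ^ B * L ^ B := by
      rw [← Real.rpow_add hL0]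
      congr 1
      ring
    calc L ^ B = 1 * L ^ B := by rw [one_mul]
      _ ≤ L ^ B * c₀ * L ^ B := by gcongr
      _ = L ^ (2 * B) * c₀ := by
        rw [g5]
        ring
      _ ≤ _ := by gcongr
  obtain ⟨h, ⟨-, -, hh3⟩, hh4⟩ := h1 (fun v => riemannZeta (s₁ + v)) ρ (2 * B * Real.log L) hρ0
    (by positivity) hdiff hval
  set v : ℂ := s - s₁ with hv
  have hvr : v = ((s.re - 5 : ℝ) : ℂ) := by
    apply Complex.ext
    · rw [hv, sub_re, hs₁re, ofReal_re]
    · rw [hv, sub_im, hs₁im, ofReal_im, sub_self]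
  have hvn : ‖v‖ = 5 - s.re := by
    rw [hvr, Complex.norm_real, Real.norm_eq_abs, abs_of_neg (by linarith)]
    ring
  have hvb : v ∈ Metric.ball (0 : ℂ) ρ := by
    rw [mem_ball_zero_iff, hvn]
    linarith
  have g1 : riemannZeta s = riemannZeta (s₁ + 0) * exp (h v) := by
    have h6 := hh3 v hvb
    simp only at h6
    rw [← h6]
    congr 1
    rw [hv]
    ring
  have g2 : ‖h v‖ ≤ 640 * B * Real.log L := by
    refine (hh4 v hvb).trans ?_
    have g3 : 1 / 32 ≤ ρ - ‖v‖ := by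
      rw [hvn]
      linarith
    have g4 : ‖v‖ ≤ 5 := by linarith
    calc 2 * (2 * B * Real.log L) * ‖v‖ / (ρ - ‖v‖)
        ≤ 2 * (2 * B * Real.log L) * 5 / (1 / 32) := by gcongr
      _ = 640 * B * Real.log L := by ring
  have g3 : -(640 * B * Real.log L) ≤ (h v).re := by
    have h6 := (abs_le.mp (Complex.abs_re_le_norm (h v))).1
    linarith
  rw [g1, norm_mul, Complex.norm_exp]
  calc L ^ (-(641 * B)) = L ^ (-B) * L ^ (-(640 * B)) := by
        rw [← Real.rpow_add hL0]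
        congr 1
        ring
    _ ≤ ‖riemannZeta (s₁ + 0)‖ * Real.exp (h v).re := by
        refine mul_le_mul (hcB.trans hg0) ?_ (by positivity) (norm_nonneg _)
        rw [← hexp]
        refine Real.exp_le_exp.mpr ?_
        linarith

end Pool.Agent.DBB
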