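import Pool.Agent.DBB.Targets2

/-! DBB, block COR: the correlation of two sawtooth increments over a common period. -/

set_option autoImplicit false

namespace Pool.Agent.DBB

open MeasureTheory Set Filter

namespace COR_

theorem meas (H : ℝ) (k : ℕ) : Measurable (ph H k) := by
  have h1 : Measurable fun x : ℝ => Int.fract ((x + H) / k) :=
    measurable_fract.comp ((measurable_id.add_const H).div_const _)
  have h2 : Measurable fun x : ℝ => Int.fract (x / k) :=
    measurable_fract.comp (measurable_id.div_const _)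
  exact h1.sub h2

theorem abs_le (H : ℝ) (k : ℕ) (x : ℝ) : |ph H k x| ≤ 1 := by
  unfold ph
  rw [_root_.abs_le]
  have h1 := Int.fract_nonneg ((x + H) / k)
  have h2 := Int.fract_nonneg (x / k)
  have h3 := Int.fract_lt_one ((x + H) / k)
  have h4 := Int.fract_lt_one (x / k)
  constructor <;> linarith

theorem per (H : ℝ) (k : ℕ) (hk : 1 ≤ k) (x : ℝ) (n : ℕ) : ph H k (x + n * k) = ph H k x := by
  have hk' : (k : ℝ) ≠ 0 := by
    have : (0 : ℝ) < k := by exact_mod_cast hk
    exact this.ne'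
  unfold ph
  have e1 : (x + n * k + H) / (k : ℝ) = (x + H) / k + n := by field_simp; ring
  have e2 : (x + n * k) / (k : ℝ) = x / k + n := by field_simp
  rw [e1, e2, Int.fract_add_natCast, Int.fract_add_natCast]

theorem ii (f : ℝ → ℝ) (hf : Measurable f) (hb : ∀ x, |f x| ≤ 1) (a b : ℝ) :
    IntervalIntegrable f volume a b := by
  have hc : IntervalIntegrable (fun _ : ℝ => (1 : ℝ)) volume a b := intervalIntegrable_const
  exact hc.mono_fun' hf.aestronglyMeasurable
    (Eventually.of_forall fun x => by simpa [Real.norm_eq_abs] using hb x)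

theorem ave (f : ℝ → ℝ) (hf : Measurable f) (hb : ∀ x, |f x| ≤ 1) (n : ℕ) (d : ℝ) :
    ∫ x in (0 : ℝ)..(n * d), f x = ∫ x in (0 : ℝ)..d, ∑ j ∈ Finset.range n, f (x + j * d) := by
  have h1 := intervalIntegral.sum_integral_adjacent_intervals (μ := volume) (f := f)
    (a := fun j : ℕ => (j : ℝ) * d) (n := n) (fun k _ => ii f hf hb _ _)
  simp only [Nat.cast_zero, zero_mul] at h1
  rw [← h1, intervalIntegral.integral_finsetSum]
  · refine Finset.sum_congr rfl fun j _ => ?_
    rw [intervalIntegral.integral_comp_add_right (fun x => f x) ((j : ℝ) * d)]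
    congr 1
    · ring
    · push_cast; ring
  · intro j _
    exact ii _ (hf.comp (measurable_id.add_const _)) (fun x => hb _) _ _

/-- the sum over the translates by `k` -/
theorem tr (hHER : T_HER) (k l : ℕ) (hk : 1 ≤ k) (hl : 1 ≤ l) (y : ℝ) :
    ∑ j ∈ Finset.range (l / Nat.gcd k l), (Int.fract ((y + j * k) / l) - 1 / 2) =
      Int.fract (y / (Nat.gcd k l : ℝ)) - 1 / 2 := by
  obtain ⟨g, hg⟩ : ∃ g, g = Nat.gcd k l := ⟨_, rfl⟩
  have hgp : 0 < g := by rw [hg]; exact Nat.gcd_pos_of_pos_left _ hk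
  have hdl : g ∣ l := hg ▸ Nat.gcd_dvd_right k l
  have hdk : g ∣ k := hg ▸ Nat.gcd_dvd_left k l
  obtain ⟨q, hq⟩ := hdl
  obtain ⟨a, ha⟩ := hdk
  have hq1 : 1 ≤ q := by
    rcases Nat.eq_zero_or_pos q with h | h
    · rw [h] at hq; omega
    · exact h
  have hco : Nat.Coprime a q := by
    have h1 := Nat.coprime_div_gcd_div_gcd (m := k) (n := l) (by rw [← hg]; exact hgp)
    rw [← hg] at h1
    rwa [ha, hq, Nat.mul_div_cancel_left _ hgp, Nat.mul_div_cancel_left _ hgp] at h1
  rw [← hg]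
  have e0 : l / g = q := by rw [hq, Nat.mul_div_cancel_left _ hgp]
  rw [e0]
  have hgR : (g : ℝ) ≠ 0 := by exact_mod_cast hgp.ne'
  have hqR : (q : ℝ) ≠ 0 := by
    have : (0 : ℝ) < q := by exact_mod_cast hq1
    exact this.ne'
  have hlR : (l : ℝ) = g * q := by rw [hq]; push_cast; ring
  have hkR : (k : ℝ) = g * a := by rw [ha]; push_cast; ring
  have h2 := hHER q (y / l) hq1
  have e1 : (q : ℝ) * (y / l) = y / g := by rw [hlR]; field_simp
  rw [e1] at h2
  rw [← h2]
  refine Finset.sum_nbij (fun j => j * a % q) ?_ ?_ ?_ ?_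
  · intro j _
    exact Finset.mem_range.2 (Nat.mod_lt _ hq1)
  · intro i hi j hj hij
    have hi' := Finset.mem_range.1 (Finset.mem_coe.1 hi)
    have hj' := Finset.mem_range.1 (Finset.mem_coe.1 hj)
    have h3 : i * a ≡ j * a [MOD q] := hij
    have h4 : i ≡ j [MOD q] := Nat.ModEq.cancel_right_of_coprime hco.symm h3
    exact Nat.ModEq.eq_of_lt_of_lt h4 hi' hj'
  · apply Finset.surjOn_of_injOn_of_card_le
    · intro j _
      exact Finset.mem_coe.2 (Finset.mem_range.2 (Nat.mod_lt _ hq1))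
    · intro i hi j hj hij
      have hi' := Finset.mem_range.1 (Finset.mem_coe.1 hi)
      have hj' := Finset.mem_range.1 (Finset.mem_coe.1 hj)
      have h3 : i * a ≡ j * a [MOD q] := hij
      have h4 : i ≡ j [MOD q] := Nat.ModEq.cancel_right_of_coprime hco.symm h3
      exact Nat.ModEq.eq_of_lt_of_lt h4 hi' hj'
    · exact le_rfl
  · intro j _
    have h5 : ((j * a : ℕ) : ℝ) = (q : ℝ) * ((j * a / q : ℕ) : ℝ) + ((j * a % q : ℕ) : ℝ) := by
      exact_mod_cast (Nat.div_add_mod (j * a) q).symm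
    have e2 : (y + j * k) / (l : ℝ) =
        y / l + ((j * a % q : ℕ) : ℝ) / q + ((j * a / q : ℕ) : ℝ) := by
      have e3 : (j : ℝ) * k / l = ((j * a : ℕ) : ℝ) / q := by
        rw [hlR, hkR]; push_cast; field_simp
      rw [add_div, e3, h5]
      field_simp
      ring
    rw [e2, Int.fract_add_natCast]

theorem trp (hHER : T_HER) (H : ℝ) (k l : ℕ) (hk : 1 ≤ k) (hl : 1 ≤ l) (x : ℝ) :
    ∑ j ∈ Finset.range (l / Nat.gcd k l), ph H l (x + j * k) = ph H (Nat.gcd k l) x := by
  have h1 := tr hHER k l hk hl (x + H)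
  have h2 := tr hHER k l hk hl x
  unfold ph
  have e : ∀ j : ℕ, Int.fract ((x + j * k + H) / (l : ℝ)) - Int.fract ((x + j * k) / (l : ℝ)) =
      (Int.fract ((x + H + j * k) / (l : ℝ)) - 1 / 2) -
        (Int.fract ((x + j * k) / (l : ℝ)) - 1 / 2) := by
    intro j
    have : x + (j : ℝ) * k + H = x + H + j * k := by ring
    rw [this]; ring
  rw [Finset.sum_congr rfl fun j _ => e j, Finset.sum_sub_distrib, h1, h2]
  ring

/-- the mean of the increment over a period is `0` -/
theorem mean (H : ℝ) (g : ℕ) (hg : 1 ≤ g) : ∫ x in (0 : ℝ)..(g : ℝ), ph H g x = 0 := by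
  have hgR : (0 : ℝ) < g := by exact_mod_cast hg
  have hm : Measurable fun x : ℝ => Int.fract (x / (g : ℝ)) :=
    measurable_fract.comp (measurable_id.div_const _)
  have hb : ∀ x : ℝ, |Int.fract (x / (g : ℝ))| ≤ 1 := by
    intro x
    rw [abs_of_nonneg (Int.fract_nonneg _)]
    exact (Int.fract_lt_one _).le
  have hper : Function.Periodic (fun x : ℝ => Int.fract (x / (g : ℝ))) (g : ℝ) := by
    intro x
    show Int.fract ((x + g) / (g : ℝ)) = Int.fract (x / (g : ℝ))
    have : (x + g) / (g : ℝ) = x / g + 1 := by field_simp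
    rw [this, Int.fract_add_one]
  have h1 : ∫ x in (0 : ℝ)..(g : ℝ), Int.fract ((x + H) / (g : ℝ)) =
      ∫ x in (0 : ℝ)..(g : ℝ), Int.fract (x / (g : ℝ)) := by
    rw [intervalIntegral.integral_comp_add_right (fun x => Int.fract (x / (g : ℝ))) H]
    have h2 := hper.intervalIntegral_add_eq (0 + H) 0
    rw [zero_add, zero_add, add_comm] at h2
    rw [zero_add]
    exact h2
  unfold ph
  rw [intervalIntegral.integral_sub, h1, sub_self]
  · exact ii _ (hm.comp (measurable_id.add_const H)) (fun x => hb _) _ _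
  · exact ii _ hm hb _ _

/-- the increment takes the two values `fract (H/g)` and `fract (H/g) - 1` -/
theorem two (H : ℝ) (g : ℕ) (x : ℝ) : ph H g x ^ 2 =
    (2 * Int.fract (H / g) - 1) * ph H g x + Int.fract (H / g) * (1 - Int.fract (H / g)) := by
  have e0 : (x + H) / (g : ℝ) = x / g + H / g := add_div _ _ _
  obtain ⟨z, hz⟩ := Int.fract_add (x / (g : ℝ)) (H / g)
  unfold ph
  rw [e0]
  set a := Int.fract (x / (g : ℝ)) with hadef
  set b := Int.fract (H / (g : ℝ)) with hbdef
  set c := Int.fract (x / (g : ℝ) + H / g) with hcdef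
  have a0 : 0 ≤ a := Int.fract_nonneg _
  have a1 : a < 1 := Int.fract_lt_one _
  have b0 : 0 ≤ b := Int.fract_nonneg _
  have b1 : b < 1 := Int.fract_lt_one _
  have c0 : 0 ≤ c := Int.fract_nonneg _
  have c1 : c < 1 := Int.fract_lt_one _
  have z1 : (z : ℝ) < 1 := by rw [← hz]; linarith
  have z2 : (-2 : ℝ) < z := by rw [← hz]; linarith
  have z1' : z < 1 := by exact_mod_cast z1
  have z2' : -2 < z := by exact_mod_cast z2
  have hz' : z = 0 ∨ z = -1 := by omega
  rcases hz' with h | h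
  · rw [h] at hz
    have : c = a + b := by push_cast at hz; linarith
    rw [this]; ring
  · rw [h] at hz
    have : c = a + b - 1 := by push_cast at hz; linarith
    rw [this]; ring

theorem sqi (H : ℝ) (g : ℕ) (hg : 1 ≤ g) : ∫ x in (0 : ℝ)..(g : ℝ), ph H g x ^ 2 =
    g * (Int.fract (H / g) * (1 - Int.fract (H / g))) := by
  have h1 : ∫ x in (0 : ℝ)..(g : ℝ), ph H g x ^ 2 = ∫ x in (0 : ℝ)..(g : ℝ),
      ((2 * Int.fract (H / g) - 1) * ph H g x +
        Int.fract (H / g) * (1 - Int.fract (H / g))) :=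
    intervalIntegral.integral_congr fun x _ => two H g x
  rw [h1, intervalIntegral.integral_add, intervalIntegral.integral_const_mul, mean H g hg,
    intervalIntegral.integral_const]
  · simp
  · exact (ii _ (meas H g) (abs_le H g) _ _).const_mul _
  · exact intervalIntegrable_const

end COR_

open COR_ in
theorem p_COR (hHER : T_HER) : T_COR := by
  intro k l H hk hl hH
  obtain ⟨g, hg⟩ : ∃ g, g = Nat.gcd k l := ⟨_, rfl⟩
  have hgp : 1 ≤ g := by rw [hg]; exact Nat.gcd_pos_of_pos_left _ hk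
  have hgR : (0 : ℝ) < g := by exact_mod_cast hgp
  have hdl : g ∣ l := hg ▸ Nat.gcd_dvd_right k l
  have hdk : g ∣ k := hg ▸ Nat.gcd_dvd_left k l
  have hmk := meas H k
  have hml := meas H l
  have hmg := meas H g
  have hbd : ∀ (k l : ℕ) (x : ℝ), |ph H k x * ph H l x| ≤ 1 := fun k l x => by
    rw [abs_mul]
    exact mul_le_one₀ (COR_.abs_le H k x) (abs_nonneg _) (COR_.abs_le H l x)
  have elcm : (Nat.lcm k l : ℝ) = ((l / g : ℕ) : ℝ) * (k : ℝ) := by
    have : Nat.lcm k l = l / g * k := by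
      rw [Nat.lcm, ← hg, Nat.mul_comm, Nat.div_mul_right_comm hdl]
    rw [this]; push_cast; ring
  have h1 : ∫ x in (0 : ℝ)..(Nat.lcm k l : ℝ), ph H k x * ph H l x =
      ∫ x in (0 : ℝ)..(k : ℝ), ph H k x * ph H g x := by
    rw [elcm, ave (fun x => ph H k x * ph H l x) (hmk.mul hml) (hbd k l)]
    refine intervalIntegral.integral_congr fun x _ => ?_
    show ∑ j ∈ Finset.range (l / g), ph H k (x + j * k) * ph H l (x + j * k) = _
    have h2 := trp hHER H k l hk hl x
    rw [← hg] at h2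
    rw [← h2, Finset.mul_sum]
    exact Finset.sum_congr rfl fun j _ => by rw [per H k hk x j]
  have ek : (k : ℝ) = ((k / g : ℕ) : ℝ) * (g : ℝ) := by
    have : k = k / g * g := (Nat.div_mul_cancel hdk).symm
    exact_mod_cast this
  have h3 : ∫ x in (0 : ℝ)..(k : ℝ), ph H k x * ph H g x =
      ∫ x in (0 : ℝ)..(g : ℝ), ph H g x ^ 2 := by
    conv_lhs => rw [ek]
    rw [ave (fun x => ph H k x * ph H g x) (hmk.mul hmg) (hbd k g)]
    refine intervalIntegral.integral_congr fun x _ => ?_
    show ∑ j ∈ Finset.range (k / g), ph H k (x + j * g) * ph H g (x + j * g) = ph H g x ^ 2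
    have h2 := trp hHER H g k hgp hk x
    have e : Nat.gcd g k = g := Nat.gcd_eq_left hdk
    rw [e] at h2
    have h4 : ∑ j ∈ Finset.range (k / g), ph H k (x + j * g) * ph H g (x + j * g) =
        (∑ j ∈ Finset.range (k / g), ph H k (x + j * g)) * ph H g x := by
      rw [Finset.sum_mul]
      exact Finset.sum_congr rfl fun j _ => by rw [per H g hgp x j]
    rw [h4, h2, pow_two]
  rw [h1, h3, sqi H g hgp]
  have f0 := Int.fract_nonneg (H / (g : ℝ))
  have f1 := Int.fract_lt_one (H / (g : ℝ))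
  have f2 : Int.fract (H / (g : ℝ)) ≤ H / g := by
    have h4 : (0 : ℝ) ≤ (⌊H / (g : ℝ)⌋ : ℝ) := by
      exact_mod_cast Int.floor_nonneg.2 (div_nonneg hH hgR.le)
    have h5 := Int.self_sub_floor (H / (g : ℝ))
    linarith
  refine ⟨mul_nonneg hgR.le (mul_nonneg f0 (by linarith)), ?_⟩
  calc (g : ℝ) * (Int.fract (H / g) * (1 - Int.fract (H / g))) ≤ g * Int.fract (H / g) := by
        refine mul_le_mul_of_nonneg_left ?_ hgR.le
        nlinarith
    _ ≤ g * (H / g) := mul_le_mul_of_nonneg_left f2 hgR.le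
    _ = H := by field_simp

end Pool.Agent.DBB
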