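import Pool.Agent.DBB.Targets2

/-!
# DBB, CZV: pair correlation of the sawtooth increments over `[Z, 2 Z]`
-/

set_option autoImplicit false

namespace Pool.Agent.DBB

open Complex MeasureTheory Set Filter

namespace CZV_

/-- the increments are at most `1` -/
theorem abs_ph_le (H : ℝ) (k : ℕ) (x : ℝ) : |ph H k x| ≤ 1 := by
  unfold ph
  have h1 := Int.fract_nonneg ((x + H) / (k : ℝ))
  have h2 := Int.fract_lt_one ((x + H) / (k : ℝ))
  have h3 := Int.fract_nonneg (x / (k : ℝ))
  have h4 := Int.fract_lt_one (x / (k : ℝ))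
  rw [abs_le]
  constructor <;> linarith

/-- periodicity -/
theorem ph_add (H : ℝ) (k q : ℕ) (hk : 1 ≤ k) (x : ℝ) :
    ph H k (x + ((k * q : ℕ) : ℝ)) = ph H k x := by
  have hk0 : (k : ℝ) ≠ 0 := by
    have : (0 : ℝ) < k := by exact_mod_cast hk
    exact this.ne'
  unfold ph
  have h1 : (x + ((k * q : ℕ) : ℝ) + H) / (k : ℝ) = (x + H) / k + (q : ℕ) := by
    push_cast
    field_simp
    ring
  have h2 : (x + ((k * q : ℕ) : ℝ)) / (k : ℝ) = x / k + (q : ℕ) := by
    push_cast
    field_simp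
  rw [h1, h2, Int.fract_add_natCast, Int.fract_add_natCast]

/-- measurability -/
theorem measurable_ph (H : ℝ) (k : ℕ) : Measurable (ph H k) := by
  unfold ph
  fun_prop

end CZV_

theorem p_CZV (h1 : T_COR) : T_CZV := by
  intro k l H Z hk hl hH hZ
  obtain ⟨hc0, hc1⟩ := h1 k l H hk hl hH
  set f : ℝ → ℝ := fun x => ph H k x * ph H l x with hf
  have hlcm : 0 < Nat.lcm k l := Nat.lcm_pos (by omega) (by omega)
  set m : ℝ := (Nat.lcm k l : ℝ) with hm
  have hm0 : 0 < m := by
    rw [hm]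
    exact_mod_cast hlcm
  have hb : ∀ x, ‖f x‖ ≤ 1 := by
    intro x
    rw [hf, Real.norm_eq_abs, abs_mul]
    calc |ph H k x| * |ph H l x| ≤ 1 * 1 :=
          mul_le_mul (CZV_.abs_ph_le H k x) (CZV_.abs_ph_le H l x) (abs_nonneg _) zero_le_one
      _ = 1 := one_mul 1
  have hper : Function.Periodic f m := by
    intro x
    obtain ⟨q, hq⟩ := Nat.dvd_lcm_left k l
    obtain ⟨r, hr⟩ := Nat.dvd_lcm_right k l
    have e1 : ph H k (x + m) = ph H k x := by
      rw [hm, hq]
      exact CZV_.ph_add H k q hk x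
    have e2 : ph H l (x + m) = ph H l x := by
      rw [hm, hr]
      exact CZV_.ph_add H l r hl x
    simp only [hf, e1, e2]
  have hmeas : Measurable f := (CZV_.measurable_ph H k).mul (CZV_.measurable_ph H l)
  have hint : ∀ a b : ℝ, IntervalIntegrable f volume a b := by
    intro a b
    have h2 : IntervalIntegrable (fun _ : ℝ => (1 : ℝ)) volume a b := intervalIntegrable_const
    exact h2.mono_fun hmeas.aestronglyMeasurable
      (Filter.Eventually.of_forall fun x => by simpa using hb x)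
  set N : ℕ := ⌊Z / m⌋₊ with hN
  have hN1 : (N : ℝ) ≤ Z / m := Nat.floor_le (by positivity)
  have hN2 : Z / m < N + 1 := Nat.lt_floor_add_one _
  have hN3 : (N : ℝ) * m ≤ Z := (le_div_iff₀ hm0).1 hN1
  have hN4 : Z < (N + 1) * m := (div_lt_iff₀ hm0).1 hN2
  have hsplit : ∫ x in Z..(2 * Z), f x =
      (∫ x in Z..(Z + N * m), f x) + ∫ x in (Z + N * m)..(2 * Z), f x :=
    (intervalIntegral.integral_add_adjacent_intervals (hint _ _) (hint _ _)).symm
  have hfirst : ∫ x in Z..(Z + N * m), f x = N * ∫ x in (0 : ℝ)..m, f x := by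
    have h3 := hper.intervalIntegral_add_zsmul_eq (N : ℤ) Z hint
    have h4 := hper.intervalIntegral_add_eq Z 0
    rw [h4, zero_add] at h3
    simpa using h3
  have hsecond : ‖∫ x in (Z + N * m)..(2 * Z), f x‖ ≤ 1 * |2 * Z - (Z + N * m)| :=
    intervalIntegral.norm_integral_le_of_norm_le_const fun x _ => hb x
  rw [one_mul, Real.norm_eq_abs] at hsecond
  have hl2 : |2 * Z - (Z + N * m)| ≤ m := by
    rw [abs_le]
    constructor <;> linarith
  have hf0 : |(N : ℝ) * ∫ x in (0 : ℝ)..m, f x| ≤ Z * H / m := by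
    have h5 : 0 ≤ (N : ℝ) * ∫ x in (0 : ℝ)..m, f x := mul_nonneg (Nat.cast_nonneg N) hc0
    rw [abs_of_nonneg h5]
    calc (N : ℝ) * ∫ x in (0 : ℝ)..m, f x ≤ Z / m * H :=
          mul_le_mul hN1 hc1 hc0 (by positivity)
      _ = Z * H / m := by ring
  change |∫ x in Z..(2 * Z), f x| ≤ Z * H / m + m
  rw [hsplit, hfirst]
  exact (abs_add_le _ _).trans (add_le_add hf0 (hsecond.trans hl2))

end Pool.Agent.DBB
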