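import Pool.Agent.DBB.Targets2

/-!
# DBB, block DV4: the sum of `d(n)^2 / n`
-/

set_option autoImplicit false

namespace Pool.Agent.DBB

open Finset

namespace DV4_

/-- the parametrisation of a number with two of its divisors -/
def phi (t : (_ : ℕ) × (ℕ × ℕ)) : ℕ × ℕ × ℕ × ℕ :=
  (Nat.gcd t.2.1 t.2.2, t.2.1 / Nat.gcd t.2.1 t.2.2, t.2.2 / Nat.gcd t.2.1 t.2.2,
    t.1 / Nat.lcm t.2.1 t.2.2)

/-- the weight -/
noncomputable def wt (t : ℕ × ℕ × ℕ × ℕ) : ℝ :=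
  (1 : ℝ) / t.1 * (1 / t.2.1 * (1 / t.2.2.1 * (1 / t.2.2.2)))

lemma key {n a b : ℕ} (hn : n ≠ 0) (ha : a ∣ n) (hb : b ∣ n) :
    0 < Nat.gcd a b ∧ Nat.gcd a b * (a / Nat.gcd a b) = a ∧
    Nat.gcd a b * (b / Nat.gcd a b) = b ∧
    Nat.gcd a b * (a / Nat.gcd a b) * (b / Nat.gcd a b) * (n / Nat.lcm a b) = n := by
  have ha0 : a ≠ 0 := fun h => hn (Nat.eq_zero_of_zero_dvd (h ▸ ha))
  have hg : 0 < Nat.gcd a b := Nat.gcd_pos_of_pos_left _ (Nat.pos_of_ne_zero ha0)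
  have h1 : Nat.gcd a b * (a / Nat.gcd a b) = a := Nat.mul_div_cancel' (Nat.gcd_dvd_left a b)
  have h2 : Nat.gcd a b * (b / Nat.gcd a b) = b := Nat.mul_div_cancel' (Nat.gcd_dvd_right a b)
  refine ⟨hg, h1, h2, ?_⟩
  have h3 : Nat.lcm a b = a * (b / Nat.gcd a b) := by
    rw [Nat.lcm, Nat.mul_div_assoc _ (Nat.gcd_dvd_right a b)]
  rw [h1, ← h3]
  exact Nat.mul_div_cancel' (Nat.lcm_dvd ha hb)

lemma inj (N : ℕ) : Set.InjOn phi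
    (((Icc 1 N).sigma fun n => n.divisors ×ˢ n.divisors :
      Finset ((_ : ℕ) × (ℕ × ℕ))) : Set ((_ : ℕ) × (ℕ × ℕ))) := by
  rintro ⟨n, a, b⟩ h ⟨n', a', b'⟩ h' he
  simp only [coe_sigma, Set.mem_sigma_iff, mem_coe, mem_Icc, mem_product,
    Nat.mem_divisors] at h h'
  obtain ⟨-, k1, k2, k3⟩ := key h.2.1.2 h.2.1.1 h.2.2.1
  obtain ⟨-, k1', k2', k3'⟩ := key h'.2.1.2 h'.2.1.1 h'.2.2.1
  simp only [phi, Prod.mk.injEq] at he
  obtain ⟨e1, e2, e3, e4⟩ := he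
  rw [e2, e1] at k1
  rw [e3, e1] at k2
  rw [e4, e3, e2, e1] at k3
  have q1 : a = a' := k1.symm.trans k1'
  have q2 : b = b' := k2.symm.trans k2'
  have q3 : n = n' := k3.symm.trans k3'
  subst q1 q2 q3
  rfl

lemma harm (N : ℕ) : ∑ m ∈ Icc 1 N, (1 : ℝ) / m ≤ 1 + Real.log N := by
  have h := harmonic_le_one_add_log N
  rw [harmonic_eq_sum_Icc] at h
  push_cast at h
  simpa only [one_div] using h

lemma four (N : ℕ) : ∑ t ∈ Icc 1 N ×ˢ Icc 1 N ×ˢ Icc 1 N ×ˢ Icc 1 N,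
    (1 : ℝ) / t.1 * (1 / t.2.1 * (1 / t.2.2.1 * (1 / t.2.2.2))) =
      (∑ m ∈ Icc 1 N, (1 : ℝ) / m) ^ 4 := by
  simp only [sum_product, ← mul_sum, ← sum_mul]
  ring

lemma main (N : ℕ) :
    ∑ n ∈ Icc 1 N, ((n.divisors.card : ℝ)) ^ 2 / n ≤ (∑ m ∈ Icc 1 N, (1 : ℝ) / m) ^ 4 := by
  have h1 : ∑ n ∈ Icc 1 N, ((n.divisors.card : ℝ)) ^ 2 / n =
      ∑ t ∈ (Icc 1 N).sigma fun n => n.divisors ×ˢ n.divisors, (1 : ℝ) / t.1 := by
    rw [sum_sigma]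
    refine sum_congr rfl fun n _ => ?_
    simp only [sum_const, card_product, nsmul_eq_mul]
    push_cast
    ring
  rw [h1, ← four]
  have h2 : ∀ t ∈ (Icc 1 N).sigma fun n => n.divisors ×ˢ n.divisors, (1 : ℝ) / t.1 =
      wt (phi t) := by
    rintro ⟨n, a, b⟩ h
    simp only [mem_sigma, mem_Icc, mem_product, Nat.mem_divisors] at h
    obtain ⟨-, -, -, k3⟩ := key h.2.1.2 h.2.1.1 h.2.2.1
    simp only [phi, wt]
    have k4 : (n : ℝ) = (Nat.gcd a b : ℝ) * ((a / Nat.gcd a b : ℕ) : ℝ) *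
        ((b / Nat.gcd a b : ℕ) : ℝ) * ((n / Nat.lcm a b : ℕ) : ℝ) := by
      exact_mod_cast k3.symm
    conv_lhs => rw [k4]
    simp only [one_div, mul_inv]
    ring
  rw [sum_congr rfl h2, ← sum_image (f := wt) (inj N)]
  refine sum_le_sum_of_subset_of_nonneg (f := wt) ?_ fun _ _ _ => by unfold wt; positivity
  intro x hx
  obtain ⟨⟨n, a, b⟩, ht, rfl⟩ := mem_image.1 hx
  simp only [mem_sigma, mem_Icc, mem_product, Nat.mem_divisors] at ht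
  obtain ⟨k0, k1, k2, k3⟩ := key ht.2.1.2 ht.2.1.1 ht.2.2.1
  have hn0 : 0 < n := ht.1.1
  have hdv : ∀ m : ℕ, m ∣ n → 1 ≤ m ∧ m ≤ N := fun m hm =>
    ⟨Nat.pos_of_dvd_of_pos hm hn0, (Nat.le_of_dvd hn0 hm).trans ht.1.2⟩
  simp only [phi, mem_product, mem_Icc]
  refine ⟨hdv _ ((Nat.gcd_dvd_left a b).trans ht.2.1.1), hdv _ ?_, hdv _ ?_, hdv _ ?_⟩
  · exact (Nat.div_dvd_of_dvd (Nat.gcd_dvd_left a b)).trans ht.2.1.1
  · exact (Nat.div_dvd_of_dvd (Nat.gcd_dvd_right a b)).trans ht.2.2.1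
  · exact Nat.div_dvd_of_dvd (Nat.lcm_dvd ht.2.1.1 ht.2.2.1)

end DV4_

theorem p_DV4 : T_DV4 := by
  intro N _
  refine (DV4_.main N).trans ?_
  exact pow_le_pow_left₀ (sum_nonneg fun _ _ => by positivity) (DV4_.harm N) 4

end Pool.Agent.DBB
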