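import Pool.Agent.DBB.Targets2

/-!
# DBB: GSM, the sum of the numbers `1 / lcm k l`
-/

set_option autoImplicit false

namespace Pool.Agent.DBB

namespace GSM_

theorem harm (Y : ℕ) : ∑ n ∈ Finset.Icc 1 Y, 1 / (n : ℝ) ≤ 1 + Real.log Y := by
  have h := harmonic_le_one_add_log Y
  have h2 : ((harmonic Y : ℚ) : ℝ) = ∑ n ∈ Finset.Icc 1 Y, 1 / (n : ℝ) := by
    rw [harmonic_eq_sum_Icc]
    push_cast
    refine Finset.sum_congr rfl fun n _ => ?_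
    rw [one_div]
  rw [← h2]
  exact h

/-- the map `(k, l) ↦ (g, k / g, l / g)` -/
def phi (p : ℕ × ℕ) : ℕ × ℕ × ℕ := (Nat.gcd p.1 p.2, p.1 / Nat.gcd p.1 p.2, p.2 / Nat.gcd p.1 p.2)

theorem phi_inj : Function.Injective phi := by
  rintro ⟨k, l⟩ ⟨k', l'⟩ h
  unfold phi at h
  simp only [Prod.mk.injEq] at h
  obtain ⟨h1, h2, h3⟩ := h
  have e1 := Nat.mul_div_cancel' (Nat.gcd_dvd_left k l)
  have e2 := Nat.mul_div_cancel' (Nat.gcd_dvd_right k l)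
  have e3 := Nat.mul_div_cancel' (Nat.gcd_dvd_left k' l')
  have e4 := Nat.mul_div_cancel' (Nat.gcd_dvd_right k' l')
  rw [h2, h1] at e1
  rw [h3, h1] at e2
  rw [Prod.mk.injEq]
  exact ⟨e1.symm.trans e3, e2.symm.trans e4⟩

theorem phi_mem (Y : ℕ) (p : ℕ × ℕ) (h : p ∈ Finset.Icc 1 Y ×ˢ Finset.Icc 1 Y) :
    phi p ∈ Finset.Icc 1 Y ×ˢ (Finset.Icc 1 Y ×ˢ Finset.Icc 1 Y) := by
  simp only [Finset.mem_product, Finset.mem_Icc] at h ⊢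
  obtain ⟨⟨h1, h2⟩, h3, h4⟩ := h
  have hg : 0 < Nat.gcd p.1 p.2 := Nat.gcd_pos_of_pos_left _ h1
  have hl : Nat.gcd p.1 p.2 ≤ p.1 := Nat.gcd_le_left _ h1
  have hr : Nat.gcd p.1 p.2 ≤ p.2 := Nat.gcd_le_right _ h3
  unfold phi
  refine ⟨⟨hg, hl.trans h2⟩, ⟨Nat.div_pos hl hg, (Nat.div_le_self _ _).trans h2⟩,
    Nat.div_pos hr hg, (Nat.div_le_self _ _).trans h4⟩

theorem val (p : ℕ × ℕ) (h1 : 1 ≤ p.1) :
    1 / (Nat.lcm p.1 p.2 : ℝ) = 1 / ((phi p).1 : ℝ) * (1 / ((phi p).2.1 : ℝ) *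
      (1 / ((phi p).2.2 : ℝ))) := by
  unfold phi
  simp only
  have hg : 0 < Nat.gcd p.1 p.2 := Nat.gcd_pos_of_pos_left _ h1
  have e1 := Nat.mul_div_cancel' (Nat.gcd_dvd_left p.1 p.2)
  have e2 := Nat.mul_div_cancel' (Nat.gcd_dvd_right p.1 p.2)
  have e3 := Nat.gcd_mul_lcm p.1 p.2
  have e4 : Nat.lcm p.1 p.2 = Nat.gcd p.1 p.2 * ((p.1 / Nat.gcd p.1 p.2) *
      (p.2 / Nat.gcd p.1 p.2)) := by
    refine Nat.eq_of_mul_eq_mul_left hg ?_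
    rw [e3]
    calc p.1 * p.2 = (Nat.gcd p.1 p.2 * (p.1 / Nat.gcd p.1 p.2)) *
          (Nat.gcd p.1 p.2 * (p.2 / Nat.gcd p.1 p.2)) := by rw [e1, e2]
      _ = _ := by ring
  rw [e4]
  push_cast
  simp only [one_div, mul_inv]

end GSM_

open GSM_ in
theorem p_GSM : T_GSM := by
  intro Y hY
  have hH := harm Y
  have hH0 : 0 ≤ ∑ n ∈ Finset.Icc 1 Y, 1 / (n : ℝ) := Finset.sum_nonneg fun n _ => by positivity
  have h1 : ∑ k ∈ Finset.Icc 1 Y, ∑ l ∈ Finset.Icc 1 Y, 1 / (Nat.lcm k l : ℝ) =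
      ∑ p ∈ Finset.Icc 1 Y ×ˢ Finset.Icc 1 Y, 1 / ((phi p).1 : ℝ) * (1 / ((phi p).2.1 : ℝ) *
        (1 / ((phi p).2.2 : ℝ))) := by
    rw [← Finset.sum_product']
    refine Finset.sum_congr rfl fun p hp => ?_
    exact val p (Finset.mem_Icc.1 (Finset.mem_product.1 hp).1).1
  have h2 : ∑ p ∈ Finset.Icc 1 Y ×ˢ Finset.Icc 1 Y, 1 / ((phi p).1 : ℝ) *
      (1 / ((phi p).2.1 : ℝ) * (1 / ((phi p).2.2 : ℝ))) =
      ∑ x ∈ (Finset.Icc 1 Y ×ˢ Finset.Icc 1 Y).image phi, 1 / (x.1 : ℝ) *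
        (1 / (x.2.1 : ℝ) * (1 / (x.2.2 : ℝ))) :=
    (Finset.sum_image (f := fun x : ℕ × ℕ × ℕ => 1 / (x.1 : ℝ) *
        (1 / (x.2.1 : ℝ) * (1 / (x.2.2 : ℝ)))) fun a _ b _ h => phi_inj h).symm
  have h3 : ∑ x ∈ (Finset.Icc 1 Y ×ˢ Finset.Icc 1 Y).image phi, 1 / (x.1 : ℝ) *
        (1 / (x.2.1 : ℝ) * (1 / (x.2.2 : ℝ))) ≤
      ∑ x ∈ Finset.Icc 1 Y ×ˢ (Finset.Icc 1 Y ×ˢ Finset.Icc 1 Y), 1 / (x.1 : ℝ) *
        (1 / (x.2.1 : ℝ) * (1 / (x.2.2 : ℝ))) := by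
    refine Finset.sum_le_sum_of_subset_of_nonneg ?_ fun x _ _ => by positivity
    intro x hx
    obtain ⟨p, hp, rfl⟩ := Finset.mem_image.1 hx
    exact phi_mem Y p hp
  have h4 : ∑ x ∈ Finset.Icc 1 Y ×ˢ (Finset.Icc 1 Y ×ˢ Finset.Icc 1 Y), 1 / (x.1 : ℝ) *
        (1 / (x.2.1 : ℝ) * (1 / (x.2.2 : ℝ))) = (∑ n ∈ Finset.Icc 1 Y, 1 / (n : ℝ)) ^ 3 := by
    rw [Finset.sum_product]
    simp only [Finset.sum_product, ← Finset.mul_sum, ← Finset.sum_mul]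
    ring
  rw [h1, h2]
  refine h3.trans ?_
  rw [h4]
  exact pow_le_pow_left₀ hH0 hH 3

end Pool.Agent.DBB
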