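import Pool.Agent.DBB.Targets2

/-!
# DBB, target GXA: the difference of `GG` for `x ≥ 1`
-/

set_option autoImplicit false

namespace Pool.Agent.DBB

open Complex MeasureTheory Set Filter
open Pool.Agent.DBN Pool.Agent.DBC
open scoped ENNReal

theorem p_GXA : T_GXA := by
  intro Y θ x hθ hx
  have hx0 : 0 < x := by linarith
  have h1 : (0 : ℝ) < 1 + θ := by linarith
  have he : Real.exp (-Real.log (1 + θ)) = (1 + θ)⁻¹ := by
    rw [Real.exp_neg, Real.exp_log h1]
  have hi : (1 + θ)⁻¹ ≤ 1 := inv_le_one_of_one_le₀ (by linarith)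
  have hi0 : 0 < (1 + θ)⁻¹ := inv_pos.2 h1
  have hj : 1 / x ≤ 1 := by
    rw [div_le_one hx0]
    exact hx
  have hj0 : 0 < 1 / x := by positivity
  have hk : (1 + θ)⁻¹ * (1 / x) ≤ 1 := by
    calc (1 + θ)⁻¹ * (1 / x) ≤ 1 * 1 := mul_le_mul hi hj hj0.le (by norm_num)
      _ = 1 := by norm_num
  unfold DG GG
  rw [he, if_pos hk, if_pos hj]
  have e1 : ∀ k : ℕ, 1 / ((k : ℝ) * ((1 + θ)⁻¹ * (1 / x))) = (x + θ * x) / k := by
    intro k
    rcases Nat.eq_zero_or_pos k with hk0 | hk0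
    · rw [hk0]
      simp
    · have : (0 : ℝ) < k := by exact_mod_cast hk0
      field_simp
  have e2 : ∀ k : ℕ, 1 / ((k : ℝ) * (1 / x)) = x / k := by
    intro k
    rcases Nat.eq_zero_or_pos k with hk0 | hk0
    · rw [hk0]
      simp
    · have : (0 : ℝ) < k := by exact_mod_cast hk0
      field_simp
  have e3 : ∑ k ∈ Finset.Icc 1 Y, ((ArithmeticFunction.moebius k : ℤ) : ℝ) * ph (θ * x) k x =
      ∑ k ∈ Finset.Icc 1 Y, ((ArithmeticFunction.moebius k : ℤ) : ℝ) *
        Int.fract ((x + θ * x) / k) -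
      ∑ k ∈ Finset.Icc 1 Y, ((ArithmeticFunction.moebius k : ℤ) : ℝ) * Int.fract (x / k) := by
    rw [← Finset.sum_sub_distrib]
    refine Finset.sum_congr rfl fun k _ => ?_
    unfold ph
    ring
  rw [e3]
  simp only [e1, e2]
  ring

end Pool.Agent.DBB
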