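import Pool.Agent.DBB.Targets2
import Pool.Agent.DBC.S_GT

/-!
# DBB, target `T_GXB`: the difference of `GG Y` for the ratio `1 + θ`
-/

set_option autoImplicit false

namespace Pool.Agent.DBB

open Complex MeasureTheory Set Filter
open Pool.Agent.DBN Pool.Agent.DBC

namespace GXB_

theorem abs_cc_le (Y : ℕ) : |GT4_.cc Y| ≤ 1 + Real.log Y := by
  unfold GT4_.cc
  refine (Finset.abs_sum_le_sum_abs _ _).trans ?_
  have h : ∀ k ∈ Finset.Icc 1 Y, |((ArithmeticFunction.moebius k : ℤ) : ℝ) / k| ≤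
      ((k : ℝ))⁻¹ := by
    intro k hk
    rw [Finset.mem_Icc] at hk
    have hk1 : (0 : ℝ) < k := by exact_mod_cast hk.1
    rw [abs_div, abs_of_nonneg hk1.le, div_eq_mul_inv]
    exact mul_le_of_le_one_left (by positivity) (GT4_.abs_moebius_le k)
  refine (Finset.sum_le_sum h).trans ?_
  have h2 := harmonic_le_one_add_log Y
  rw [harmonic_eq_sum_Icc] at h2
  push_cast at h2
  exact h2

end GXB_

open GXB_ GT4_ in
theorem p_GXB : T_GXB := by
  intro Y X θ t hY hX hh0 hh ht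
  have hX0 : 0 < X := by linarith
  have ht0 : 0 < t := lt_of_lt_of_le (by positivity) ht
  obtain ⟨x, hx⟩ : ∃ x : ℝ, x = 1 / t := ⟨_, rfl⟩
  obtain ⟨x', hx'⟩ : ∃ x' : ℝ, x' = x * (1 + θ) := ⟨_, rfl⟩
  have hx0 : 0 < x := by
    rw [hx]
    positivity
  have hxX : x ≤ X := by
    rw [hx, div_le_iff₀ ht0]
    rw [div_le_iff₀ hX0] at ht
    linarith
  have hx'0 : 0 < x' := by
    rw [hx']
    positivity
  have hd : x' - x = θ * x := by
    rw [hx']
    ring
  have hd0 : 0 ≤ x' - x := by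
    rw [hd]
    positivity
  have hθx : θ * x ≤ θ * X := mul_le_mul_of_nonneg_left hxX hh0.le
  have hd2 : x' - x ≤ 1 / 3 := by
    rw [hd]
    linarith
  have e1 : t = 1 / x := by
    rw [hx]
    field_simp
  have e2 : Real.exp (-Real.log (1 + θ)) * t = 1 / x' := by
    rw [hx', Real.exp_neg, Real.exp_log (by linarith), e1]
    field_simp
  have e3 : GG Y t = -(cc Y * x) + ∑ n ∈ Finset.Icc 2 ⌊x⌋₊, am Y n := by
    rw [e1]
    exact GG_eq hY hx0
  have e4 : GG Y (Real.exp (-Real.log (1 + θ)) * t) =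
      -(cc Y * x') + ∑ n ∈ Finset.Icc 2 ⌊x'⌋₊, am Y n := by
    rw [e2]
    exact GG_eq hY hx'0
  obtain ⟨a, ha⟩ : ∃ a : ℝ, a = ∑ n ∈ Finset.Icc 2 ⌊x'⌋₊, am Y n -
      ∑ n ∈ Finset.Icc 2 ⌊x⌋₊, am Y n := ⟨_, rfl⟩
  have e5 : DG Y θ t = a + -(cc Y * (x' - x)) := by
    rw [DG, e3, e4, ha]
    ring
  have hb : (-(cc Y * (x' - x))) ^ 2 ≤ ((1 + Real.log Y) * θ / t) ^ 2 := by
    rw [neg_sq, ← sq_abs]
    refine pow_le_pow_left₀ (abs_nonneg _) ?_ 2
    rw [abs_mul, abs_of_nonneg hd0, hd]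
    calc |cc Y| * (θ * x) ≤ (1 + Real.log Y) * (θ * x) := by
          have := GXB_.abs_cc_le Y
          have h3 : 0 ≤ θ * x := by positivity
          exact mul_le_mul_of_nonneg_right this h3
      _ = (1 + Real.log Y) * θ / t := by
          rw [hx]
          ring
  have hsum0 : ∀ n ∈ Finset.Icc 2 ⌊2 * X⌋₊, 0 ≤ am Y n ^ 2 *
      (if 1 / (n : ℝ) < t ∧ t ≤ (1 + θ) / n then (1 : ℝ) else 0) := by
    intro n _
    split_ifs <;> positivity
  have haa : a ^ 2 ≤ ∑ n ∈ Finset.Icc 2 ⌊2 * X⌋₊, am Y n ^ 2 *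
      (if 1 / (n : ℝ) < t ∧ t ≤ (1 + θ) / n then 1 else 0) := by
    have hf1 : ⌊x⌋₊ ≤ ⌊x'⌋₊ := Nat.floor_le_floor (by linarith)
    have hf2 : ⌊x'⌋₊ ≤ ⌊x⌋₊ + 1 := by
      have g1 : x' < ((⌊x⌋₊ + 1 + 1 : ℕ) : ℝ) := by
        have := Nat.lt_floor_add_one x
        push_cast
        linarith
      have g2 := (Nat.floor_lt hx'0.le).2 g1
      omega
    rcases Nat.lt_or_ge ⌊x⌋₊ ⌊x'⌋₊ with hlt | hge
    · have hN : ⌊x'⌋₊ = ⌊x⌋₊ + 1 := by omega
      rcases Nat.eq_zero_or_pos ⌊x⌋₊ with h0 | h0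
      · have ha0 : a = 0 := by
          rw [ha, hN, h0]
          simp
        rw [ha0]
        have := Finset.sum_nonneg hsum0
        simpa using this
      · have ha1 : a = am Y (⌊x⌋₊ + 1) := by
          rw [ha, hN, Finset.sum_Icc_succ_top (by omega)]
          ring
        have hn1 : ((⌊x⌋₊ + 1 : ℕ) : ℝ) ≤ x' := by
          rw [← hN]
          exact Nat.floor_le hx'0.le
        have hn2 : x < ((⌊x⌋₊ + 1 : ℕ) : ℝ) := by
          have := Nat.lt_floor_add_one x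
          push_cast
          exact this
        have hn0 : (0 : ℝ) < ((⌊x⌋₊ + 1 : ℕ) : ℝ) := by positivity
        have hmem : ⌊x⌋₊ + 1 ∈ Finset.Icc 2 ⌊2 * X⌋₊ := by
          rw [Finset.mem_Icc]
          refine ⟨by omega, Nat.le_floor ?_⟩
          linarith
        have hc : 1 / ((⌊x⌋₊ + 1 : ℕ) : ℝ) < t ∧ t ≤ (1 + θ) / ((⌊x⌋₊ + 1 : ℕ) : ℝ) := by
          constructor
          · rw [e1]
            exact one_div_lt_one_div_of_lt hx0 hn2
          · rw [e1, div_le_div_iff₀ hx0 hn0, one_mul]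
            rw [hx'] at hn1
            linarith
        have hs := Finset.single_le_sum hsum0 hmem
        rw [if_pos hc, mul_one] at hs
        rw [ha1]
        exact hs
    · have hN : ⌊x'⌋₊ = ⌊x⌋₊ := le_antisymm hge hf1
      have ha0 : a = 0 := by
        rw [ha, hN]
        ring
      rw [ha0]
      have := Finset.sum_nonneg hsum0
      simpa using this
  rw [e5]
  calc (a + -(cc Y * (x' - x))) ^ 2 ≤ 2 * a ^ 2 + 2 * (-(cc Y * (x' - x))) ^ 2 := by
        nlinarith [sq_nonneg (a - -(cc Y * (x' - x)))]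
    _ ≤ _ := by linarith

end Pool.Agent.DBB
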