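import Pool.Agent.DBB.Targets2

/-!
# HER: the distribution relation of the sawtooth function
-/

set_option autoImplicit false

namespace Pool.Agent.DBB

namespace HER_

theorem periodic (q : ℕ) (hq : 1 ≤ q) :
    Function.Periodic (fun z : ℝ => ∑ j ∈ Finset.range q, Int.fract (z + j / q))
      (1 / (q : ℝ)) := by
  intro z
  have hq0 : (0 : ℝ) < q := by exact_mod_cast hq
  have h1 := Finset.sum_range_succ (fun j : ℕ => Int.fract (z + (j : ℝ) / q)) q
  have h2 := Finset.sum_range_succ' (fun j : ℕ => Int.fract (z + (j : ℝ) / q)) q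
  have h3 : Int.fract (z + (q : ℝ) / q) = Int.fract z := by
    rw [div_self hq0.ne', Int.fract_add_one]
  have h4 : ∀ j : ℕ, Int.fract (z + 1 / (q : ℝ) + (j : ℝ) / q) =
      Int.fract (z + ((j + 1 : ℕ) : ℝ) / q) := by
    intro j
    congr 1
    push_cast
    ring
  have h5 : Int.fract (z + ((0 : ℕ) : ℝ) / q) = Int.fract z := by simp
  rw [h1, h3, h5] at h2
  simp only [h4]
  linarith

end HER_

theorem p_HER : T_HER := by
  intro q y hq
  have hq0 : (0 : ℝ) < q := by exact_mod_cast hq
  have hy : Int.fract (q * y) / q + ⌊q * y⌋ • (1 / (q : ℝ)) = y := by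
    have h := Int.floor_add_fract ((q : ℝ) * y)
    rw [zsmul_eq_mul]
    field_simp
    linarith
  have h5 := (HER_.periodic q hq).zsmul ⌊(q : ℝ) * y⌋ (Int.fract (q * y) / q)
  rw [hy] at h5
  have h6 : ∀ j ∈ Finset.range q, Int.fract (Int.fract (q * y) / q + (j : ℝ) / q) =
      (Int.fract (q * y) + j) / q := by
    intro j hj
    have hj' : (j : ℝ) + 1 ≤ q := by exact_mod_cast Finset.mem_range.1 hj
    rw [← add_div, Int.fract_eq_self]
    refine ⟨div_nonneg (add_nonneg (Int.fract_nonneg _) (Nat.cast_nonneg _)) hq0.le, ?_⟩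
    rw [div_lt_one hq0]
    have := Int.fract_lt_one ((q : ℝ) * y)
    linarith
  have h7 : ∑ j ∈ Finset.range q, (j : ℝ) = (q : ℝ) * ((q : ℝ) - 1) / 2 := by
    have h := Finset.sum_range_id_mul_two q
    have h' : ((∑ j ∈ Finset.range q, j : ℕ) : ℝ) * 2 = ((q * (q - 1) : ℕ) : ℝ) := by
      exact_mod_cast h
    rw [Nat.cast_mul, Nat.cast_sub hq, Nat.cast_sum] at h'
    push_cast at h'
    linarith
  rw [Finset.sum_sub_distrib, h5, Finset.sum_congr rfl h6, ← Finset.sum_div,
    Finset.sum_add_distrib, h7, Finset.sum_const, Finset.sum_const, Finset.card_range,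
    nsmul_eq_mul, nsmul_eq_mul]
  field_simp
  ring

end Pool.Agent.DBB
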