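import Pool.Agent.DBB.Targets2
import Pool.Agent.DBC.S_LT

/-!
# All times `t ≥ A log log T / (log T)²`: block LT2
-/

set_option autoImplicit false

namespace Pool.Agent.DBB

open Complex MeasureTheory Set Filter
open Pool.Agent.DBN Pool.Agent.DBC
open scoped ENNReal

namespace LT2_

/-- one interval -/
theorem part2 (σ θ : ℝ) (n : ℕ) (hσ : 1 / 2 < σ) (hσ1 : σ ≤ 3 / 4) (h0 : 0 < θ)
    (h13 : θ ≤ 1 / 3) (hn : 2 ≤ n) :
    ((1 + θ) / n) ^ (2 * σ - 1) * ((1 + θ) / n - 1 / n) ≤ 2 * θ * (n : ℝ) ^ (-(2 * σ)) := by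
  have hn0 : (0 : ℝ) < n := by
    have : 0 < n := by omega
    exact_mod_cast this
  have hr : ((1 + θ) / n) ^ (2 * σ - 1) = (1 + θ) ^ (2 * σ - 1) * (n : ℝ) ^ (-(2 * σ)) * n := by
    rw [Real.div_rpow (by linarith) hn0.le]
    have : (n : ℝ) ^ (-(2 * σ)) * n = ((n : ℝ) ^ (2 * σ - 1))⁻¹ := by
      rw [← Real.rpow_neg hn0.le]
      nth_rewrite 2 [← Real.rpow_one (n : ℝ)]
      rw [← Real.rpow_add hn0]
      congr 1
      ring
    rw [mul_assoc, this]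
    rfl
  have hexp : (1 + θ) ^ (2 * σ - 1) ≤ 1 + θ := by
    calc (1 + θ) ^ (2 * σ - 1) ≤ (1 + θ) ^ (1 : ℝ) :=
          Real.rpow_le_rpow_of_exponent_le (by linarith) (by linarith)
      _ = 1 + θ := Real.rpow_one _
  have hnr : 0 ≤ (n : ℝ) ^ (-(2 * σ)) := Real.rpow_nonneg hn0.le _
  have key : (1 + θ) ^ (2 * σ - 1) * θ ≤ 2 * θ := by nlinarith
  rw [hr]
  calc (1 + θ) ^ (2 * σ - 1) * (n : ℝ) ^ (-(2 * σ)) * n * ((1 + θ) / n - 1 / n)
      = ((1 + θ) ^ (2 * σ - 1) * θ) * (n : ℝ) ^ (-(2 * σ)) := by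
        field_simp
        ring
    _ ≤ 2 * θ * (n : ℝ) ^ (-(2 * σ)) := mul_le_mul_of_nonneg_right key hnr

/-- the pointwise bound -/
theorem point (σ X θ t : ℝ) (Y : ℕ) (hσ : 1 / 2 < σ) (hX : 1 ≤ X) (hY : 1 ≤ Y)
    (hθ : 0 < θ) (hθX : 3 * θ * X ≤ 1) (ht : 1 / X < t) (hGT : T_GXB) :
    ENNReal.ofReal (t ^ (2 * σ - 1) * DG Y θ t ^ 2) ≤
    (∑ n ∈ Finset.Icc 2 ⌊2 * X⌋₊, ENNReal.ofReal (2 * am Y n ^ 2) *
      (Ioc (1 / (n : ℝ)) ((1 + θ) / n)).indicator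
        (fun _ => ENNReal.ofReal (((1 + θ) / n) ^ (2 * σ - 1))) t) +
      ENNReal.ofReal (2 * (1 + Real.log Y) ^ 2 * θ ^ 2 * t ^ (2 * σ - 3)) := by
  have hX0 : 0 < X := by linarith
  have h0 : (0 : ℝ) < 1 / X := by positivity
  have ht0 : 0 < t := h0.trans ht
  have hp : 0 ≤ t ^ (2 * σ - 1) := Real.rpow_nonneg ht0.le _
  have hG := hGT Y X θ t hY hX hθ hθX ht.le
  have e3 : t ^ (2 * σ - 1) * (2 * ((1 + Real.log Y) * θ / t) ^ 2) =
      2 * (1 + Real.log Y) ^ 2 * θ ^ 2 * t ^ (2 * σ - 3) := by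
    have : t ^ (2 * σ - 1) = t ^ (2 * σ - 3) * t ^ 2 := by
      rw [← Real.rpow_natCast t 2, ← Real.rpow_add ht0]
      congr 1
      push_cast
      ring
    rw [this]
    field_simp
  have hs : ∀ n ∈ Finset.Icc 2 ⌊2 * X⌋₊, (0 : ℝ) ≤ 2 * am Y n ^ 2 *
      (Ioc (1 / (n : ℝ)) ((1 + θ) / n)).indicator
        (fun _ => ((1 + θ) / n) ^ (2 * σ - 1)) t := by
    intro n _
    refine mul_nonneg (by positivity) (indicator_nonneg (fun _ _ => ?_) _)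
    exact Real.rpow_nonneg (by positivity) _
  have e4 : (∑ n ∈ Finset.Icc 2 ⌊2 * X⌋₊, ENNReal.ofReal (2 * am Y n ^ 2) *
      (Ioc (1 / (n : ℝ)) ((1 + θ) / n)).indicator
        (fun _ => ENNReal.ofReal (((1 + θ) / n) ^ (2 * σ - 1))) t) =
      ENNReal.ofReal (∑ n ∈ Finset.Icc 2 ⌊2 * X⌋₊, 2 * am Y n ^ 2 *
      (Ioc (1 / (n : ℝ)) ((1 + θ) / n)).indicator
        (fun _ => ((1 + θ) / n) ^ (2 * σ - 1)) t) := by
    rw [ENNReal.ofReal_sum_of_nonneg hs]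
    refine Finset.sum_congr rfl fun n _ => ?_
    by_cases hm : t ∈ Ioc (1 / (n : ℝ)) ((1 + θ) / n)
    · rw [indicator_of_mem hm, indicator_of_mem hm]
      exact (ENNReal.ofReal_mul (by positivity)).symm
    · rw [indicator_of_notMem hm, indicator_of_notMem hm, mul_zero, mul_zero,
        ENNReal.ofReal_zero]
  rw [e4, ← ENNReal.ofReal_add (Finset.sum_nonneg hs) (by positivity)]
  refine ENNReal.ofReal_le_ofReal ?_
  refine (mul_le_mul_of_nonneg_left hG hp).trans ?_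
  rw [mul_add, e3]
  refine add_le_add ?_ le_rfl
  rw [Finset.mul_sum, Finset.mul_sum]
  refine Finset.sum_le_sum fun n _ => ?_
  by_cases hm : t ∈ Ioc (1 / (n : ℝ)) ((1 + θ) / n)
  · rw [indicator_of_mem hm, if_pos ⟨hm.1, hm.2⟩]
    have h1 : t ^ (2 * σ - 1) ≤ ((1 + θ) / n) ^ (2 * σ - 1) :=
      Real.rpow_le_rpow ht0.le hm.2 (by linarith)
    nlinarith [sq_nonneg (am Y n)]
  · have hm' : ¬ (1 / (n : ℝ) < t ∧ t ≤ (1 + θ) / n) := fun hc => hm ⟨hc.1, hc.2⟩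
    rw [indicator_of_notMem hm, if_neg hm']
    simp

end LT2_

open LT2_ in
theorem p_LT2 (h1 : T_GXB) (h2 : T_AM2) : T_LT2 := by
  refine ⟨64, by norm_num, fun Y X θ σ hY hX hθ hθX hσ hσ1 => ?_⟩
  have hX0 : 0 < X := by linarith
  have h0 : (0 : ℝ) ≤ 1 / X := by positivity
  have h13 : θ ≤ 1 / 3 := by nlinarith
  have hY1 : (1 : ℝ) ≤ Y := by exact_mod_cast hY
  have hlX : 0 ≤ Real.log X := Real.log_nonneg hX
  have hlY : 0 ≤ Real.log Y := Real.log_nonneg hY1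
  set S : ℝ := ∑ n ∈ Finset.Icc 2 ⌊2 * X⌋₊, am Y n ^ 2 * (n : ℝ) ^ (-(2 * σ)) with hS
  have hS0 : 0 ≤ S := Finset.sum_nonneg fun n _ =>
    mul_nonneg (sq_nonneg _) (Real.rpow_nonneg (Nat.cast_nonneg n) _)
  have hYp : 0 ≤ (Y : ℝ) ^ (-(2 * σ - 1)) := Real.rpow_nonneg (Nat.cast_nonneg Y) _
  have hSb : S ≤ 16 * ((Y : ℝ) ^ (-(2 * σ - 1)) * (1 + Real.log X) ^ 4) := by
    have hN : 1 ≤ ⌊2 * X⌋₊ := by
      rw [Nat.one_le_floor_iff]
      linarith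
    have hN1 : (1 : ℝ) ≤ (⌊2 * X⌋₊ : ℝ) := by exact_mod_cast hN
    have h3 := h2 Y ⌊2 * X⌋₊ σ hY hN hσ.le
    have h4 : Real.log (⌊2 * X⌋₊ : ℝ) ≤ 1 + Real.log X := by
      calc Real.log (⌊2 * X⌋₊ : ℝ) ≤ Real.log (2 * X) :=
            Real.log_le_log (by linarith) (Nat.floor_le (by positivity))
        _ = Real.log 2 + Real.log X := Real.log_mul (by norm_num) hX0.ne'
        _ ≤ 1 + Real.log X := by
            have := Real.log_two_lt_d9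
            linarith
    have h5 : 0 ≤ Real.log (⌊2 * X⌋₊ : ℝ) := Real.log_nonneg hN1
    have h6 : (1 + Real.log (⌊2 * X⌋₊ : ℝ)) ^ 4 ≤ (2 * (1 + Real.log X)) ^ 4 :=
      pow_le_pow_left₀ (by linarith) (by linarith) 4
    calc S ≤ (Y : ℝ) ^ (-(2 * σ - 1)) * (1 + Real.log (⌊2 * X⌋₊ : ℝ)) ^ 4 := h3
      _ ≤ (Y : ℝ) ^ (-(2 * σ - 1)) * (2 * (1 + Real.log X)) ^ 4 :=
          mul_le_mul_of_nonneg_left h6 hYp
      _ = _ := by ring
  have p2 : ∫⁻ t in Ioi (1 / X), ENNReal.ofReal (t ^ (2 * σ - 1) * DG Y θ t ^ 2) ≤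
      ENNReal.ofReal (2 * (2 * θ * S)) +
        ENNReal.ofReal (2 * (1 + Real.log Y) ^ 2 * θ ^ 2 *
          (X ^ (2 - 2 * σ) / (2 - 2 * σ))) := by
    refine (setLIntegral_mono' measurableSet_Ioi fun t ht =>
      point σ X θ t Y hσ hX hY hθ hθX ht h1).trans ?_
    have hmeas : ∀ n : ℕ, Measurable fun t : ℝ => ENNReal.ofReal (2 * am Y n ^ 2) *
      (Ioc (1 / (n : ℝ)) ((1 + θ) / n)).indicator
        (fun _ => ENNReal.ofReal (((1 + θ) / n) ^ (2 * σ - 1))) t := fun n =>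
      (measurable_const.indicator measurableSet_Ioc).const_mul _
    rw [lintegral_add_left (Finset.measurable_fun_sum _ fun n _ => hmeas n),
      Pool.Agent.DBC.LT4_.part3 σ X _ (by linarith) hX (by positivity)]
    refine add_le_add ?_ le_rfl
    rw [lintegral_finsetSum _ fun n _ => hmeas n]
    have e5 : 2 * (2 * θ * S) = ∑ n ∈ Finset.Icc 2 ⌊2 * X⌋₊, 2 * am Y n ^ 2 *
        (2 * θ * (n : ℝ) ^ (-(2 * σ))) := by
      rw [hS, Finset.mul_sum, Finset.mul_sum]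
      refine Finset.sum_congr rfl fun n _ => ?_
      ring
    rw [e5, ENNReal.ofReal_sum_of_nonneg fun n _ => mul_nonneg (by positivity)
      (mul_nonneg (by positivity) (Real.rpow_nonneg (Nat.cast_nonneg n) _))]
    refine Finset.sum_le_sum fun n hn => ?_
    rw [lintegral_const_mul _ (measurable_const.indicator measurableSet_Ioc),
      lintegral_indicator_const measurableSet_Ioc,
      ENNReal.ofReal_mul (p := 2 * am Y n ^ 2) (by positivity)]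
    have hv : ENNReal.ofReal (((1 + θ) / n) ^ (2 * σ - 1)) *
        (volume.restrict (Ioi (1 / X))) (Ioc (1 / (n : ℝ)) ((1 + θ) / n)) ≤
        ENNReal.ofReal (2 * θ * (n : ℝ) ^ (-(2 * σ))) := by
      calc ENNReal.ofReal (((1 + θ) / n) ^ (2 * σ - 1)) *
            (volume.restrict (Ioi (1 / X))) (Ioc (1 / (n : ℝ)) ((1 + θ) / n))
          ≤ ENNReal.ofReal (((1 + θ) / n) ^ (2 * σ - 1)) *
            volume (Ioc (1 / (n : ℝ)) ((1 + θ) / n)) := by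
            gcongr
            exact Measure.restrict_le_self
        _ = ENNReal.ofReal (((1 + θ) / n) ^ (2 * σ - 1) *
            ((1 + θ) / n - 1 / n)) := by
            rw [Real.volume_Ioc, ← ENNReal.ofReal_mul (Real.rpow_nonneg (by positivity) _)]
        _ ≤ _ := ENNReal.ofReal_le_ofReal
            (part2 σ θ n hσ hσ1 hθ h13 (Finset.mem_Icc.1 hn).1)
    gcongr
  rw [setLIntegral_congr Ioi_ae_eq_Ici.symm]
  refine p2.trans ?_
  have hd : 0 < 2 - 2 * σ := by linarith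
  have hXp : 0 ≤ X ^ (2 - 2 * σ) := Real.rpow_nonneg hX0.le _
  rw [← ENNReal.ofReal_add (by positivity) (by positivity)]
  refine ENNReal.ofReal_le_ofReal ?_
  have e7 : X ^ (2 - 2 * σ) / (2 - 2 * σ) ≤ 2 * X ^ (2 - 2 * σ) := by
    rw [div_le_iff₀ hd]
    nlinarith
  have e8 : 2 * (1 + Real.log Y) ^ 2 * θ ^ 2 * (X ^ (2 - 2 * σ) / (2 - 2 * σ)) ≤
      2 * (1 + Real.log Y) ^ 2 * θ ^ 2 * (2 * X ^ (2 - 2 * σ)) :=
    mul_le_mul_of_nonneg_left e7 (by positivity)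
  have e9 : 2 * (2 * θ * S) ≤
      2 * (2 * θ * (16 * ((Y : ℝ) ^ (-(2 * σ - 1)) * (1 + Real.log X) ^ 4))) := by
    gcongr
  have e10 : 0 ≤ (1 + Real.log Y) ^ 2 * θ ^ 2 * X ^ (2 - 2 * σ) := by positivity
  nlinarith [e8, e9, e10]

end Pool.Agent.DBB
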