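import Pool.Agent.DBB.Targets2

/-!
# The mean square for small `t`: dyadic blocks, average over `θ`, Tonelli
-/

set_option autoImplicit false

namespace Pool.Agent.DBB

open Complex MeasureTheory Set Filter
open Pool.Agent.DBN Pool.Agent.DBC
open scoped ENNReal

namespace LT3_

/-- the sum over `k` -/
noncomputable def EYs (Y : ℕ) (H x : ℝ) : ℝ :=
  ∑ k ∈ Finset.Icc 1 Y, ((ArithmeticFunction.moebius k : ℤ) : ℝ) * ph H k x

theorem meas_EYs {α : Type} [MeasurableSpace α] (Y : ℕ) {f g : α → ℝ} (hf : Measurable f)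
    (hg : Measurable g) : Measurable fun a => EYs Y (f a) (g a) := by
  unfold EYs ph
  refine Finset.measurable_sum _ fun k _ => ?_
  refine Measurable.const_mul ?_ _
  exact (measurable_fract.comp ((hg.add hf).div_const _)).sub
    (measurable_fract.comp (hg.div_const _))

theorem abs_ph_le (H : ℝ) (k : ℕ) (x : ℝ) : |ph H k x| ≤ 1 := by
  unfold ph
  have h1 := Int.fract_nonneg ((x + H) / k)
  have h2 := Int.fract_lt_one ((x + H) / k)
  have h3 := Int.fract_nonneg (x / (k : ℝ))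
  have h4 := Int.fract_lt_one (x / (k : ℝ))
  rw [abs_le]
  constructor <;> linarith

theorem abs_mu_le (k : ℕ) : |((ArithmeticFunction.moebius k : ℤ) : ℝ)| ≤ 1 := by
  have := ArithmeticFunction.abs_moebius_le_one (n := k)
  exact_mod_cast this

theorem abs_EYs_le (Y : ℕ) (H x : ℝ) : |EYs Y H x| ≤ Y := by
  unfold EYs
  refine (Finset.abs_sum_le_sum_abs _ _).trans ?_
  have h : ∀ k ∈ Finset.Icc 1 Y, |((ArithmeticFunction.moebius k : ℤ) : ℝ) * ph H k x| ≤ 1 := by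
    intro k _
    rw [abs_mul]
    exact mul_le_one₀ (abs_mu_le k) (abs_nonneg _) (abs_ph_le H k x)
  refine (Finset.sum_le_sum h).trans ?_
  simp

theorem vblock (h1 : T_VAR) (Y : ℕ) (H Z : ℝ) (hY : 1 ≤ Y) (hH : 0 ≤ H) (hZ : 0 ≤ Z) :
    ∫⁻ x in Icc Z (2 * Z), ENNReal.ofReal (EYs Y H x ^ 2) ≤
      ENNReal.ofReal (Z * H * (1 + Real.log Y) ^ 3 + (Y : ℝ) ^ 4) := by
  have hm : Measurable fun x => EYs Y H x ^ 2 :=
    (meas_EYs Y measurable_const measurable_id).pow_const 2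
  have hint : IntegrableOn (fun x => EYs Y H x ^ 2) (Icc Z (2 * Z)) := by
    refine Measure.integrableOn_of_bounded (M := (Y : ℝ) ^ 2) ?_ hm.aestronglyMeasurable ?_
    · exact isCompact_Icc.measure_lt_top.ne
    · refine Eventually.of_forall fun x => ?_
      rw [Real.norm_eq_abs, abs_pow]
      exact pow_le_pow_left₀ (abs_nonneg _) (abs_EYs_le Y H x) 2
  rw [← ofReal_integral_eq_lintegral_ofReal hint (Eventually.of_forall fun x => sq_nonneg _)]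
  refine ENNReal.ofReal_le_ofReal ?_
  have := h1 Y H Z hY hH hZ
  rwa [intervalIntegral.integral_of_le (by linarith), ← integral_Icc_eq_integral_Ioc] at this

theorem scale (θ₀ Z x : ℝ) (h0 : 0 < θ₀) (hZ : 0 < Z) (hx : x ∈ Icc Z (2 * Z)) (g : ℝ → ℝ≥0∞) :
    ENNReal.ofReal Z * ∫⁻ θ in Icc θ₀ (2 * θ₀), g (θ * x) ≤
      ∫⁻ H in Icc 0 (4 * θ₀ * Z), g H := by
  have hx0 : 0 < x := hZ.trans_le hx.1
  have key := lintegral_image_eq_lintegral_abs_deriv_mul (s := Icc θ₀ (2 * θ₀))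
    (f := fun θ : ℝ => θ * x) (f' := fun _ => x) measurableSet_Icc
    (fun θ _ => (hasDerivAt_mul_const x).hasDerivWithinAt)
    (fun a _ b _ h => mul_right_cancel₀ hx0.ne' h) g
  have h2 : ENNReal.ofReal Z * ∫⁻ θ in Icc θ₀ (2 * θ₀), g (θ * x) ≤
      ∫⁻ θ in Icc θ₀ (2 * θ₀), ENNReal.ofReal |x| * g (θ * x) := by
    rw [lintegral_const_mul' _ _ ENNReal.ofReal_ne_top]
    refine mul_le_mul' (ENNReal.ofReal_le_ofReal ?_) le_rfl
    rw [abs_of_pos hx0]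
    exact hx.1
  refine h2.trans (key.symm.le.trans (lintegral_mono_set ?_))
  rintro _ ⟨θ, hθ, rfl⟩
  have hθ0 : 0 < θ := h0.trans_le hθ.1
  refine ⟨by positivity, ?_⟩
  calc θ * x ≤ (2 * θ₀) * (2 * Z) :=
        mul_le_mul hθ.2 hx.2 hx0.le (by positivity)
    _ = 4 * θ₀ * Z := by ring

theorem block (h1 : T_VAR) (Y : ℕ) (θ₀ σ Z : ℝ) (hY : 1 ≤ Y) (h0 : 0 < θ₀) (hZ : 0 < Z)
    (hσ : 1 / 2 < σ) :
    ∫⁻ x in Icc Z (2 * Z), ∫⁻ θ in Icc θ₀ (2 * θ₀),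
      ENNReal.ofReal (x ^ (-(2 * σ) - 1) * EYs Y (θ * x) x ^ 2) ≤
    ENNReal.ofReal (16 * θ₀ ^ 2 * (1 + Real.log Y) ^ 3 * Z ^ (1 - 2 * σ) +
      4 * θ₀ * (Y : ℝ) ^ 4 * Z ^ (-(2 * σ) - 1)) := by
  have hl : 0 ≤ Real.log Y := Real.log_natCast_nonneg Y
  have hW : 0 < Z ^ (-(2 * σ) - 1) := Real.rpow_pos_of_pos hZ _
  -- the weight
  have a1 : ∫⁻ x in Icc Z (2 * Z), ∫⁻ θ in Icc θ₀ (2 * θ₀),
      ENNReal.ofReal (x ^ (-(2 * σ) - 1) * EYs Y (θ * x) x ^ 2) ≤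
      ENNReal.ofReal (Z ^ (-(2 * σ) - 1)) * ∫⁻ x in Icc Z (2 * Z), ∫⁻ θ in Icc θ₀ (2 * θ₀),
        ENNReal.ofReal (EYs Y (θ * x) x ^ 2) := by
    rw [← lintegral_const_mul' _ _ ENNReal.ofReal_ne_top]
    refine setLIntegral_mono' measurableSet_Icc fun x hx => ?_
    rw [← lintegral_const_mul' _ _ ENNReal.ofReal_ne_top]
    refine lintegral_mono fun θ => ?_
    rw [← ENNReal.ofReal_mul hW.le]
    refine ENNReal.ofReal_le_ofReal (mul_le_mul_of_nonneg_right ?_ (sq_nonneg _))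
    exact Real.rpow_le_rpow_of_nonpos hZ hx.1 (by linarith)
  -- scaling, Tonelli, variance
  have a2 : ENNReal.ofReal Z * ∫⁻ x in Icc Z (2 * Z), ∫⁻ θ in Icc θ₀ (2 * θ₀),
        ENNReal.ofReal (EYs Y (θ * x) x ^ 2) ≤
      ENNReal.ofReal Z * ENNReal.ofReal (4 * θ₀ * (4 * θ₀ * Z ^ 2 * (1 + Real.log Y) ^ 3 +
        (Y : ℝ) ^ 4)) := by
    calc ENNReal.ofReal Z * ∫⁻ x in Icc Z (2 * Z), ∫⁻ θ in Icc θ₀ (2 * θ₀),
          ENNReal.ofReal (EYs Y (θ * x) x ^ 2)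
        = ∫⁻ x in Icc Z (2 * Z), ENNReal.ofReal Z * ∫⁻ θ in Icc θ₀ (2 * θ₀),
          ENNReal.ofReal (EYs Y (θ * x) x ^ 2) := by
          rw [lintegral_const_mul' _ _ ENNReal.ofReal_ne_top]
      _ ≤ ∫⁻ x in Icc Z (2 * Z), ∫⁻ H in Icc 0 (4 * θ₀ * Z),
          ENNReal.ofReal (EYs Y H x ^ 2) := by
          refine setLIntegral_mono' measurableSet_Icc fun x hx => ?_
          exact scale θ₀ Z x h0 hZ hx fun H => ENNReal.ofReal (EYs Y H x ^ 2)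
      _ = ∫⁻ H in Icc 0 (4 * θ₀ * Z), ∫⁻ x in Icc Z (2 * Z),
          ENNReal.ofReal (EYs Y H x ^ 2) := by
          refine lintegral_lintegral_swap ?_
          exact (((meas_EYs Y measurable_snd measurable_fst).pow_const
            2).ennreal_ofReal).aemeasurable
      _ ≤ ∫⁻ H in Icc 0 (4 * θ₀ * Z), ENNReal.ofReal (4 * θ₀ * Z ^ 2 * (1 + Real.log Y) ^ 3 +
        (Y : ℝ) ^ 4) := by
          refine setLIntegral_mono' measurableSet_Icc fun H hH => ?_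
          refine (vblock h1 Y H Z hY hH.1 hZ.le).trans (ENNReal.ofReal_le_ofReal ?_)
          have h3 : 0 ≤ (1 + Real.log Y) ^ 3 := by positivity
          have h4 : Z * H ≤ 4 * θ₀ * Z ^ 2 := by
            calc Z * H ≤ Z * (4 * θ₀ * Z) := mul_le_mul_of_nonneg_left hH.2 hZ.le
              _ = 4 * θ₀ * Z ^ 2 := by ring
          have := mul_le_mul_of_nonneg_right h4 h3
          linarith
      _ = ENNReal.ofReal Z * ENNReal.ofReal (4 * θ₀ * (4 * θ₀ * Z ^ 2 * (1 + Real.log Y) ^ 3 +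
        (Y : ℝ) ^ 4)) := by
          rw [setLIntegral_const, Real.volume_Icc, ← ENNReal.ofReal_mul (by positivity),
            ← ENNReal.ofReal_mul hZ.le]
          congr 1
          ring
  have a3 : ∫⁻ x in Icc Z (2 * Z), ∫⁻ θ in Icc θ₀ (2 * θ₀),
        ENNReal.ofReal (EYs Y (θ * x) x ^ 2) ≤
      ENNReal.ofReal (4 * θ₀ * (4 * θ₀ * Z ^ 2 * (1 + Real.log Y) ^ 3 + (Y : ℝ) ^ 4)) :=
    (ENNReal.mul_le_mul_iff_right (by simpa using hZ) ENNReal.ofReal_ne_top).1 a2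
  refine a1.trans ((mul_le_mul' le_rfl a3).trans ?_)
  rw [← ENNReal.ofReal_mul hW.le]
  refine ENNReal.ofReal_le_ofReal (le_of_eq ?_)
  have h5 : Z ^ (1 - 2 * σ) = Z ^ (-(2 * σ) - 1) * Z ^ 2 := by
    rw [← Real.rpow_natCast, ← Real.rpow_add hZ]
    congr 1
    push_cast
    ring
  rw [h5]
  ring

theorem inner (h2 : T_GXA) (Y : ℕ) (X θ σ : ℝ) (hX : 1 ≤ X) (hθ : 0 ≤ θ) :
    ∫⁻ t in Ioo 0 (1 / X), ENNReal.ofReal (t ^ (2 * σ - 1) * DG Y θ t ^ 2) =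
      ∫⁻ x in Ioi X, ENNReal.ofReal (x ^ (-(2 * σ) - 1) * EYs Y (θ * x) x ^ 2) := by
  have hX0 : 0 < X := by linarith
  have himg : (fun x : ℝ => x⁻¹) '' Ioi X = Ioo 0 (1 / X) := by
    ext t
    constructor
    · rintro ⟨x, hx, rfl⟩
      have hx0 : 0 < x := hX0.trans hx
      refine ⟨inv_pos.2 hx0, ?_⟩
      rw [one_div]
      exact (inv_lt_inv₀ hx0 hX0).2 hx
    · rintro ⟨h3, h4⟩
      refine ⟨t⁻¹, ?_, inv_inv t⟩
      rw [one_div] at h4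
      exact (lt_inv_comm₀ h3 hX0).1 h4
  have key := lintegral_image_eq_lintegral_abs_deriv_mul (s := Ioi X)
    (f := fun x : ℝ => x⁻¹) (f' := fun x => -(x ^ 2)⁻¹) measurableSet_Ioi
    (fun x hx => (hasDerivAt_inv (hX0.trans hx).ne').hasDerivWithinAt)
    (fun a _ b _ h => inv_injective h)
    (fun t => ENNReal.ofReal (t ^ (2 * σ - 1) * DG Y θ t ^ 2))
  rw [himg] at key
  rw [key]
  refine setLIntegral_congr_fun measurableSet_Ioi fun x hx => ?_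
  have hx0 : 0 < x := hX0.trans hx
  have hx1 : 1 ≤ x := hX.trans (le_of_lt hx)
  have h3 : DG Y θ x⁻¹ = -EYs Y (θ * x) x := by
    have := h2 Y θ x hθ hx1
    rw [one_div] at this
    exact this
  simp only [h3]
  rw [← ENNReal.ofReal_mul (abs_nonneg _)]
  congr 1
  rw [abs_neg, abs_of_pos (by positivity), neg_sq, Real.inv_rpow hx0.le, ← mul_assoc]
  congr 1
  rw [← Real.rpow_natCast, ← mul_inv, ← Real.rpow_add hx0, ← Real.rpow_neg hx0.le]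
  congr 1
  push_cast
  ring

theorem cover (X : ℝ) (hX : 0 < X) :
    Ioi X ⊆ ⋃ j : ℕ, Icc (2 ^ j * X) (2 * (2 ^ j * X)) := by
  intro x hx
  have hx' : X < x := hx
  have h1 : 1 ≤ x / X := (one_le_div hX).2 hx'.le
  obtain ⟨n, h2, h3⟩ := exists_nat_pow_near h1 (one_lt_two : (1 : ℝ) < 2)
  refine mem_iUnion.2 ⟨n, (le_div_iff₀ hX).1 h2, ?_⟩
  rw [div_lt_iff₀ hX, pow_succ] at h3
  linarith

theorem geo1 (a : ℝ) (ha : 0 < a) (ha1 : a ≤ 1 / 2) :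
    (2 : ℝ) ^ (-a) < 1 ∧ (1 - (2 : ℝ) ^ (-a))⁻¹ ≤ 3 / a := by
  have hl := Real.log_two_gt_d9
  have hl2 := Real.log_two_lt_d9
  set y : ℝ := a * Real.log 2 with hy
  have hy0 : 0 < y := by rw [hy]; positivity
  have he : (2 : ℝ) ^ (-a) = (Real.exp y)⁻¹ := by
    rw [Real.rpow_def_of_pos two_pos, ← Real.exp_neg, hy]
    congr 1
    ring
  have h1 : 1 + y ≤ Real.exp y := by
    have := Real.add_one_le_exp y
    linarith
  have h2 : (Real.exp y)⁻¹ ≤ (1 + y)⁻¹ := inv_anti₀ (by linarith) h1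
  have h3 : (1 + y)⁻¹ < 1 := inv_lt_one_of_one_lt₀ (by linarith)
  refine ⟨by rw [he]; linarith, ?_⟩
  have h4 : y / (1 + y) ≤ 1 - (2 : ℝ) ^ (-a) := by
    have : y / (1 + y) = 1 - (1 + y)⁻¹ := by
      field_simp
      ring
    rw [this, he]
    linarith
  have h5 : 0 < y / (1 + y) := by positivity
  refine (inv_anti₀ h5 h4).trans ?_
  rw [inv_div, div_le_div_iff₀ hy0 ha]
  have h6 : a * (1 + y) ≤ 3 * y := by
    have : 1 + y ≤ 3 * Real.log 2 := by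
      have : y ≤ 1 / 2 * Real.log 2 := by
        rw [hy]
        exact mul_le_mul_of_nonneg_right ha1 (by linarith)
      linarith
    calc a * (1 + y) ≤ a * (3 * Real.log 2) := mul_le_mul_of_nonneg_left this ha.le
      _ = 3 * y := by rw [hy]; ring
  linarith

theorem pow_scale (j : ℕ) (X r : ℝ) (hX : 0 < X) :
    (2 ^ j * X : ℝ) ^ r = X ^ r * ((2 : ℝ) ^ r) ^ j := by
  rw [Real.mul_rpow (by positivity) hX.le, mul_comm, ← Real.rpow_natCast 2 j, ← Real.rpow_mul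
    (by norm_num), mul_comm (j : ℝ) r, Real.rpow_mul (by norm_num), Real.rpow_natCast]

theorem sums (A B X σ : ℝ) (hA : 0 ≤ A) (hB : 0 ≤ B) (hX : 0 < X) (hσ : 1 / 2 < σ)
    (hσ2 : σ ≤ 3 / 4) :
    ∑' j : ℕ, ENNReal.ofReal (A * (2 ^ j * X) ^ (1 - 2 * σ) +
      B * (2 ^ j * X) ^ (-(2 * σ) - 1)) ≤
    ENNReal.ofReal (A * X ^ (1 - 2 * σ) * (3 / (2 * σ - 1)) +
      B * X ^ (-(2 * σ) - 1) * (3 / 2)) := by
  obtain ⟨g1, g2⟩ := geo1 (2 * σ - 1) (by linarith) (by linarith)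
  have e1 : 1 - 2 * σ = -(2 * σ - 1) := by ring
  set r : ℝ := (2 : ℝ) ^ (1 - 2 * σ) with hr
  set q : ℝ := (2 : ℝ) ^ (-(2 * σ) - 1) with hq
  have hr0 : 0 < r := Real.rpow_pos_of_pos two_pos _
  have hq0 : 0 < q := Real.rpow_pos_of_pos two_pos _
  have hr1 : r < 1 := by rw [hr, e1]; exact g1
  have hq1 : q ≤ 1 / 4 := by
    have : q ≤ (2 : ℝ) ^ (-2 : ℝ) := Real.rpow_le_rpow_of_exponent_le one_le_two (by linarith)
    refine this.trans (le_of_eq ?_)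
    rw [Real.rpow_neg two_pos.le]
    norm_num
  have hs1 := (hasSum_geometric_of_lt_one hr0.le hr1).mul_left (A * X ^ (1 - 2 * σ))
  have hs2 := (hasSum_geometric_of_lt_one hq0.le (by linarith)).mul_left
    (B * X ^ (-(2 * σ) - 1))
  have hs := hs1.add hs2
  have ht : ∀ j : ℕ, A * (2 ^ j * X) ^ (1 - 2 * σ) + B * (2 ^ j * X) ^ (-(2 * σ) - 1) =
      A * X ^ (1 - 2 * σ) * r ^ j + B * X ^ (-(2 * σ) - 1) * q ^ j := by
    intro j
    rw [pow_scale j X _ hX, pow_scale j X _ hX]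
    ring
  have hXp1 : 0 < X ^ (1 - 2 * σ) := Real.rpow_pos_of_pos hX _
  have hXp2 : 0 < X ^ (-(2 * σ) - 1) := Real.rpow_pos_of_pos hX _
  simp only [ht]
  rw [← ENNReal.ofReal_tsum_of_nonneg (fun j => by positivity) hs.summable, hs.tsum_eq]
  refine ENNReal.ofReal_le_ofReal (add_le_add ?_ ?_)
  · refine mul_le_mul_of_nonneg_left ?_ (by positivity)
    rw [hr, e1]
    exact g2
  · refine mul_le_mul_of_nonneg_left ?_ (by positivity)
    have h1 : 2 / 3 ≤ 1 - q := by linarith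
    have := inv_anti₀ (by norm_num : (0 : ℝ) < 2 / 3) h1
    refine this.trans (le_of_eq ?_)
    norm_num

end LT3_

open LT3_ in
theorem p_LT3 (h1 : T_VAR) (h2 : T_GXA) : T_LT3 := by
  refine ⟨48, by norm_num, fun Y X θ₀ σ hY hX h0 _ hσ hσ2 => ?_⟩
  have hX0 : 0 < X := by linarith
  have hl : 0 ≤ Real.log Y := Real.log_natCast_nonneg Y
  have s1 : ∫⁻ θ in Icc θ₀ (2 * θ₀), ∫⁻ t in Ioo 0 (1 / X),
      ENNReal.ofReal (t ^ (2 * σ - 1) * DG Y θ t ^ 2) =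
      ∫⁻ θ in Icc θ₀ (2 * θ₀), ∫⁻ x in Ioi X,
        ENNReal.ofReal (x ^ (-(2 * σ) - 1) * EYs Y (θ * x) x ^ 2) :=
    setLIntegral_congr_fun measurableSet_Icc fun θ hθ =>
      inner h2 Y X θ σ hX (h0.le.trans hθ.1)
  have s2 : ∫⁻ θ in Icc θ₀ (2 * θ₀), ∫⁻ x in Ioi X,
        ENNReal.ofReal (x ^ (-(2 * σ) - 1) * EYs Y (θ * x) x ^ 2) =
      ∫⁻ x in Ioi X, ∫⁻ θ in Icc θ₀ (2 * θ₀),
        ENNReal.ofReal (x ^ (-(2 * σ) - 1) * EYs Y (θ * x) x ^ 2) := by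
    refine lintegral_lintegral_swap ?_
    have m1 : Measurable fun z : ℝ × ℝ => z.2 ^ (-(2 * σ) - 1) :=
      measurable_snd.pow_const _
    have m2 : Measurable fun z : ℝ × ℝ => EYs Y (z.1 * z.2) z.2 ^ 2 :=
      (meas_EYs Y (measurable_fst.mul measurable_snd) measurable_snd).pow_const 2
    exact ((m1.mul m2).ennreal_ofReal).aemeasurable
  rw [s1, s2]
  refine (lintegral_mono_set (cover X hX0)).trans ((lintegral_iUnion_le _ _).trans ?_)
  refine (ENNReal.tsum_le_tsum fun j =>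
    block h1 Y θ₀ σ (2 ^ j * X) hY h0 (by positivity) hσ).trans ?_
  refine (sums _ _ X σ (by positivity) (by positivity) hX0 hσ hσ2).trans
    (ENNReal.ofReal_le_ofReal ?_)
  have hs0 : 0 < 2 * σ - 1 := by linarith
  have hXp1 : 0 < X ^ (1 - 2 * σ) := Real.rpow_pos_of_pos hX0 _
  have hXp2 : 0 < X ^ (-(2 * σ) - 1) := Real.rpow_pos_of_pos hX0 _
  have e1 : 16 * θ₀ ^ 2 * (1 + Real.log Y) ^ 3 * X ^ (1 - 2 * σ) * (3 / (2 * σ - 1)) =
      48 * θ₀ * (θ₀ * X ^ (1 - 2 * σ) * (1 + Real.log Y) ^ 3 / (2 * σ - 1)) := by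
    field_simp
    ring
  have e2 : 4 * θ₀ * (Y : ℝ) ^ 4 * X ^ (-(2 * σ) - 1) * (3 / 2) ≤
      48 * θ₀ * ((Y : ℝ) ^ 4 * X ^ (-(2 * σ) - 1)) := by
    have : 0 ≤ θ₀ * ((Y : ℝ) ^ 4 * X ^ (-(2 * σ) - 1)) := by positivity
    linarith
  rw [mul_add]
  linarith

end Pool.Agent.DBB
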