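import Pool.Agent.DBB.Targets2

/-!
# The mollified mean square, uniformly in the distance to the line
-/

set_option autoImplicit false

namespace Pool.Agent.DBB

open Complex MeasureTheory Set Filter
open Pool.Agent.DBN Pool.Agent.DBC
open scoped ENNReal

namespace MM2_

/-- `‖exp (h s) - 1‖ ≥ 1/20` for `1/12 ≤ h t ≤ 1` -/
theorem exp_low {h σ t : ℝ} (h0 : 0 ≤ h) (hσ : 0 ≤ σ) (h1 : 1 / 12 ≤ h * t) (h2 : h * t ≤ 1) :
    1 / 20 ≤ ‖exp ((h : ℂ) * (σ + t * I)) - 1‖ := by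
  have him : (exp ((h : ℂ) * (σ + t * I)) - 1).im = Real.exp (h * σ) * Real.sin (h * t) := by
    rw [sub_im, one_im, sub_zero, Complex.exp_im]
    simp
  have hpi := Real.pi_lt_d2
  have hpi3 := Real.pi_gt_three
  have hs : 2 / Real.pi * (h * t) ≤ Real.sin (h * t) :=
    Real.mul_le_sin (by linarith) (by linarith)
  have hs2 : 1 / 20 ≤ Real.sin (h * t) := by
    refine le_trans ?_ hs
    rw [div_mul_eq_mul_div, div_le_div_iff₀ (by norm_num) Real.pi_pos]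
    nlinarith
  have he : 1 ≤ Real.exp (h * σ) := Real.one_le_exp (mul_nonneg h0 hσ)
  calc 1 / 20 ≤ Real.exp (h * σ) * Real.sin (h * t) := by nlinarith
    _ ≤ |(exp ((h : ℂ) * (σ + t * I)) - 1).im| := by rw [him]; exact le_abs_self _
    _ ≤ _ := abs_im_le_norm _

theorem norm_s_le {σ t X : ℝ} (hX : 1 ≤ X) (hσ : 0 ≤ σ) (hσ1 : σ ≤ 1) (ht : 0 ≤ t)
    (ht2 : t ≤ 2 * X) : ‖((σ : ℂ) + t * I)‖ ≤ 3 * X := by
  refine (norm_add_le _ _).trans ?_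
  rw [norm_mul, norm_I, mul_one, norm_real, norm_real, Real.norm_of_nonneg hσ,
    Real.norm_of_nonneg ht]
  linarith

/-- bounds for `log (1 + θ)` -/
theorem log_bd {θ : ℝ} (h0 : 0 ≤ θ) (h1 : θ ≤ 1) :
    θ / 2 ≤ Real.log (1 + θ) ∧ Real.log (1 + θ) ≤ θ := by
  have h2 := Real.one_sub_inv_le_log_of_pos (show 0 < 1 + θ by linarith)
  have h3 := Real.log_le_sub_one_of_pos (show 0 < 1 + θ by linarith)
  refine ⟨le_trans ?_ h2, by linarith⟩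
  have h4 : 1 - (1 + θ)⁻¹ = θ / (1 + θ) := by
    field_simp
    ring
  rw [h4, div_le_div_iff₀ (by norm_num) (by linarith)]
  nlinarith

/-- the pointwise inequality -/
theorem point (h2 : Y_MF) {σ X θ : ℝ} {Y : ℕ} (hσ : 1 / 2 < σ) (hσ1 : σ < 1) (hX : 1 ≤ X)
    (hθ1 : 1 / (6 * X) ≤ θ) (hθ2 : θ ≤ 2 * (1 / (6 * X))) {t : ℝ} (ht1 : X ≤ t)
    (ht2 : t ≤ 2 * X) :
    ‖riemannZeta (σ + t * I) * Mo Y (σ + t * I) - 1‖ₑ ^ 2 ≤ ENNReal.ofReal (3600 * X ^ 2) *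
      ‖mellin (fun t : ℝ => ((DG Y θ t : ℝ) : ℂ)) (σ + t * I)‖ₑ ^ 2 := by
  have hX0 : 0 < X := by linarith
  have hθX1 : 1 / 6 ≤ θ * X := by
    rw [div_le_iff₀ (by positivity)] at hθ1
    linarith
  have hθX2 : θ * X ≤ 1 / 3 := by
    have h3 : 2 * (1 / (6 * X)) * X = 1 / 3 := by
      field_simp
      norm_num
    rw [← h3]
    gcongr
  have hθ0 : 0 < θ := by
    have h3 : 0 < 1 / (6 * X) := by positivity
    linarith
  have hθ3 : θ ≤ 1 := by nlinarith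
  obtain ⟨hb1, hb2⟩ := log_bd hθ0.le hθ3
  have hh0 : 0 < Real.log (1 + θ) := by linarith
  obtain ⟨-, hm⟩ := h2 Y (Real.log (1 + θ)) hh0
  have hre : ((σ : ℂ) + t * I).re = σ := by simp
  have hm1 := hm (σ + t * I) (by rw [hre]; linarith) (by rw [hre]; exact hσ1)
  have hm2 : mellin (fun t : ℝ => ((DG Y θ t : ℝ) : ℂ)) (σ + t * I) =
      (exp ((Real.log (1 + θ) : ℝ) * (σ + t * I)) - 1) *
        ((riemannZeta (σ + t * I) * Mo Y (σ + t * I) - 1) / (σ + t * I)) := hm1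
  rw [hm2]
  have ht0 : 0 < t := by linarith
  have hne : ((σ : ℂ) + t * I) ≠ 0 := by
    intro h
    have := congrArg Complex.re h
    rw [hre] at this
    simp at this
    linarith
  have hlow : 1 / 20 ≤ ‖exp (((Real.log (1 + θ) : ℝ) : ℂ) * (σ + t * I)) - 1‖ := by
    refine exp_low hh0.le (by linarith) ?_ ?_
    · have e1 : θ / 2 * X ≤ Real.log (1 + θ) * t := by gcongr
      linarith
    · have e1 : Real.log (1 + θ) * t ≤ θ * (2 * X) := by gcongr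
      linarith
  have hs := norm_s_le hX (by linarith) hσ1.le ht0.le ht2
  set F : ℂ := riemannZeta (σ + t * I) * Mo Y (σ + t * I) - 1 with hF
  set E : ℂ := exp (((Real.log (1 + θ) : ℝ) : ℂ) * (σ + t * I)) - 1 with hE
  have hsn : 0 < ‖((σ : ℂ) + t * I)‖ := norm_pos_iff.2 hne
  have hkey : ‖F‖ ≤ 60 * X * ‖E * (F / (σ + t * I))‖ := by
    rw [norm_mul, norm_div]
    have h3 : ‖F‖ = 20 * ‖((σ : ℂ) + t * I)‖ * (1 / 20 * (‖F‖ / ‖((σ : ℂ) + t * I)‖)) := by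
      field_simp
    have h4 : 1 / 20 * (‖F‖ / ‖((σ : ℂ) + t * I)‖) ≤ ‖E‖ * (‖F‖ / ‖((σ : ℂ) + t * I)‖) :=
      mul_le_mul_of_nonneg_right hlow (by positivity)
    calc ‖F‖ = 20 * ‖((σ : ℂ) + t * I)‖ * (1 / 20 * (‖F‖ / ‖((σ : ℂ) + t * I)‖)) := h3
      _ ≤ 60 * X * (‖E‖ * (‖F‖ / ‖((σ : ℂ) + t * I)‖)) := by
          refine mul_le_mul (by linarith) h4 (by positivity) (by positivity)
  have h5 : ‖F‖ ^ 2 ≤ 3600 * X ^ 2 * ‖E * (F / (σ + t * I))‖ ^ 2 := by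
    calc ‖F‖ ^ 2 ≤ (60 * X * ‖E * (F / (σ + t * I))‖) ^ 2 :=
          pow_le_pow_left₀ (norm_nonneg _) hkey 2
      _ = _ := by ring
  rw [← ofReal_norm, ← ofReal_norm, ← ENNReal.ofReal_pow (norm_nonneg _),
    ← ENNReal.ofReal_pow (norm_nonneg _), ← ENNReal.ofReal_mul (by positivity)]
  exact ENNReal.ofReal_le_ofReal h5

/-- the bound for a fixed ratio -/
theorem each (h1 : Y_PL) (h2 : Y_MF) {σ X θ : ℝ} {Y : ℕ} (hσ : 1 / 2 < σ) (hσ1 : σ < 1)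
    (hX : 1 ≤ X) (hθ1 : 1 / (6 * X) ≤ θ) (hθ2 : θ ≤ 2 * (1 / (6 * X))) :
    ∫⁻ t in Icc X (2 * X), ‖riemannZeta (σ + t * I) * Mo Y (σ + t * I) - 1‖ₑ ^ 2 ≤
      ENNReal.ofReal (7200 * Real.pi * X ^ 2) *
        ∫⁻ t in Ioi (0 : ℝ), ENNReal.ofReal (t ^ (2 * σ - 1) * DG Y θ t ^ 2) := by
  have hX0 : 0 < X := by linarith
  have hpi := Real.pi_pos
  have hθ0 : 0 < θ := by
    have h3 : 0 < 1 / (6 * X) := by positivity
    linarith
  have hh0 : 0 < Real.log (1 + θ) := Real.log_pos (by linarith)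
  obtain ⟨hadm, -⟩ := h2 Y (Real.log (1 + θ)) hh0
  have hP := h1 σ (by linarith) hσ1 _ hadm
  have hP' : ∫⁻ τ : ℝ, ‖mellin (fun t : ℝ => ((DG Y θ t : ℝ) : ℂ)) (σ + τ * I)‖ₑ ^ 2 =
      ENNReal.ofReal (2 * Real.pi) * ∫⁻ t in Ioi (0 : ℝ), ENNReal.ofReal (t ^ (2 * σ - 1)) *
        ‖((DG Y θ t : ℝ) : ℂ)‖ₑ ^ 2 := hP
  have hJ : ∫⁻ t in Ioi (0 : ℝ), ENNReal.ofReal (t ^ (2 * σ - 1)) *
        ‖((DG Y θ t : ℝ) : ℂ)‖ₑ ^ 2 =
      ∫⁻ t in Ioi (0 : ℝ), ENNReal.ofReal (t ^ (2 * σ - 1) * DG Y θ t ^ 2) := by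
    refine setLIntegral_congr_fun measurableSet_Ioi fun t ht => ?_
    have ht0 : 0 ≤ t ^ (2 * σ - 1) := Real.rpow_nonneg (le_of_lt ht) _
    show ENNReal.ofReal (t ^ (2 * σ - 1)) * ‖((DG Y θ t : ℝ) : ℂ)‖ₑ ^ 2 =
      ENNReal.ofReal (t ^ (2 * σ - 1) * DG Y θ t ^ 2)
    rw [ENNReal.ofReal_mul ht0, ← ofReal_norm, ← ENNReal.ofReal_pow (norm_nonneg _),
      norm_real, Real.norm_eq_abs, sq_abs]
  calc ∫⁻ t in Icc X (2 * X), ‖riemannZeta (σ + t * I) * Mo Y (σ + t * I) - 1‖ₑ ^ 2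
      ≤ ∫⁻ t in Icc X (2 * X), ENNReal.ofReal (3600 * X ^ 2) *
        ‖mellin (fun t : ℝ => ((DG Y θ t : ℝ) : ℂ)) (σ + t * I)‖ₑ ^ 2 :=
        setLIntegral_mono' measurableSet_Icc fun t ht =>
          point h2 hσ hσ1 hX hθ1 hθ2 ht.1 ht.2
    _ ≤ ∫⁻ t : ℝ, ENNReal.ofReal (3600 * X ^ 2) *
        ‖mellin (fun t : ℝ => ((DG Y θ t : ℝ) : ℂ)) (σ + t * I)‖ₑ ^ 2 :=
        setLIntegral_le_lintegral _ _
    _ = ENNReal.ofReal (3600 * X ^ 2) * ∫⁻ t : ℝ,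
        ‖mellin (fun t : ℝ => ((DG Y θ t : ℝ) : ℂ)) (σ + t * I)‖ₑ ^ 2 :=
        lintegral_const_mul' _ _ ENNReal.ofReal_ne_top
    _ = ENNReal.ofReal (7200 * Real.pi * X ^ 2) *
        ∫⁻ t in Ioi (0 : ℝ), ENNReal.ofReal (t ^ (2 * σ - 1) * DG Y θ t ^ 2) := by
        rw [hP', hJ, ← mul_assoc, ← ENNReal.ofReal_mul (by positivity)]
        congr 2
        ring

/-- the average over the ratios -/
theorem avg {X θ₀ B₁ B₂ K : ℝ} (hθ₀ : 0 < θ₀) (hB₁ : 0 ≤ B₁)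
    (hB₂ : 0 ≤ B₂) (hK : 0 ≤ K) (A : ℝ≥0∞) (f : ℝ → ℝ → ℝ≥0∞)
    (hA : ∀ θ ∈ Icc θ₀ (2 * θ₀), A ≤ ENNReal.ofReal K * ∫⁻ t in Ioi (0 : ℝ), f θ t)
    (h1 : ∀ θ ∈ Icc θ₀ (2 * θ₀), ∫⁻ t in Ici (1 / X), f θ t ≤ ENNReal.ofReal B₁)
    (h2 : ∫⁻ θ in Icc θ₀ (2 * θ₀), ∫⁻ t in Ioo 0 (1 / X), f θ t ≤
      ENNReal.ofReal (θ₀ * B₂)) : A ≤ ENNReal.ofReal (K * (B₁ + B₂)) := by
  have hsplit : ∀ θ, ∫⁻ t in Ioi (0 : ℝ), f θ t ≤
      (∫⁻ t in Ici (1 / X), f θ t) + ∫⁻ t in Ioo 0 (1 / X), f θ t := by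
    intro θ
    have hsub : Ioi (0 : ℝ) ⊆ Ici (1 / X) ∪ Ioo 0 (1 / X) := by
      intro t ht
      rcases le_or_gt (1 / X) t with h | h
      · exact Or.inl h
      · exact Or.inr ⟨ht, h⟩
    exact (lintegral_mono_set hsub).trans (lintegral_union_le _ _ _)
  have hvol : volume (Icc θ₀ (2 * θ₀)) = ENNReal.ofReal θ₀ := by
    rw [Real.volume_Icc]
    congr 1
    ring
  have hmain : ENNReal.ofReal θ₀ * A ≤ ENNReal.ofReal θ₀ * ENNReal.ofReal (K * (B₁ + B₂)) := by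
    calc ENNReal.ofReal θ₀ * A = ∫⁻ _ in Icc θ₀ (2 * θ₀), A := by
          rw [setLIntegral_const, hvol, mul_comm]
      _ ≤ ∫⁻ θ in Icc θ₀ (2 * θ₀), ENNReal.ofReal K *
            (ENNReal.ofReal B₁ + ∫⁻ t in Ioo 0 (1 / X), f θ t) := by
          refine setLIntegral_mono' measurableSet_Icc fun θ hθ => (hA θ hθ).trans ?_
          gcongr
          exact (hsplit θ).trans (by gcongr; exact h1 θ hθ)
      _ = ENNReal.ofReal K * ∫⁻ θ in Icc θ₀ (2 * θ₀),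
            (ENNReal.ofReal B₁ + ∫⁻ t in Ioo 0 (1 / X), f θ t) :=
          lintegral_const_mul' _ _ ENNReal.ofReal_ne_top
      _ = ENNReal.ofReal K * (ENNReal.ofReal B₁ * ENNReal.ofReal θ₀ +
            ∫⁻ θ in Icc θ₀ (2 * θ₀), ∫⁻ t in Ioo 0 (1 / X), f θ t) := by
          rw [lintegral_add_left measurable_const, setLIntegral_const, hvol]
      _ ≤ ENNReal.ofReal K * (ENNReal.ofReal B₁ * ENNReal.ofReal θ₀ +
            ENNReal.ofReal (θ₀ * B₂)) := by gcongr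
      _ = ENNReal.ofReal θ₀ * ENNReal.ofReal (K * (B₁ + B₂)) := by
          rw [← ENNReal.ofReal_mul hB₁, ← ENNReal.ofReal_add (by positivity) (by positivity),
            ← ENNReal.ofReal_mul hK, ← ENNReal.ofReal_mul hθ₀.le]
          congr 1
          ring
  exact (ENNReal.mul_le_mul_iff_right (by positivity) ENNReal.ofReal_ne_top).mp hmain

/-- the final inequality -/
theorem fin_le {C₁ C₂ X σ y : ℝ} (hC₁ : 0 < C₁) (hC₂ : 0 < C₂) (hX : 4 ≤ X) (hy : 1 ≤ y)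
    (hyX : y ^ 4 ≤ X) (hσ : 1 / 2 < σ) (hσ1 : σ ≤ 3 / 4) :
    7200 * Real.pi * X ^ 2 * (C₁ * (X⁻¹ * y ^ (-(2 * σ - 1)) * (1 + Real.log X) ^ 4 +
      (1 + Real.log y) ^ 2 * X⁻¹ ^ 2 * X ^ (2 - 2 * σ)) +
      C₂ * (1 / (6 * X) * X ^ (1 - 2 * σ) * (1 + Real.log y) ^ 3 / (2 * σ - 1) +
        y ^ 4 * X ^ (-(2 * σ) - 1))) ≤
    7200 * Real.pi * (2 * C₁ + 2 * C₂) * (1 + Real.log X) ^ 4 / (2 * σ - 1) * X *
      y ^ (-(2 * σ - 1)) := by
  have hX0 : 0 < X := by linarith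
  have hy0 : 0 < y := by linarith
  have hpi := Real.pi_pos
  have hyX1 : y ≤ X := le_trans (le_self_pow₀ hy (by norm_num)) hyX
  have ha : 0 < 2 * σ - 1 := by linarith
  have ha1 : 1 ≤ 1 / (2 * σ - 1) := by
    rw [le_div_iff₀ ha]
    linarith
  have hly : 0 ≤ Real.log y := Real.log_nonneg hy
  have hlyX : Real.log y ≤ Real.log X := Real.log_le_log hy0 hyX1
  have hl1 : 1 ≤ 1 + Real.log X := by linarith
  set l : ℝ := 1 + Real.log X with hl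
  set m : ℝ := 1 + Real.log y with hm
  have hm1 : 1 ≤ m := by rw [hm]; linarith
  have hml : m ≤ l := by rw [hm, hl]; linarith
  set P : ℝ := y ^ (-(2 * σ - 1)) with hP
  set Q : ℝ := X ^ (-(2 * σ - 1)) with hQ
  have hP0 : 0 < P := by rw [hP]; positivity
  have hQ0 : 0 < Q := by rw [hQ]; positivity
  have hQP : Q ≤ P := Real.rpow_le_rpow_of_nonpos hy0 hyX1 (by linarith)
  have e1 : X ^ (2 - 2 * σ) = X * Q := by
    rw [hQ, ← Real.rpow_one_add' hX0.le (by linarith)]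
    ring_nf
  have e2 : X ^ (1 - 2 * σ) = Q := by
    rw [hQ]
    ring_nf
  have e3 : X ^ (-(2 * σ) - 1) = X⁻¹ ^ 2 * Q := by
    rw [show -(2 * σ) - 1 = (-2 : ℝ) + -(2 * σ - 1) by ring, Real.rpow_add hX0,
      Real.rpow_neg hX0.le, Real.rpow_two, inv_pow]
  rw [e1, e2, e3]
  have hl4 : m ^ 2 ≤ l ^ 4 := by
    calc m ^ 2 ≤ l ^ 2 := by gcongr
      _ ≤ l ^ 4 := pow_le_pow_right₀ hl1 (by norm_num)
  have hl3 : m ^ 3 ≤ l ^ 4 := by
    calc m ^ 3 ≤ l ^ 3 := by gcongr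
      _ ≤ l ^ 4 := pow_le_pow_right₀ hl1 (by norm_num)
  have hl5 : 1 ≤ l ^ 4 := one_le_pow₀ hl1
  have hl40 : 0 ≤ l ^ 4 := by positivity
  set R : ℝ := l ^ 4 / (2 * σ - 1) * X * P with hR
  have hR1 : l ^ 4 * X * P ≤ R := by
    have h3 : l ^ 4 ≤ l ^ 4 / (2 * σ - 1) := by
      rw [div_eq_mul_one_div]
      nlinarith
    rw [hR]
    gcongr
  have t1 : X ^ 2 * (X⁻¹ * P * l ^ 4) ≤ R := by
    calc X ^ 2 * (X⁻¹ * P * l ^ 4) = l ^ 4 * X * P := by field_simp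
      _ ≤ R := hR1
  have t2 : X ^ 2 * (m ^ 2 * X⁻¹ ^ 2 * (X * Q)) ≤ R := by
    calc X ^ 2 * (m ^ 2 * X⁻¹ ^ 2 * (X * Q)) = m ^ 2 * X * Q := by field_simp
      _ ≤ l ^ 4 * X * P := by gcongr
      _ ≤ R := hR1
  have t3 : X ^ 2 * (1 / (6 * X) * Q * m ^ 3 / (2 * σ - 1)) ≤ R := by
    calc X ^ 2 * (1 / (6 * X) * Q * m ^ 3 / (2 * σ - 1)) =
          1 / 6 * (m ^ 3 / (2 * σ - 1) * X * Q) := by field_simp
      _ ≤ m ^ 3 / (2 * σ - 1) * X * Q := by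
          have h3 : 0 ≤ m ^ 3 / (2 * σ - 1) * X * Q := by positivity
          linarith
      _ ≤ R := by
          rw [hR]
          gcongr
  have t4 : X ^ 2 * (y ^ 4 * (X⁻¹ ^ 2 * Q)) ≤ R := by
    calc X ^ 2 * (y ^ 4 * (X⁻¹ ^ 2 * Q)) = 1 * y ^ 4 * Q := by field_simp
      _ ≤ l ^ 4 * X * P := by gcongr
      _ ≤ R := hR1
  calc 7200 * Real.pi * X ^ 2 * (C₁ * (X⁻¹ * P * l ^ 4 + m ^ 2 * X⁻¹ ^ 2 * (X * Q)) +
        C₂ * (1 / (6 * X) * Q * m ^ 3 / (2 * σ - 1) + y ^ 4 * (X⁻¹ ^ 2 * Q)))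
      = 7200 * Real.pi * (C₁ * (X ^ 2 * (X⁻¹ * P * l ^ 4) +
          X ^ 2 * (m ^ 2 * X⁻¹ ^ 2 * (X * Q))) +
        C₂ * (X ^ 2 * (1 / (6 * X) * Q * m ^ 3 / (2 * σ - 1)) +
          X ^ 2 * (y ^ 4 * (X⁻¹ ^ 2 * Q)))) := by ring
    _ ≤ 7200 * Real.pi * (C₁ * (R + R) + C₂ * (R + R)) := by gcongr
    _ = 7200 * Real.pi * (2 * C₁ + 2 * C₂) * l ^ 4 / (2 * σ - 1) * X * P := by
        rw [hR]
        ring

lemma continuous_Mo (Y : ℕ) : Continuous (Mo Y) := by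
  unfold Mo
  refine continuous_finsetSum _ fun n hn => ?_
  have hn1 : 1 ≤ n := (Finset.mem_Icc.mp hn).1
  refine continuous_const.mul ?_
  have hn0 : (n : ℂ) ≠ 0 := by exact_mod_cast (by omega : n ≠ 0)
  exact continuous_neg.const_cpow (Or.inl hn0)

lemma continuous_F (Y : ℕ) (σ : ℝ) (hσ : σ ≠ 1) :
    Continuous (fun u : ℝ => riemannZeta (σ + u * I) * Mo Y (σ + u * I) - 1) := by
  have h1 : Continuous (fun u : ℝ => (σ : ℂ) + u * I) := by fun_prop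
  have h2 : Continuous (fun u : ℝ => riemannZeta (σ + u * I)) := by
    rw [continuous_iff_continuousAt]
    intro u
    have hne : (σ : ℂ) + u * I ≠ 1 := by
      intro h
      have h4 := congrArg Complex.re h
      simp at h4
      exact hσ h4
    exact ContinuousAt.comp (f := fun u : ℝ => (σ : ℂ) + u * I)
      (differentiableAt_riemannZeta hne).continuousAt h1.continuousAt
  exact (h2.mul ((continuous_Mo Y).comp h1)).sub continuous_const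

end MM2_

open MM2_ in
theorem p_MM2 (h1 : Pool.Agent.DBC.Y_PL) (h2 : Pool.Agent.DBC.Y_MF) (h3 : T_LT2)
    (h4 : T_LT3) : T_MM2 := by
  obtain ⟨C₁, hC₁, hL1⟩ := h3
  obtain ⟨C₂, hC₂, hL2⟩ := h4
  have hpi := Real.pi_pos
  refine ⟨7200 * Real.pi * (2 * C₁ + 2 * C₂), by positivity, ?_⟩
  intro Y X σ hY hX hYX hσ hσ1
  have hX0 : 0 < X := by linarith
  have hY1 : (1 : ℝ) ≤ Y := by exact_mod_cast hY
  have hly : 0 ≤ Real.log Y := Real.log_nonneg hY1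
  have hlX : 0 ≤ Real.log X := Real.log_nonneg (by linarith)
  have ha : 0 < 2 * σ - 1 := by linarith
  have hA : ∫⁻ t in Icc X (2 * X), ‖riemannZeta (σ + t * I) * Mo Y (σ + t * I) - 1‖ₑ ^ 2 ≤
      ENNReal.ofReal (7200 * Real.pi * X ^ 2 *
        (C₁ * (X⁻¹ * (Y : ℝ) ^ (-(2 * σ - 1)) * (1 + Real.log X) ^ 4 +
          (1 + Real.log Y) ^ 2 * X⁻¹ ^ 2 * X ^ (2 - 2 * σ)) +
        C₂ * (1 / (6 * X) * X ^ (1 - 2 * σ) * (1 + Real.log Y) ^ 3 / (2 * σ - 1) +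
          (Y : ℝ) ^ 4 * X ^ (-(2 * σ) - 1)))) := by
    refine avg (X := X) (θ₀ := 1 / (6 * X)) (by positivity) (by positivity) (by positivity)
      (by positivity) _ (fun θ t => ENNReal.ofReal (t ^ (2 * σ - 1) * DG Y θ t ^ 2))
      (fun θ hθ => each h1 h2 hσ (by linarith) (by linarith) hθ.1 hθ.2)
      (fun θ hθ => ?_) ?_
    · have hθ0 : 0 < θ := lt_of_lt_of_le (by positivity) hθ.1
      have hθX : θ ≤ X⁻¹ := by
        refine hθ.2.trans ?_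
        rw [inv_eq_one_div, ← mul_div_assoc, div_le_div_iff₀ (by positivity) hX0]
        linarith
      have h3X : 3 * θ * X ≤ 1 := by
        have e1 : 3 * (2 * (1 / (6 * X))) * X = 1 := by
          field_simp
          norm_num
        rw [← e1]
        have := hθ.2
        gcongr
      refine (hL1 Y X θ σ hY (by linarith) hθ0 h3X hσ hσ1).trans
        (ENNReal.ofReal_le_ofReal ?_)
      refine mul_le_mul_of_nonneg_left (add_le_add ?_ ?_) hC₁.le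
      · gcongr
      · gcongr
    · have h6 : 1 / (6 * X) ≤ 1 := by
        rw [div_le_one (by positivity)]
        linarith
      refine (hL2 Y X (1 / (6 * X)) σ hY (by linarith) (by positivity) h6 hσ hσ1).trans
        (le_of_eq ?_)
      congr 1
      ring
  have hfin := hA.trans (ENNReal.ofReal_le_ofReal (fin_le hC₁ hC₂ hX hY1 hYX hσ hσ1))
  have hcont := continuous_F Y σ (by linarith)
  have hgoal : (∫ τ in X..(2 * X), ‖riemannZeta (σ + τ * I) * Mo Y (σ + τ * I) - 1‖ ^ 2) ≤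
      7200 * Real.pi * (2 * C₁ + 2 * C₂) * (1 + Real.log X) ^ 4 / (2 * σ - 1) * X *
        (Y : ℝ) ^ (-(2 * σ - 1)) := by
    have hm : Continuous (fun τ : ℝ =>
        ‖riemannZeta (σ + τ * I) * Mo Y (σ + τ * I) - 1‖ ^ 2) := hcont.norm.pow 2
    rw [intervalIntegral.integral_of_le (by linarith), integral_eq_lintegral_of_nonneg_ae
      (Eventually.of_forall fun τ => sq_nonneg _) hm.aestronglyMeasurable]
    refine ENNReal.toReal_le_of_le_ofReal (by positivity) (le_trans ?_ hfin)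
    refine (lintegral_mono_set Ioc_subset_Icc_self).trans (le_of_eq ?_)
    refine lintegral_congr fun τ => ?_
    rw [← ofReal_norm, ENNReal.ofReal_pow (norm_nonneg _)]
  exact hgoal

end Pool.Agent.DBB
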