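import Pool.Agent.DBB.Targets2

/-!
# DBB, block VAR: the variance of the short sums of the sawtooth functions
-/

set_option autoImplicit false

namespace Pool.Agent.DBB

namespace VAR_

open MeasureTheory

theorem meas (H : ℝ) (k : ℕ) : Measurable (fun x : ℝ => ph H k x) := by
  unfold ph
  exact ((measurable_fract.comp ((measurable_id.add_const H).div_const (k : ℝ))).sub
    (measurable_fract.comp (measurable_id.div_const (k : ℝ))))

theorem bd (H : ℝ) (k : ℕ) (x : ℝ) : |ph H k x| ≤ 1 := by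
  unfold ph
  have h1 := Int.fract_nonneg ((x + H) / (k : ℝ))
  have h2 := Int.fract_lt_one ((x + H) / (k : ℝ))
  have h3 := Int.fract_nonneg (x / (k : ℝ))
  have h4 := Int.fract_lt_one (x / (k : ℝ))
  rw [abs_le]
  constructor <;> linarith

theorem intg (H : ℝ) (k l : ℕ) (a b : ℝ) :
    IntervalIntegrable (fun x : ℝ => ph H k x * ph H l x) volume a b := by
  refine (intervalIntegrable_const (c := (1 : ℝ))).mono_fun
    ((meas H k).mul (meas H l)).aestronglyMeasurable ?_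
  refine Filter.Eventually.of_forall fun x => ?_
  simp only [norm_mul, Real.norm_eq_abs]
  have h1 := bd H k x
  have h2 := bd H l x
  have h3 := abs_nonneg (ph H k x)
  have h4 := abs_nonneg (ph H l x)
  rw [abs_one]
  nlinarith

theorem mu_le (k : ℕ) : |((ArithmeticFunction.moebius k : ℤ) : ℝ)| ≤ 1 := by
  have h := ArithmeticFunction.abs_moebius_le_one (n := k)
  exact_mod_cast h

end VAR_

theorem p_VAR (h1 : T_CZV) (h2 : T_GSM) : T_VAR := by
  intro Y H Z hY hH hZ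
  have e1 : ∀ x : ℝ, (∑ k ∈ Finset.Icc 1 Y,
      ((ArithmeticFunction.moebius k : ℤ) : ℝ) * ph H k x) ^ 2 =
      ∑ k ∈ Finset.Icc 1 Y, ∑ l ∈ Finset.Icc 1 Y,
        (((ArithmeticFunction.moebius k : ℤ) : ℝ) * ((ArithmeticFunction.moebius l : ℤ) : ℝ)) *
          (ph H k x * ph H l x) := by
    intro x
    rw [pow_two, Finset.sum_mul_sum]
    refine Finset.sum_congr rfl fun k _ => Finset.sum_congr rfl fun l _ => ?_
    ring
  have e2 : (∫ x in Z..(2 * Z), (∑ k ∈ Finset.Icc 1 Y,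
      ((ArithmeticFunction.moebius k : ℤ) : ℝ) * ph H k x) ^ 2) =
      ∑ k ∈ Finset.Icc 1 Y, ∑ l ∈ Finset.Icc 1 Y,
        (((ArithmeticFunction.moebius k : ℤ) : ℝ) * ((ArithmeticFunction.moebius l : ℤ) : ℝ)) *
          ∫ x in Z..(2 * Z), ph H k x * ph H l x := by
    simp_rw [e1]
    rw [intervalIntegral.integral_finsetSum]
    · refine Finset.sum_congr rfl fun k _ => ?_
      rw [intervalIntegral.integral_finsetSum]
      · refine Finset.sum_congr rfl fun l _ => ?_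
        rw [intervalIntegral.integral_const_mul]
      · intro l _
        exact (VAR_.intg H k l Z (2 * Z)).const_mul _
    · intro k _
      have := IntervalIntegrable.sum (μ := MeasureTheory.volume) (a := Z) (b := 2 * Z)
        (Finset.Icc 1 Y) (f := fun l x => (((ArithmeticFunction.moebius k : ℤ) : ℝ) *
          ((ArithmeticFunction.moebius l : ℤ) : ℝ)) * (ph H k x * ph H l x))
        (fun l _ => (VAR_.intg H k l Z (2 * Z)).const_mul _)
      have e : (fun x : ℝ => ∑ l ∈ Finset.Icc 1 Y,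
          (((ArithmeticFunction.moebius k : ℤ) : ℝ) *
            ((ArithmeticFunction.moebius l : ℤ) : ℝ)) * (ph H k x * ph H l x)) =
          ∑ l ∈ Finset.Icc 1 Y, fun x : ℝ => (((ArithmeticFunction.moebius k : ℤ) : ℝ) *
            ((ArithmeticFunction.moebius l : ℤ) : ℝ)) * (ph H k x * ph H l x) := by
        funext x
        rw [Finset.sum_apply]
      rw [e]
      exact this
  have e3 : ∀ k ∈ Finset.Icc 1 Y, ∀ l ∈ Finset.Icc 1 Y,
      (((ArithmeticFunction.moebius k : ℤ) : ℝ) * ((ArithmeticFunction.moebius l : ℤ) : ℝ)) *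
          (∫ x in Z..(2 * Z), ph H k x * ph H l x) ≤
        Z * H * (1 / (Nat.lcm k l : ℝ)) + (Y : ℝ) ^ 2 := by
    intro k hk l hl
    rw [Finset.mem_Icc] at hk hl
    have h3 := h1 k l H Z hk.1 hl.1 hH hZ
    have h4 := VAR_.mu_le k
    have h5 := VAR_.mu_le l
    have h6 : |((ArithmeticFunction.moebius k : ℤ) : ℝ) *
        ((ArithmeticFunction.moebius l : ℤ) : ℝ)| ≤ 1 := by
      rw [abs_mul]
      exact mul_le_one₀ h4 (abs_nonneg _) h5
    have h7 : (Nat.lcm k l : ℝ) ≤ (Y : ℝ) ^ 2 := by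
      have h8 : Nat.lcm k l ≤ k * l := Nat.le_of_dvd (Nat.mul_pos hk.1 hl.1)
        (Nat.lcm_dvd_mul k l)
      have h9 : k * l ≤ Y * Y := Nat.mul_le_mul hk.2 hl.2
      have h10 : ((Nat.lcm k l : ℕ) : ℝ) ≤ ((Y * Y : ℕ) : ℝ) := by exact_mod_cast h8.trans h9
      rw [Nat.cast_mul] at h10
      nlinarith
    calc (((ArithmeticFunction.moebius k : ℤ) : ℝ) * ((ArithmeticFunction.moebius l : ℤ) : ℝ)) *
          (∫ x in Z..(2 * Z), ph H k x * ph H l x)
        ≤ |(((ArithmeticFunction.moebius k : ℤ) : ℝ) *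
          ((ArithmeticFunction.moebius l : ℤ) : ℝ)) *
          (∫ x in Z..(2 * Z), ph H k x * ph H l x)| := le_abs_self _
      _ = |((ArithmeticFunction.moebius k : ℤ) : ℝ) *
          ((ArithmeticFunction.moebius l : ℤ) : ℝ)| *
          |∫ x in Z..(2 * Z), ph H k x * ph H l x| := abs_mul _ _
      _ ≤ 1 * |∫ x in Z..(2 * Z), ph H k x * ph H l x| :=
          mul_le_mul_of_nonneg_right h6 (abs_nonneg _)
      _ = |∫ x in Z..(2 * Z), ph H k x * ph H l x| := one_mul _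
      _ ≤ Z * H / (Nat.lcm k l : ℝ) + (Nat.lcm k l : ℝ) := h3
      _ ≤ Z * H * (1 / (Nat.lcm k l : ℝ)) + (Y : ℝ) ^ 2 := by
          rw [mul_one_div]
          linarith
  rw [e2]
  have e4 : (∑ k ∈ Finset.Icc 1 Y, ∑ l ∈ Finset.Icc 1 Y,
        (((ArithmeticFunction.moebius k : ℤ) : ℝ) * ((ArithmeticFunction.moebius l : ℤ) : ℝ)) *
          ∫ x in Z..(2 * Z), ph H k x * ph H l x) ≤
      ∑ k ∈ Finset.Icc 1 Y, ∑ l ∈ Finset.Icc 1 Y,
        (Z * H * (1 / (Nat.lcm k l : ℝ)) + (Y : ℝ) ^ 2) :=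
    Finset.sum_le_sum fun k hk => Finset.sum_le_sum fun l hl => e3 k hk l hl
  refine e4.trans ?_
  have e5 : (∑ k ∈ Finset.Icc 1 Y, ∑ l ∈ Finset.Icc 1 Y,
        (Z * H * (1 / (Nat.lcm k l : ℝ)) + (Y : ℝ) ^ 2)) =
      Z * H * (∑ k ∈ Finset.Icc 1 Y, ∑ l ∈ Finset.Icc 1 Y, 1 / (Nat.lcm k l : ℝ)) +
        (Y : ℝ) ^ 4 := by
    simp only [Finset.sum_add_distrib, Finset.sum_const, Nat.card_Icc, add_tsub_cancel_right,
      nsmul_eq_mul, Finset.mul_sum]
    ring
  rw [e5]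
  have h3 := h2 Y hY
  have h4 : Z * H * (∑ k ∈ Finset.Icc 1 Y, ∑ l ∈ Finset.Icc 1 Y, 1 / (Nat.lcm k l : ℝ)) ≤
      Z * H * (1 + Real.log Y) ^ 3 := mul_le_mul_of_nonneg_left h3 (mul_nonneg hZ hH)
  linarith

end Pool.Agent.DBB
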