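import Pool.Agent.DBB.Targets2
import Pool.Agent.DBA.P_ZMS

/-!
# DBB, ZMP: mean squares of zeta and of the mollifier near the critical line
-/

set_option autoImplicit false

namespace Pool.Agent.DBB

open Complex MeasureTheory Set Filter
open Pool.Agent.DBA (pt Dp Mp)

namespace ZMP_

theorem tp (T σ : ℝ) (hT : 2 ≤ T) (hσ : 1 / 2 - 1 / Real.log T ≤ σ) :
    T ^ (1 - 2 * σ) ≤ Real.exp 2 := by
  have hT0 : 0 < T := by linarith
  have hL : 0 < Real.log T := Real.log_pos (by linarith)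
  rw [Real.rpow_def_of_pos hT0]
  apply Real.exp_le_exp.2
  have h1 : 1 - 2 * σ ≤ 2 / Real.log T := by
    have h2 : 2 / Real.log T = 2 * (1 / Real.log T) := by ring
    rw [h2]
    linarith
  calc Real.log T * (1 - 2 * σ) ≤ Real.log T * (2 / Real.log T) :=
        mul_le_mul_of_nonneg_left h1 hL.le
    _ = 2 := by field_simp

theorem coef (T σ : ℝ) (hT : 2 ≤ T) (hσ : 1 / 2 - 1 / Real.log T ≤ σ) (hσ4 : 1 / 4 ≤ σ)
    (n : ℕ) (hn : 1 ≤ n) (hnT : (n : ℝ) ≤ 2 * T) :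
    ((n : ℝ) ^ (-σ)) ^ 2 * n * (T + n) ≤ 6 * Real.exp 2 * T := by
  have hn1 : (1 : ℝ) ≤ n := by exact_mod_cast hn
  have hT0 : 0 < T := by linarith
  have he : 1 ≤ Real.exp 2 := Real.one_le_exp (by norm_num)
  have e1 : ((n : ℝ) ^ (-σ)) ^ 2 * n = (n : ℝ) ^ (1 - 2 * σ) := by
    rw [← Real.rpow_natCast, ← Real.rpow_mul (by linarith), ← Real.rpow_add_one (by linarith)]
    congr 1
    push_cast
    ring
  rw [e1]
  have h1 : (n : ℝ) ^ (1 - 2 * σ) ≤ 2 * Real.exp 2 := by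
    rcases le_total (1 / 2) σ with h | h
    · have h2 : (n : ℝ) ^ (1 - 2 * σ) ≤ 1 := Real.rpow_le_one_of_one_le_of_nonpos hn1 (by linarith)
      linarith
    · have h2 : (n : ℝ) ^ (1 - 2 * σ) ≤ (2 * T) ^ (1 - 2 * σ) :=
        Real.rpow_le_rpow (by linarith) hnT (by linarith)
      have h3 : (2 * T) ^ (1 - 2 * σ) = 2 ^ (1 - 2 * σ) * T ^ (1 - 2 * σ) :=
        Real.mul_rpow (by norm_num) hT0.le
      have h4 : (2 : ℝ) ^ (1 - 2 * σ) ≤ 2 := by
        have := Real.rpow_le_rpow_of_exponent_le (show (1 : ℝ) ≤ 2 by norm_num)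
          (show 1 - 2 * σ ≤ 1 by linarith)
        rwa [Real.rpow_one] at this
      have h5 : 0 ≤ T ^ (1 - 2 * σ) := Real.rpow_nonneg hT0.le _
      calc (n : ℝ) ^ (1 - 2 * σ) ≤ 2 ^ (1 - 2 * σ) * T ^ (1 - 2 * σ) := h2.trans h3.le
        _ ≤ 2 * T ^ (1 - 2 * σ) := mul_le_mul_of_nonneg_right h4 h5
        _ ≤ 2 * Real.exp 2 := mul_le_mul_of_nonneg_left (tp T σ hT hσ) (by norm_num)
  have h2 : T + n ≤ 3 * T := by linarith
  calc (n : ℝ) ^ (1 - 2 * σ) * (T + n) ≤ (2 * Real.exp 2) * (3 * T) :=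
        mul_le_mul h1 h2 (by linarith) (by positivity)
    _ = 6 * Real.exp 2 * T := by ring

theorem mp_eq (Y : ℕ) (σ t : ℝ) : Mp Y (pt σ t) =
    ∑ n ∈ Finset.Icc 1 Y,
      (((((ArithmeticFunction.moebius n : ℤ) : ℝ) * (n : ℝ) ^ (-σ) : ℝ)) : ℂ) *
        (n : ℂ) ^ (-((t : ℂ) * I)) := by
  unfold Mp pt
  refine Finset.sum_congr rfl fun n hn => ?_
  have hn0 : (n : ℂ) ≠ 0 := by
    have h1 := (Finset.mem_Icc.1 hn).1
    exact_mod_cast (by omega : n ≠ 0)
  rw [neg_add, Complex.cpow_add _ _ hn0]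
  push_cast
  rw [Complex.ofReal_cpow (Nat.cast_nonneg n)]
  push_cast
  ring

theorem moeb (n : ℕ) : (((ArithmeticFunction.moebius n : ℤ) : ℝ)) ^ 2 ≤ 1 := by
  have h1 : |ArithmeticFunction.moebius n| ≤ 1 := ArithmeticFunction.abs_moebius_le_one
  have h2 : |((ArithmeticFunction.moebius n : ℤ) : ℝ)| ≤ 1 := by exact_mod_cast h1
  have h3 := abs_nonneg ((ArithmeticFunction.moebius n : ℤ) : ℝ)
  rw [← sq_abs]
  nlinarith

end ZMP_

open ZMP_ Pool.Agent.DBA.ZMS_ in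
theorem p_ZMP (h1 : Pool.Agent.DBA.T_REM) (h2 : Pool.Agent.DBA.T_MVS) : T_ZMP := by
  obtain ⟨C1, hC1, H1⟩ := h1
  obtain ⟨C2, hC2, H2⟩ := h2
  have hexp : 0 < Real.exp 2 := Real.exp_pos 2
  refine ⟨2 * (C1 * Real.exp 2) + 2 * (C2 * (6 * Real.exp 2) * 8) + C2 * (6 * Real.exp 2),
    by positivity, fun T σ hT hσ hσ4 hσ3 => ?_⟩
  have hT0 : 0 < T := by linarith
  have hT1 : 1 ≤ T := by linarith
  have hLT : 0 ≤ Real.log T := Real.log_nonneg hT1
  have hP : 1 ≤ (1 + Real.log T) ^ 3 := one_le_pow₀ (by linarith)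
  have hA : 0 ≤ T * (1 + Real.log T) ^ 3 := by positivity
  constructor
  · obtain ⟨N, hN1, hN2⟩ : ∃ N : ℕ, T ≤ N ∧ (N : ℝ) ≤ 2 * T :=
      ⟨⌈T⌉₊, Nat.le_ceil T, by have := (Nat.ceil_lt_add_one hT0.le).le; linarith⟩
    have hN1' : 1 ≤ N := by
      have : (1 : ℝ) ≤ N := hT1.trans hN1
      exact_mod_cast this
    have hle : T ≤ 2 * T := by linarith
    have A1 := H1 T σ N hT1 hN1 (by linarith) hσ4 hσ3
    have A2 := H2 N (fun n => (n : ℝ) ^ (-σ)) (6 * Real.exp 2 * T) T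
      (by positivity) hT0 hN1' fun n hn hnN => ZMP_.coef T σ hT hσ hσ4 n hn
        (le_trans (by exact_mod_cast hnN) hN2)
    simp only [← dp_eq] at A2
    have i1 : IntervalIntegrable (fun t : ℝ => ‖riemannZeta (pt σ t) - Dp N (pt σ t)‖ ^ 2)
        volume T (2 * T) :=
      (((cont_zeta σ T hT1).sub (cont_dp N σ).continuousOn).norm.pow 2).intervalIntegrable
    have i2 : IntervalIntegrable (fun t : ℝ => ‖Dp N (pt σ t)‖ ^ 2) volume T (2 * T) :=
      ((cont_dp N σ).norm.pow 2).intervalIntegrable _ _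
    have i3 : IntervalIntegrable (fun t : ℝ => ‖riemannZeta (pt σ t)‖ ^ 2) volume T (2 * T) :=
      ((cont_zeta σ T hT1).norm.pow 2).intervalIntegrable
    have B1 : (∫ t in T..(2 * T), ‖riemannZeta (pt σ t)‖ ^ 2) ≤
        ∫ t in T..(2 * T), (2 * ‖riemannZeta (pt σ t) - Dp N (pt σ t)‖ ^ 2 +
          2 * ‖Dp N (pt σ t)‖ ^ 2) := by
      refine intervalIntegral.integral_mono_on hle i3 ((i1.const_mul 2).add (i2.const_mul 2))
        fun t _ => ?_
      have h3 : ‖riemannZeta (pt σ t)‖ ≤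
          ‖riemannZeta (pt σ t) - Dp N (pt σ t)‖ + ‖Dp N (pt σ t)‖ := by
        have := norm_add_le (riemannZeta (pt σ t) - Dp N (pt σ t)) (Dp N (pt σ t))
        rwa [sub_add_cancel] at this
      have h4 := norm_nonneg (riemannZeta (pt σ t))
      nlinarith [sq_nonneg (‖riemannZeta (pt σ t) - Dp N (pt σ t)‖ - ‖Dp N (pt σ t)‖)]
    rw [intervalIntegral.integral_add (i1.const_mul 2) (i2.const_mul 2),
      intervalIntegral.integral_const_mul, intervalIntegral.integral_const_mul] at B1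
    have B2 : T ^ (2 - 2 * σ) ≤ Real.exp 2 * T := by
      have e : (2 - 2 * σ) = (1 - 2 * σ) + 1 := by ring
      rw [e, Real.rpow_add_one hT0.ne']
      exact mul_le_mul_of_nonneg_right (tp T σ hT hσ) hT0.le
    have B3 : (1 + Real.log N) ^ 3 ≤ 8 * (1 + Real.log T) ^ 3 := by
      have hN0 : (1 : ℝ) ≤ N := by exact_mod_cast hN1'
      have h1 : Real.log N ≤ Real.log 2 + Real.log T := by
        rw [← Real.log_mul (by norm_num) hT0.ne']
        exact Real.log_le_log (by linarith) hN2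
      have h2 : Real.log 2 ≤ 1 := by
        have := Real.log_two_lt_d9
        linarith
      have h7 : 0 ≤ 1 + Real.log N := by
        have := Real.log_nonneg hN0
        linarith
      calc (1 + Real.log N) ^ 3 ≤ (2 * (1 + Real.log T)) ^ 3 :=
            pow_le_pow_left₀ h7 (by linarith) 3
        _ = 8 * (1 + Real.log T) ^ 3 := by ring
    have B5 : C2 * (6 * Real.exp 2 * T) * (1 + Real.log N) ^ 3 ≤
        C2 * (6 * Real.exp 2) * 8 * (T * (1 + Real.log T) ^ 3) := by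
      calc C2 * (6 * Real.exp 2 * T) * (1 + Real.log N) ^ 3
          ≤ C2 * (6 * Real.exp 2 * T) * (8 * (1 + Real.log T) ^ 3) :=
            mul_le_mul_of_nonneg_left B3 (by positivity)
        _ = _ := by ring
    have B6 : C1 * T ^ (2 - 2 * σ) ≤ C1 * Real.exp 2 * (T * (1 + Real.log T) ^ 3) := by
      calc C1 * T ^ (2 - 2 * σ) ≤ C1 * (Real.exp 2 * T) :=
            mul_le_mul_of_nonneg_left B2 hC1.le
        _ = C1 * Real.exp 2 * (T * 1) := by ring
        _ ≤ C1 * Real.exp 2 * (T * (1 + Real.log T) ^ 3) :=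
            mul_le_mul_of_nonneg_left (mul_le_mul_of_nonneg_left hP hT0.le) (by positivity)
    have B7 : 0 ≤ C2 * (6 * Real.exp 2) * (T * (1 + Real.log T) ^ 3) := by positivity
    calc (∫ t in T..(2 * T), ‖riemannZeta (pt σ t)‖ ^ 2)
        ≤ 2 * (C1 * Real.exp 2 * (T * (1 + Real.log T) ^ 3)) +
          2 * (C2 * (6 * Real.exp 2) * 8 * (T * (1 + Real.log T) ^ 3)) +
          C2 * (6 * Real.exp 2) * (T * (1 + Real.log T) ^ 3) := by linarith
      _ = _ := by ring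
  · intro Y hY hYT
    have A2 := H2 Y (fun n => ((ArithmeticFunction.moebius n : ℤ) : ℝ) * (n : ℝ) ^ (-σ))
      (6 * Real.exp 2 * T) T (by positivity) hT0 hY fun n hn hnN => by
        have h3 := ZMP_.coef T σ hT hσ hσ4 n hn (by
          have : (n : ℝ) ≤ Y := by exact_mod_cast hnN
          linarith)
        refine le_trans ?_ h3
        have h4 : 0 ≤ ((n : ℝ) ^ (-σ)) ^ 2 * n * (T + n) := by positivity
        calc (((ArithmeticFunction.moebius n : ℤ) : ℝ) * (n : ℝ) ^ (-σ)) ^ 2 * n * (T + n)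
            = ((ArithmeticFunction.moebius n : ℤ) : ℝ) ^ 2 *
              (((n : ℝ) ^ (-σ)) ^ 2 * n * (T + n)) := by ring
          _ ≤ 1 * (((n : ℝ) ^ (-σ)) ^ 2 * n * (T + n)) :=
              mul_le_mul_of_nonneg_right (moeb n) h4
          _ = _ := one_mul _
    simp only [← mp_eq] at A2
    have hY0 : (1 : ℝ) ≤ Y := by exact_mod_cast hY
    have B3 : (1 + Real.log Y) ^ 3 ≤ (1 + Real.log T) ^ 3 := by
      have h1 : Real.log Y ≤ Real.log T := Real.log_le_log (by linarith) hYT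
      have h7 : 0 ≤ 1 + Real.log Y := by
        have := Real.log_nonneg hY0
        linarith
      exact pow_le_pow_left₀ h7 (by linarith) 3
    have B5 : C2 * (6 * Real.exp 2 * T) * (1 + Real.log Y) ^ 3 ≤
        C2 * (6 * Real.exp 2) * (T * (1 + Real.log T) ^ 3) := by
      calc C2 * (6 * Real.exp 2 * T) * (1 + Real.log Y) ^ 3
          ≤ C2 * (6 * Real.exp 2 * T) * (1 + Real.log T) ^ 3 :=
            mul_le_mul_of_nonneg_left B3 (by positivity)
        _ = _ := by ring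
    have B6 : 0 ≤ C1 * Real.exp 2 * (T * (1 + Real.log T) ^ 3) := by positivity
    have B7 : 0 ≤ C2 * (6 * Real.exp 2) * (T * (1 + Real.log T) ^ 3) := by positivity
    calc (∫ t in T..(2 * T), ‖Mp Y (pt σ t)‖ ^ 2)
        ≤ 2 * (C1 * Real.exp 2 * (T * (1 + Real.log T) ^ 3)) +
          2 * (C2 * (6 * Real.exp 2) * 8 * (T * (1 + Real.log T) ^ 3)) +
          C2 * (6 * Real.exp 2) * (T * (1 + Real.log T) ^ 3) := by linarith
      _ = _ := by ring

end Pool.Agent.DBB
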