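import Pool.Agent.DBB.AllL
import Pool.Agent.DBA.All
import Pool.Agent.DBB.P_HER
import Pool.Agent.DBB.P_COR
import Pool.Agent.DBB.P_CZV
import Pool.Agent.DBB.P_GSM
import Pool.Agent.DBB.P_VAR
import Pool.Agent.DBB.P_DV4
import Pool.Agent.DBB.P_AM2
import Pool.Agent.DBB.P_GXA
import Pool.Agent.DBB.P_GXB
import Pool.Agent.DBB.P_LT2
import Pool.Agent.DBB.P_LT3
import Pool.Agent.DBB.P_MM2
import Pool.Agent.DBB.P_ZMP
import Pool.Agent.DBB.P_UZP
import Pool.Agent.DBB.P_FSP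
import Pool.Agent.DBB.P_BCP
import Pool.Agent.DBB.P_AR3
import Pool.Agent.DBC.S_PL
import Pool.Agent.DBC.S_MF

/-!
# DBB: the arithmetic part, and the theorem for all times `t ≥ A log log T / (log T)²`
-/

set_option autoImplicit false

namespace Pool.Agent.DBB

open Pool.Agent.DBC Pool.Agent.DBA

theorem var' : T_VAR := p_VAR (p_CZV (p_COR p_HER)) p_GSM

theorem mm2 : T_MM2 := p_MM2 s_PL s_MF (p_LT2 p_GXB (p_AM2 p_DV4)) (p_LT3 var' p_GXA)

theorem ar2 : T_AR2 :=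
  p_AR3 fin (p_UZP (p_ZMP rem' (p_MVS34 p_MVD)) p_DSC p_MRK) (p_FSP mm2 p_DSC p_MRK) (p_BCP q_BCL)

theorem sharp : ∀ c : ℝ, 0 < c → Sharp c := sharp_of ar2

end Pool.Agent.DBB
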