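import Pool.Agent.DBB.Targets
import Pool.Agent.DBN.ZA

/-!
# DBB, target `T_BD2`: the pointwise bound
-/

set_option autoImplicit false

namespace Pool.Agent.DBB

open Complex MeasureTheory Set Filter
open Pool.Agent.DBN Pool.Agent.DBC

namespace BD2_

theorem log_ge {T : ℝ} (hT : 2 ≤ T) : 1 / 2 ≤ Real.log T := by
  have h1 : Real.log 2 ≤ Real.log T := Real.log_le_log (by norm_num) hT
  have h2 := Real.log_two_gt_d9
  linarith

theorem size_nonneg' {T : ℝ} (hT : 2 ≤ T) : 0 ≤ size T := by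
  unfold size
  have : 0 ≤ T := by linarith
  positivity

theorem pt_eq (y u τ T : ℝ) : Pool.Agent.DBC.pt y τ + u =
    1 / 2 + T * I + (((y + u : ℝ) : ℂ) + ((τ - T : ℝ) : ℂ) * I) := by
  rw [Pool.Agent.DBC.pt]
  push_cast
  ring

theorem norm_sq_le {y u τ T K : ℝ} (hy : |y| ≤ K) (hτ : |τ - T| ≤ K) :
    ‖((y + u : ℝ) : ℂ) + ((τ - T : ℝ) : ℂ) * I‖ ^ 2 ≤ 2 * u ^ 2 + 3 * K ^ 2 := by
  have e4 : ‖((y + u : ℝ) : ℂ) + ((τ - T : ℝ) : ℂ) * I‖ ^ 2 = (y + u) ^ 2 + (τ - T) ^ 2 := by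
    rw [Complex.sq_norm, Complex.normSq_apply]
    simp
    ring
  have e5 : y ^ 2 ≤ K ^ 2 := by
    rw [← sq_abs y]
    gcongr
  have e6 : (τ - T) ^ 2 ≤ K ^ 2 := by
    rw [← sq_abs (τ - T)]
    gcongr
  rw [e4]
  nlinarith [sq_nonneg (y - u)]

theorem far {ε c₂ κ K U t L u : ℝ} (hε : 0 < ε) (hc : 0 < c₂) (hκ : κ = ε / (4 * c₂))
    (ht : 0 < t) (hL : 0 < L) (htL : t * L ≤ c₂) (hU : 0 ≤ U) (hu : U ≤ u)
    (hU2 : 5 / 4 + 3 * κ * K ^ 2 + 1 ≤ 2 * κ * U ^ 2) :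
    L + 5 / 4 * L + κ * (2 * u ^ 2 + 3 * K ^ 2) * L ≤ ε * (u ^ 2 / t) := by
  have hκ0 : 0 < κ := by
    rw [hκ]
    positivity
  have h1 : u ^ 2 * L / c₂ ≤ u ^ 2 / t := by
    rw [div_le_div_iff₀ hc ht]
    calc u ^ 2 * L * t = u ^ 2 * (t * L) := by ring
      _ ≤ u ^ 2 * c₂ := by gcongr
  have h2 : 4 * κ * u ^ 2 * L ≤ ε * (u ^ 2 / t) := by
    calc 4 * κ * u ^ 2 * L = ε * (u ^ 2 * L / c₂) := by
          rw [hκ]
          field_simp
      _ ≤ ε * (u ^ 2 / t) := by gcongr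
  have h3 : 2 * κ * U ^ 2 ≤ 2 * κ * u ^ 2 := by gcongr
  have h4 : (5 / 4 + 3 * κ * K ^ 2 + 1) * L ≤ 2 * κ * u ^ 2 * L := by
    gcongr
    linarith
  nlinarith [h2, h4]

end BD2_

open BD2_ in
/-- The pointwise bound. -/
theorem p_BD2 (h1 : T_XU2) : T_BD2 := by
  intro G c₂ hG ε K hε hε1 hK
  have hc := hG.c0
  obtain ⟨κ, hκ⟩ : ∃ κ, κ = ε / (4 * c₂) := ⟨_, rfl⟩
  have hκ0 : 0 < κ := by
    rw [hκ]
    positivity
  obtain ⟨U, hUd⟩ : ∃ U, U = (5 / 4 + 3 * κ * K ^ 2 + 1) / (2 * κ) + 1 := ⟨_, rfl⟩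
  have hq : 0 ≤ (5 / 4 + 3 * κ * K ^ 2 + 1) / (2 * κ) := by positivity
  have hU1 : 1 ≤ U := by
    rw [hUd]
    linarith
  have hU2 : 5 / 4 + 3 * κ * K ^ 2 + 1 ≤ 2 * κ * U ^ 2 := by
    have h2 : U ≤ U ^ 2 := by nlinarith
    have h3 : (5 / 4 + 3 * κ * K ^ 2 + 1) / (2 * κ) ≤ U ^ 2 := by linarith
    rw [div_le_iff₀ (by positivity)] at h3
    linarith
  obtain ⟨T₁, hT₁, h2⟩ := h1 G c₂ hG ε (K + U) hε (by linarith)
  obtain ⟨C, hC, h3⟩ := xi_quarter_le 1 κ one_pos hκ0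
  refine ⟨max T₁ C, le_max_of_le_left hT₁, ?_⟩
  intro t T y τ u hm hT hy hτ hu
  have hTT₁ : T₁ ≤ T := (le_max_left _ _).trans hT
  have hTC : C ≤ T := (le_max_right _ _).trans hT
  have hT2 : 2 ≤ T := hT₁.trans hTT₁
  have hT0 : 0 < T := by linarith
  have hL := log_ge hT2
  have hL0 : 0 < Real.log T := by linarith
  have ht := hG.ht t T hm
  have htL := hG.hc t T hm
  have hs := size_nonneg' hT2
  have hmt : 0 ≤ mt t T := by
    unfold mt
    positivity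
  have hut : 0 ≤ u ^ 2 / t := by positivity
  obtain ⟨w, hw⟩ : ∃ w : ℂ, w = ((y + u : ℝ) : ℂ) + ((τ - T : ℝ) : ℂ) * I := ⟨_, rfl⟩
  have e1 : Pool.Agent.DBC.pt y τ + u = 1 / 2 + T * I + w := by
    rw [hw]
    exact pt_eq y u τ T
  have e2 : w.re = y + u := by
    rw [hw]
    simp
  have e3 : w.im = τ - T := by
    rw [hw]
    simp
  rw [e1]
  rcases le_total u U with huU | huU
  · have h4 := h2 t T w hm hTT₁ (by
      rw [e2]
      calc |y + u| ≤ |y| + |u| := abs_add_le y u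
        _ ≤ K + U := by
          rw [abs_of_nonneg hu]
          linarith) (by
      rw [e3]
      linarith)
    rw [e2] at h4
    calc Real.exp (-(u ^ 2 / t)) * ‖xi (1 / 2 + T * I + w)‖
        ≤ Real.exp (-(u ^ 2 / t)) *
          (size T * Real.exp (|y + u| / 2 * Real.log T + ε * mt t T)) := by gcongr
      _ = size T * Real.exp (-(u ^ 2 / t) + (|y + u| / 2 * Real.log T + ε * mt t T)) := by
          rw [Real.exp_add (-(u ^ 2 / t))]
          ring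
      _ ≤ size T * Real.exp (|y + u| / 2 * Real.log T - (1 - ε) * (u ^ 2 / t) +
          ε * mt t T) := by
          refine mul_le_mul_of_nonneg_left (Real.exp_le_exp.2 ?_) hs
          have h5 : 0 ≤ ε * (u ^ 2 / t) := by positivity
          linarith
  · have h4 := h3 T w hT2
    have h5 : ‖w‖ ^ 2 ≤ 2 * u ^ 2 + 3 * K ^ 2 := by
      rw [hw]
      exact norm_sq_le hy hτ
    have h6 := far (K := K) (U := U) (u := u) hε hc hκ ht hL0 htL (by linarith) huU hU2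
    have h7 : max (|w.re| / 2) (1 / 4) + 1 ≤ |y + u| / 2 + 5 / 4 := by
      rw [e2]
      have h8 : max (|y + u| / 2) (1 / 4) ≤ |y + u| / 2 + 1 / 4 :=
        max_le (by linarith) (by linarith [abs_nonneg (y + u)])
      linarith
    have h9 : C ≤ Real.exp (Real.log T) := by
      rw [Real.exp_log hT0]
      exact hTC
    have h10 : T ^ (max (|w.re| / 2) (1 / 4) + 1) ≤
        Real.exp (Real.log T * (|y + u| / 2 + 5 / 4)) := by
      rw [Real.rpow_def_of_pos hT0]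
      gcongr
    calc Real.exp (-(u ^ 2 / t)) * ‖xi (1 / 2 + T * I + w)‖
        ≤ Real.exp (-(u ^ 2 / t)) * (C * size T * T ^ (max (|w.re| / 2) (1 / 4) + 1) *
          Real.exp (κ * ‖w‖ ^ 2 * Real.log T)) := by gcongr
      _ ≤ Real.exp (-(u ^ 2 / t)) * (Real.exp (Real.log T) * size T *
          Real.exp (Real.log T * (|y + u| / 2 + 5 / 4)) *
          Real.exp (κ * (2 * u ^ 2 + 3 * K ^ 2) * Real.log T)) := by gcongr
      _ = size T * Real.exp (-(u ^ 2 / t) + (Real.log T + (Real.log T * (|y + u| / 2 + 5 / 4) +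
          κ * (2 * u ^ 2 + 3 * K ^ 2) * Real.log T))) := by
          rw [Real.exp_add (-(u ^ 2 / t)), Real.exp_add (Real.log T),
            Real.exp_add (Real.log T * (|y + u| / 2 + 5 / 4))]
          ring
      _ ≤ size T * Real.exp (|y + u| / 2 * Real.log T - (1 - ε) * (u ^ 2 / t) +
          ε * mt t T) := by
          refine mul_le_mul_of_nonneg_left (Real.exp_le_exp.2 ?_) hs
          have h11 : 0 ≤ ε * mt t T := by positivity
          linarith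

end Pool.Agent.DBB
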