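import Pool.Agent.DBB.Targets

/-!
# DBB, target CM2: comparison of both sides on the scale of `t` (adapted from DBC/S_CM)
-/

set_option autoImplicit false

namespace Pool.Agent.DBB

open Complex MeasureTheory Set Filter Topology
open Pool.Agent.DBN Pool.Agent.DBC

namespace CM2_

/-- the derivative of `pt` -/
theorem hasDerivAt_pt (x τ : ℝ) : HasDerivAt (fun y : ℝ => Pool.Agent.DBC.pt y τ) 1 x := by
  unfold Pool.Agent.DBC.pt
  have h1 : HasDerivAt (fun y : ℝ => (1 / 2 + y : ℝ)) 1 x := (hasDerivAt_id x).const_add _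
  have h2 : HasDerivAt (fun y : ℝ => ((1 / 2 + y : ℝ) : ℂ)) ((1 : ℝ) : ℂ) x := h1.ofReal_comp
  have h3 := h2.add_const ((τ : ℂ) * I)
  rwa [ofReal_one] at h3

/-- growth when the derivative is nearly a positive multiple of the function -/
theorem inner_pos {w w' : ℂ} {L : ℝ} (hL : 0 < L) (hw : w ≠ 0)
    (h : ‖w' - (L / 2 : ℝ) * w‖ ≤ 1 / 4 * L * ‖w‖) : 0 < inner ℝ w w' := by
  have h1 : inner ℝ w w' = L / 2 * ‖w‖ ^ 2 + inner ℝ w (w' - (L / 2 : ℝ) * w) := by
    have h2 : (L / 2 : ℝ) * w = (L / 2 : ℝ) • w := by rw [Complex.real_smul]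
    rw [h2, inner_sub_right, real_inner_smul_right, real_inner_self_eq_norm_sq]
    ring
  have h3 : |inner ℝ w (w' - (L / 2 : ℝ) * w)| ≤ ‖w‖ * (1 / 4 * L * ‖w‖) :=
    (abs_real_inner_le_norm _ _).trans (mul_le_mul_of_nonneg_left h (norm_nonneg _))
  have h4 := (abs_le.1 h3).1
  have h5 : 0 < ‖w‖ := norm_pos_iff.2 hw
  have h6 : 0 < L * ‖w‖ ^ 2 := by positivity
  rw [h1]
  nlinarith

end CM2_

open CM2_ in
theorem p_CM2 (h1 : Pool.Agent.DBC.T_DER) (h2 : T_GD2) (h3 : T_OB2) : T_CM2 := by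
  intro G c₂ hyp K hK
  obtain ⟨T₁, hT₁, H1⟩ := h2 G c₂ hyp K (1 / 4) hK (by norm_num)
  obtain ⟨g, T₂, hg, hT₂, H2⟩ := h3 G c₂ hyp K (1 / 128) hK (by norm_num)
  obtain ⟨T₃, hT₃, H3⟩ := h2 G c₂ hyp K (g / 2) hK (by linarith)
  refine ⟨max T₁ (max T₂ T₃), hT₁.trans (le_max_left _ _), ?_⟩
  intro t T x τ hG hT hx hxK hτ
  have hTa : T₁ ≤ T := (le_max_left _ _).trans hT
  have hTb : T₂ ≤ T := ((le_max_left _ _).trans (le_max_right _ _)).trans hT
  have hTc : T₃ ≤ T := ((le_max_right _ _).trans (le_max_right _ _)).trans hT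
  have hT2 : 2 ≤ T := hT₁.trans hTa
  have hLpos : 0 < Real.log T := Real.log_pos (by linarith)
  have ht : 0 < t := hyp.ht t T hG
  have htL : 0 < t * Real.log T := mul_pos ht hLpos
  by_cases hxd : x ≤ 1 / 128 * (t * Real.log T)
  · -- close to the critical line
    have hw : ∀ y : ℝ, HasDerivAt (fun y : ℝ => W t (Pool.Agent.DBC.pt y τ))
        (deriv (W t) (Pool.Agent.DBC.pt y τ)) y := by
      intro y
      have e1 : HasDerivAt (W t) (deriv (W t) (Pool.Agent.DBC.pt y τ))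
          (Pool.Agent.DBC.pt y τ) :=
        (h1 t (Pool.Agent.DBC.pt y τ) ht).differentiableAt.hasDerivAt
      have e2 := e1.scomp y (hasDerivAt_pt y τ)
      rw [one_smul] at e2
      exact e2
    have hn : ∀ y : ℝ, HasDerivAt (fun y : ℝ => ‖W t (Pool.Agent.DBC.pt y τ)‖ ^ 2)
        (2 * inner ℝ (W t (Pool.Agent.DBC.pt y τ)) (deriv (W t) (Pool.Agent.DBC.pt y τ))) y :=
      fun y => (hw y).norm_sq
    have hmono : StrictMonoOn (fun y : ℝ => ‖W t (Pool.Agent.DBC.pt y τ)‖ ^ 2)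
        (Icc (-x) x) := by
      refine strictMonoOn_of_deriv_pos (convex_Icc _ _)
        (fun y _ => (hn y).continuousAt.continuousWithinAt) ?_
      intro y hy
      rw [interior_Icc] at hy
      rw [(hn y).deriv]
      obtain ⟨e1, e2, -⟩ := H1 t T y τ hG hTa (by linarith [hy.1]) (by linarith [hy.2]) hτ
      have := inner_pos hLpos e1 e2
      linarith
    have hlt := hmono (left_mem_Icc.2 (by linarith)) (right_mem_Icc.2 (by linarith))
      (show -x < x by linarith)
    exact lt_of_pow_lt_pow_left₀ 2 (norm_nonneg _) hlt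
  · -- far from the critical line
    have e1 := H2 t T x τ hG hTb (not_le.1 hxd).le hxK hτ
    obtain ⟨-, -, e3⟩ := H3 t T x τ hG hTc (by linarith) hxK hτ
    have hT0 : 0 < T := by linarith
    have hsz : 0 < size T := by unfold size; positivity
    have hm : 0 < mt t T := by unfold mt; positivity
    have hlt : EE t T x (-g) < EE t T x (-(g / 2)) := by
      unfold EE
      refine mul_lt_mul_of_pos_left (Real.exp_lt_exp.2 ?_) hsz
      have : 0 < g * mt t T := mul_pos hg hm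
      nlinarith
    exact e1.trans_lt ((mul_lt_mul_of_pos_left hlt (Real.sqrt_pos.2 ht)).trans_le e3)

end Pool.Agent.DBB
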