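import Pool.Agent.DBB.Targets

/-!
# DG2: the diagonal argument
-/

set_option autoImplicit false

namespace Pool.Agent.DBB

open Complex MeasureTheory Set Filter
open Pool.Agent.DBN Pool.Agent.DBC

namespace DG2_

theorem thr (T : ℕ → ℝ) (N : ℕ) : ∃ T₀ : ℝ, 1 ≤ T₀ ∧ ∀ n : ℕ, T₀ ≤ T n → N < n := by
  have hpos : 0 ≤ ∑ n ∈ Finset.range (N + 1), |T n| :=
    Finset.sum_nonneg fun _ _ => abs_nonneg _
  refine ⟨1 + ∑ n ∈ Finset.range (N + 1), |T n|, by linarith, fun n hS => ?_⟩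
  by_contra hc
  have hmem : n ∈ Finset.range (N + 1) := Finset.mem_range.mpr (by omega)
  have h2 : |T n| ≤ ∑ n ∈ Finset.range (N + 1), |T n| :=
    Finset.single_le_sum (f := fun n => |T n|) (fun _ _ => abs_nonneg _) hmem
  have h3 := le_abs_self (T n)
  linarith

theorem thr2 (T : ℕ → ℝ) (ε K : ℝ) (hε : 0 < ε) : ∃ T₀ : ℝ, 1 ≤ T₀ ∧ ∀ n : ℕ, T₀ ≤ T n →
    1 / ((n : ℝ) + 1) ≤ ε ∧ K ≤ n := by
  obtain ⟨N₁, hN₁⟩ := exists_nat_one_div_lt hε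
  obtain ⟨N₂, hN₂⟩ := exists_nat_ge K
  obtain ⟨T₀, h0, h⟩ := thr T (max N₁ N₂)
  refine ⟨T₀, h0, fun n hn => ?_⟩
  have hn' := h n hn
  have hN1 : (N₁ : ℝ) ≤ n := by
    exact_mod_cast ((le_max_left N₁ N₂).trans hn'.le)
  have hN2 : (N₂ : ℝ) ≤ n := by
    exact_mod_cast ((le_max_right N₁ N₂).trans hn'.le)
  refine ⟨le_trans ?_ hN₁.le, hN₂.trans hN2⟩
  exact one_div_le_one_div_of_le (by positivity) (by linarith)

theorem hyp {t T : ℕ → ℝ} {c₂ : ℝ} (hc : 0 < c₂) (hL : ∀ n, Lv n (t n) (T n))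
    (hup : ∀ n, t n * Real.log (T n) ≤ c₂) : HypP (range fun n => (t n, T n)) c₂ where
  c0 := hc
  ht := by
    rintro t' T' ⟨n, hn⟩
    obtain ⟨rfl, rfl⟩ := Prod.mk.inj hn
    exact (hL n).1
  hc := by
    rintro t' T' ⟨n, hn⟩
    obtain ⟨rfl, rfl⟩ := Prod.mk.inj hn
    exact hup n
  big := by
    intro M
    obtain ⟨T₀, -, h⟩ := thr2 T 1 M one_pos
    refine ⟨T₀, ?_⟩
    rintro t' T' ⟨n, hn⟩ hT
    obtain ⟨rfl, rfl⟩ := Prod.mk.inj hn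
    exact (h n hT).2.trans (hL n).2.1
  up := by
    intro ε K hε hK
    obtain ⟨T₀, -, h⟩ := thr2 T ε K hε
    refine ⟨T₀, ?_⟩
    rintro t' T' ⟨n, hn⟩ hT s h1 h2 h3
    obtain ⟨rfl, rfl⟩ := Prod.mk.inj hn
    obtain ⟨he, hKn⟩ := h n hT
    obtain ⟨-, hm, hs⟩ := hL n
    have hm0 : 0 ≤ mt (t n) (T n) := (Nat.cast_nonneg n).trans hm
    refine ((hs s (h3.trans hKn) (h2.trans hKn)).1 h1).trans (Real.exp_le_exp.2 ?_)
    rw [div_eq_mul_one_div, mul_comm]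
    exact mul_le_mul_of_nonneg_right he hm0
  lo := by
    intro ε K hε hK
    obtain ⟨T₀, h0, h⟩ := thr2 T ε K hε
    refine ⟨T₀, ?_⟩
    rintro t' T' ⟨n, hn⟩ hT s h1 h2 h3
    obtain ⟨rfl, rfl⟩ := Prod.mk.inj hn
    obtain ⟨he, hKn⟩ := h n hT
    obtain ⟨ht, hm, hs⟩ := hL n
    have hm0 : 0 ≤ mt (t n) (T n) := (Nat.cast_nonneg n).trans hm
    have hl0 : 0 ≤ t n * Real.log (T n) := mul_nonneg ht.le (Real.log_nonneg (h0.trans hT))
    have h4 : t n * Real.log (T n) / ((n : ℝ) + 1) ≤ ε * (t n * Real.log (T n)) := by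
      rw [div_eq_mul_one_div, mul_comm]
      exact mul_le_mul_of_nonneg_right he hl0
    refine le_trans (Real.exp_le_exp.2 ?_)
      ((hs s (h3.trans hKn) (h2.trans hKn)).2 (by linarith))
    rw [neg_le_neg_iff, div_eq_mul_one_div, mul_comm]
    exact mul_le_mul_of_nonneg_right he hm0

end DG2_

theorem p_DG2 (h1 : T_HT2) : T_DG2 := by
  intro c₂ K ε hcc hK hε
  by_contra hcon
  push Not at hcon
  choose t T hn hup hL hno using hcon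
  obtain ⟨T₀, -, h⟩ := h1 _ c₂ (DG2_.hyp hcc hL hup) K ε hK hε
  obtain ⟨n, hnn⟩ := exists_nat_ge T₀
  exact hno n (h (t n) (T n) ⟨n, rfl⟩ (hnn.trans (hn n)))

end Pool.Agent.DBB
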