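import Pool.Agent.DBB.Targets
import Pool.Agent.DBC.P_HTR

/-!
# HT2: transfer to `H`, for the pairs in `G`
-/

set_option autoImplicit false

namespace Pool.Agent.DBB

open Complex MeasureTheory Set Filter Topology
open Pool.Agent.DBN

open Pool.Agent.DBC.HTR_ in
theorem p_HT2 (h1 : T_ZE2) (h2 : T_SP2) : T_HT2 := by
  intro G c₂ hyp K ε hK hε
  obtain ⟨Ta, hTa, ha⟩ := h1 G c₂ hyp K hK
  obtain ⟨Tb, hTb, hb⟩ := h2 G c₂ hyp K (ε / 2) hK (by linarith)
  refine ⟨max Ta Tb, le_max_of_le_left hTa, fun t T hG hT => ?_⟩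
  have hTa' : Ta ≤ T := (le_max_left _ _).trans hT
  have hTb' : Tb ≤ T := (le_max_right _ _).trans hT
  refine ⟨?_, ?_, ?_⟩
  · intro z hz hz0
    have hre : |z.re / 2 - T| ≤ K := by
      have e1 : |(z - 2 * T).re| ≤ K := (Complex.abs_re_le_norm _).trans hz
      have e2 : (z - 2 * T).re = z.re - 2 * T := by simp
      rw [e2, abs_le] at e1
      rw [abs_le]
      constructor <;> linarith [e1.1, e1.2]
    have him : |-(z.im / 2)| ≤ K := by
      have e1 : |(z - 2 * T).im| ≤ K := (Complex.abs_im_le_norm _).trans hz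
      have e2 : (z - 2 * T).im = z.im := by simp
      rw [e2, abs_le] at e1
      rw [abs_le]
      constructor <;> linarith [e1.1, e1.2]
    obtain ⟨e1, e2⟩ := ha t T (-(z.im / 2)) (z.re / 2) hG hTa' him hre
      ((H_zero t z).mp hz0)
    exact ⟨by linarith, H_deriv t z e2⟩
  · intro x y hx _ hxy hx0 hy0
    have hx' : |x / 2 - T| ≤ K := by
      rw [abs_le] at hx
      rw [abs_le]
      constructor <;> linarith [hx.1, hx.2]
    have e1 := (hb t T (x / 2) hG hTb' hx').1 (y / 2) (by linarith)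
      ((H_zero_real t x).mp hx0) ((H_zero_real t y).mp hy0)
    have e2 : (y - x) * Real.log T = 2 * ((y / 2 - x / 2) * Real.log T) := by ring
    rw [e2]
    linarith
  · intro x hx
    have hx' : |x / 2 - T| ≤ K := by
      rw [abs_le] at hx
      rw [abs_le]
      constructor <;> linarith [hx.1, hx.2]
    obtain ⟨y', h4, h5, h6⟩ := (hb t T (x / 2) hG hTb' hx').2
    refine ⟨2 * y', by linarith, ?_, ?_⟩
    · have e2 : (2 * y' - x) * Real.log T = 2 * ((y' - x / 2) * Real.log T) := by ring
      rw [e2]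
      linarith
    · rw [H_zero_real]
      have e3 : 2 * y' / 2 = y' := by ring
      rw [e3]
      exact h6

end Pool.Agent.DBB
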