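import Pool.Agent.DBB.Targets

set_option autoImplicit false

namespace Pool.Agent.DBB

theorem INE_div {t L : ℝ} (ht : 0 < t) (hL : 0 < L) (y : ℝ) : ∃ p : ℝ, y = p * (t * L) :=
  ⟨y / (t * L), by field_simp⟩

theorem INE_abs {t L : ℝ} (ht : 0 < t) (hL : 0 < L) (p : ℝ) : |p * (t * L)| = |p| * (t * L) := by
  rw [abs_mul, abs_of_pos (mul_pos ht hL)]

theorem INE_sq {t : ℝ} (ht : 0 < t) (L v : ℝ) :
    (v * (t * L)) ^ 2 / t = v ^ 2 * (t * L ^ 2) := by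
  field_simp

/-- the square of `v` and its distance to `1/4` -/
theorem INE_v (v : ℝ) : v ^ 2 ≤ 2 * (v - 1 / 4) ^ 2 + 1 / 8 := by
  nlinarith [sq_nonneg (v - 1 / 2)]

/-- part (a), with `c` in place of `-η`, and part (c) -/
theorem INE_ac {η c ε p v : ℝ} (hη : η ≤ 1 / 64) (hη0 : 0 < η) (hc : -(1 / 64) ≤ c)
    (h : 4 * η * (v - 1 / 4) ^ 2 + 5 / 4 * η ≤ (v - 1 / 4) ^ 2 + c)
    (hεη : ε ≤ η) (hp : -(1 / 64) ≤ p) (hv : 0 ≤ v) :
    |p + v| / 2 - (1 - ε) * v ^ 2 + ε ≤ p / 2 + (1 / 16 + c) - η * v ^ 2 := by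
  have h1 := INE_v v
  have h2 : ε * v ^ 2 ≤ η * v ^ 2 := mul_le_mul_of_nonneg_right hεη (sq_nonneg v)
  have h3 : η * v ^ 2 ≤ η * (2 * (v - 1 / 4) ^ 2 + 1 / 8) :=
    mul_le_mul_of_nonneg_left h1 hη0.le
  have h4 : η * v ^ 2 ≤ 1 / 64 * v ^ 2 := mul_le_mul_of_nonneg_right hη (sq_nonneg v)
  have h5 := sq_nonneg v
  rcases abs_cases (p + v) with ⟨h6, h7⟩ | ⟨h6, h7⟩
  · rw [h6]
    nlinarith
  · rw [h6]
    nlinarith

/-- part (b) -/
theorem INE_b {η δ ε p v : ℝ} (hη : η ≤ 1 / 64) (hη0 : 0 < η) (h : 4 * η ≤ δ)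
    (hεη : ε ≤ η) (hp : δ ≤ p) (hv : 0 ≤ v) :
    |v - p| / 2 - (1 - ε) * v ^ 2 + ε ≤ p / 2 + (1 / 16 - η) - η * v ^ 2 := by
  have h1 := INE_v v
  have h2 : ε * v ^ 2 ≤ η * v ^ 2 := mul_le_mul_of_nonneg_right hεη (sq_nonneg v)
  have h3 : η * v ^ 2 ≤ η * (2 * (v - 1 / 4) ^ 2 + 1 / 8) :=
    mul_le_mul_of_nonneg_left h1 hη0.le
  have h4 : η * v ^ 2 ≤ 1 / 64 * v ^ 2 := mul_le_mul_of_nonneg_right hη (sq_nonneg v)
  have h5 := sq_nonneg v
  have h8 : η * (v - 1 / 4) ^ 2 ≤ 1 / 64 * (v - 1 / 4) ^ 2 :=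
    mul_le_mul_of_nonneg_right hη (sq_nonneg _)
  have h9 := sq_nonneg (v - 1 / 4)
  rcases abs_cases (v - p) with ⟨h6, h7⟩ | ⟨h6, h7⟩
  · rw [h6]
    nlinarith
  · rw [h6]
    nlinarith

/-- the scaled form of (a) and (c) gives the form with `t`, `L` -/
theorem INE_up {η c ε t L p v : ℝ} (ht : 0 < t) (hL : 0 < L)
    (h : |p + v| / 2 - (1 - ε) * v ^ 2 + ε ≤ p / 2 + (1 / 16 + c) - η * v ^ 2) :
    |p * (t * L) + v * (t * L)| / 2 * L - (1 - ε) * ((v * (t * L)) ^ 2 / t) + ε * (t * L ^ 2) ≤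
      p * (t * L) / 2 * L + (1 / 16 + c) * (t * L ^ 2) - η * ((v * (t * L)) ^ 2 / t) := by
  rw [← add_mul, INE_abs ht hL, INE_sq ht]
  have h0 := mul_le_mul_of_nonneg_right h (by positivity : (0 : ℝ) ≤ t * L ^ 2)
  nlinarith

theorem p_INE : T_INE := by
  refine ⟨fun r hr => ?_, fun δ hδ => ?_, fun ε₁ hε₁ => ?_⟩
  · have hη0 : 0 < min (1 / 64) (r ^ 2 / 8) := lt_min (by norm_num) (by positivity)
    have hη1 : min (1 / 64) (r ^ 2 / 8) ≤ 1 / 64 := min_le_left _ _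
    have hη2 : min (1 / 64) (r ^ 2 / 8) ≤ r ^ 2 / 8 := min_le_right _ _
    generalize min (1 / 64) (r ^ 2 / 8) = η at hη0 hη1 hη2
    refine ⟨η, η, η, hη0, by linarith, hη0, hη0, ?_⟩
    intro ε t L y u hε hεη ht hL hy hu hr1
    obtain ⟨p, rfl⟩ := INE_div ht hL y
    obtain ⟨v, rfl⟩ := INE_div ht hL u
    have hs : 0 < t * L := mul_pos ht hL
    have hp : -(1 / 64) ≤ p := by
      by_contra hcon
      have := mul_lt_mul_of_pos_right (not_le.1 hcon) hs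
      linarith
    have hv : 0 ≤ v := nonneg_of_mul_nonneg_left hu hs
    have hr2 : r ≤ |v - 1 / 4| := by
      have h1 : v * (t * L) - t * L / 4 = (v - 1 / 4) * (t * L) := by ring
      rw [h1, INE_abs ht hL] at hr1
      exact le_of_mul_le_mul_right hr1 hs
    have hr3 : r ^ 2 ≤ (v - 1 / 4) ^ 2 := by
      rw [← sq_abs (v - 1 / 4)]
      exact pow_le_pow_left₀ hr.le hr2 2
    have h2 : η * (v - 1 / 4) ^ 2 ≤ 1 / 64 * (v - 1 / 4) ^ 2 :=
      mul_le_mul_of_nonneg_right hη1 (sq_nonneg _)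
    have h3 := INE_up (η := η) (c := -η) (ε := ε) (p := p) (v := v) ht hL
      (INE_ac hη1 hη0 (by linarith) (by nlinarith) hεη hp hv)
    rw [← sub_eq_add_neg] at h3
    exact h3
  · have hη0 : 0 < min (1 / 64) (δ / 4) := lt_min (by norm_num) (by positivity)
    have hη1 : min (1 / 64) (δ / 4) ≤ 1 / 64 := min_le_left _ _
    have hη2 : min (1 / 64) (δ / 4) ≤ δ / 4 := min_le_right _ _
    generalize min (1 / 64) (δ / 4) = η at hη0 hη1 hη2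
    refine ⟨η, η, η, hη0, by linarith, hη0, hη0, ?_⟩
    intro ε t L y u hε hεη ht hL hy hu
    obtain ⟨p, rfl⟩ := INE_div ht hL y
    obtain ⟨v, rfl⟩ := INE_div ht hL u
    have hs : 0 < t * L := mul_pos ht hL
    have hp : δ ≤ p := le_of_mul_le_mul_right hy hs
    have hv : 0 ≤ v := nonneg_of_mul_nonneg_left hu hs
    have h := INE_b hη1 hη0 (by linarith) hεη hp hv
    rw [← sub_mul, INE_abs ht hL, INE_sq ht]
    have h0 := mul_le_mul_of_nonneg_right h (by positivity : (0 : ℝ) ≤ t * L ^ 2)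
    nlinarith
  · have hη0 : 0 < min (1 / 64) (ε₁ / 2) := lt_min (by norm_num) (by positivity)
    have hη1 : min (1 / 64) (ε₁ / 2) ≤ 1 / 64 := min_le_left _ _
    have hη2 : min (1 / 64) (ε₁ / 2) ≤ ε₁ / 2 := min_le_right _ _
    generalize min (1 / 64) (ε₁ / 2) = η at hη0 hη1 hη2
    refine ⟨η, η, hη0, by linarith, hη0, ?_⟩
    intro ε t L y u hε hεη ht hL hy hu
    obtain ⟨p, rfl⟩ := INE_div ht hL y
    obtain ⟨v, rfl⟩ := INE_div ht hL u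
    have hs : 0 < t * L := mul_pos ht hL
    have hp : -(1 / 64) ≤ p := by
      by_contra hcon
      have := mul_lt_mul_of_pos_right (not_le.1 hcon) hs
      linarith
    have hv : 0 ≤ v := nonneg_of_mul_nonneg_left hu hs
    have h2 : η * (v - 1 / 4) ^ 2 ≤ 1 / 64 * (v - 1 / 4) ^ 2 :=
      mul_le_mul_of_nonneg_right hη1 (sq_nonneg _)
    have h3 := sq_nonneg (v - 1 / 4)
    exact INE_up (η := η) (c := ε₁) (ε := ε) (p := p) (v := v) ht hL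
      (INE_ac hη1 hη0 (by linarith) (by nlinarith) hεη hp hv)

end Pool.Agent.DBB
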