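import Pool.Agent.DBB.Targets
import Pool.Agent.DBC.Q_NE2

/-!
# DBB, NE2: the saddle point on the scale of `t`
-/

set_option autoImplicit false

namespace Pool.Agent.DBB

open Complex MeasureTheory Set Filter Topology
open Pool.Agent.DBN Pool.Agent.DBC

namespace NE2_

/-- substitution `v = q v'` -/
lemma scale (f : ℝ → ℂ) {q r : ℝ} (hq : 0 < q) (hr : 0 ≤ r) :
    ∫ v in Ioo (-(q * r)) (q * r), f v = (q : ℂ) * ∫ v in Ioo (-r) r, f (q * v) := by
  have hqr : 0 ≤ q * r := by positivity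
  rw [← integral_Ioc_eq_integral_Ioo, ← intervalIntegral.integral_of_le (by linarith),
    ← integral_Ioc_eq_integral_Ioo, ← intervalIntegral.integral_of_le (by linarith)]
  have h := intervalIntegral.smul_integral_comp_mul_left (a := -r) (b := r) f q
  rw [mul_neg] at h
  rw [← h]
  rfl

/-- the integral near the saddle point: the Gaussian part -/
lemma gauss (h2 : U_SDH) : ∃ η₀ lam₀ : ℝ, 0 < η₀ ∧ 0 < lam₀ ∧
    ∀ (η t L : ℝ) (h : ℂ → ℂ), 0 < η → η ≤ η₀ → 0 < t → 0 < L → lam₀ ≤ t * L ^ 2 →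
    DifferentiableOn ℂ h (Metric.ball 0 (t * L / 16)) →
    (∀ v ∈ Metric.ball (0 : ℂ) (t * L / 32), ‖h v‖ ≤ η * (t * L ^ 2)) →
    √t / 2 * Real.exp (-(2 * η * (t * L ^ 2))) ≤
      ‖∫ v in Ioo (-(t * L / 64)) (t * L / 64), exp (-(1 / t * v ^ 2 : ℝ) + h v)‖ := by
  obtain ⟨η₀, lam₀, hη₀, hlam₀, hsdh⟩ := h2 (1 / 32) (by norm_num)
  refine ⟨η₀, lam₀, hη₀, hlam₀, fun η t L h hη hη1 ht hL hlam hd hb => ?_⟩
  have hq : 0 < t * L := by positivity
  have hm : 0 < t * L ^ 2 := by positivity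
  have hmap : ∀ v ∈ Metric.ball (0 : ℂ) (1 / 32), (((t * L : ℝ) : ℂ) * v) ∈
      Metric.ball (0 : ℂ) (t * L / 32) := by
    intro v hv
    rw [mem_ball_zero_iff] at hv ⊢
    rw [norm_mul, Complex.norm_real, Real.norm_of_nonneg hq.le]
    have h3 := mul_lt_mul_of_pos_left hv hq
    linarith
  have hkey := hsdh η (t * L ^ 2) (fun v => h (((t * L : ℝ) : ℂ) * v)) hη hη1 hlam (by
    refine hd.comp (by fun_prop) (fun v hv => ?_)
    exact Metric.ball_subset_ball (by linarith) (hmap v hv)) (fun v hv => hb _ (hmap v hv))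
  have e1 : Ioo (-(t * L / 64)) (t * L / 64) =
      Ioo (-(t * L * (1 / 32 / 2))) (t * L * (1 / 32 / 2)) := by
    congr 1 <;> ring
  rw [e1, scale (fun v : ℝ => exp (-(1 / t * v ^ 2 : ℝ) + h v)) hq (by norm_num), norm_mul,
    Complex.norm_real, Real.norm_of_nonneg hq.le]
  have e2 : (∫ v in Ioo (-(1 / 32 / 2 : ℝ)) (1 / 32 / 2),
      exp (-(1 / t * (t * L * v) ^ 2 : ℝ) + h ((t * L * v : ℝ) : ℂ))) =
      ∫ v in Ioo (-(1 / 32 / 2 : ℝ)) (1 / 32 / 2),
      exp (-(t * L ^ 2 * v ^ 2 : ℝ) + h (((t * L : ℝ) : ℂ) * v)) := by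
    refine setIntegral_congr_fun measurableSet_Ioo fun v _ => ?_
    have e3 : 1 / t * (t * L * v) ^ 2 = t * L ^ 2 * v ^ 2 := by
      field_simp
    have e4 : ((t * L * v : ℝ) : ℂ) = ((t * L : ℝ) : ℂ) * v := by
      push_cast
      ring
    simp only [e3, e4]
  rw [e2]
  have e5 : √t / 2 = t * L * (1 / (2 * √(t * L ^ 2))) := by
    have hs : 0 < √t := Real.sqrt_pos.2 ht
    have h3 : √(t * L ^ 2) = √t * L := by
      rw [Real.sqrt_mul ht.le, Real.sqrt_sq hL.le]
    rw [h3]
    field_simp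
    exact Real.sq_sqrt ht.le
  rw [e5, mul_assoc]
  exact mul_le_mul_of_nonneg_left hkey hq.le

end NE2_

open NE2_ in
/-- the lower bound for the integral near the saddle point -/
theorem p_NE2 (h1 : Pool.Agent.DBC.U_BCL) (h2 : Pool.Agent.DBC.U_SDH) (h3 : T_XB2) : T_NE2 := by
  intro G c₂ H K ε hK0 hε
  obtain ⟨η₀, lam₀, hη₀, hlam₀, hgauss⟩ := gauss h2
  have hc2 : 0 < c₂ := H.c0
  set ε' : ℝ := min (min (ε / 10) (η₀ / 4)) (1 / 8) with hε'
  have hε'0 : 0 < ε' := lt_min (lt_min (by positivity) (by positivity)) (by norm_num)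
  have hε'1 : 10 * ε' ≤ ε := by
    have h4 : ε' ≤ ε / 10 := (min_le_left _ _).trans (min_le_left _ _)
    linarith
  have hε'2 : 4 * ε' ≤ η₀ := by
    have h4 : ε' ≤ η₀ / 4 := (min_le_left _ _).trans (min_le_right _ _)
    linarith
  have hε'3 : ε' ≤ 1 / 8 := min_le_right _ _
  clear_value ε'
  obtain ⟨T₁, hT₁2, hxb⟩ := h3 G c₂ H ε' (K + c₂ + 2) hε'0 (by linarith)
  obtain ⟨T₂, hT₂⟩ := H.big (max lam₀ (1 / ε'))
  refine ⟨max (max T₁ T₂) (Real.exp 1),
    hT₁2.trans ((le_max_left _ _).trans (le_max_left _ _)), ?_⟩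
  intro t T x τ hTG hT h6 h7 h8
  have hTa : T₁ ≤ T := ((le_max_left _ _).trans (le_max_left _ _)).trans hT
  have hTb : T₂ ≤ T := ((le_max_right _ _).trans (le_max_left _ _)).trans hT
  have hTc : Real.exp 1 ≤ T := (le_max_right _ _).trans hT
  have hT0 : 0 < T := by linarith
  have hL1 : 1 ≤ Real.log T := by rwa [Real.le_log_iff_exp_le hT0]
  have hL0 : 0 < Real.log T := by linarith
  have ht0 : 0 < t := H.ht t T hTG
  have hc := H.hc t T hTG
  have hbig := hT₂ t T hTG hTb
  have hm1 : lam₀ ≤ mt t T := (le_max_left _ _).trans hbig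
  have hm2 : 1 / ε' ≤ mt t T := (le_max_right _ _).trans hbig
  have hsz0 : 0 < size T := by unfold size; positivity
  have hmt : mt t T = t * Real.log T ^ 2 := rfl
  set L := Real.log T with hLdef
  have hq0 : 0 < t * L := by positivity
  have hm0 : 0 < mt t T := by rw [hmt]; positivity
  set s : ℂ := Pool.Agent.DBC.pt x τ with hs
  have hsre : s.re = 1 / 2 + x := by rw [hs, Pool.Agent.DBC.pt]; simp
  have hsim : s.im = τ := by rw [hs, Pool.Agent.DBC.pt]; simp
  set s' : ℂ := s + sd t T with hs'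
  have hre : s'.re = 1 / 2 + x + t * L / 4 := by
    rw [hs', add_re, hsre, ofReal_re, sd]
  have him : s'.im = τ := by
    rw [hs', add_im, hsim, ofReal_im, add_zero]
  have hxiv : ∀ v : ℂ, ‖v‖ < t * L / 16 →
      size T * Real.exp ((s'.re + v.re - 1 / 2) / 2 * L - ε' * mt t T) ≤ ‖xi (s' + v)‖ ∧
        ‖xi (s' + v)‖ ≤ size T * Real.exp ((s'.re + v.re - 1 / 2) / 2 * L + ε' * mt t T) := by
    intro v hv
    have hvr := abs_le.mp ((abs_re_le_norm v).trans hv.le)
    have hvi := (abs_im_le_norm v).trans hv.le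
    have h10 : ε' * (t * L) ≤ 1 / 8 * (t * L) := by gcongr
    have h9 := hxb t T (s' + v) hTG hTa (by rw [add_re, hre]; linarith [hvr.1]) (by
      rw [add_re, hre]; linarith [hvr.2]) (by
      rw [add_im, him]
      calc |τ + v.im - T| = |(τ - T) + v.im| := by ring_nf
        _ ≤ |τ - T| + |v.im| := abs_add_le _ _
        _ ≤ K + t * L / 16 := add_le_add h8 hvi
        _ ≤ _ := by linarith)
    rwa [add_re] at h9
  have hxi0 := (hxiv 0 (by rw [norm_zero]; positivity)).1
  rw [zero_re, add_zero, add_zero] at hxi0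
  set g : ℂ → ℂ := fun v => exp (-(v / 2) * (L : ℝ)) * xi (s' + v) with hg
  have hg0 : g 0 = xi s' := by
    simp [hg]
  have hgd : DifferentiableOn ℂ g (Metric.ball 0 (t * L / 16)) := by
    have hxid : Differentiable ℂ xi := NEA_.differentiable_xi'
    have : Differentiable ℂ g := by
      rw [hg]
      fun_prop
    exact this.differentiableOn
  have hM : 0 < 2 * ε' * mt t T := by positivity
  obtain ⟨h, ⟨hh1, hh2, hh3⟩, hh4⟩ := h1 g (t * L / 16) (2 * ε' * mt t T) (by positivity) hM hgd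
    (by
    intro v hv
    rw [mem_ball_zero_iff] at hv
    obtain ⟨h9, h10⟩ := hxiv v hv
    have h11 : 0 < ‖xi (s' + v)‖ := lt_of_lt_of_le (by positivity) h9
    constructor
    · simp only [hg]
      exact mul_ne_zero (exp_ne_zero _) (norm_pos_iff.mp h11)
    · rw [hg0]
      simp only [hg]
      rw [norm_mul, Complex.norm_exp]
      have h12 : (-(v / 2) * ((L : ℝ) : ℂ)).re = -(v.re / 2) * L := by
        rw [re_mul_ofReal, neg_re]
        congr 2
        simp
      rw [h12]
      calc Real.exp (-(v.re / 2) * L) * ‖xi (s' + v)‖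
          ≤ Real.exp (-(v.re / 2) * L) *
            (size T * Real.exp ((s'.re + v.re - 1 / 2) / 2 * L + ε' * mt t T)) := by gcongr
        _ = Real.exp (2 * ε' * mt t T) *
            (size T * Real.exp ((s'.re - 1 / 2) / 2 * L - ε' * mt t T)) := by
            have h13 : Real.exp (-(v.re / 2) * L) *
                Real.exp ((s'.re + v.re - 1 / 2) / 2 * L + ε' * mt t T) =
                Real.exp (2 * ε' * mt t T) *
                  Real.exp ((s'.re - 1 / 2) / 2 * L - ε' * mt t T) := by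
              rw [← Real.exp_add, ← Real.exp_add]
              congr 1
              ring
            linear_combination size T * h13
        _ ≤ Real.exp (2 * ε' * mt t T) * ‖xi s'‖ := by gcongr)
  have hball : Metric.ball (0 : ℂ) (t * L / 32) ⊆ Metric.ball 0 (t * L / 16) :=
    Metric.ball_subset_ball (by linarith)
  have hkey := hgauss (4 * ε') t L h (by positivity) hε'2 ht0 hL0 hm1 hh1 (by
    intro v hv
    have hv' : ‖v‖ < t * L / 32 := by rwa [mem_ball_zero_iff] at hv
    calc ‖h v‖ ≤ 2 * (2 * ε' * mt t T) * ‖v‖ / (t * L / 16 - ‖v‖) := hh4 v (hball hv)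
      _ ≤ 2 * (2 * ε' * mt t T) := by
          rw [div_le_iff₀ (by linarith)]
          gcongr
          linarith
      _ = 4 * ε' * (t * L ^ 2) := by rw [hmt]; ring)
  have hint := NE22_.main_int (s := s) (h := h) (r := t * L / 64) ht0 hT0 (by positivity) (by
    intro v hv
    have hv' : (v : ℂ) ∈ Metric.ball (0 : ℂ) (t * L / 16) := by
      rw [mem_ball_zero_iff, Complex.norm_real, Real.norm_eq_abs]
      linarith
    have h9 := hh3 v hv'
    rw [hg0] at h9
    exact h9)
  rw [← hs'] at hint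
  rw [hint, norm_mul, norm_mul, Complex.norm_real, Real.norm_of_nonneg (Real.exp_pos _).le]
  have e2 : Real.exp (-(sd t T ^ 2 / t)) = Real.exp (-(mt t T / 16)) := by
    congr 1
    unfold sd
    rw [← hLdef, hmt]
    field_simp
    ring
  have hlast1 : Real.exp (-(ε' * mt t T)) ≤ 1 / 2 := by
    have h9 : 1 ≤ ε' * mt t T := by
      rw [div_le_iff₀ hε'0] at hm2
      linarith
    have h10 : Real.exp (-(ε' * mt t T)) ≤ Real.exp (-1) := Real.exp_le_exp.2 (by linarith)
    refine h10.trans ?_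
    rw [Real.exp_neg, one_div]
    exact inv_anti₀ (by norm_num) (by linarith [Real.exp_one_gt_d9])
  rw [← hmt] at hkey
  have hst : 0 ≤ √t := Real.sqrt_nonneg t
  calc √t * EE t T x (-ε)
      ≤ √t * (size T * (Real.exp (-(mt t T / 16)) *
          Real.exp ((s'.re - 1 / 2) / 2 * L - ε' * mt t T) *
          (Real.exp (-(ε' * mt t T)) * Real.exp (-(2 * (4 * ε') * mt t T))))) := by
        unfold EE
        rw [← Real.exp_add, ← Real.exp_add, ← Real.exp_add]
        refine mul_le_mul_of_nonneg_left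
          (mul_le_mul_of_nonneg_left (Real.exp_le_exp.2 ?_) hsz0.le) hst
        rw [hre, ← hLdef]
        have h16 : 10 * ε' * mt t T ≤ ε * mt t T := by gcongr
        have h17 : (1 / 2 + x + t * L / 4 - 1 / 2) / 2 * L = x / 2 * L + mt t T / 8 := by
          rw [hmt]
          ring
        rw [h17]
        linarith
    _ = Real.exp (-(mt t T / 16)) *
          (size T * Real.exp ((s'.re - 1 / 2) / 2 * L - ε' * mt t T)) *
          (√t * Real.exp (-(ε' * mt t T)) * Real.exp (-(2 * (4 * ε') * mt t T))) := by ring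
    _ ≤ Real.exp (-(mt t T / 16)) * ‖xi s'‖ *
          (√t * (1 / 2) * Real.exp (-(2 * (4 * ε') * mt t T))) := by gcongr
    _ = Real.exp (-(mt t T / 16)) * ‖xi s'‖ *
          (√t / 2 * Real.exp (-(2 * (4 * ε') * mt t T))) := by ring
    _ ≤ Real.exp (-(mt t T / 16)) * ‖xi s'‖ *
          ‖∫ v in Ioo (-(t * L / 64)) (t * L / 64), exp (-(1 / t * v ^ 2 : ℝ) + h v)‖ := by
        gcongr
    _ = _ := by rw [e2]

end Pool.Agent.DBB
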