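import Pool.Agent.DBB.Targets
import Pool.Agent.DBC.S_OA

/-!
# Target OA2: away from the saddle point, on the scale of the time
-/

set_option autoImplicit false

namespace Pool.Agent.DBB

open Complex MeasureTheory Set Filter
open Pool.Agent.DBN Pool.Agent.DBC

namespace OA2_

/-- the Gaussian integral on the scale of `t` -/
lemma gauss_eq {κ t : ℝ} (ht : 0 < t) :
    ∫ u : ℝ, Real.exp (-(κ / t) * u ^ 2) = √t * √(Real.pi / κ) := by
  rw [integral_gaussian, ← Real.sqrt_mul ht.le]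
  congr 1
  rw [div_div_eq_mul_div]
  ring

/-- constants are absorbed -/
lemma absorb {B g m : ℝ} (hg : 0 < g) (hm : 2 * B / g ≤ m) : B ≤ Real.exp (g / 2 * m) := by
  have h1 : B ≤ g / 2 * m := by
    rw [div_le_iff₀ hg] at hm
    linarith
  have h2 := Real.add_one_le_exp (g / 2 * m)
  linarith

end OA2_

open OA2_ in
theorem p_OA2 (h1 : T_BD2) (h2 : T_INE) : T_OA2 := by
  intro G c₂ hH K hK
  obtain ⟨ε₀, g, κ, hε, hε1, hg, hκ, h⟩ := h2.1 (1 / 64) (by norm_num)
  have hc0 := hH.c0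
  obtain ⟨T₀, hT₀, hb⟩ := h1 G c₂ hH ε₀ (K + c₂) hε hε1 (by linarith)
  obtain ⟨T₁, hT₁⟩ := hH.big (2 * √(Real.pi / κ) / g)
  refine ⟨g / 2, by positivity, max T₀ T₁, hT₀.trans (le_max_left _ _), ?_⟩
  intro t T x τ hG hT hx1 hx2 hτ
  have hTa : T₀ ≤ T := (le_max_left _ _).trans hT
  have hTb : T₁ ≤ T := (le_max_right _ _).trans hT
  have hT2 : 2 ≤ T := hT₀.trans hTa
  have ht : 0 < t := hH.ht t T hG
  have hc := hH.hc t T hG
  have hL : 0 < Real.log T := Real.log_pos (by linarith)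
  have hq : 0 < t * Real.log T := mul_pos ht hL
  have hm := hT₁ t T hG hTb
  have hx : |x| ≤ K + c₂ := abs_le.2 ⟨by linarith, by linarith⟩
  have hsz : 0 ≤ size T := Pool.Agent.DBC.OFA_.size_nonneg' hT2
  set A : ℝ := size T * Real.exp (x / 2 * Real.log T + (1 / 16 - g) * mt t T) with hA
  have hA0 : 0 ≤ A := by positivity
  have hp : ∀ u : ℝ, 0 ≤ u → 1 / 64 * (t * Real.log T) ≤ |u - t * Real.log T / 4| →
      Real.exp (-(u ^ 2 / t)) * ‖xi (Pool.Agent.DBC.pt x τ + u)‖ ≤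
        A * Real.exp (-(κ / t) * u ^ 2) := by
    intro u hu hru
    refine (hb t T x τ u hG hTa hx (by linarith) hu).trans ?_
    have h3 := h ε₀ t (Real.log T) x u hε le_rfl ht hL hx1 hu hru
    rw [hA, mul_assoc, ← Real.exp_add]
    refine mul_le_mul_of_nonneg_left (Real.exp_le_exp.mpr ?_) hsz
    have e1 : -(κ / t) * u ^ 2 = -(κ * (u ^ 2 / t)) := by ring
    rw [e1]
    unfold mt
    linarith
  have h6 := Pool.Agent.DBC.OA4_.int_bound (κ := κ / t) (A := A)
    (S := Ioi (0 : ℝ) \ Ioo (sd t T - t * Real.log T / 64) (sd t T + t * Real.log T / 64))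
    (f := fun u => Real.exp (-(u ^ 2 / t)) * ‖xi (Pool.Agent.DBC.pt x τ + u)‖)
    (by positivity) hA0 (measurableSet_Ioi.diff measurableSet_Ioo)
    (fun u => by positivity) (by
      rintro u ⟨hu1, hu2⟩
      refine hp u (le_of_lt hu1) ?_
      by_contra h7
      push Not at h7
      rw [abs_lt] at h7
      exact hu2 ⟨by unfold sd; linarith, by unfold sd; linarith⟩)
  refine h6.trans ?_
  rw [gauss_eq ht]
  have h8 : √(Real.pi / κ) ≤ Real.exp (g / 2 * mt t T) := absorb hg hm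
  have e2 : EE t T x (-(g / 2)) = A * Real.exp (g / 2 * mt t T) := by
    rw [hA, EE, mul_assoc, ← Real.exp_add]
    congr 2
    ring
  rw [e2]
  calc A * (√t * √(Real.pi / κ)) = √t * (A * √(Real.pi / κ)) := by ring
    _ ≤ √t * (A * Real.exp (g / 2 * mt t T)) := by gcongr

end Pool.Agent.DBB
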