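import Pool.Agent.DBB.Targets
import Pool.Agent.DBN.Down2

/-!
# Target XB2: two-sided bounds for the function `xi` on the scale of `t`
-/

set_option autoImplicit false

namespace Pool.Agent.DBB

open Complex MeasureTheory Set Filter Topology
open Pool.Agent.DBN Pool.Agent.DBC

theorem p_XB2 : T_XB2 := by
  intro G c₂ hG ε K hε hK
  obtain ⟨Ta, hUa⟩ := hG.up (ε / 2) K (half_pos hε) hK
  obtain ⟨Tb, hLb⟩ := hG.lo (ε / 2) K (half_pos hε) hK
  set T₁ : ℝ := max Ta Tb with hT₁
  obtain ⟨C, hC1, hC⟩ := xi_two K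
  set E : ℝ := 2 ^ (7 / 4 : ℝ) * Real.exp (Real.pi * K / 4) with hE
  have hE0 : 0 < E := by positivity
  set P : ℝ := 2 ^ K with hP
  have hP0 : 0 < P := by positivity
  have hC0 : 0 < C := by linarith
  set D : ℝ := C * E * P with hD
  have hD0 : 0 < D := by positivity
  obtain ⟨T₂, hT₂⟩ := hG.big (2 / ε * Real.log D)
  refine ⟨max (max T₁ T₂) (2 * K + 4), ?_, fun t T s hGT hT h1 h2 h3 => ?_⟩
  · exact (by linarith : (2 : ℝ) ≤ 2 * K + 4).trans (le_max_right _ _)
  have hTa : T₁ ≤ T := ((le_max_left _ _).trans (le_max_left _ _)).trans hT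
  have hTb : T₂ ≤ T := ((le_max_right _ _).trans (le_max_left _ _)).trans hT
  have hTc : 2 * K + 4 ≤ T := (le_max_right _ _).trans hT
  obtain ⟨h4, h5⟩ := abs_le.mp h3
  have ht : 0 < t := hG.ht t T hGT
  have hlog : 0 < Real.log T := Real.log_pos (by linarith)
  have htl : 0 < ε * (t * Real.log T) := by positivity
  have h8 : ‖riemannZeta s‖ ≤ Real.exp (ε / 2 * mt t T) :=
    hUa t T hGT ((le_max_left _ _).trans hTa) s (by linarith) h2 h3
  have h9 : Real.exp (-(ε / 2 * mt t T)) ≤ ‖riemannZeta s‖ :=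
    hLb t T hGT ((le_max_right _ _).trans hTa) s (by linarith) h2 h3
  have hDT : D ≤ Real.exp (ε / 2 * mt t T) := by
    have g1 := hT₂ t T hGT hTb
    have g2 : Real.log D ≤ ε / 2 * mt t T := by
      calc Real.log D = ε / 2 * (2 / ε * Real.log D) := by field_simp
        _ ≤ _ := mul_le_mul_of_nonneg_left g1 (by positivity)
    calc D = Real.exp (Real.log D) := (Real.exp_log hD0).symm
      _ ≤ _ := Real.exp_le_exp.2 g2
  set T' := s.im with hT'
  set x := s.re with hx
  have hT0 : 0 < T := by linarith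
  have hT'2 : 2 ≤ T' := by linarith
  have hT'0 : 0 < T' := by linarith
  have hs := size_pos hT0
  have hs' := size_pos hT'0
  have es : s = (x : ℂ) + T' * I := by rw [hx, hT']; exact (re_add_im s).symm
  obtain ⟨h6, h7⟩ := hC x T' (by rw [abs_of_pos (by linarith)]; exact h2) hT'2
  rw [← es] at h6 h7
  set e := (x - 1 / 2) / 2 with he
  have he0 : 0 < e := by rw [he]; linarith
  have heK : e ≤ K := by rw [he]; linarith
  have h2e : (2 : ℝ) ^ |e| ≤ P := by
    rw [abs_of_pos he0]
    exact Real.rpow_le_rpow_of_exponent_le (by norm_num) heK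
  have h10 : T' ^ e ≤ P * T ^ e := by
    refine (rpow_shift_le hT0 (by linarith) (by linarith) e).trans ?_
    gcongr
  have h11 : T ^ e ≤ P * T' ^ e := by
    refine (rpow_shift_le hT'0 (by linarith) (by linarith) e).trans ?_
    gcongr
  have h12 : size T' ≤ E * size T := size_shift_le hT0 (by linarith) (by linarith) h3
  have h13 : size T ≤ E * size T' := by
    refine size_shift_le hT'0 (by linarith) (by linarith) ?_
    rw [abs_sub_comm]
    exact h3
  have hp : 0 < T' ^ e := by positivity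
  have hp' : 0 < T ^ e := by positivity
  have hTe : Real.exp (e * Real.log T) = T ^ e := by
    rw [Real.rpow_def_of_pos hT0, mul_comm]
  set q := Real.exp (ε / 2 * mt t T) with hq
  have hq0 : 0 < q := Real.exp_pos _
  have hqq : Real.exp (ε * mt t T) = q * q := by
    rw [hq, ← Real.exp_add]
    congr 1
    ring
  have hqi : Real.exp (-(ε / 2 * mt t T)) * q = 1 := by
    rw [hq, ← Real.exp_add]
    simp
  constructor
  · have h14 : T' ^ e * size T' * Real.exp (-(ε / 2 * mt t T)) ≤ C * ‖xi s‖ :=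
      (mul_le_mul_of_nonneg_left h9 (by positivity)).trans h7
    have h15 : size T * T ^ e ≤ q * q * ‖xi s‖ := by
      calc size T * T ^ e ≤ (E * size T') * (P * T' ^ e) := by gcongr
        _ = E * P * (T' ^ e * size T' * (Real.exp (-(ε / 2 * mt t T)) * q)) := by rw [hqi]; ring
        _ = E * P * q * (T' ^ e * size T' * Real.exp (-(ε / 2 * mt t T))) := by ring
        _ ≤ E * P * q * (C * ‖xi s‖) := by gcongr
        _ = D * (q * ‖xi s‖) := by rw [hD]; ring
        _ ≤ q * (q * ‖xi s‖) := by gcongr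
        _ = _ := by ring
    rw [Real.exp_sub, hTe, hqq, mul_div_assoc', div_le_iff₀ (by positivity)]
    linarith
  · rw [Real.exp_add, hTe, hqq]
    calc ‖xi s‖ ≤ C * (T' ^ e * size T' * ‖riemannZeta s‖) := h6
      _ ≤ C * ((P * T ^ e) * (E * size T) * q) := by gcongr
      _ = D * (q * (size T * T ^ e)) := by rw [hD]; ring
      _ ≤ q * (q * (size T * T ^ e)) := by gcongr
      _ = _ := by ring

end Pool.Agent.DBB
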