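import Pool.Agent.DBB.P_XU2
import Pool.Agent.DBB.P_XB2
import Pool.Agent.DBB.P_BD2
import Pool.Agent.DBB.P_INE
import Pool.Agent.DBB.P_OA2
import Pool.Agent.DBB.P_OB2
import Pool.Agent.DBB.P_UP2
import Pool.Agent.DBB.P_NE2
import Pool.Agent.DBB.P_LO2
import Pool.Agent.DBB.P_GD2
import Pool.Agent.DBB.P_CM2
import Pool.Agent.DBB.P_ZE2
import Pool.Agent.DBB.P_SP2
import Pool.Agent.DBB.P_HT2
import Pool.Agent.DBB.P_DG2
import Pool.Agent.DBB.P_FN2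
import Pool.Agent.DBC.Q_BCL
import Pool.Agent.DBC.Q_SDH
import Pool.Agent.DBC.Q_SD1
import Pool.Agent.DBC.Q_SD2
import Pool.Agent.DBC.Q_SD3
import Pool.Agent.DBC.P_IGR
import Pool.Agent.DBC.P_DER
import Pool.Agent.DBC.P_SPL
import Pool.Agent.DBC.P_CNJ
import Pool.Agent.DBC.P_ANG

/-!
# DBB: the local part together
-/

set_option autoImplicit false

namespace Pool.Agent.DBB

open Pool.Agent.DBC

theorem bd2 : T_BD2 := p_BD2 p_XU2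

theorem oa2 : T_OA2 := p_OA2 bd2 p_INE

theorem ob2 : T_OB2 := p_OB2 bd2 p_INE

theorem up2 : T_UP2 := p_UP2 bd2 p_INE

theorem ne2 : T_NE2 := p_NE2 q_BCL (q_SDH q_SD1 q_SD2 q_SD3) p_XB2

theorem lo2 : T_LO2 := p_LO2 p_IGR ne2 oa2

theorem gd2 : T_GD2 := p_GD2 q_BCL (p_DER p_IGR) up2 lo2

theorem cm2 : T_CM2 := p_CM2 (p_DER p_IGR) gd2 ob2

theorem ze2 : T_ZE2 := p_ZE2 p_SPL p_CNJ (p_DER p_IGR) gd2 cm2

theorem sp2 : T_SP2 := p_SP2 p_SPL p_CNJ (p_DER p_IGR) gd2 p_ANG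

theorem dg2 : T_DG2 := p_DG2 (p_HT2 ze2 sp2)

theorem sharp_of (h : T_AR2) : T_FN2 := p_FN2 dg2 h

end Pool.Agent.DBB
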