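import Pool.Agent.DBB.Targets5
import Pool.Agent.DBB.P_BD2

/-!
# DBB, target `T_BD5`: the pointwise bound on the scale `t log T`
-/

set_option autoImplicit false

namespace Pool.Agent.DBB

open Complex MeasureTheory Set Filter
open Pool.Agent.DBN Pool.Agent.DBC

namespace BD5_

theorem far {ε c₂ κ K U t L u : ℝ} (hε : 0 < ε) (hc : 0 < c₂) (hκ : κ = ε / (4 * c₂))
    (ht : 0 < t) (hL : 0 < L) (htL : t * L ≤ c₂) (hU : 0 ≤ U) (hu : U ≤ u)
    (hU2 : 5 / 4 + 3 * κ * K ^ 2 + 3 ≤ 2 * κ * U ^ 2) :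
    3 * L + 5 / 4 * L + κ * (2 * u ^ 2 + 3 * K ^ 2) * L ≤ ε * (u ^ 2 / t) := by
  have hκ0 : 0 < κ := by
    rw [hκ]
    positivity
  have h1 : u ^ 2 * L / c₂ ≤ u ^ 2 / t := by
    rw [div_le_div_iff₀ hc ht]
    calc u ^ 2 * L * t = u ^ 2 * (t * L) := by ring
      _ ≤ u ^ 2 * c₂ := by gcongr
  have h2 : 4 * κ * u ^ 2 * L ≤ ε * (u ^ 2 / t) := by
    calc 4 * κ * u ^ 2 * L = ε * (u ^ 2 * L / c₂) := by
          rw [hκ]
          field_simp
      _ ≤ ε * (u ^ 2 / t) := by gcongr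
  have h3 : 2 * κ * U ^ 2 ≤ 2 * κ * u ^ 2 := by gcongr
  have h4 : (5 / 4 + 3 * κ * K ^ 2 + 3) * L ≤ 2 * κ * u ^ 2 * L := by
    gcongr
    linarith
  nlinarith [h2, h4]

theorem near {ε K t L u N : ℝ} (hε : 0 < ε) (ht : 0 < t)
    (hN : N ≤ 2 * u ^ 2 + 3 * (K * (t * L)) ^ 2) :
    ε / (2 * (1 + 3 * K ^ 2)) * (t * L ^ 2 + N / t) ≤ ε * (u ^ 2 / t) + ε * (t * L ^ 2) := by
  have hA : 0 < 1 + 3 * K ^ 2 := by positivity
  have h1 : N / t ≤ 2 * (u ^ 2 / t) + 3 * K ^ 2 * (t * L ^ 2) := by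
    rw [div_le_iff₀ ht]
    have e : (2 * (u ^ 2 / t) + 3 * K ^ 2 * (t * L ^ 2)) * t =
        2 * u ^ 2 + 3 * (K * (t * L)) ^ 2 := by
      field_simp
    rw [e]
    exact hN
  have h2 : ε / (2 * (1 + 3 * K ^ 2)) * (t * L ^ 2 + N / t) ≤
      ε / (2 * (1 + 3 * K ^ 2)) * ((1 + 3 * K ^ 2) * (2 * (u ^ 2 / t) + 2 * (t * L ^ 2))) := by
    refine mul_le_mul_of_nonneg_left ?_ (by positivity)
    have h3 : 0 ≤ u ^ 2 / t := by positivity
    have h4 : 0 ≤ t * L ^ 2 := by positivity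
    have h5 : 0 ≤ K ^ 2 * (u ^ 2 / t) := by positivity
    have h6 : 0 ≤ K ^ 2 * (t * L ^ 2) := by positivity
    nlinarith
  refine h2.trans (le_of_eq ?_)
  field_simp

end BD5_

open BD5_ BD2_ in
/-- The pointwise bound. -/
theorem p_BD5 (h1 : T_XU5) : T_BD5 := by
  intro G c₂ hG ε K hε hε1 hK
  have hc := hG.c0
  obtain ⟨κ, hκ⟩ : ∃ κ, κ = ε / (4 * c₂) := ⟨_, rfl⟩
  have hκ0 : 0 < κ := by
    rw [hκ]
    positivity
  obtain ⟨J, hJ⟩ : ∃ J, J = K * c₂ := ⟨_, rfl⟩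
  have hJ0 : 0 < J := by
    rw [hJ]
    positivity
  obtain ⟨U, hUd⟩ : ∃ U, U = (5 / 4 + 3 * κ * J ^ 2 + 3) / (2 * κ) + 1 := ⟨_, rfl⟩
  have hq : 0 ≤ (5 / 4 + 3 * κ * J ^ 2 + 3) / (2 * κ) := by positivity
  have hU1 : 1 ≤ U := by
    rw [hUd]
    linarith
  have hU2 : 5 / 4 + 3 * κ * J ^ 2 + 3 ≤ 2 * κ * U ^ 2 := by
    have h2 : U ≤ U ^ 2 := by nlinarith
    have h3 : (5 / 4 + 3 * κ * J ^ 2 + 3) / (2 * κ) ≤ U ^ 2 := by linarith
    rw [div_le_iff₀ (by positivity)] at h3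
    linarith
  obtain ⟨T₁, hT₁, h2⟩ := h1 G c₂ hG (ε / (2 * (1 + 3 * K ^ 2))) (J + U) (by positivity)
    (by linarith)
  obtain ⟨C, hC, h3⟩ := xi_quarter_le 1 κ one_pos hκ0
  refine ⟨max T₁ C, le_max_of_le_left hT₁, ?_⟩
  intro t T k y τ u hm hT hy hτ hu
  have hTT₁ : T₁ ≤ T := (le_max_left _ _).trans hT
  have hTC : C ≤ T := (le_max_right _ _).trans hT
  have hT2 : 2 ≤ T := hT₁.trans hTT₁
  have hT0 : 0 < T := by linarith
  have hL := log_ge hT2
  have hL0 : 0 < Real.log T := by linarith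
  have ht := hG.ht t T k hm
  have htL := hG.hc t T k hm
  have hk := hG.hk t T k hm
  have hk0 : 0 < k := lt_of_lt_of_le (Real.rpow_pos_of_pos hT0 _) hk
  have hs := size_nonneg' hT2
  have hmt : 0 ≤ mt t T := by
    unfold mt
    positivity
  have hut : 0 ≤ u ^ 2 / t := by positivity
  have hKJ : K * (t * Real.log T) ≤ J := by
    rw [hJ]
    gcongr
  obtain ⟨w, hw⟩ : ∃ w : ℂ, w = ((y + u : ℝ) : ℂ) + ((τ - T : ℝ) : ℂ) * I := ⟨_, rfl⟩
  have e1 : Pool.Agent.DBC.pt y τ + u = 1 / 2 + T * I + w := by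
    rw [hw]
    exact pt_eq y u τ T
  have e2 : w.re = y + u := by
    rw [hw]
    simp
  have e3 : w.im = τ - T := by
    rw [hw]
    simp
  rw [e1]
  rcases le_total u U with huU | huU
  · have h4 := h2 t T k w hm hTT₁ (by
      rw [e2]
      calc |y + u| ≤ |y| + |u| := abs_add_le y u
        _ ≤ J + U := by
          rw [abs_of_nonneg hu]
          linarith) (by
      rw [e3]
      linarith)
    rw [e2] at h4
    have h5 : ‖w‖ ^ 2 ≤ 2 * u ^ 2 + 3 * (K * (t * Real.log T)) ^ 2 := by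
      rw [hw]
      exact norm_sq_le hy hτ
    have h6 : ε / (2 * (1 + 3 * K ^ 2)) * (mt t T + ‖w‖ ^ 2 / t) ≤
        ε * (u ^ 2 / t) + ε * mt t T := near hε ht h5
    calc Real.exp (-(u ^ 2 / t)) * ‖xi (1 / 2 + T * I + w)‖
        ≤ Real.exp (-(u ^ 2 / t)) * (k * (size T * Real.exp (|y + u| / 2 * Real.log T +
          ε / (2 * (1 + 3 * K ^ 2)) * (mt t T + ‖w‖ ^ 2 / t)))) := by gcongr
      _ = k * (size T * Real.exp (-(u ^ 2 / t) + (|y + u| / 2 * Real.log T +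
          ε / (2 * (1 + 3 * K ^ 2)) * (mt t T + ‖w‖ ^ 2 / t)))) := by
          rw [Real.exp_add (-(u ^ 2 / t))]
          ring
      _ ≤ k * (size T * Real.exp (|y + u| / 2 * Real.log T - (1 - ε) * (u ^ 2 / t) +
          ε * mt t T)) := by
          refine mul_le_mul_of_nonneg_left (mul_le_mul_of_nonneg_left
            (Real.exp_le_exp.2 ?_) hs) hk0.le
          linarith
  · have h4 := h3 T w hT2
    have h5 : ‖w‖ ^ 2 ≤ 2 * u ^ 2 + 3 * J ^ 2 := by
      rw [hw]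
      exact norm_sq_le (hy.trans hKJ) (hτ.trans hKJ)
    have h6 := far (K := J) (U := U) (u := u) hε hc hκ ht hL0 htL (by linarith) huU hU2
    have h7 : max (|w.re| / 2) (1 / 4) + 1 ≤ |y + u| / 2 + 5 / 4 := by
      rw [e2]
      have h8 : max (|y + u| / 2) (1 / 4) ≤ |y + u| / 2 + 1 / 4 :=
        max_le (by linarith) (by linarith [abs_nonneg (y + u)])
      linarith
    have h9 : C ≤ Real.exp (Real.log T) := by
      rw [Real.exp_log hT0]
      exact hTC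
    have h10 : T ^ (max (|w.re| / 2) (1 / 4) + 1) ≤
        Real.exp (Real.log T * (|y + u| / 2 + 5 / 4)) := by
      rw [Real.rpow_def_of_pos hT0]
      gcongr
    have h12 : Real.exp (-(2 * Real.log T)) ≤ k := by
      have e : Real.exp (-(2 * Real.log T)) = T ^ (-2 : ℝ) := by
        rw [Real.rpow_def_of_pos hT0]
        congr 1
        ring
      rw [e]
      exact hk
    calc Real.exp (-(u ^ 2 / t)) * ‖xi (1 / 2 + T * I + w)‖
        ≤ Real.exp (-(u ^ 2 / t)) * (C * size T * T ^ (max (|w.re| / 2) (1 / 4) + 1) *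
          Real.exp (κ * ‖w‖ ^ 2 * Real.log T)) := by gcongr
      _ ≤ Real.exp (-(u ^ 2 / t)) * (Real.exp (Real.log T) * size T *
          Real.exp (Real.log T * (|y + u| / 2 + 5 / 4)) *
          Real.exp (κ * (2 * u ^ 2 + 3 * J ^ 2) * Real.log T)) := by gcongr
      _ = Real.exp (-(2 * Real.log T)) * (size T * Real.exp (-(u ^ 2 / t) +
          (3 * Real.log T + (Real.log T * (|y + u| / 2 + 5 / 4) +
          κ * (2 * u ^ 2 + 3 * J ^ 2) * Real.log T)))) := by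
          rw [Real.exp_add (-(u ^ 2 / t)), Real.exp_add (3 * Real.log T),
            Real.exp_add (Real.log T * (|y + u| / 2 + 5 / 4)),
            show (3 * Real.log T) = 2 * Real.log T + Real.log T by ring,
            Real.exp_add (2 * Real.log T), Real.exp_neg (2 * Real.log T)]
          have := Real.exp_pos (2 * Real.log T)
          field_simp
      _ ≤ k * (size T * Real.exp (|y + u| / 2 * Real.log T - (1 - ε) * (u ^ 2 / t) +
          ε * mt t T)) := by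
          refine mul_le_mul h12 (mul_le_mul_of_nonneg_left (Real.exp_le_exp.2 ?_) hs)
            (by positivity) hk0.le
          have h11 : 0 ≤ ε * mt t T := by positivity
          linarith

end Pool.Agent.DBB
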