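import Pool.Agent.DBB.Targets5

/-!
# DBB, block CEL: elementary counting
-/

set_option autoImplicit false

namespace Pool.Agent.DBB

open Complex MeasureTheory Set Filter
open Pool.Agent.DBN Pool.Agent.DBC

namespace CEL_

open Classical in
/-- few of the disjoint intervals are contained in a set of small measure -/
theorem bad_count (N : ℕ) {a h c M : ℝ} (hc : 0 < c) (hch : c < h) (hM : 0 ≤ M) {B : Set ℝ}
    (hB : volume B ≤ ENNReal.ofReal M) :
    (((Finset.range N).filter fun k : ℕ => Icc (a + k * h) (a + k * h + c) ⊆ B).card : ℝ) * c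
      ≤ M := by
  obtain ⟨D, hD⟩ : ∃ D : Finset ℕ, D = (Finset.range N).filter fun k : ℕ =>
    Icc (a + k * h) (a + k * h + c) ⊆ B := ⟨_, rfl⟩
  rw [← hD]
  have hh : 0 < h := hc.trans hch
  have hlt : ∀ k k' : ℕ, k < k' →
      Disjoint (Icc (a + k * h) (a + k * h + c)) (Icc (a + k' * h) (a + k' * h + c)) := by
    intro k k' hk
    rw [Set.disjoint_left]
    intro x hx hx'
    have h1 : (k : ℝ) + 1 ≤ k' := by exact_mod_cast hk
    have h2 : ((k : ℝ) + 1) * h ≤ k' * h := mul_le_mul_of_nonneg_right h1 hh.le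
    have h3 := hx.2
    have h4 := hx'.1
    have h5 : ((k : ℝ) + 1) * h = k * h + h := by ring
    linarith
  have hdis : (D : Set ℕ).PairwiseDisjoint
      fun k : ℕ => Icc (a + k * h) (a + k * h + c) := by
    intro k _ k' _ hkk
    rcases lt_or_gt_of_ne hkk with h1 | h1
    · exact hlt k k' h1
    · exact (hlt k' k h1).symm
  have h1 : volume (⋃ k ∈ D, Icc (a + (k : ℝ) * h) (a + k * h + c)) =
      ∑ k ∈ D, volume (Icc (a + (k : ℝ) * h) (a + k * h + c)) :=
    measure_biUnion_finset hdis fun _ _ => measurableSet_Icc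
  have h2 : (⋃ k ∈ D, Icc (a + (k : ℝ) * h) (a + k * h + c)) ⊆ B := by
    refine iUnion₂_subset fun k hk => ?_
    rw [hD] at hk
    exact (Finset.mem_filter.1 hk).2
  have h3 : ∑ k ∈ D, volume (Icc (a + (k : ℝ) * h) (a + k * h + c)) =
      ENNReal.ofReal ((D.card : ℝ) * c) := by
    have h4 : ∀ k ∈ D, volume (Icc (a + (k : ℝ) * h) (a + k * h + c)) = ENNReal.ofReal c := by
      intro k _
      rw [Real.volume_Icc]
      congr 1
      ring
    rw [Finset.sum_congr rfl h4, Finset.sum_const, nsmul_eq_mul,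
      ENNReal.ofReal_mul (Nat.cast_nonneg _), ENNReal.ofReal_natCast]
  have h5 : ENNReal.ofReal ((D.card : ℝ) * c) ≤ ENNReal.ofReal M := by
    rw [← h3, ← h1]
    exact (measure_mono h2).trans hB
  exact (ENNReal.ofReal_le_ofReal_iff hM).1 h5

/-- the numbers -/
theorem num {ε X L p : ℝ} (hε : 0 < ε) (hp : 3 < p) (hL : 1 ≤ L)
    (hX : 4 * p / ε ≤ X) : (1 - ε) * (X * L / (2 * p)) ≤
      2 * X / ((4 * p + 2 * (ε / 4)) / L) - 1 - ε * (X * L) / (16 * p) := by
  have hp0 : 0 < p := by linarith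
  have hL0 : 0 < L := by linarith
  have hX0 : 0 < X := lt_of_lt_of_le (by positivity) hX
  have h1 : 2 * X / ((4 * p + 2 * (ε / 4)) / L) = X * L / (2 * p + ε / 4) := by
    field_simp
    ring
  have h2 : X * L / (2 * p) * (1 - ε / (8 * p)) ≤ X * L / (2 * p + ε / 4) := by
    rw [le_div_iff₀ (by positivity)]
    have h3 : X * L / (2 * p) * (1 - ε / (8 * p)) * (2 * p + ε / 4) =
        X * L * (1 - (ε / (8 * p)) ^ 2) := by
      field_simp
      ring
    rw [h3]
    have h4 : 0 ≤ X * L * (ε / (8 * p)) ^ 2 := by positivity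
    nlinarith
  have h5 : 4 * p ≤ ε * (X * L) := by
    have h6 : 4 * p ≤ ε * X := by
      have := mul_le_mul_of_nonneg_left hX hε.le
      have h7 : ε * (4 * p / ε) = 4 * p := by field_simp
      linarith
    have h8 : ε * X ≤ ε * (X * L) := by
      have : X * 1 ≤ X * L := mul_le_mul_of_nonneg_left hL hX0.le
      rw [mul_one] at this
      exact mul_le_mul_of_nonneg_left this hε.le
    linarith
  have h9 : 1 ≤ ε * (X * L) / (4 * p) := by
    rw [le_div_iff₀ (by positivity)]
    linarith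
  have h10 : X * L / (2 * p) * (1 - ε / (8 * p)) - (1 - ε) * (X * L / (2 * p)) -
      ε * (X * L) / (16 * p) - ε * (X * L) / (4 * p) =
      ε * (X * L) / (16 * p) * (3 - 1 / p) := by
    field_simp
    ring
  have h11 : 0 ≤ ε * (X * L) / (16 * p) * (3 - 1 / p) := by
    have h12 : 1 / p ≤ 1 := by
      rw [div_le_one hp0]
      linarith
    have h13 : 0 ≤ 3 - 1 / p := by linarith
    exact mul_nonneg (by positivity) h13
  rw [h1]
  linarith

end CEL_

open CEL_ in
theorem p_CEL : T_CEL := by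
  classical
  intro ε₀ hε₀
  obtain ⟨ε, hε, hε1, hεε⟩ : ∃ ε : ℝ, 0 < ε ∧ ε ≤ 1 ∧ ε ≤ ε₀ :=
    ⟨min ε₀ 1, lt_min hε₀ one_pos, min_le_right _ _, min_le_left _ _⟩
  have hpi := Real.pi_gt_three
  have hpi0 := Real.pi_pos
  refine ⟨ε * (ε / 4) / (64 * Real.pi), ε / 4, max 3 (4 * Real.pi / ε), by positivity,
    by positivity, le_trans (by norm_num) (le_max_left _ _), ?_⟩
  intro X B P hX hB hT
  have hX3 : 3 ≤ X := (le_max_left _ _).trans hX
  have hXε : 4 * Real.pi / ε ≤ X := (le_max_right _ _).trans hX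
  have hX0 : 0 < X := by linarith
  obtain ⟨L, hL⟩ : ∃ L : ℝ, L = Real.log X := ⟨_, rfl⟩
  have hL1 : 1 ≤ L := by
    rw [hL, Real.le_log_iff_exp_le hX0]
    have := Real.exp_one_lt_d9
    linarith
  have hL0 : 0 < L := by linarith
  rw [← hL]
  obtain ⟨l, hl⟩ : ∃ l : ℝ, l = (4 * Real.pi + 2 * (ε / 4)) / L := ⟨_, rfl⟩
  have hl0 : 0 < l := by rw [hl]; positivity
  have hlL : l * L = 4 * Real.pi + 2 * (ε / 4) := by
    rw [hl]
    field_simp
  obtain ⟨c, hc⟩ : ∃ c : ℝ, c = ε / 4 / (4 * L) := ⟨_, rfl⟩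
  have hc0 : 0 < c := by rw [hc]; positivity
  have hcL : c * L = ε / 16 := by
    rw [hc]
    field_simp
    norm_num
  have hcl : c < l / 2 := by
    have h1 : c * L < l / 2 * L := by
      rw [hcL]
      have h2 : l / 2 * L = 2 * Real.pi + ε / 4 := by
        have : l / 2 * L = (l * L) / 2 := by ring
        rw [this, hlL]
        ring
      rw [h2]
      linarith
    exact lt_of_mul_lt_mul_right h1 hL0.le
  obtain ⟨N, hN⟩ : ∃ N : ℕ, N = ⌊2 * X / l⌋₊ := ⟨_, rfl⟩
  have hN1 : (N : ℝ) * l ≤ 2 * X := by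
    have h1 : (N : ℝ) ≤ 2 * X / l := by
      rw [hN]
      exact Nat.floor_le (by positivity)
    rwa [le_div_iff₀ hl0] at h1
  have hN2 : 2 * X / l - 1 < N := by
    have h1 := Nat.lt_floor_add_one (2 * X / l)
    rw [← hN] at h1
    linarith
  have hbad := bad_count N (a := X) (h := l / 2) (c := c) hc0 hcl
    (show 0 ≤ ε * (ε / 4) / (64 * Real.pi) * X by positivity) hB
  -- the points
  have hgood : ∀ k ∈ (Finset.range N).filter
      (fun k : ℕ => ¬ Icc (X + k * (l / 2)) (X + k * (l / 2) + c) ⊆ B),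
      ∃ x : ℝ, P x ∧ 2 * X + k * l ≤ x ∧ x < 2 * X + (k + 1) * l := by
    intro k hk
    obtain ⟨hkN, hk⟩ := Finset.mem_filter.1 hk
    obtain ⟨T, hTS, hTB⟩ := Set.not_subset.1 hk
    have hk0 : (0 : ℝ) ≤ k := Nat.cast_nonneg k
    have hkN' : (k : ℝ) + 1 ≤ N := by exact_mod_cast Finset.mem_range.1 hkN
    have hkl : ((k : ℝ) + 1) * l ≤ N * l := mul_le_mul_of_nonneg_right hkN' hl0.le
    have h1 : 0 ≤ (k : ℝ) * (l / 2) := by positivity
    have hT1 : X ≤ T := by linarith [hTS.1]
    have hT2 : T ≤ 2 * X := by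
      have h2 : (k : ℝ) * (l / 2) + l / 2 = ((k : ℝ) + 1) * l / 2 := by ring
      linarith [hTS.2]
    obtain ⟨x, hx1, hx2, hx3⟩ := hT T hT1 hT2 hTB
    refine ⟨x, hx3, ?_, ?_⟩
    · have h2 : 2 * (X + k * (l / 2)) = 2 * X + k * l := by ring
      linarith [hTS.1]
    · have h3 : L ≤ Real.log T := by
        rw [hL]
        exact Real.log_le_log hX0 hT1
      have h4 : (x - 2 * T) * L ≤ (x - 2 * T) * Real.log T :=
        mul_le_mul_of_nonneg_left h3 (by linarith)
      have h5 : (x - 2 * T) * L ≤ 4 * Real.pi + ε / 4 := h4.trans hx2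
      have h6 : (x - 2 * X - k * l) * L < l * L := by
        have h7 : T ≤ X + k * (l / 2) + c := hTS.2
        have h8 : (2 * T - 2 * X - k * l) * L ≤ 2 * c * L := by
          refine mul_le_mul_of_nonneg_right ?_ hL0.le
          linarith
        have h9 : (x - 2 * X - k * l) * L =
            (x - 2 * T) * L + (2 * T - 2 * X - k * l) * L := by ring
        have h10 : 2 * c * L = ε / 8 := by
          have : 2 * c * L = 2 * (c * L) := by ring
          rw [this, hcL]
          ring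
        rw [h9, hlL]
        linarith
      have h11 := lt_of_mul_lt_mul_right h6 hL0.le
      linarith
  choose! f hf using hgood
  obtain ⟨G, hG⟩ : ∃ G : Finset ℕ, G = (Finset.range N).filter
      (fun k : ℕ => ¬ Icc (X + k * (l / 2)) (X + k * (l / 2) + c) ⊆ B) := ⟨_, rfl⟩
  rw [← hG] at hf
  have hinj : Set.InjOn f G := by
    intro k hk k' hk' hkk
    have h1 := hf k hk
    have h2 := hf k' hk'
    rw [hkk] at h1
    have h3 : (k : ℝ) * l < (k' + 1) * l := by linarith [h1.2.1, h2.2.2]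
    have h4 : (k' : ℝ) * l < (k + 1) * l := by linarith [h2.2.1, h1.2.2]
    have h5 : (k : ℝ) < k' + 1 := lt_of_mul_lt_mul_right h3 hl0.le
    have h6 : (k' : ℝ) < k + 1 := lt_of_mul_lt_mul_right h4 hl0.le
    have h7 : k < k' + 1 := by exact_mod_cast h5
    have h8 : k' < k + 1 := by exact_mod_cast h6
    omega
  refine ⟨G.image f, ?_, ?_⟩
  · intro x hx
    obtain ⟨k, hk, rfl⟩ := Finset.mem_image.1 hx
    obtain ⟨h1, h2, h3⟩ := hf k hk
    have hkN : k < N := by
      rw [hG] at hk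
      exact Finset.mem_range.1 (Finset.mem_filter.1 hk).1
    have hkN' : (k : ℝ) + 1 ≤ N := by exact_mod_cast hkN
    have hkl : ((k : ℝ) + 1) * l ≤ N * l := mul_le_mul_of_nonneg_right hkN' hl0.le
    have hk0 : (0 : ℝ) ≤ k * l := by positivity
    exact ⟨h1, by linarith, by linarith⟩
  · rw [Finset.card_image_of_injOn hinj]
    have hcard : (((Finset.range N).filter
        (fun k : ℕ => Icc (X + k * (l / 2)) (X + k * (l / 2) + c) ⊆ B)).card : ℝ) +
        (G.card : ℝ) = N := by
      have h1 := Finset.card_filter_add_card_filter_not (s := Finset.range N)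
        (fun k : ℕ => Icc (X + k * (l / 2)) (X + k * (l / 2) + c) ⊆ B)
      rw [Finset.card_range, ← hG] at h1
      exact_mod_cast h1
    have hb2 : (((Finset.range N).filter
        (fun k : ℕ => Icc (X + k * (l / 2)) (X + k * (l / 2) + c) ⊆ B)).card : ℝ) ≤
        ε * (X * L) / (16 * Real.pi) := by
      have h1 : (((Finset.range N).filter
        (fun k : ℕ => Icc (X + k * (l / 2)) (X + k * (l / 2) + c) ⊆ B)).card : ℝ) * c ≤
        ε * (X * L) / (16 * Real.pi) * c := by
        refine hbad.trans (le_of_eq ?_)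
        rw [hc]
        field_simp
        ring
      exact le_of_mul_le_mul_right h1 hc0
    have h1 := num hε hpi hL1 hXε
    rw [← hl] at h1
    have h2 : (1 - ε₀) * (X * L / (2 * Real.pi)) ≤ (1 - ε) * (X * L / (2 * Real.pi)) :=
      mul_le_mul_of_nonneg_right (by linarith) (by positivity)
    linarith

end Pool.Agent.DBB
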