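import Pool.Agent.DBB.Targets5
import Pool.Agent.DBB.P_DG2

/-!
# DG5: the diagonal argument, relative form
-/

set_option autoImplicit false

namespace Pool.Agent.DBB

open Complex MeasureTheory Set Filter
open Pool.Agent.DBN Pool.Agent.DBC

namespace DG5_

theorem mt_nn {n : ℕ} {t T : ℝ} (h : (n : ℝ) ≤ mt t T) : 0 ≤ mt t T :=
  (Nat.cast_nonneg n).trans h

theorem hyp {t T ν : ℕ → ℝ} {c₂ : ℝ} (hc : 0 < c₂) (ht : ∀ n, 0 < t n)
    (hm : ∀ n : ℕ, (n : ℝ) ≤ mt (t n) (T n)) (hν : ∀ n, T n ^ (-2 : ℝ) ≤ ν n)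
    (hu : ∀ (n : ℕ) (w : ℂ), 0 ≤ w.re → ‖w‖ ≤ n → ‖riemannZeta (1 / 2 + T n * I + w)‖ ≤
      ν n * Real.exp ((mt (t n) (T n) + ‖w‖ ^ 2 / t n) / (n + 1)))
    (hl : ∀ (n : ℕ) (w : ℂ), t n * Real.log (T n) / (n + 1) ≤ w.re →
      w.re ≤ n * (t n * Real.log (T n)) → |w.im| ≤ n * (t n * Real.log (T n)) →
      ν n * Real.exp (-(mt (t n) (T n) / (n + 1))) ≤ ‖riemannZeta (1 / 2 + T n * I + w)‖)
    (hup : ∀ n, t n * Real.log (T n) ≤ c₂) :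
    HypR (range fun n => (t n, T n, ν n)) c₂ where
  c0 := hc
  ht := by
    rintro t' T' k' ⟨n, hn⟩
    obtain ⟨rfl, hn2⟩ := Prod.mk.inj hn
    exact ht n
  hc := by
    rintro t' T' k' ⟨n, hn⟩
    obtain ⟨rfl, hn2⟩ := Prod.mk.inj hn
    obtain ⟨rfl, rfl⟩ := Prod.mk.inj hn2
    exact hup n
  hk := by
    rintro t' T' k' ⟨n, hn⟩
    obtain ⟨rfl, hn2⟩ := Prod.mk.inj hn
    obtain ⟨rfl, rfl⟩ := Prod.mk.inj hn2
    exact hν n
  big := by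
    intro M
    obtain ⟨T₀, -, h⟩ := DG2_.thr2 T 1 M one_pos
    refine ⟨T₀, ?_⟩
    rintro t' T' k' ⟨n, hn⟩ hT
    obtain ⟨rfl, hn2⟩ := Prod.mk.inj hn
    obtain ⟨rfl, rfl⟩ := Prod.mk.inj hn2
    exact (h n hT).2.trans (hm n)
  up := by
    intro ε K hε hK
    obtain ⟨T₀, h0, h⟩ := DG2_.thr2 T ε K hε
    refine ⟨T₀, ?_⟩
    rintro t' T' k' w ⟨n, hn⟩ hT h1 h2
    obtain ⟨rfl, hn2⟩ := Prod.mk.inj hn
    obtain ⟨rfl, rfl⟩ := Prod.mk.inj hn2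
    obtain ⟨he, hKn⟩ := h n hT
    have hm0 : 0 ≤ mt (t n) (T n) := mt_nn (hm n)
    have hT1 : 0 ≤ T n := by linarith
    have hν0 : 0 ≤ ν n := (Real.rpow_nonneg hT1 _).trans (hν n)
    have hw0 : 0 ≤ ‖w‖ ^ 2 / t n := div_nonneg (sq_nonneg _) (ht n).le
    refine (hu n w h1 (h2.trans hKn)).trans
      (mul_le_mul_of_nonneg_left (Real.exp_le_exp.2 ?_) hν0)
    rw [div_eq_mul_one_div, mul_comm]
    exact mul_le_mul_of_nonneg_right he (add_nonneg hm0 hw0)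
  lo := by
    intro ε K hε hK
    obtain ⟨T₀, h0, h⟩ := DG2_.thr2 T ε K hε
    refine ⟨T₀, ?_⟩
    rintro t' T' k' w ⟨n, hn⟩ hT h1 h2 h3
    obtain ⟨rfl, hn2⟩ := Prod.mk.inj hn
    obtain ⟨rfl, rfl⟩ := Prod.mk.inj hn2
    obtain ⟨he, hKn⟩ := h n hT
    have hm0 : 0 ≤ mt (t n) (T n) := mt_nn (hm n)
    have hT1 : 0 ≤ T n := by linarith
    have hν0 : 0 ≤ ν n := (Real.rpow_nonneg hT1 _).trans (hν n)
    have hl0 : 0 ≤ t n * Real.log (T n) :=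
      mul_nonneg (ht n).le (Real.log_nonneg (h0.trans hT))
    have h4 : t n * Real.log (T n) / ((n : ℝ) + 1) ≤ ε * (t n * Real.log (T n)) := by
      rw [div_eq_mul_one_div, mul_comm]
      exact mul_le_mul_of_nonneg_right he hl0
    have h5 : K * (t n * Real.log (T n)) ≤ n * (t n * Real.log (T n)) :=
      mul_le_mul_of_nonneg_right hKn hl0
    refine le_trans (mul_le_mul_of_nonneg_left (Real.exp_le_exp.2 ?_) hν0)
      (hl n w (h4.trans h1) (h2.trans h5) (h3.trans h5))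
    rw [neg_le_neg_iff, div_eq_mul_one_div, mul_comm]
    exact mul_le_mul_of_nonneg_right he hm0

end DG5_

theorem p_DG5 (h1 : T_HT5) : T_DG5 := by
  intro c₂ K ε hcc hK hε
  by_contra hcon
  push Not at hcon
  choose t T hn hup hL hno using hcon
  choose ht hm ν hν hu hl using hL
  obtain ⟨T₀, -, h⟩ := h1 _ c₂ (DG5_.hyp hcc ht hm hν hu hl hup) K ε hK hε
  obtain ⟨n, hnn⟩ := exists_nat_ge T₀
  exact hno n (h (t n) (T n) (ν n) ⟨n, rfl⟩ (hnn.trans (hn n)))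

end Pool.Agent.DBB
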