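import Pool.Agent.DBB.Targets5
import Pool.Agent.DBB.P_GD2

/-!
# The logarithmic derivative of `W` on the time scale `1 / (log X)²`
-/

set_option autoImplicit false

namespace Pool.Agent.DBB

open Complex MeasureTheory Set Filter
open Pool.Agent.DBN Pool.Agent.DBC

open GD2_ in
theorem p_GD5 (h1 : Pool.Agent.DBC.U_BCL) (h2 : Pool.Agent.DBC.T_DER) (h3 : T_UP5)
    (h4 : T_LO5) : T_GD5 := by
  intro G c₂ h K ε hK hε
  obtain ⟨e, he⟩ : ∃ e : ℝ, e = ε / 1024 := ⟨_, rfl⟩
  have he0 : 0 < e := by rw [he]; positivity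
  have he1 : e ≤ ε := by rw [he]; linarith
  obtain ⟨T₁, hT₁, hE1⟩ := h3 G c₂ h (K + 1) e (by linarith) he0
  obtain ⟨T₂, hT₂, hE2⟩ := h4 G c₂ h (K + 1) e (by linarith) he0
  refine ⟨max (max T₁ T₂) 3, le_max_of_le_left (le_max_of_le_left hT₁),
    fun t T k x τ hG hT hx1 hx2 hτ => ?_⟩
  have hTa : T₁ ≤ T := ((le_max_left _ _).trans (le_max_left _ _)).trans hT
  have hTb : T₂ ≤ T := ((le_max_right _ _).trans (le_max_left _ _)).trans hT
  have hT3 : 3 ≤ T := (le_max_right _ _).trans hT
  have hT0 : 0 < T := by linarith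
  have hL : 1 ≤ Real.log T := by
    rw [Real.le_log_iff_exp_le (by linarith)]
    have := Real.exp_one_lt_d9
    linarith
  have hL0 : 0 < Real.log T := by linarith
  have ht : 0 < t := h.ht t T k hG
  have hk : 0 < k := lt_of_lt_of_le (Real.rpow_pos_of_pos hT0 _) (h.hk t T k hG)
  have hq0 : 0 < t * Real.log T := by positivity
  have hKq : (K + 1) * (t * Real.log T) = K * (t * Real.log T) + t * Real.log T := by ring
  have hm0 : 0 < mt t T := by unfold mt; positivity
  have hst : 0 < √t := Real.sqrt_pos.mpr ht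
  have hlow : √t * (k * EE t T x (-e)) ≤ ‖W t (Pool.Agent.DBC.pt x τ)‖ :=
    hE2 t T k x τ hG hTb (by linarith) (by linarith) (by linarith)
  have hWpos : 0 < ‖W t (Pool.Agent.DBC.pt x τ)‖ :=
    lt_of_lt_of_le (mul_pos hst (mul_pos hk (EE_pos t T x (-e) hT0))) hlow
  have hdW : Differentiable ℂ (W t) := fun s => (h2 t s ht).differentiableAt
  obtain ⟨δ, hδ⟩ : ∃ δ : ℝ, δ = t * Real.log T / 128 := ⟨_, rfl⟩
  have hδ0 : 0 < δ := by rw [hδ]; positivity
  have hball : ∀ v ∈ Metric.ball (0 : ℂ) δ, W t (Pool.Agent.DBC.pt x τ + v) ≠ 0 ∧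
      ‖W t (Pool.Agent.DBC.pt x τ + v)‖ ≤ Real.exp (v.re * (Real.log T / 2)) *
        (Real.exp (2 * e * mt t T) * ‖W t (Pool.Agent.DBC.pt x τ)‖) := by
    intro v hv
    rw [mem_ball_zero_iff] at hv
    have hre : |v.re| < δ := (Complex.abs_re_le_norm v).trans_lt hv
    have him : |v.im| < δ := (Complex.abs_im_le_norm v).trans_lt hv
    obtain ⟨hr1, hr2⟩ := abs_lt.1 hre
    have hτ' : |τ + v.im - T| ≤ (K + 1) * (t * Real.log T) := by
      have : τ + v.im - T = (τ - T) + v.im := by ring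
      rw [this]
      exact (abs_add_le _ _).trans (by linarith)
    rw [GD22_.pt_add]
    have hlo := hE2 t T k (x + v.re) (τ + v.im) hG hTb (by linarith) (by linarith) hτ'
    have hup := hE1 t T k (x + v.re) (τ + v.im) hG hTa (by linarith) (by linarith) hτ'
    beta_reduce at hlo hup
    refine ⟨?_, ?_⟩
    · intro h0
      rw [h0, norm_zero] at hlo
      have := mul_pos hst (mul_pos hk (EE_pos t T (x + v.re) (-e) hT0))
      linarith
    · rw [EE_split] at hup
      refine hup.trans ?_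
      calc √t * (k * (Real.exp (v.re * (Real.log T / 2)) *
            (Real.exp (2 * e * mt t T) * EE t T x (-e)))) =
            Real.exp (v.re * (Real.log T / 2)) * (Real.exp (2 * e * mt t T) *
            (√t * (k * EE t T x (-e)))) := by ring
        _ ≤ _ := by
            refine mul_le_mul_of_nonneg_left ?_ (Real.exp_pos _).le
            exact mul_le_mul_of_nonneg_left hlow (Real.exp_pos _).le
  have hmain := GD22_.logd h1 (W t) (Pool.Agent.DBC.pt x τ) (Real.log T) δ (2 * e * mt t T) hδ0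
    (by positivity) hdW hball
  refine ⟨norm_pos_iff.1 hWpos, ?_, ?_⟩
  · refine hmain.trans ?_
    refine mul_le_mul_of_nonneg_right ?_ hWpos.le
    rw [div_le_iff₀ hδ0]
    refine le_of_eq ?_
    rw [he, hδ]
    unfold mt
    ring
  · refine le_trans ?_ hlow
    refine mul_le_mul_of_nonneg_left ?_ hst.le
    refine mul_le_mul_of_nonneg_left ?_ hk.le
    exact EE_mono t T x (-ε) (-e) hT0 hm0.le (by linarith)

end Pool.Agent.DBB
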