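import Pool.Agent.DBB.Targets5
import Pool.Agent.DBC.P_SAD

/-!
# DBB, target LO5: lower bound for `W`, time scale `1 / (log X)²`
-/

set_option autoImplicit false

namespace Pool.Agent.DBB

open Complex MeasureTheory Set Filter
open Pool.Agent.DBN Pool.Agent.DBC

namespace LO5_

theorem EE_half {t T x a b c M : ℝ} (hs : 0 ≤ size T) (hc : 0 < c) (hM : 1 / c ≤ M)
    (hm : M ≤ mt t T) (hab : a + c ≤ b) : EE t T x a ≤ 1 / 2 * EE t T x b := by
  have hm0 : 1 / c ≤ mt t T := hM.trans hm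
  have hm1 : 0 < mt t T := lt_of_lt_of_le (by positivity) hm0
  have hm2 : 1 ≤ c * mt t T := by
    rw [div_le_iff₀ hc] at hm0
    linarith
  have h1 : x / 2 * Real.log T + (1 / 16 + a) * mt t T ≤
      x / 2 * Real.log T + (1 / 16 + b) * mt t T - 1 := by
    have : (a + c) * mt t T ≤ b * mt t T := mul_le_mul_of_nonneg_right hab hm1.le
    linarith
  have h2 : Real.exp (-1) ≤ 1 / 2 := by
    rw [Real.exp_neg, one_div]
    have := Real.add_one_le_exp (1 : ℝ)
    exact inv_anti₀ (by norm_num) (by linarith)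
  unfold EE
  calc size T * Real.exp (x / 2 * Real.log T + (1 / 16 + a) * mt t T)
      ≤ size T * Real.exp (x / 2 * Real.log T + (1 / 16 + b) * mt t T - 1) := by gcongr
    _ = size T * (Real.exp (x / 2 * Real.log T + (1 / 16 + b) * mt t T) * Real.exp (-1)) := by
        rw [sub_eq_add_neg, Real.exp_add]
    _ ≤ size T * (Real.exp (x / 2 * Real.log T + (1 / 16 + b) * mt t T) * (1 / 2)) := by
        gcongr
    _ = 1 / 2 * (size T * Real.exp (x / 2 * Real.log T + (1 / 16 + b) * mt t T)) := by ring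

end LO5_

open LO5_ in
theorem p_LO5 (h1 : Pool.Agent.DBC.T_IGR) (h2 : T_NE5) (h3 : T_OA5) : T_LO5 := by
  intro G c₂ hy K ε hK hε
  obtain ⟨g, hg, T₂, hT₂, hO⟩ := h3 G c₂ hy K hK
  obtain ⟨T₁, hT₁, hN⟩ := h2 G c₂ hy K (min (ε / 2) (g / 2)) hK
    (lt_min (by linarith) (by linarith))
  obtain ⟨T₃, hB⟩ := hy.big (max (1 / (ε / 2)) (1 / (g / 2)))
  refine ⟨max (max T₁ T₂) T₃, (hT₁.trans (le_max_left _ _)).trans (le_max_left _ _), ?_⟩
  intro t T k x τ hTG hT hx1 hx2 hτ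
  have hTa : T₁ ≤ T := ((le_max_left _ _).trans (le_max_left _ _)).trans hT
  have hTb : T₂ ≤ T := ((le_max_right _ _).trans (le_max_left _ _)).trans hT
  have hTc : T₃ ≤ T := (le_max_right _ _).trans hT
  have hT2 : 2 ≤ T := hT₁.trans hTa
  have hTpos : 0 < T := by linarith
  have n1 := hN t T k x τ hTG hTa hx1 hx2 hτ
  have o1 := hO t T k x τ hTG hTb hx1 hx2 hτ
  have hM := hB t T k hTG hTc
  have hlog : 0 < Real.log T := Real.log_pos (by linarith)
  have ht : 0 < t := hy.ht t T k hTG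
  have hk : 0 ≤ k := (Real.rpow_nonneg hTpos.le _).trans (hy.hk t T k hTG)
  have hq : 0 < t * Real.log T := by positivity
  obtain ⟨r, hr⟩ : ∃ r, r = t * Real.log T / 64 := ⟨_, rfl⟩
  have hr0 : 0 < r := by
    rw [hr]
    positivity
  have hsd : r < sd t T := by
    unfold sd
    linarith
  have hs : 0 < size T := by
    unfold size
    positivity
  beta_reduce at n1 o1
  rw [← hr] at n1 o1
  set e : ℝ := min (ε / 2) (g / 2) with he
  obtain ⟨i1, -, -⟩ := h1 t (pt x τ) ht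
  have hsub : Ioo (sd t T - r) (sd t T + r) ⊆ Ioi (0 : ℝ) := fun u hu => by
    have := hu.1
    show 0 < u
    linarith
  have hnorm : ∀ u : ℝ, ‖((Real.exp (-(u ^ 2 / t)) : ℝ) : ℂ) * xi (pt x τ + u)‖ =
      Real.exp (-(u ^ 2 / t)) * ‖xi (pt x τ + u)‖ := fun u => by
    rw [norm_mul, norm_real, Real.norm_eq_abs, abs_of_pos (Real.exp_pos _)]
  have hG : IntegrableOn (fun u : ℝ => Real.exp (-(u ^ 2 / t)) * ‖xi (pt x τ + u)‖)
      (Ioi (0 : ℝ) \ Ioo (sd t T - r) (sd t T + r)) :=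
    ((i1.norm).congr (Eventually.of_forall hnorm)).integrableOn
  have s1 := SAD_.split
    (P := ∫ u in Ioo (sd t T - r) (sd t T + r),
      ((Real.exp (-(u ^ 2 / t)) : ℝ) : ℂ) * xi (pt x τ + u)) (a := 0)
    measurableSet_Ioo hsub i1 hG (fun u _ => (hnorm u).le) (by simp) o1
  have s2 : ‖∫ u in Ioo (sd t T - r) (sd t T + r),
      ((Real.exp (-(u ^ 2 / t)) : ℝ) : ℂ) * xi (pt x τ + u)‖ ≤
      ‖W t (pt x τ)‖ + √t * (k * EE t T x (-g)) := by
    rw [zero_add] at s1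
    have s3 := norm_sub_rev (W t (pt x τ)) (∫ u in Ioo (sd t T - r) (sd t T + r),
      ((Real.exp (-(u ^ 2 / t)) : ℝ) : ℂ) * xi (pt x τ + u))
    have s4 := norm_sub_norm_le (∫ u in Ioo (sd t T - r) (sd t T + r),
      ((Real.exp (-(u ^ 2 / t)) : ℝ) : ℂ) * xi (pt x τ + u)) (W t (pt x τ))
    have s5 : ‖W t (pt x τ) - ∫ u in Ioo (sd t T - r) (sd t T + r),
      ((Real.exp (-(u ^ 2 / t)) : ℝ) : ℂ) * xi (pt x τ + u)‖ ≤ √t * (k * EE t T x (-g)) := s1
    linarith
  have htail : EE t T x (-g) ≤ 1 / 2 * EE t T x (-e) :=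
    EE_half (c := g / 2) hs.le (by linarith) (le_max_right _ _) hM
      (by linarith [min_le_right (ε / 2) (g / 2)])
  have hlow : EE t T x (-ε) ≤ 1 / 2 * EE t T x (-e) :=
    EE_half (c := ε / 2) hs.le (by linarith) (le_max_left _ _) hM
      (by linarith [min_le_left (ε / 2) (g / 2)])
  have hst : 0 ≤ √t := Real.sqrt_nonneg _
  have w1 := mul_le_mul_of_nonneg_left (mul_le_mul_of_nonneg_left htail hk) hst
  have w2 := mul_le_mul_of_nonneg_left (mul_le_mul_of_nonneg_left hlow hk) hst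
  show √t * (k * EE t T x (-ε)) ≤ ‖W t (pt x τ)‖
  linarith

end Pool.Agent.DBB
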