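import Pool.Agent.DBB.Targets5

/-!
# Block MC5: many real simple zeros on the time scale `1 / (log X)²`
-/

set_option autoImplicit false

namespace Pool.Agent.DBB

open Complex MeasureTheory Set Filter
open Pool.Agent.DBN Pool.Agent.DBC

namespace MC5_

/-- a real zero close to `2 T` in the form needed for the counting -/
theorem near {η t X T : ℝ} (hX : 2 ≤ X) (hT : X ≤ T) (ht : 0 < t)
    (hm : 4 * Real.pi + η ≤ t * Real.log X ^ 2) (h : CrysS 1 η t T) :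
    ∃ x : ℝ, 2 * T ≤ x ∧ (x - 2 * T) * Real.log T ≤ 4 * Real.pi + η ∧
      (H t x = 0 ∧ deriv (H t) x ≠ 0) := by
  have hlX : 0 < Real.log X := Real.log_pos (by linarith)
  have hlT : Real.log X ≤ Real.log T := Real.log_le_log (by linarith) hT
  have hlT0 : 0 < Real.log T := lt_of_lt_of_le hlX hlT
  obtain ⟨ha, -, hc⟩ := h
  obtain ⟨y, hy1, hy2, hy3⟩ := hc (2 * T) (by
    rw [sub_self, abs_zero]
    have := mul_pos ht hlT0
    linarith)
  refine ⟨y, hy1, hy2, hy3, (ha y ?_ hy3).2⟩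
  have e : (y : ℂ) - 2 * (T : ℂ) = ((y - 2 * T : ℝ) : ℂ) := by push_cast; ring
  rw [e, Complex.norm_real, Real.norm_eq_abs, abs_of_nonneg (by linarith), one_mul]
  have h1 : (y - 2 * T) * Real.log T ≤ t * Real.log T * Real.log T := by
    have h2 : t * Real.log X ^ 2 ≤ t * Real.log T ^ 2 :=
      mul_le_mul_of_nonneg_left (pow_le_pow_left₀ hlX.le hlT 2) ht.le
    calc (y - 2 * T) * Real.log T ≤ 4 * Real.pi + η := hy2
      _ ≤ t * Real.log X ^ 2 := hm
      _ ≤ t * Real.log T ^ 2 := h2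
      _ = t * Real.log T * Real.log T := by ring
  exact le_of_mul_le_mul_right h1 hlT0

end MC5_

theorem p_MC5 (h1 : T_SC5) (h2 : T_CEL) : T_MC5 := by
  intro c hc ε hε
  obtain ⟨δ, η, X₀, hδ, hη, hX₀, H2⟩ := h2 ε hε
  obtain ⟨A, X₁, hA, H1⟩ := h1 c hc 1 η δ one_pos hη hδ
  refine ⟨max A (4 * Real.pi + η), max X₀ X₁, lt_max_of_lt_left hA, fun t X hX ht hc' => ?_⟩
  have hX0 : X₀ ≤ X := (le_max_left _ _).trans hX
  have hX1 : X₁ ≤ X := (le_max_right _ _).trans hX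
  have hA' : A ≤ t * Real.log X ^ 2 := (le_max_left _ _).trans ht
  have hm : 4 * Real.pi + η ≤ t * Real.log X ^ 2 := (le_max_right _ _).trans ht
  have ht0 : 0 < t := by
    by_contra hcon
    have : t * Real.log X ^ 2 ≤ 0 := mul_nonpos_of_nonpos_of_nonneg (not_lt.mp hcon) (sq_nonneg _)
    linarith
  obtain ⟨F, hF, hcard⟩ := H2 X {T : ℝ | X ≤ T ∧ T ≤ 2 * X ∧ ¬ CrysS 1 η t T}
    (fun x => H t x = 0 ∧ deriv (H t) x ≠ 0) hX0 (H1 t X hX1 hA' hc') (fun T hT1 hT2 hT3 => by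
      have hcr : CrysS 1 η t T := by
        by_contra hcon
        exact hT3 ⟨hT1, hT2, hcon⟩
      exact MC5_.near (hX₀.trans hX0) hT1 ht0 hm hcr)
  exact ⟨F, fun x hx => ⟨(hF x hx).1.1, (hF x hx).1.2, (hF x hx).2.1, (hF x hx).2.2⟩, hcard⟩

end Pool.Agent.DBB
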