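import Pool.Agent.DBB.Targets5
import Pool.Agent.DBB.P_OA2

/-!
# Target OA5: away from the saddle point, on the scale of the time, relative to `k`
-/

set_option autoImplicit false

namespace Pool.Agent.DBB

open Complex MeasureTheory Set Filter
open Pool.Agent.DBN Pool.Agent.DBC

open OA2_ in
theorem p_OA5 (h1 : T_BD5) (h2 : T_INE) : T_OA5 := by
  intro G c₂ hH K hK
  obtain ⟨ε₀, g, κ, hε, hε1, hg, hκ, h⟩ := h2.1 (1 / 64) (by norm_num)
  obtain ⟨T₀, hT₀, hb⟩ := h1 G c₂ hH ε₀ (K + 1) hε hε1 (by linarith)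
  obtain ⟨T₁, hT₁⟩ := hH.big (2 * √(Real.pi / κ) / g)
  refine ⟨g / 2, by positivity, max T₀ T₁, hT₀.trans (le_max_left _ _), ?_⟩
  intro t T k x τ hG hT hx1 hx2 hτ
  have hTa : T₀ ≤ T := (le_max_left _ _).trans hT
  have hTb : T₁ ≤ T := (le_max_right _ _).trans hT
  have hT2 : 2 ≤ T := hT₀.trans hTa
  have ht : 0 < t := hH.ht t T k hG
  have hk : 0 < k := lt_of_lt_of_le (Real.rpow_pos_of_pos (by linarith) _) (hH.hk t T k hG)
  have hL : 0 < Real.log T := Real.log_pos (by linarith)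
  have hq : 0 < t * Real.log T := mul_pos ht hL
  have hKq : K * (t * Real.log T) + t * Real.log T = (K + 1) * (t * Real.log T) := by ring
  have hKq0 : 0 < K * (t * Real.log T) := mul_pos hK hq
  have hm := hT₁ t T k hG hTb
  have hx : |x| ≤ (K + 1) * (t * Real.log T) := abs_le.2 ⟨by linarith, by linarith⟩
  have hsz : 0 ≤ size T := Pool.Agent.DBC.OFA_.size_nonneg' hT2
  set A : ℝ := k * (size T * Real.exp (x / 2 * Real.log T + (1 / 16 - g) * mt t T)) with hA
  have hA0 : 0 ≤ A := by positivity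
  have hp : ∀ u : ℝ, 0 ≤ u → 1 / 64 * (t * Real.log T) ≤ |u - t * Real.log T / 4| →
      Real.exp (-(u ^ 2 / t)) * ‖xi (Pool.Agent.DBC.pt x τ + u)‖ ≤
        A * Real.exp (-(κ / t) * u ^ 2) := by
    intro u hu hru
    refine (hb t T k x τ u hG hTa hx (by linarith) hu).trans ?_
    have h3 := h ε₀ t (Real.log T) x u hε le_rfl ht hL hx1 hu hru
    rw [hA, mul_assoc, mul_assoc, ← Real.exp_add]
    refine mul_le_mul_of_nonneg_left (mul_le_mul_of_nonneg_left
      (Real.exp_le_exp.mpr ?_) hsz) hk.le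
    have e1 : -(κ / t) * u ^ 2 = -(κ * (u ^ 2 / t)) := by ring
    rw [e1]
    unfold mt
    linarith
  have h6 := Pool.Agent.DBC.OA4_.int_bound (κ := κ / t) (A := A)
    (S := Ioi (0 : ℝ) \ Ioo (sd t T - t * Real.log T / 64) (sd t T + t * Real.log T / 64))
    (f := fun u => Real.exp (-(u ^ 2 / t)) * ‖xi (Pool.Agent.DBC.pt x τ + u)‖)
    (by positivity) hA0 (measurableSet_Ioi.diff measurableSet_Ioo)
    (fun u => by positivity) (by
      rintro u ⟨hu1, hu2⟩
      refine hp u (le_of_lt hu1) ?_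
      by_contra h7
      push Not at h7
      rw [abs_lt] at h7
      exact hu2 ⟨by unfold sd; linarith, by unfold sd; linarith⟩)
  refine h6.trans ?_
  rw [gauss_eq ht]
  have h8 : √(Real.pi / κ) ≤ Real.exp (g / 2 * mt t T) := absorb hg hm
  have e2 : k * EE t T x (-(g / 2)) = A * Real.exp (g / 2 * mt t T) := by
    rw [hA, EE, mul_assoc, mul_assoc, ← Real.exp_add]
    congr 3
    ring
  rw [e2]
  calc A * (√t * √(Real.pi / κ)) = √t * (A * √(Real.pi / κ)) := by ring
    _ ≤ √t * (A * Real.exp (g / 2 * mt t T)) := by gcongr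

end Pool.Agent.DBB
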