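import Pool.Agent.DBB.Targets5
import Pool.Agent.DBC.P_OFA

/-!
# DBB, target `T_OB5`: the other side
-/

set_option autoImplicit false

namespace Pool.Agent.DBB

open Complex MeasureTheory Set Filter
open Pool.Agent.DBN Pool.Agent.DBC

theorem p_OB5 (h1 : T_BD5) (h2 : T_INE) : T_OB5 := by
  intro G c₂ hH K δ hK hδ
  obtain ⟨-, hb, -⟩ := h2
  obtain ⟨ε₀, g, κ, hε₀, hε1, hg, hκ, h⟩ := hb δ hδ
  obtain ⟨T₁, hT₁, hB⟩ := h1 G c₂ hH ε₀ K hε₀ hε1 hK
  obtain ⟨T₂, hM⟩ := hH.big (2 / g * √(Real.pi / κ))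
  refine ⟨g / 2, max T₁ T₂, half_pos hg, le_max_of_le_left hT₁, ?_⟩
  intro t T k x τ hG hT hx hxK hτ
  have ht := hH.ht t T k hG
  have hTa : T₁ ≤ T := (le_max_left _ _).trans hT
  have hTb : T₂ ≤ T := (le_max_right _ _).trans hT
  have hT2 : 2 ≤ T := hT₁.trans hTa
  have hL : 0 < Real.log T := Real.log_pos (by linarith)
  have hm := hM t T k hG hTb
  have hk0 : 0 < k := by
    have h0 : 0 < T ^ (-2 : ℝ) := Real.rpow_pos_of_pos (by linarith) _
    exact h0.trans_le (hH.hk t T k hG)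
  have hx0 : 0 ≤ x := by
    have : 0 ≤ δ * (t * Real.log T) := by positivity
    linarith
  have hx2 : |-x| ≤ K * (t * Real.log T) := by
    rw [abs_neg, abs_of_nonneg hx0]
    exact hxK
  have hs := OFA_.size_nonneg' hT2
  obtain ⟨A, hAe⟩ : ∃ A, A = k * (size T *
    Real.exp (x / 2 * Real.log T + (1 / 16 - g) * mt t T)) := ⟨_, rfl⟩
  have hA : 0 ≤ A := by
    rw [hAe]
    positivity
  have hk : 0 < κ / t := by positivity
  have hp : ∀ u : ℝ, 0 ≤ u → Real.exp (-(u ^ 2 / t)) * ‖xi (DBC.pt (-x) τ + u)‖ ≤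
      A * Real.exp (-(κ / t) * u ^ 2) := by
    intro u hu
    refine (hB t T k (-x) τ u hG hTa hx2 hτ hu).trans ?_
    have h3 := h ε₀ t (Real.log T) x u hε₀ le_rfl ht hL hx hu
    rw [hAe, mul_assoc, mul_assoc, ← Real.exp_add]
    refine mul_le_mul_of_nonneg_left (mul_le_mul_of_nonneg_left (Real.exp_le_exp.2 ?_) hs) hk0.le
    have h4 : |-x + u| = |u - x| := by
      congr 1
      ring
    have h5 : -(κ / t) * u ^ 2 = -(κ * (u ^ 2 / t)) := by
      field_simp
    rw [h4, h5]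
    unfold mt
    linarith
  have hg1 := (integrable_exp_neg_mul_sq hk).const_mul A
  have h6 : ‖W t (DBC.pt (-x) τ)‖ ≤ A * (√t * √(Real.pi / κ)) := by
    calc ‖W t (DBC.pt (-x) τ)‖ ≤ ∫ u in Ioi (0 : ℝ), ‖((Real.exp (-(u ^ 2 / t)) : ℝ) : ℂ) *
          xi (DBC.pt (-x) τ + u)‖ := norm_integral_le_integral_norm _
      _ ≤ ∫ u in Ioi (0 : ℝ), A * Real.exp (-(κ / t) * u ^ 2) := by
          refine integral_mono_of_nonneg ?_ hg1.integrableOn ?_
          · filter_upwards with u
            exact norm_nonneg _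
          · filter_upwards [ae_restrict_mem measurableSet_Ioi] with u hu
            show ‖((Real.exp (-(u ^ 2 / t)) : ℝ) : ℂ) * xi (DBC.pt (-x) τ + u)‖ ≤
              A * Real.exp (-(κ / t) * u ^ 2)
            rw [norm_mul, Complex.norm_real, Real.norm_of_nonneg (Real.exp_pos _).le]
            exact hp u (le_of_lt hu)
      _ ≤ ∫ u : ℝ, A * Real.exp (-(κ / t) * u ^ 2) := by
          refine setIntegral_le_integral hg1 ?_
          filter_upwards with u
          show (0 : ℝ) ≤ A * Real.exp (-(κ / t) * u ^ 2)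
          positivity
      _ = A * (√t * √(Real.pi / κ)) := by
          rw [integral_const_mul, integral_gaussian, ← Real.sqrt_mul ht.le]
          congr 2
          field_simp
  have h7 : √(Real.pi / κ) ≤ Real.exp (g / 2 * mt t T) := by
    have h8 := Real.add_one_le_exp (g / 2 * mt t T)
    have h9 : √(Real.pi / κ) ≤ g / 2 * mt t T := by
      calc √(Real.pi / κ) = g / 2 * (2 / g * √(Real.pi / κ)) := by field_simp
        _ ≤ g / 2 * mt t T := by gcongr
    linarith
  refine h6.trans ?_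
  have h10 : k * EE t T x (-(g / 2)) = A * Real.exp (g / 2 * mt t T) := by
    unfold EE
    rw [hAe, mul_assoc, mul_assoc, ← Real.exp_add]
    congr 3
    ring
  rw [h10]
  calc A * (√t * √(Real.pi / κ)) ≤ A * (√t * Real.exp (g / 2 * mt t T)) := by gcongr
    _ = √t * (A * Real.exp (g / 2 * mt t T)) := by ring

end Pool.Agent.DBB
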