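import Pool.Agent.DBB.Targets5
import Pool.Agent.DBC.Q_SP2

/-!
# DBB, target SP5: the spacing of the zeros of the flow on the critical line, `t ≥ A/(log T)²`
-/

set_option autoImplicit false

namespace Pool.Agent.DBB

open Complex MeasureTheory Set Filter Topology
open Pool.Agent.DBN Pool.Agent.DBC

open Pool.Agent.DBC.SP22_ in
theorem p_SP5 (h1 : Pool.Agent.DBC.T_SPL) (h2 : Pool.Agent.DBC.T_CNJ)
    (h3 : Pool.Agent.DBC.T_DER) (h4 : T_GD5) (h5 : Pool.Agent.DBC.T_ANG) : T_SP5 := by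
  intro G c₂ hH K ε hK hε
  have hpi := Real.pi_pos
  have hp : 0 < 4 * (2 * Real.pi + ε) := by positivity
  set e : ℝ := ε / (4 * (2 * Real.pi + ε)) with he
  have he0 : 0 < e := div_pos hε hp
  have he1 : e * (2 * Real.pi + ε) = ε / 4 := by
    rw [he]
    field_simp
  have he2 : e < 1 / 4 := by
    rw [he, div_lt_div_iff₀ hp (by norm_num)]
    linarith
  obtain ⟨T₀, hT₀, hEv⟩ := h4 G c₂ hH (K + 1) e (by linarith) he0
  obtain ⟨T₁, hbig⟩ := hH.big (2 * Real.pi + ε)
  refine ⟨max T₀ T₁, le_trans hT₀ (le_max_left _ _), ?_⟩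
  intro t T k y hTG hT hyT
  have hT1 : T₀ ≤ T := le_trans (le_max_left _ _) hT
  have hT2 : T₁ ≤ T := le_trans (le_max_right _ _) hT
  have hL0 : 0 < Real.log T := Real.log_pos (by linarith)
  have ht : 0 < t := hH.ht t T k hTG
  have hm : 2 * Real.pi + ε ≤ t * Real.log T ^ 2 := hbig t T k hTG hT2
  set L := Real.log T with hLdef
  set q : ℝ := t * L with hqdef
  have hq0 : 0 < q := mul_pos ht hL0
  have hqL : 2 * Real.pi + ε ≤ q * L := by
    have e1 : q * L = t * L ^ 2 := by rw [hqdef]; ring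
    rw [e1]
    exact hm
  -- the data on the interval `[y, y + q]`
  have hQ : ∀ u ∈ Icc y (y + q), W t (pt 0 u) ≠ 0 ∧
      ‖deriv (W t) (pt 0 u) - (L / 2 : ℝ) * W t (pt 0 u)‖ ≤ e * L * ‖W t (pt 0 u)‖ := by
    intro u hu
    have hab : |u - T| ≤ (K + 1) * q := by
      rw [abs_le] at hyT ⊢
      constructor <;> nlinarith [hu.1, hu.2, hyT.1, hyT.2]
    have hx : 0 ≤ (K + 1) * q := by positivity
    have h6 := hEv t T k 0 u hTG hT1 (by linarith) hx hab
    exact ⟨h6.1, h6.2.1⟩
  have hdiff : Differentiable ℂ (W t) := fun s => (h3 t s ht).differentiableAt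
  have hWc : Continuous (W t) := hdiff.continuous
  have hW'c : Continuous (deriv (W t)) :=
    (hdiff.contDiff (n := 1)).continuous_deriv le_rfl
  have hptc : Continuous (fun u : ℝ => pt 0 u) :=
    continuous_iff_continuousAt.mpr fun u => (spc_pt u).continuousAt
  set pr : ℝ → ℝ := fun u => max y (min (y + q) u) with hpr
  have hprc : Continuous pr := by
    rw [hpr]
    exact continuous_const.max (continuous_const.min continuous_id)
  have hprm : ∀ u, pr u ∈ Icc y (y + q) := fun u =>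
    ⟨le_max_left _ _, max_le (by linarith) (min_le_left _ _)⟩
  have hpre : ∀ u ∈ Icc y (y + q), pr u = u := by
    intro u hu
    rw [hpr]
    simp only
    rw [min_eq_right hu.2, max_eq_right hu.1]
  set μ : ℝ → ℂ := fun u => deriv (W t) (pt 0 (pr u)) / W t (pt 0 (pr u)) with hμ
  have hμc : Continuous μ := by
    rw [hμ]
    exact ((hW'c.comp (hptc.comp hprc))).div (hWc.comp (hptc.comp hprc))
      (fun u => (hQ (pr u) (hprm u)).1)
  have hf0 : ∀ u ∈ Icc y (y + q), W t (pt 0 u) ≠ 0 := fun u hu => (hQ u hu).1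
  have hfd : ∀ u ∈ Icc y (y + q), HasDerivAt (fun v : ℝ => W t (pt 0 v))
      (I * μ u * W t (pt 0 u)) u := by
    intro u hu
    have hd : HasDerivAt (W t) (deriv (W t) (pt 0 u)) (pt 0 u) := (hdiff _).hasDerivAt
    have h := HasDerivAt.comp u hd (spc_pt u)
    have e1 : I * μ u * W t (pt 0 u) = deriv (W t) (pt 0 u) * I := by
      rw [hμ]
      simp only
      rw [hpre u hu]
      have := hf0 u hu
      field_simp
    rw [e1]
    exact h
  have hμr : ∀ u ∈ Icc y (y + q), (1 / 2 - e) * L ≤ (μ u).re ∧ (μ u).re ≤ (1 / 2 + e) * L := by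
    intro u hu
    have hq := hQ u hu
    have hn : 0 < ‖W t (pt 0 u)‖ := norm_pos_iff.mpr hq.1
    have e1 : μ u - (L / 2 : ℝ) =
        (deriv (W t) (pt 0 u) - (L / 2 : ℝ) * W t (pt 0 u)) / W t (pt 0 u) := by
      rw [hμ]
      simp only
      rw [hpre u hu]
      have := hq.1
      field_simp
    have e2 : ‖μ u - (L / 2 : ℝ)‖ ≤ e * L := by
      rw [e1, norm_div, div_le_iff₀ hn]
      exact hq.2
    have e3 := (Complex.abs_re_le_norm (μ u - (L / 2 : ℝ))).trans e2
    rw [Complex.sub_re, Complex.ofReal_re, abs_le] at e3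
    constructor <;> linarith [e3.1, e3.2]
  have hm1 : 0 < (1 / 2 - e) * L := mul_pos (by linarith) hL0
  have hsub : ∀ b, b ≤ y + q → ∀ u ∈ Icc y b, u ∈ Icc y (y + q) :=
    fun b hb u hu => ⟨hu.1, hu.2.trans hb⟩
  refine ⟨?_, ?_⟩
  · intro y' hy hz hz'
    rcases le_or_gt y' (y + q) with hle | hgt
    · have key := (h5 (fun v : ℝ => W t (pt 0 v)) μ y y' ((1 / 2 - e) * L) ((1 / 2 + e) * L) hy hm1
        hμc (fun u hu => hf0 u (hsub y' hle u hu)) (fun u hu => hfd u (hsub y' hle u hu))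
        (fun u hu => hμr u (hsub y' hle u hu))).1 y (left_mem_Icc.mpr hy.le) y'
        (right_mem_Icc.mpr hy.le) hy ((spc_flow h1 h2 t y ht).mp hz)
        ((spc_flow h1 h2 t y' ht).mp hz')
      by_contra hcon
      have hcon' := not_le.mp hcon
      have k1 : (1 / 2 + e) * ((y' - y) * L) < (1 / 2 + e) * (2 * Real.pi - ε) :=
        mul_lt_mul_of_pos_left hcon' (by linarith)
      have k2 : e * (2 * Real.pi - ε) ≤ ε / 4 := by
        rw [← he1]
        exact mul_le_mul_of_nonneg_left (by linarith) he0.le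
      nlinarith [k1, k2, key]
    · have k1 : q * L ≤ (y' - y) * L := mul_le_mul_of_nonneg_right (by linarith) hL0.le
      linarith
  · have hb1 : (2 * Real.pi + ε) / L ≤ q := (div_le_iff₀ hL0).mpr hqL
    have hb0 : 0 < (2 * Real.pi + ε) / L := div_pos (by linarith) hL0
    have hb2 : (2 * Real.pi + ε) / L * L = 2 * Real.pi + ε := by field_simp
    obtain ⟨u, hu, hre⟩ := (h5 (fun v : ℝ => W t (pt 0 v)) μ y (y + (2 * Real.pi + ε) / L)
        ((1 / 2 - e) * L) ((1 / 2 + e) * L) (by linarith) hm1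
        hμc (fun u hu => hf0 u (hsub _ (by linarith) u hu))
        (fun u hu => hfd u (hsub _ (by linarith) u hu))
        (fun u hu => hμr u (hsub _ (by linarith) u hu))).2 (by
          have e1 : (1 / 2 - e) * L * (y + (2 * Real.pi + ε) / L - y) =
              (1 / 2 - e) * ((2 * Real.pi + ε) / L * L) := by ring
          rw [e1, hb2]
          nlinarith [he1])
    refine ⟨u, hu.1, ?_, (spc_flow h1 h2 t u ht).mpr hre⟩
    calc (u - y) * L ≤ ((2 * Real.pi + ε) / L) * L :=
          mul_le_mul_of_nonneg_right (by linarith [hu.2]) hL0.le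
      _ = 2 * Real.pi + ε := hb2

end Pool.Agent.DBB
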