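import Pool.Agent.DBB.Targets5
import Pool.Agent.DBB.P_UP2

/-!
# DBB, target `T_UP5`: upper bound for `W` on the scale of the time `t`, relative form
-/

set_option autoImplicit false

namespace Pool.Agent.DBB

open Complex MeasureTheory Set Filter Topology
open Pool.Agent.DBN Pool.Agent.DBC

open UP2_ in
theorem p_UP5 (h1 : T_BD5) (h2 : T_INE) : T_UP5 := by
  intro G c₂ hG K ε hK hε
  obtain ⟨ε₀, κ, hε₀, hε₁, hκ, hI⟩ := h2.2.2 (ε / 2) (by positivity)
  obtain ⟨T₁, hT₁, hB⟩ := h1 G c₂ hG ε₀ (K + 1) hε₀ hε₁ (by positivity)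
  obtain ⟨J, hJ⟩ : ∃ J : ℝ, J = √(Real.pi / κ) / 2 := ⟨_, rfl⟩
  obtain ⟨T₂, hM⟩ := hG.big (2 / ε * J)
  refine ⟨max T₁ T₂, hT₁.trans (le_max_left _ _), ?_⟩
  intro t T k x τ hTG hT hx1 hx2 hτ
  have hT1 : T₁ ≤ T := (le_max_left _ _).trans hT
  have hT2 : T₂ ≤ T := (le_max_right _ _).trans hT
  have hT3 : 2 ≤ T := hT₁.trans hT1
  have ht := hG.ht t T k hTG
  have hk : 0 ≤ k := by
    have h3 := hG.hk t T k hTG
    have h4 : 0 ≤ T ^ (-2 : ℝ) := Real.rpow_nonneg (by linarith) _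
    linarith
  have hL : 0 < Real.log T := Real.log_pos (by linarith)
  have hq : 0 < t * Real.log T := mul_pos ht hL
  have hxa : |x| ≤ (K + 1) * (t * Real.log T) := abs_le.2 ⟨by nlinarith, by nlinarith⟩
  have hτa : |τ - T| ≤ (K + 1) * (t * Real.log T) := by nlinarith
  have hs := size_nn hT3
  obtain ⟨m, hm⟩ : ∃ m : ℝ, m = mt t T := ⟨_, rfl⟩
  have hm2 : t * Real.log T ^ 2 = m := by
    rw [hm, mt]
  have hMm : J ≤ ε / 2 * m := by
    have h3 := hM t T k hTG hT2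
    rw [← hm] at h3
    calc J = ε / 2 * (2 / ε * J) := by
          field_simp
      _ ≤ ε / 2 * m := by gcongr
  have hJe : J ≤ Real.exp (ε / 2 * m) := by
    have h3 := Real.add_one_le_exp (ε / 2 * m)
    linarith
  obtain ⟨A, hAe⟩ : ∃ A : ℝ, A = k * (size T *
      Real.exp (x / 2 * Real.log T + (1 / 16 + ε / 2) * m)) := ⟨_, rfl⟩
  have hA : 0 ≤ A := by
    rw [hAe]
    positivity
  have hp : ∀ u : ℝ, 0 ≤ u →
      ‖((Real.exp (-(u ^ 2 / t)) : ℝ) : ℂ) * xi (Pool.Agent.DBC.pt x τ + u)‖ ≤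
      A * Real.exp (-(κ * (u ^ 2 / t))) := by
    intro u hu
    rw [norm_mul, Complex.norm_real, Real.norm_of_nonneg (Real.exp_pos _).le, hAe]
    refine (hB t T k x τ u hTG hT1 hxa hτa hu).trans ?_
    rw [mul_assoc, mul_assoc, ← Real.exp_add]
    refine mul_le_mul_of_nonneg_left (mul_le_mul_of_nonneg_left (Real.exp_le_exp.2 ?_) hs) hk
    have h3 := hI ε₀ t (Real.log T) x u hε₀ le_rfl ht hL hx1 hu
    rw [hm2] at h3
    rw [← hm]
    linarith
  have h6 : ‖W t (Pool.Agent.DBC.pt x τ)‖ ≤ A * (√t * J) := by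
    rw [hJ]
    exact int_le hκ ht hp
  show ‖W t (Pool.Agent.DBC.pt x τ)‖ ≤ √t * (k * EE t T x ε)
  calc ‖W t (Pool.Agent.DBC.pt x τ)‖ ≤ A * (√t * J) := h6
    _ ≤ A * (√t * Real.exp (ε / 2 * m)) := by gcongr
    _ = √t * (k * EE t T x ε) := by
        rw [hAe, EE, ← hm]
        have e1 : Real.exp (x / 2 * Real.log T + (1 / 16 + ε) * m) =
            Real.exp (x / 2 * Real.log T + (1 / 16 + ε / 2) * m) * Real.exp (ε / 2 * m) := by
          rw [← Real.exp_add]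
          congr 1
          ring
        rw [e1]
        ring

end Pool.Agent.DBB
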