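import Pool.Agent.DBB.P_XU5
import Pool.Agent.DBB.P_XB5
import Pool.Agent.DBB.P_BD5
import Pool.Agent.DBB.P_INE
import Pool.Agent.DBB.P_OA5
import Pool.Agent.DBB.P_OB5
import Pool.Agent.DBB.P_UP5
import Pool.Agent.DBB.P_NE5
import Pool.Agent.DBB.P_LO5
import Pool.Agent.DBB.P_GD5
import Pool.Agent.DBB.P_CM5
import Pool.Agent.DBB.P_ZE5
import Pool.Agent.DBB.P_SP5
import Pool.Agent.DBB.P_HT5
import Pool.Agent.DBB.P_DG5
import Pool.Agent.DBB.P_SC5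
import Pool.Agent.DBB.P_CEL
import Pool.Agent.DBB.P_MC5
import Pool.Agent.DBC.Q_BCL
import Pool.Agent.DBC.Q_SDH
import Pool.Agent.DBC.Q_SD1
import Pool.Agent.DBC.Q_SD2
import Pool.Agent.DBC.Q_SD3
import Pool.Agent.DBC.P_IGR
import Pool.Agent.DBC.P_DER
import Pool.Agent.DBC.P_SPL
import Pool.Agent.DBC.P_CNJ
import Pool.Agent.DBC.P_ANG

/-!
# DBB: the local part on the scale `1 / (log X)²` together
-/

set_option autoImplicit false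

namespace Pool.Agent.DBB

open Pool.Agent.DBC

theorem bd5 : T_BD5 := p_BD5 p_XU5

theorem oa5 : T_OA5 := p_OA5 bd5 p_INE

theorem ob5 : T_OB5 := p_OB5 bd5 p_INE

theorem up5 : T_UP5 := p_UP5 bd5 p_INE

theorem ne5 : T_NE5 := p_NE5 q_BCL (q_SDH q_SD1 q_SD2 q_SD3) p_XB5

theorem lo5 : T_LO5 := p_LO5 p_IGR ne5 oa5

theorem gd5 : T_GD5 := p_GD5 q_BCL (p_DER p_IGR) up5 lo5

theorem cm5 : T_CM5 := p_CM5 (p_DER p_IGR) gd5 ob5

theorem ze5 : T_ZE5 := p_ZE5 p_SPL p_CNJ (p_DER p_IGR) gd5 cm5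

theorem sp5 : T_SP5 := p_SP5 p_SPL p_CNJ (p_DER p_IGR) gd5 p_ANG

theorem dg5 : T_DG5 := p_DG5 (p_HT5 ze5 sp5)

theorem scale_of (h : T_ARR) : ∀ c : ℝ, 0 < c → Scale c := p_SC5 dg5 h

theorem manyReal3_of (h : T_ARR) : ∀ c : ℝ, 0 < c → ManyReal3 c :=
  p_MC5 (p_SC5 dg5 h) p_CEL

end Pool.Agent.DBB
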