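import Pool.Agent.DBC.Defs4

/-!
# Real zeros of the flow at almost all heights, all times `t ≥ A log log T / (log T)²`: definitions

(MP_4e5e8a_nt, addition to DBNFlow.)
-/

set_option autoImplicit false

namespace Pool.Agent.DBB

open Complex MeasureTheory Set Filter
open Pool.Agent.DBN Pool.Agent.DBC

/-- the large parameter `t (log T)²` -/
noncomputable def mt (t T : ℝ) : ℝ := t * Real.log T ^ 2

/-- the main size, with the relative exponent `a` -/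
noncomputable def EE (t T x a : ℝ) : ℝ :=
  size T * Real.exp (x / 2 * Real.log T + (1 / 16 + a) * mt t T)

/-- the hypotheses on a set `G` of pairs `(t, T)`: `t (log T)² → ∞` in `G`, and near `i T` the
function `ζ` is at most `exp (ε t (log T)²)` for `Re s ≥ 1/2` and at least `exp (-ε t (log T)²)` for
`Re s ≥ 1/2 + ε t log T` -/
structure HypP (G : Set (ℝ × ℝ)) (c₂ : ℝ) : Prop where
  c0 : 0 < c₂
  ht : ∀ t T : ℝ, (t, T) ∈ G → 0 < t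
  hc : ∀ t T : ℝ, (t, T) ∈ G → t * Real.log T ≤ c₂
  big : ∀ M : ℝ, ∃ T₀ : ℝ, ∀ t T : ℝ, (t, T) ∈ G → T₀ ≤ T → M ≤ mt t T
  up : ∀ ε K : ℝ, 0 < ε → 0 < K → ∃ T₀ : ℝ, ∀ t T : ℝ, (t, T) ∈ G → T₀ ≤ T → ∀ s : ℂ,
    1 / 2 ≤ s.re → s.re ≤ K → |s.im - T| ≤ K → ‖riemannZeta s‖ ≤ Real.exp (ε * mt t T)
  lo : ∀ ε K : ℝ, 0 < ε → 0 < K → ∃ T₀ : ℝ, ∀ t T : ℝ, (t, T) ∈ G → T₀ ≤ T → ∀ s : ℂ,
    1 / 2 + ε * (t * Real.log T) ≤ s.re → s.re ≤ K → |s.im - T| ≤ K →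
    Real.exp (-(ε * mt t T)) ≤ ‖riemannZeta s‖

/-- `Q t T x τ` for all `(t, T)` in `G` with large `T`, `-δ t log T ≤ x ≤ K`, `|τ - T| ≤ K` -/
def EvP (G : Set (ℝ × ℝ)) (K δ : ℝ) (Q : ℝ → ℝ → ℝ → ℝ → Prop) : Prop :=
  ∃ T₀ : ℝ, 2 ≤ T₀ ∧ ∀ t T x τ : ℝ, (t, T) ∈ G → T₀ ≤ T → -(δ * (t * Real.log T)) ≤ x →
    x ≤ K → |τ - T| ≤ K → Q t T x τ

/-- level `n` bounds for `ζ` near the height `T`, on the scale of the time `t` -/
def Lv (n : ℕ) (t T : ℝ) : Prop := 0 < t ∧ (n : ℝ) ≤ mt t T ∧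
  ∀ s : ℂ, |s.im - T| ≤ n → s.re ≤ n →
    (1 / 2 ≤ s.re → ‖riemannZeta s‖ ≤ Real.exp (mt t T / (n + 1))) ∧
    (1 / 2 + t * Real.log T / (n + 1) ≤ s.re → Real.exp (-(mt t T / (n + 1))) ≤ ‖riemannZeta s‖)

/-- bounds by powers of `log T` for `ζ` and `1 / ζ` near the height `T` -/
def PL (B K T : ℝ) : Prop := ∀ s : ℂ, |s.im - T| ≤ K → s.re ≤ K →
  (1 / 2 ≤ s.re → ‖riemannZeta s‖ ≤ Real.log T ^ B) ∧
  (1 / 2 + B * Real.log (Real.log T) / Real.log T ≤ s.re →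
    Real.log T ^ (-B) ≤ ‖riemannZeta s‖)

/-- at all heights `T` in `[X, 2 X]` outside a set of measure `X / (log X)^D` the zeros of `H_t`
near `2 T` are real, simple and regularly spaced at all times `t` with `A log log T / (log T)² ≤ t
≤ c / log T` -/
def Sharp (c : ℝ) : Prop :=
  ∀ K ε D : ℝ, 0 < K → 0 < ε → 0 < D → ∃ A X₀ : ℝ, 0 < A ∧ ∀ X : ℝ, X₀ ≤ X →
    volume {T : ℝ | X ≤ T ∧ T ≤ 2 * X ∧ ∃ t : ℝ,
      A * Real.log (Real.log T) / Real.log T ^ 2 ≤ t ∧ t * Real.log T ≤ c ∧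
      ¬ CrysAt K ε t T} ≤ ENNReal.ofReal (X / Real.log X ^ D)

end Pool.Agent.DBB
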