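import Pool.Agent.DBB.Defs

/-!
# Long windows and the number of exceptional zeros at all times `t ≥ A log log T / (log T)²`

(MP_4e5e8a_nt, addition to DBNFlow.)
-/

set_option autoImplicit false

namespace Pool.Agent.DBB

open Complex MeasureTheory Set Filter
open Pool.Agent.DBN Pool.Agent.DBC

/-- all zeros `z` of `H_t` with `|Re z - 2 T| ≤ R`, `|Im z| ≤ K` are real and simple, and the real
ones have the distance `(4 π + O(ε)) / log T` -/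
def CrysR (R K ε t T : ℝ) : Prop :=
  (∀ z : ℂ, |z.re - 2 * T| ≤ R → |z.im| ≤ K → H t z = 0 → z.im = 0 ∧ deriv (H t) z ≠ 0) ∧
  (∀ x y : ℝ, |x - 2 * T| ≤ R → |y - 2 * T| ≤ R → x < y → H t x = 0 → H t y = 0 →
    4 * Real.pi - ε ≤ (y - x) * Real.log T) ∧
  (∀ x : ℝ, |x - 2 * T| ≤ R → ∃ y : ℝ, x ≤ y ∧ (y - x) * Real.log T ≤ 4 * Real.pi + ε ∧
    H t y = 0)

/-- at all heights `T` in `[X, 2 X]` outside a set of measure `X / (log X)^D` the zeros of `H_t`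
with `|Re z - 2 T| ≤ (log T)^D` are real, simple and regularly spaced at all times `t` with `A log
log T / (log T)² ≤ t ≤ c / log T` -/
def SharpWide (c : ℝ) : Prop :=
  ∀ K ε D : ℝ, 0 < K → 0 < ε → 0 < D → ∃ A X₀ : ℝ, 0 < A ∧ ∀ X : ℝ, X₀ ≤ X →
    volume {T : ℝ | X ≤ T ∧ T ≤ 2 * X ∧ ∃ t : ℝ,
      A * Real.log (Real.log T) / Real.log T ^ 2 ≤ t ∧ t * Real.log T ≤ c ∧
      ¬ CrysR (Real.log T ^ D) K ε t T} ≤ ENNReal.ofReal (X / Real.log X ^ D)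

/-- for `A log log X / (log X)² ≤ t ≤ c / log X` at most `X / (log X)^D` zeros `z` of `H_t` with
`X ≤ Re z / 2 ≤ 2 X`, `|Im z| ≤ K` are not real or not simple (counted with multiplicity) -/
def SharpFew (c : ℝ) : Prop :=
  ∀ K D : ℝ, 0 < K → 0 < D → ∃ A X₀ : ℝ, 0 < A ∧ ∀ t X : ℝ, X₀ ≤ X →
    A * Real.log (Real.log X) / Real.log X ^ 2 ≤ t → t * Real.log X ≤ c → ∀ F : Finset ℂ,
      (∀ z ∈ F, H t z = 0 ∧ X ≤ z.re / 2 ∧ z.re / 2 ≤ 2 * X ∧ |z.im| ≤ K ∧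
        (z.im = 0 → deriv (H t) z = 0)) →
      ((∑ z ∈ F, analyticOrderNatAt (H t) z : ℕ) : ℝ) ≤ X / Real.log X ^ D

end Pool.Agent.DBB
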