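import Pool.Agent.DBB.Defs3

/-!
# The uniform version: exceptional sets of measure `X exp (-κ t (log X)²)`: definitions

(MP_4e5e8a_nt, addition to DBNFlow.)
-/

set_option autoImplicit false

namespace Pool.Agent.DBB

open Complex MeasureTheory Set Filter
open Pool.Agent.DBN Pool.Agent.DBC

/-- for `A log log X / (log X)² ≤ t₀ ≤ c / log X`: at all heights `T` in `[X, 2 X]` outside a set of
measure `X exp (-κ t₀ (log X)²)` the zeros `z` of `H_t` with `|z - 2 T| ≤ K` are real, simple and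
regularly spaced at all times `t` with `t₀ ≤ t ≤ c / log T` -/
def Uni (c : ℝ) : Prop :=
  ∀ K ε : ℝ, 0 < K → 0 < ε → ∃ A κ X₀ : ℝ, 0 < A ∧ 0 < κ ∧ ∀ X t₀ : ℝ, X₀ ≤ X →
    A * Real.log (Real.log X) / Real.log X ^ 2 ≤ t₀ → t₀ * Real.log X ≤ c →
    volume {T : ℝ | X ≤ T ∧ T ≤ 2 * X ∧ ∃ t : ℝ, t₀ ≤ t ∧ t * Real.log T ≤ c ∧
      ¬ CrysAt K ε t T} ≤ ENNReal.ofReal (X * Real.exp (-(κ * (t₀ * Real.log X ^ 2))))

/-- the same for the zeros `z` of `H_t` with `|Re z - 2 T| ≤ exp (κ t₀ (log X)²)`, `|Im z| ≤ K` -/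
def UniWide (c : ℝ) : Prop :=
  ∀ K ε : ℝ, 0 < K → 0 < ε → ∃ A κ X₀ : ℝ, 0 < A ∧ 0 < κ ∧ ∀ X t₀ : ℝ, X₀ ≤ X →
    A * Real.log (Real.log X) / Real.log X ^ 2 ≤ t₀ → t₀ * Real.log X ≤ c →
    volume {T : ℝ | X ≤ T ∧ T ≤ 2 * X ∧ ∃ t : ℝ, t₀ ≤ t ∧ t * Real.log T ≤ c ∧
      ¬ CrysR (Real.exp (κ * (t₀ * Real.log X ^ 2))) K ε t T} ≤
    ENNReal.ofReal (X * Real.exp (-(κ * (t₀ * Real.log X ^ 2))))

/-- for `A log log X / (log X)² ≤ t ≤ c / log X` at most `X exp (-κ t (log X)²)` zeros `z` of `H_t`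
with `X ≤ Re z / 2 ≤ 2 X`, `|Im z| ≤ K` are not real or not simple (counted with multiplicity) -/
def UniFew (c : ℝ) : Prop :=
  ∀ K : ℝ, 0 < K → ∃ A κ X₀ : ℝ, 0 < A ∧ 0 < κ ∧ ∀ t X : ℝ, X₀ ≤ X →
    A * Real.log (Real.log X) / Real.log X ^ 2 ≤ t → t * Real.log X ≤ c → ∀ F : Finset ℂ,
      (∀ z ∈ F, H t z = 0 ∧ X ≤ z.re / 2 ∧ z.re / 2 ≤ 2 * X ∧ |z.im| ≤ K ∧
        (z.im = 0 → deriv (H t) z = 0)) →
      ((∑ z ∈ F, analyticOrderNatAt (H t) z : ℕ) : ℝ) ≤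
        X * Real.exp (-(κ * (t * Real.log X ^ 2)))

end Pool.Agent.DBB
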