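import Pool.Agent.DBB.Defs

/-!
# Real zeros of the flow on the time scale `1 / (log X)²`: definitions

(MP_4e5e8a_nt, addition to DBNFlow.)
-/

set_option autoImplicit false

namespace Pool.Agent.DBB

open Complex MeasureTheory Set Filter
open Pool.Agent.DBN Pool.Agent.DBC

/-- for `A / (log X)² ≤ t ≤ c / log X` the function `H_t` has at least `(1 - ε) X log X / (2 π)`
real simple zeros in `[2 X, 4 X]` -/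
def ManyReal3 (c : ℝ) : Prop :=
  ∀ ε : ℝ, 0 < ε → ∃ A X₀ : ℝ, 0 < A ∧ ∀ t X : ℝ, X₀ ≤ X →
    A ≤ t * Real.log X ^ 2 → t * Real.log X ≤ c →
    ∃ F : Finset ℝ, (∀ x ∈ F, H t x = 0 ∧ deriv (H t) x ≠ 0 ∧ 2 * X ≤ x ∧ x ≤ 4 * X) ∧
      (1 - ε) * (X * Real.log X / (2 * Real.pi)) ≤ (F.card : ℝ)

/-- level `n` bounds for `ζ` near the height `T`, relative to a number `ν`, on the scale of the
time `t` -/
def RLv (n : ℕ) (t T : ℝ) : Prop := 0 < t ∧ (n : ℝ) ≤ mt t T ∧ ∃ ν : ℝ, T ^ (-2 : ℝ) ≤ ν ∧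
  (∀ w : ℂ, 0 ≤ w.re → ‖w‖ ≤ n → ‖riemannZeta (1 / 2 + T * I + w)‖ ≤
    ν * Real.exp ((mt t T + ‖w‖ ^ 2 / t) / (n + 1))) ∧
  ∀ w : ℂ, t * Real.log T / (n + 1) ≤ w.re → w.re ≤ n * (t * Real.log T) →
    |w.im| ≤ n * (t * Real.log T) →
    ν * Real.exp (-(mt t T / (n + 1))) ≤ ‖riemannZeta (1 / 2 + T * I + w)‖

/-- the hypotheses on a set `G` of triples `(t, T, k)`: `t (log T)² → ∞` in `G`, and near
`1/2 + i T` the function `ζ` is, relative to `k`, at most `exp (ε (t (log T)² + ‖w‖²/t))` and at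
least `exp (-ε t (log T)²)` -/
structure HypR (G : Set (ℝ × ℝ × ℝ)) (c₂ : ℝ) : Prop where
  c0 : 0 < c₂
  ht : ∀ t T k : ℝ, (t, T, k) ∈ G → 0 < t
  hc : ∀ t T k : ℝ, (t, T, k) ∈ G → t * Real.log T ≤ c₂
  hk : ∀ t T k : ℝ, (t, T, k) ∈ G → T ^ (-2 : ℝ) ≤ k
  big : ∀ M : ℝ, ∃ T₀ : ℝ, ∀ t T k : ℝ, (t, T, k) ∈ G → T₀ ≤ T → M ≤ mt t T
  up : ∀ ε K : ℝ, 0 < ε → 0 < K → ∃ T₀ : ℝ, ∀ (t T k : ℝ) (w : ℂ), (t, T, k) ∈ G → T₀ ≤ T →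
    0 ≤ w.re → ‖w‖ ≤ K → ‖riemannZeta (1 / 2 + T * I + w)‖ ≤
      k * Real.exp (ε * (mt t T + ‖w‖ ^ 2 / t))
  lo : ∀ ε K : ℝ, 0 < ε → 0 < K → ∃ T₀ : ℝ, ∀ (t T k : ℝ) (w : ℂ), (t, T, k) ∈ G → T₀ ≤ T →
    ε * (t * Real.log T) ≤ w.re → w.re ≤ K * (t * Real.log T) →
    |w.im| ≤ K * (t * Real.log T) →
    k * Real.exp (-(ε * mt t T)) ≤ ‖riemannZeta (1 / 2 + T * I + w)‖

/-- `Q t T k x τ` for all `(t, T, k)` in `G` with large `T`, `-δ q ≤ x ≤ K q`, `|τ - T| ≤ K q`,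
where `q = t log T` -/
def EvR (G : Set (ℝ × ℝ × ℝ)) (K δ : ℝ) (Q : ℝ → ℝ → ℝ → ℝ → ℝ → Prop) : Prop :=
  ∃ T₀ : ℝ, 2 ≤ T₀ ∧ ∀ t T k x τ : ℝ, (t, T, k) ∈ G → T₀ ≤ T → -(δ * (t * Real.log T)) ≤ x →
    x ≤ K * (t * Real.log T) → |τ - T| ≤ K * (t * Real.log T) → Q t T k x τ

/-- all zeros `z` of `H_t` with `|z - 2 T| ≤ K t log T` are real and simple, and the real ones have
the distance `(4 π + O(ε)) / log T` -/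
def CrysS (K ε t T : ℝ) : Prop :=
  (∀ z : ℂ, ‖z - 2 * T‖ ≤ K * (t * Real.log T) → H t z = 0 → z.im = 0 ∧ deriv (H t) z ≠ 0) ∧
  (∀ x y : ℝ, |x - 2 * T| ≤ K * (t * Real.log T) → |y - 2 * T| ≤ K * (t * Real.log T) → x < y →
    H t x = 0 → H t y = 0 → 4 * Real.pi - ε ≤ (y - x) * Real.log T) ∧
  (∀ x : ℝ, |x - 2 * T| ≤ K * (t * Real.log T) → ∃ y : ℝ, x ≤ y ∧
    (y - x) * Real.log T ≤ 4 * Real.pi + ε ∧ H t y = 0)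

/-- for `A / (log X)² ≤ t ≤ c / log X`: at all heights `T` in `[X, 2 X]` outside a set of measure
`η X` the zeros `z` of `H_t` with `|z - 2 T| ≤ K t log T` are real, simple and regularly spaced -/
def Scale (c : ℝ) : Prop :=
  ∀ K ε η : ℝ, 0 < K → 0 < ε → 0 < η → ∃ A X₀ : ℝ, 0 < A ∧ ∀ t X : ℝ, X₀ ≤ X →
    A ≤ t * Real.log X ^ 2 → t * Real.log X ≤ c →
    volume {T : ℝ | X ≤ T ∧ T ≤ 2 * X ∧ ¬ CrysS K ε t T} ≤ ENNReal.ofReal (η * X)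

end Pool.Agent.DBB
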