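import Pool.Agent.DBC.Defs4

/-!
# Many real simple zeros of `H_t`, all times `t ≥ A log log X / (log X)²`: definition
-/

set_option autoImplicit false

namespace Pool.Agent.DBB

open Complex MeasureTheory Set Filter
open Pool.Agent.DBN Pool.Agent.DBC

/-- for `A log log X / (log X)² ≤ t ≤ c / log X` the function `H_t` has at least
`(1 - ε) X log X / (2 π)` real simple zeros in `[2 X, 4 X]` -/
def ManyReal2 (c : ℝ) : Prop :=
  ∀ ε : ℝ, 0 < ε → ∃ A X₀ : ℝ, 0 < A ∧ ∀ t X : ℝ, X₀ ≤ X →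
    A * Real.log (Real.log X) / Real.log X ^ 2 ≤ t → t * Real.log X ≤ c →
    ∃ F : Finset ℝ, (∀ x ∈ F, H t x = 0 ∧ deriv (H t) x ≠ 0 ∧ 2 * X ≤ x ∧ x ≤ 4 * X) ∧
      (1 - ε) * (X * Real.log X / (2 * Real.pi)) ≤ (F.card : ℝ)

end Pool.Agent.DBB
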