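import Pool.Agent.DBB.Targets7
import Pool.Agent.DBN.Xi

/-!
# BD7: two times
-/

set_option autoImplicit false

namespace Pool.Agent.DBB

open Complex MeasureTheory Set Filter
open Pool.Agent.DBN Pool.Agent.DBC

namespace BD7_

theorem refl (y τ u : ℝ) :
    ‖xi (Pool.Agent.DBC.pt (-y) τ + ((-u : ℝ) : ℂ))‖ = ‖xi (Pool.Agent.DBC.pt y τ + (u : ℂ))‖ := by
  have h := norm_xi_symm (1 / 2 + y + u) τ
  have e1 : Pool.Agent.DBC.pt (-y) τ + ((-u : ℝ) : ℂ) =
      ((1 - (1 / 2 + y + u) : ℝ) : ℂ) + (τ : ℂ) * I := by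
    unfold Pool.Agent.DBC.pt
    push_cast
    ring
  have e2 : Pool.Agent.DBC.pt y τ + (u : ℂ) =
      ((1 / 2 + y + u : ℝ) : ℂ) + (τ : ℂ) * I := by
    unfold Pool.Agent.DBC.pt
    push_cast
    ring
  rw [e1, e2, h]

theorem step {k S A x ε m a b : ℝ} (hS : 0 < S) (hε : 0 ≤ ε) (hab : a ≤ b)
    (h : Real.exp (-a) * x ≤ k * (S * Real.exp (A - (1 - ε) * a + ε * m)))
    (hx : 0 ≤ x) :
    Real.exp (-b) * x ≤ k * (S * Real.exp (A - (1 - ε) * b + ε * m)) := by
  have hk : 0 ≤ k := by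
    by_contra hk
    have h1 : 0 < S * Real.exp (A - (1 - ε) * a + ε * m) := by positivity
    have h2 : k * (S * Real.exp (A - (1 - ε) * a + ε * m)) < 0 :=
      mul_neg_of_neg_of_pos (not_le.1 hk) h1
    have h3 : 0 ≤ Real.exp (-a) * x := by positivity
    linarith
  have e1 : Real.exp (-b) = Real.exp (a - b) * Real.exp (-a) := by
    rw [← Real.exp_add]
    congr 1
    ring
  calc Real.exp (-b) * x = Real.exp (a - b) * (Real.exp (-a) * x) := by
        rw [e1]
        ring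
    _ ≤ Real.exp (a - b) * (k * (S * Real.exp (A - (1 - ε) * a + ε * m))) :=
        mul_le_mul_of_nonneg_left h (Real.exp_pos _).le
    _ = k * (S * (Real.exp (a - b) * Real.exp (A - (1 - ε) * a + ε * m))) := by ring
    _ ≤ k * (S * Real.exp (A - (1 - ε) * b + ε * m)) := by
        refine mul_le_mul_of_nonneg_left (mul_le_mul_of_nonneg_left ?_ hS.le) hk
        rw [← Real.exp_add]
        apply Real.exp_le_exp.2
        have : ε * a ≤ ε * b := mul_le_mul_of_nonneg_left hab hε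
        linarith

end BD7_

open BD7_ in
/-- BD7 -/
theorem p_BD7 (h1 : T_BD5) : T_BD7 := by
  intro G c₂ hG ε K hε hε1 hK
  obtain ⟨T₀, hT₀, h⟩ := h1 G c₂ hG ε K hε hε1 hK
  refine ⟨T₀, hT₀, ?_⟩
  intro t t' T k y τ u hm hT ht htt hy hτ
  have hT0 : 0 < T := by linarith
  have hS : 0 < size T := by
    unfold size
    positivity
  have hab : u ^ 2 / t' ≤ u ^ 2 / t := div_le_div_of_nonneg_left (sq_nonneg u) ht htt
  rcases le_or_gt 0 u with hu | hu
  · exact step hS hε.le hab (h t' T k y τ u hm hT hy hτ hu) (norm_nonneg _)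
  · have h2 := h t' T k (-y) τ (-u) hm hT (by rwa [abs_neg]) hτ (by linarith)
    rw [refl, neg_sq] at h2
    have e : |(-y) + (-u)| = |y + u| := by
      rw [← abs_neg (y + u)]
      congr 1
      ring
    rw [e] at h2
    exact step hS hε.le hab h2 (norm_nonneg _)

end Pool.Agent.DBB
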