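import Pool.Agent.DBB.Targets7
import Pool.Agent.DBC.P_SPL

/-!
# DBB, target FLW: the flow as an integral over the line
-/

set_option autoImplicit false

namespace Pool.Agent.DBB

open Complex MeasureTheory Set Filter
open Pool.Agent.DBN Pool.Agent.DBC

theorem p_FLW : T_FLW := by
  intro t s ht
  rw [Pool.Agent.DBC.SPL_.integral_split ht s]
  exact Pool.Agent.DBC.p_SPL t s ht

end Pool.Agent.DBB
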