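import Pool.Agent.DBB.Targets

set_option autoImplicit false

/-! The final theorem for all times (target `T_FN2`). -/

namespace Pool.Agent.DBB.FN2_

open Complex MeasureTheory Set Filter
open Pool.Agent.DBN Pool.Agent.DBC

theorem lv {n : ℕ} {B t T : ℝ} (hB : 0 < B) (hT : Real.exp (Real.exp 1) ≤ T)
    (ht : ((n : ℝ) + 1) * (B + 1) * Real.log (Real.log T) / Real.log T ^ 2 ≤ t)
    (hPL : PL B ((n : ℝ) + 1) T) : Lv n t T := by
  have hT0 : 0 < T := lt_of_lt_of_le (Real.exp_pos _) hT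
  have hL : Real.exp 1 ≤ Real.log T := (Real.le_log_iff_exp_le hT0).2 hT
  have hL0 : 0 < Real.log T := lt_of_lt_of_le (Real.exp_pos _) hL
  have hLL : 1 ≤ Real.log (Real.log T) := (Real.le_log_iff_exp_le hL0).2 hL
  have hn : (0 : ℝ) ≤ n := Nat.cast_nonneg n
  have hll : 0 < Real.log (Real.log T) := by linarith
  have h1 : ((n : ℝ) + 1) * (B + 1) * Real.log (Real.log T) ≤ t * Real.log T ^ 2 :=
    (div_le_iff₀ (by positivity)).1 ht
  have ht0 : 0 < t := lt_of_lt_of_le (by positivity) ht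
  have hm : B * Real.log (Real.log T) ≤ mt t T / ((n : ℝ) + 1) := by
    unfold mt
    rw [le_div_iff₀ (by positivity)]
    nlinarith
  refine ⟨ht0, ?_, ?_⟩
  · unfold mt
    have h2 : 1 ≤ (B + 1) * Real.log (Real.log T) := by nlinarith
    have h3 : ((n : ℝ) + 1) * 1 ≤ ((n : ℝ) + 1) * ((B + 1) * Real.log (Real.log T)) :=
      mul_le_mul_of_nonneg_left h2 (by positivity)
    linarith
  · intro s hs1 hs2
    obtain ⟨g1, g2⟩ := hPL s (by linarith) (by linarith)
    constructor
    · intro h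
      refine (g1 h).trans ?_
      rw [Real.rpow_def_of_pos hL0]
      refine Real.exp_le_exp.2 ?_
      rw [mul_comm]
      exact hm
    · intro h
      have h4 : B * Real.log (Real.log T) / Real.log T ≤
          t * Real.log T / ((n : ℝ) + 1) := by
        rw [div_le_div_iff₀ hL0 (by positivity)]
        nlinarith
      refine le_trans ?_ (g2 (by linarith))
      rw [Real.rpow_def_of_pos hL0]
      refine Real.exp_le_exp.2 ?_
      linarith

theorem main (h1 : T_DG2) (h2 : T_AR2) : T_FN2 := by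
  intro c hc K ε D hK hε hD
  obtain ⟨n, hn⟩ := h1 c K ε hc hK hε
  obtain ⟨B, X1, hB, hX⟩ := h2 ((n : ℝ) + 1) D (by positivity) hD
  refine ⟨((n : ℝ) + 1) * (B + 1), max X1 (max (n : ℝ) (Real.exp (Real.exp 1))),
    by positivity, ?_⟩
  intro X hXX
  have m1 : X1 ≤ X := le_trans (le_max_left _ _) hXX
  have m2 : (n : ℝ) ≤ X := le_trans (le_trans (le_max_left _ _) (le_max_right _ _)) hXX
  have m3 : Real.exp (Real.exp 1) ≤ X :=
    le_trans (le_trans (le_max_right _ _) (le_max_right _ _)) hXX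
  refine (measure_mono ?_).trans (hX X m1)
  rintro T ⟨hT1, hT2, t, ht1, ht2, hcr⟩
  refine ⟨hT1, hT2, fun hPL => hcr ?_⟩
  exact hn t T (m2.trans hT1) ht2 (lv hB (m3.trans hT1) ht1 hPL)

end Pool.Agent.DBB.FN2_

namespace Pool.Agent.DBB

theorem p_FN2 (h1 : T_DG2) (h2 : T_AR2) : T_FN2 := FN2_.main h1 h2

end Pool.Agent.DBB
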