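import Pool.Agent.DBB.Targets7
import Pool.Agent.DBN.ZC1
import Pool.Agent.DBN.Z0

/-!
# DBB, block JNR: the number of zeros of `H_t` near `2 T` on the scale of a later time `t'`
-/

set_option autoImplicit false

namespace Pool.Agent.DBB

open Complex MeasureTheory Set Filter Metric
open Pool.Agent.DBN Pool.Agent.DBC

namespace JNR_

/-- the points of the disc in the coordinates of `DBC.pt` -/
lemma pt_eq (T : ℝ) (w : ℂ) :
    (1 / 2 + (T : ℂ) * I + w : ℂ) = Pool.Agent.DBC.pt w.re (T + w.im) := by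
  unfold Pool.Agent.DBC.pt
  apply Complex.ext
  · simp
  · simp

/-- the exponential factor of the Jensen step -/
lemma exp_eq {S x : ℝ} (hS : 0 < S) :
    Real.exp (1 * (1 / 2 + x - Real.log S)) = Real.exp (1 / 2 + x) / S := by
  rw [one_mul, Real.exp_sub, Real.exp_log hS]

end JNR_

open JNR_ in
theorem p_JNR (h1 : T_LOR) (h2 : T_UPR) : T_JNR := by
  intro G c₂ hG K hK
  have hc := hG.c0
  have hK3 : 0 < K + 3 := by linarith
  obtain ⟨T₁, hT₁, hlow⟩ := h1 G c₂ hG (K + 3) 1 1 hK3 one_pos one_pos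
  obtain ⟨T₂, hT₂, hup⟩ := h2 G c₂ hG (K + 3) hK3
  obtain ⟨T₃, hbig⟩ := hG.big 1
  have hlogR : 0 < Real.log ((K / 2 + 2) / (K / 2 + 1)) := by
    apply Real.log_pos
    rw [one_lt_div (by linarith)]
    linarith
  obtain ⟨C₁, hC₁⟩ : ∃ C₁ : ℝ, C₁ = K / 2 + 3 + (K + 3) * c₂ := ⟨_, rfl⟩
  have hC₁1 : 1 ≤ C₁ := by
    have : 0 < (K + 3) * c₂ := by positivity
    linarith
  refine ⟨2 * C₁ / Real.log ((K / 2 + 2) / (K / 2 + 1)),
    max (max T₁ T₂) (max T₃ ((K + 3) * c₂ + 6)), by positivity,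
    le_max_of_le_left (le_max_of_le_left hT₁), ?_⟩
  intro t t' T k hmem hT ht htt
  have hT1 : T₁ ≤ T := (le_max_left _ _).trans ((le_max_left _ _).trans hT)
  have hT2 : T₂ ≤ T := (le_max_right _ _).trans ((le_max_left _ _).trans hT)
  have hT3 : T₃ ≤ T := (le_max_left _ _).trans ((le_max_right _ _).trans hT)
  have hT4 : (K + 3) * c₂ + 6 ≤ T := (le_max_right _ _).trans ((le_max_right _ _).trans hT)
  have hTpos : 0 < T := by
    have : 0 < (K + 3) * c₂ := by positivity
    linarith
  have hk : 0 < k := (Real.rpow_pos_of_pos hTpos _).trans_le (hG.hk t' T k hmem)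
  have hsz := size_pos hTpos
  have hkS : 0 < k * size T := mul_pos hk hsz
  have hL1 : 1 ≤ Real.log T := by
    rw [Real.le_log_iff_exp_le hTpos]
    have := Real.exp_one_lt_three
    have : 0 < (K + 3) * c₂ := by positivity
    linarith
  have ht'0 : 0 < t' := by linarith
  obtain ⟨L, hL⟩ : ∃ L : ℝ, Real.log T = L := ⟨_, rfl⟩
  have hL0 : 0 < L := by
    rw [← hL]
    linarith
  obtain ⟨R, hR⟩ : ∃ R : ℝ, t' * L = R := ⟨_, rfl⟩
  have hR0 : 0 < R := by
    rw [← hR]
    positivity
  have hRc : R ≤ c₂ := by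
    have := hG.hc t' T k hmem
    rwa [hL, hR] at this
  obtain ⟨m, hm⟩ : ∃ m : ℝ, Pool.Agent.DBB.mt t' T = m := ⟨_, rfl⟩
  have hm1 : 1 ≤ m := by
    rw [← hm]
    exact hbig t' T k hmem hT3
  have hmd : t' * L ^ 2 = m := by
    rw [← hm, ← hL]
    rfl
  rw [zeroCount_H, hL, hR, hmd]
  have hcen : (1 / 2 + I * (2 * (T : ℂ)) / 2 : ℂ) = 1 / 2 + T * I + 0 := by ring
  rw [hcen]
  have hRK : (K + 3) * R ≤ (K + 3) * c₂ := mul_le_mul_of_nonneg_left hRc hK3.le
  have hKR : 0 < K * R := by positivity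
  have hnR : ‖(R : ℂ)‖ = R := by
    rw [norm_real, Real.norm_of_nonneg hR0.le]
  have hj := ZC1Aux.jensen (t := t) (l := 1) (b₀ := Real.log (k * size T)) (T := T)
    (r := K * R / 2) (ρ := (K / 2 + 1) * R) (R := (K / 2 + 2) * R) (b := C₁ * m) (w₀ := 0)
    (w₁ := (R : ℂ)) (by positivity)
    (mul_lt_mul_of_pos_right (by linarith) hR0) (by positivity)
    (by rw [hnR]; linarith) ?_ ?_ ?_
  · refine hj.trans (le_of_eq ?_)
    rw [mul_div_mul_right _ _ hR0.ne']
    ring
  · intro w hw
    rw [mem_closedBall, dist_eq_norm] at hw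
    have hre : |w.re - R| ≤ (K / 2 + 2) * R := by
      have := Complex.abs_re_le_norm (w - (R : ℂ))
      simp only [Complex.sub_re, Complex.ofReal_re] at this
      exact this.trans hw
    have him : |w.im| ≤ (K / 2 + 2) * R := by
      have := Complex.abs_im_le_norm (w - (R : ℂ))
      simp only [Complex.sub_im, Complex.ofReal_im, sub_zero] at this
      exact this.trans hw
    have hre2 := abs_le.mp hre
    have hx : |w.re| ≤ (K + 3) * (t' * Real.log T) := by
      rw [hL, hR, abs_le]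
      constructor <;> linarith
    have hx2 : w.re ≤ (K + 3) * R := by linarith
    have hτ : |T + w.im - T| ≤ (K + 3) * (t' * Real.log T) := by
      rw [add_sub_cancel_left, hL, hR]
      linarith
    have h3 := hup t t' T k w.re (T + w.im) hmem hT2 ht htt hx hτ
    rw [hm] at h3
    rw [pt_eq, exp_eq hkS]
    calc ‖flow t (Pool.Agent.DBC.pt w.re (T + w.im))‖ *
          (Real.exp (1 / 2 + w.re) / (k * size T))
        ≤ (k * (size T * Real.exp (((K + 3) / 2 + 1) * m))) *
          (Real.exp (1 / 2 + w.re) / (k * size T)) :=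
          mul_le_mul_of_nonneg_right h3 (by positivity)
      _ = Real.exp (((K + 3) / 2 + 1) * m) * Real.exp (1 / 2 + w.re) := by field_simp
      _ = Real.exp (((K + 3) / 2 + 1) * m + (1 / 2 + w.re)) := (Real.exp_add _ _).symm
      _ ≤ Real.exp (C₁ * m) := by
          apply Real.exp_le_exp.mpr
          have e1 : (1 / 2 + (K + 3) * c₂) * 1 ≤ (1 / 2 + (K + 3) * c₂) * m :=
            mul_le_mul_of_nonneg_left hm1 (by positivity)
          have e2 : C₁ * m = ((K + 3) / 2 + 1) * m + (1 / 2 + (K + 3) * c₂) * m := by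
            rw [hC₁]
            ring
          linarith
  · have h3 := hlow t t' T k R T hmem hT1 ht htt (by rw [hL, hR, one_mul])
      (by rw [hL, hR]; nlinarith) (by rw [sub_self, abs_zero, hL, hR]; positivity)
    rw [pt_eq, exp_eq hkS]
    have e1 : ((R : ℂ)).re = R := Complex.ofReal_re R
    have e2 : T + ((R : ℂ)).im = T := by rw [Complex.ofReal_im, add_zero]
    rw [e1, e2]
    have e3 : size T * Real.exp (-m) ≤ EF t t' T R (-1) := by
      unfold EF
      refine mul_le_mul_of_nonneg_left (Real.exp_le_exp.mpr ?_) hsz.le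
      rw [hm]
      have h4 : 0 ≤ Pool.Agent.DBB.mt t T := by
        unfold Pool.Agent.DBB.mt
        positivity
      have h5 : 0 ≤ R / 2 * Real.log T := by
        rw [hL]
        positivity
      linarith
    have h4 : (1 : ℝ) ≤ Real.exp (1 / 2 + R) := Real.one_le_exp (by positivity)
    have h5 : k * (size T * Real.exp (-m)) ≤ ‖flow t (Pool.Agent.DBC.pt R T)‖ :=
      (mul_le_mul_of_nonneg_left e3 hk.le).trans h3
    calc Real.exp (-(C₁ * m)) ≤ Real.exp (-m) := by
          apply Real.exp_le_exp.mpr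
          nlinarith
      _ = Real.exp (-m) * 1 := (mul_one _).symm
      _ ≤ Real.exp (-m) * Real.exp (1 / 2 + R) :=
          mul_le_mul_of_nonneg_left h4 (Real.exp_pos _).le
      _ = (k * (size T * Real.exp (-m))) * (Real.exp (1 / 2 + R) / (k * size T)) := by
          field_simp
      _ ≤ ‖flow t (Pool.Agent.DBC.pt R T)‖ * (Real.exp (1 / 2 + R) / (k * size T)) :=
          mul_le_mul_of_nonneg_right h5 (by positivity)
  · intro z hz
    rw [mem_closedBall, dist_eq_norm] at hz ⊢
    rw [sub_zero] at hz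
    refine (norm_sub_le _ _).trans ?_
    rw [hnR]
    linarith

end Pool.Agent.DBB
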