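import Pool.Agent.DBB.Targets7

/-!
# DBB, target LOR: lower bound for the flow at an earlier time
-/

set_option autoImplicit false

namespace Pool.Agent.DBB

open Complex MeasureTheory Set Filter
open Pool.Agent.DBN Pool.Agent.DBC

namespace LOR_

theorem EF_le {t t' T x a b c N : ℝ} (hs : 0 ≤ size T) (hm : 0 ≤ mt t' T)
    (hab : a + c ≤ b) (hN : N ≤ c * mt t' T) :
    EF t t' T x a ≤ Real.exp (-N) * EF t t' T x b := by
  have h1 : x / 2 * Real.log T + mt t T / 16 + a * mt t' T ≤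
      x / 2 * Real.log T + mt t T / 16 + b * mt t' T - N := by
    have : (a + c) * mt t' T ≤ b * mt t' T := mul_le_mul_of_nonneg_right hab hm
    linarith
  unfold EF
  calc size T * Real.exp (x / 2 * Real.log T + mt t T / 16 + a * mt t' T)
      ≤ size T * Real.exp (x / 2 * Real.log T + mt t T / 16 + b * mt t' T - N) := by gcongr
    _ = size T * (Real.exp (x / 2 * Real.log T + mt t T / 16 + b * mt t' T) *
        Real.exp (-N)) := by
        rw [sub_eq_add_neg, Real.exp_add]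
    _ = _ := by ring

theorem exp_one_le : Real.exp (-1) ≤ 1 / 2 := by
  rw [Real.exp_neg, one_div]
  have := Real.add_one_le_exp (1 : ℝ)
  exact inv_anti₀ (by norm_num) (by linarith)

theorem exp_two_le : Real.exp (-2) ≤ 1 / 4 := by
  have h1 := exp_one_le
  have h2 : Real.exp (-2) = Real.exp (-1) * Real.exp (-1) := by
    rw [← Real.exp_add]
    norm_num
  rw [h2]
  have h3 := Real.exp_pos (-1)
  nlinarith

/-- the line is split at a set -/
theorem split {f : ℝ → ℂ} {S : Set ℝ} (hS : MeasurableSet S) (hf : Integrable f) :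
    ‖∫ u in S, f u‖ ≤ ‖∫ u, f u‖ + ∫ u in Sᶜ, ‖f u‖ := by
  have h1 := integral_add_compl hS hf
  have h2 : ∫ u in S, f u = (∫ u, f u) - ∫ u in Sᶜ, f u := by
    rw [← h1]
    ring
  rw [h2]
  exact (norm_sub_le _ _).trans (add_le_add le_rfl (norm_integral_le_integral_norm _))

end LOR_

open LOR_ in
theorem p_LOR (h1 : T_FLW) (h2 : Pool.Agent.DBC.T_IGR) (h3 : T_NER) (h4 : T_OAR) : T_LOR := by
  intro G c₂ hy K δ ε hK hδ hε
  have hρ : 0 < min δ 1 / 8 := by
    have : 0 < min δ 1 := lt_min hδ one_pos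
    positivity
  obtain ⟨g, T₂, hg, hT₂, hO⟩ := h4 G c₂ hy K δ (min δ 1 / 8) hK hδ hρ
  have he0 : 0 < min (ε / 2) (g / 2) := lt_min (by linarith) (by linarith)
  obtain ⟨T₁, hT₁, hN⟩ := h3 G c₂ hy K δ (min (ε / 2) (g / 2)) hK hδ he0
  obtain ⟨T₃, hB⟩ := hy.big (max (2 / g) (4 / ε))
  refine ⟨max (max T₁ T₂) T₃, (hT₁.trans (le_max_left _ _)).trans (le_max_left _ _), ?_⟩
  intro t t' T k x τ hTG hT ht htt hx1 hx2 hτ
  have hTa : T₁ ≤ T := ((le_max_left _ _).trans (le_max_left _ _)).trans hT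
  have hTb : T₂ ≤ T := ((le_max_right _ _).trans (le_max_left _ _)).trans hT
  have hTc : T₃ ≤ T := (le_max_right _ _).trans hT
  have hTpos : 0 < T := by linarith [hT₁.trans hTa]
  have n1 := hN t t' T k x τ hTG hTa ht htt hx1 hx2 hτ
  have o1 := hO t t' T k x τ hTG hTb ht htt hx1 hx2 hτ
  have hM := hB t' T k hTG hTc
  have hk : 0 ≤ k := (Real.rpow_nonneg hTpos.le _).trans (hy.hk t' T k hTG)
  have hs : 0 ≤ size T := by
    unfold size
    positivity
  have hM1 : 2 / g ≤ mt t' T := (le_max_left _ _).trans hM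
  have hM2 : 4 / ε ≤ mt t' T := (le_max_right _ _).trans hM
  have hm0 : 0 ≤ mt t' T := le_trans (by positivity) hM1
  rw [div_le_iff₀ hg] at hM1
  rw [div_le_iff₀ hε] at hM2
  set e : ℝ := min (ε / 2) (g / 2) with he
  have he1 : e ≤ ε / 2 := min_le_left _ _
  have he2 : e ≤ g / 2 := min_le_right _ _
  obtain ⟨i1, -, -⟩ := h2 t (Pool.Agent.DBC.pt x τ) ht
  have hnorm : ∀ u : ℝ, ‖((Real.exp (-(u ^ 2 / t)) : ℝ) : ℂ) *
      xi (Pool.Agent.DBC.pt x τ + u)‖ =
      Real.exp (-(u ^ 2 / t)) * ‖xi (Pool.Agent.DBC.pt x τ + u)‖ := fun u => by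
    rw [norm_mul, norm_real, Real.norm_eq_abs, abs_of_pos (Real.exp_pos _)]
  have s1 := split (S := Ioo (sd t T - min δ 1 / 8 * (t' * Real.log T))
    (sd t T + min δ 1 / 8 * (t' * Real.log T))) measurableSet_Ioo i1
  simp only [hnorm] at s1
  have htail : EF t t' T x (-g) ≤ 1 / 2 * EF t t' T x (-e) := by
    have h5 := EF_le (t := t) (t' := t') (T := T) (x := x) (a := -g) (b := -e) (c := g / 2)
      (N := 1) hs hm0 (by linarith) (by linarith)
    have h6 : 0 ≤ EF t t' T x (-e) := by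
      unfold EF
      positivity
    exact h5.trans (mul_le_mul_of_nonneg_right exp_one_le h6)
  have hlow : EF t t' T x (-ε) ≤ 1 / 4 * EF t t' T x (-e) := by
    have h5 := EF_le (t := t) (t' := t') (T := T) (x := x) (a := -ε) (b := -e) (c := ε / 2)
      (N := 2) hs hm0 (by linarith) (by linarith)
    have h6 : 0 ≤ EF t t' T x (-e) := by
      unfold EF
      positivity
    exact h5.trans (mul_le_mul_of_nonneg_right exp_two_le h6)
  have hst : 0 < √t := Real.sqrt_pos.2 ht
  set J : ℝ := ‖∫ u : ℝ, ((Real.exp (-(u ^ 2 / t)) : ℝ) : ℂ) *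
    xi (Pool.Agent.DBC.pt x τ + u)‖ with hJ
  have hJ1 : √t * (k * (1 / 2 * EF t t' T x (-e))) ≤ J := by
    have w1 := mul_le_mul_of_nonneg_left (mul_le_mul_of_nonneg_left htail hk) hst.le
    linarith
  have hpi : √Real.pi ≤ 2 := by
    rw [Real.sqrt_le_left (by norm_num)]
    have := Real.pi_le_four
    linarith
  have hpi0 : 0 < √Real.pi := Real.sqrt_pos.2 Real.pi_pos
  rw [h1 t _ ht, norm_mul, norm_real, Real.norm_of_nonneg (by positivity),
    Real.sqrt_mul Real.pi_pos.le, ← hJ]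
  have hE : 0 ≤ EF t t' T x (-e) := by
    unfold EF
    positivity
  have h7 : k * (1 / 4 * EF t t' T x (-e)) ≤ (√Real.pi * √t)⁻¹ * J := by
    rw [le_inv_mul_iff₀ (by positivity)]
    have h8 : √Real.pi * √t * (k * (1 / 4 * EF t t' T x (-e))) ≤
        2 * √t * (k * (1 / 4 * EF t t' T x (-e))) := by gcongr
    linarith
  exact (mul_le_mul_of_nonneg_left hlow hk).trans h7

end Pool.Agent.DBB
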