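import Pool.Agent.DBB.Defs
import Pool.Agent.DBB.DefsM
import Pool.Agent.DBC.N_GC

/-!
# Many real simple zeros of `H_t`, all times `t ≥ A log log X / (log X)²`
-/

set_option autoImplicit false

namespace Pool.Agent.DBB

open Complex MeasureTheory Set Filter Topology
open Pool.Agent.DBN Pool.Agent.DBC

open Pool.Agent.DBC.GC5_ in
theorem p_MR2 (h1 : N_FG) (h2 : N_GS) : ∀ c : ℝ, 0 < c → Sharp (2 * c) → ManyReal2 c := by
  intro c hc hS ε hε
  set e : ℝ := min ε 1 with he
  have he0 : 0 < e := lt_min hε one_pos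
  have he1 : e ≤ 1 := min_le_right _ _
  have heε : e ≤ ε := min_le_left _ _
  have hpi := Real.pi_gt_three
  obtain ⟨A, X₁, hA, hV⟩ := hS 3 e 1 (by norm_num) he0 one_pos
  have E3 : ∀ᶠ X : ℝ in atTop, max (max (16 / e) (16 * Real.pi / e)) (4 * Real.pi + 2) ≤
      Real.log X := Real.tendsto_log_atTop.eventually_ge_atTop _
  obtain ⟨X₂, hX₂⟩ := eventually_atTop.1
    (E3.and (eventually_ge_atTop (max X₁ (max (32 / e) 2))))
  refine ⟨2 * A, X₂, by linarith, ?_⟩
  intro t X hX ht1 ht2
  obtain ⟨f3, f4⟩ := hX₂ X hX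
  have f5 : X₁ ≤ X := (le_max_left _ _).trans f4
  have f6 : 32 / e ≤ X := (le_max_left _ _).trans ((le_max_right _ _).trans f4)
  have f7 : 2 ≤ X := (le_max_right _ _).trans ((le_max_right _ _).trans f4)
  have g0 : 16 / e ≤ Real.log X := (le_max_left _ _).trans ((le_max_left _ _).trans f3)
  have g1 : 16 * Real.pi / e ≤ Real.log X := (le_max_right _ _).trans ((le_max_left _ _).trans f3)
  have g2 : 4 * Real.pi + 2 ≤ Real.log X := (le_max_right _ _).trans f3
  have hX0 : 0 < X := by linarith
  have hL : 0 < Real.log X := by linarith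
  have hL2 : 2 ≤ Real.log X := by linarith
  have hLL : 0 < Real.log (Real.log X) := Real.log_pos (by linarith)
  have ht0 : 0 < t := lt_of_lt_of_le (by positivity) ht1
  have hZ := finite_zeros t (2 * X) (4 * X)
  set Z : Set ℝ := {x : ℝ | 2 * X ≤ x ∧ x ≤ 4 * X ∧ H t x = 0 ∧ deriv (H t) x ≠ 0} with hZdef
  refine ⟨hZ.toFinset, ?_, ?_⟩
  · intro x hx
    rw [Set.Finite.mem_toFinset] at hx
    exact ⟨hx.2.2.1, hx.2.2.2, hx.1, hx.2.1⟩
  · have hm : 0 ≤ 2 * Real.log X / (4 * Real.pi + 2 * e) - 1 := by
      rw [sub_nonneg, one_le_div (by positivity)]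
      linarith
    have hVX : X / Real.log X ^ (1 : ℝ) ≤ e / 16 * X := by
      rw [Real.rpow_one, div_le_iff₀ hL]
      rw [div_le_iff₀ he0] at g0
      calc X = 16 * (X / 16) := by ring
        _ ≤ (Real.log X * e) * (X / 16) := mul_le_mul_of_nonneg_right g0 (by positivity)
        _ = _ := by ring
    have hFG := h1 Z {T : ℝ | X ≤ T ∧ T ≤ 2 * X ∧ ∃ t : ℝ,
      A * Real.log (Real.log T) / Real.log T ^ 2 ≤ t ∧ t * Real.log T ≤ 2 * c ∧
      ¬ CrysAt 3 e t T} X (X / Real.log X ^ (1 : ℝ))
      (2 * Real.log X / (4 * Real.pi + 2 * e) - 1) (by linarith) (by positivity) hm hZ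
      (hV X f5) ?_
    · rw [← Set.ncard_eq_toFinset_card Z hZ]
      refine le_trans ?_ hFG
      have hA' : 0 ≤ Real.log X / (2 * Real.pi) := by positivity
      have h3 : (1 - ε) * (X * Real.log X / (2 * Real.pi)) ≤
          (1 - e) * (X * (Real.log X / (2 * Real.pi))) := by
        rw [mul_div_assoc]
        exact mul_le_mul_of_nonneg_right (by linarith) (by positivity)
      refine h3.trans (final_ineq he0 he1 hX0.le hA' ?_ hVX (m_low he0 hL.le) ?_)
      · rw [div_le_iff₀ he0] at f6
        linarith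
      · rw [div_le_iff₀ he0] at g1
        rw [← mul_div_assoc, le_div_iff₀ (by positivity)]
        linarith
    · intro T hT1 hT2 hTE
      have hT0 : 0 < T := by linarith
      have hlog : Real.log X ≤ Real.log T := Real.log_le_log hX0 (by linarith)
      have hlog2 : Real.log T ≤ 2 * Real.log X := by
        calc Real.log T ≤ Real.log (X * X) :=
              Real.log_le_log hT0 (by nlinarith)
          _ = 2 * Real.log X := by rw [Real.log_mul hX0.ne' hX0.ne']; ring
      have hTL : 0 < Real.log T := by linarith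
      have hll : Real.log (Real.log T) ≤ 2 * Real.log (Real.log X) := by
        calc Real.log (Real.log T) ≤ Real.log (Real.log X * Real.log X) :=
              Real.log_le_log hTL (by nlinarith)
          _ = 2 * Real.log (Real.log X) := by rw [Real.log_mul hL.ne' hL.ne']; ring
      have hcr : CrysAt 3 e t T := by
        by_contra hn
        refine hTE ⟨by linarith, by linarith, t, le_trans ?_ ht1, ?_, hn⟩
        · refine div_le_div₀ (by positivity) ?_ (by positivity)
            (pow_le_pow_left₀ hL.le hlog 2)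
          nlinarith
        · nlinarith
      have hgs := h2 e t T he0 he1 (by linarith) hcr Z hZ ?_
      · refine le_trans ?_ hgs
        refine sub_le_sub_right ?_ 1
        exact div_le_div_of_nonneg_right (by linarith) (by positivity)
      · intro x hx hHx hdx
        rw [abs_le] at hx
        exact ⟨by linarith [hx.1], by linarith [hx.2], hHx, hdx⟩

end Pool.Agent.DBB
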