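import Pool.Agent.DBB.Targets7
import Pool.Agent.DBB.P_NE2

/-!
# DBB, NER: the saddle point at the time `t` on the scale of a later time `t'`
-/

set_option autoImplicit false

namespace Pool.Agent.DBB

open Complex MeasureTheory Set Filter Topology
open Pool.Agent.DBN Pool.Agent.DBC

namespace NER_

/-- the integral near the saddle point: the Gaussian part -/
lemma gauss (h2 : U_SDH) {ρ : ℝ} (hρ : 0 < ρ) : ∃ η₀ lam₀ : ℝ, 0 < η₀ ∧ 0 < lam₀ ∧
    ∀ (M t q : ℝ) (h : ℂ → ℂ), 0 < M → 0 < t → 0 < q → M ≤ η₀ * (q ^ 2 / t) →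
    lam₀ ≤ q ^ 2 / t → DifferentiableOn ℂ h (Metric.ball 0 (q * ρ)) →
    (∀ v ∈ Metric.ball (0 : ℂ) (q * ρ), ‖h v‖ ≤ M) →
    √t / 2 * Real.exp (-(2 * M)) ≤
      ‖∫ v in Ioo (-(q * (ρ / 2))) (q * (ρ / 2)), exp (-(1 / t * v ^ 2 : ℝ) + h v)‖ := by
  obtain ⟨η₀, lam₀, hη₀, hlam₀, hsdh⟩ := h2 ρ hρ
  refine ⟨η₀, lam₀, hη₀, hlam₀, fun M t q h hM ht hq hM1 hlam hd hb => ?_⟩
  have hlam0 : 0 < q ^ 2 / t := by positivity
  have hη : M / (q ^ 2 / t) * (q ^ 2 / t) = M := div_mul_cancel₀ _ hlam0.ne'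
  have hmap : ∀ v ∈ Metric.ball (0 : ℂ) ρ, (((q : ℝ) : ℂ) * v) ∈
      Metric.ball (0 : ℂ) (q * ρ) := by
    intro v hv
    rw [mem_ball_zero_iff] at hv ⊢
    rw [norm_mul, Complex.norm_real, Real.norm_of_nonneg hq.le]
    exact mul_lt_mul_of_pos_left hv hq
  have hkey := hsdh (M / (q ^ 2 / t)) (q ^ 2 / t) (fun v => h (((q : ℝ) : ℂ) * v))
    (by positivity) (by rwa [div_le_iff₀ hlam0]) hlam
    (hd.comp (by fun_prop) (fun v hv => hmap v hv))
    (fun v hv => by rw [hη]; exact hb _ (hmap v hv))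
  rw [NE2_.scale (fun v : ℝ => exp (-(1 / t * v ^ 2 : ℝ) + h v)) hq (by positivity), norm_mul,
    Complex.norm_real, Real.norm_of_nonneg hq.le]
  have e2 : (∫ v in Ioo (-(ρ / 2)) (ρ / 2),
      exp (-(1 / t * (q * v) ^ 2 : ℝ) + h ((q * v : ℝ) : ℂ))) =
      ∫ v in Ioo (-(ρ / 2)) (ρ / 2),
      exp (-(q ^ 2 / t * v ^ 2 : ℝ) + h (((q : ℝ) : ℂ) * v)) := by
    refine setIntegral_congr_fun measurableSet_Ioo fun v _ => ?_
    have e3 : 1 / t * (q * v) ^ 2 = q ^ 2 / t * v ^ 2 := by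
      field_simp
    have e4 : ((q * v : ℝ) : ℂ) = ((q : ℝ) : ℂ) * v := by
      push_cast
      ring
    simp only [e3, e4]
  rw [e2]
  have e5 : √t / 2 = q * (1 / (2 * √(q ^ 2 / t))) := by
    have hs : 0 < √t := Real.sqrt_pos.2 ht
    have h3 : √(q ^ 2 / t) = q / √t := by
      rw [Real.sqrt_div (by positivity), Real.sqrt_sq hq.le]
    rw [h3]
    field_simp
  have e6 : -(2 * M) = -(2 * (M / (q ^ 2 / t)) * (q ^ 2 / t)) := by
    rw [mul_assoc, hη]
  rw [e5, mul_assoc, e6]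
  exact mul_le_mul_of_nonneg_left hkey hq.le

end NER_

open NER_ in
/-- the lower bound for the integral near the saddle point -/
theorem p_NER (h1 : Pool.Agent.DBC.U_BCL) (h2 : Pool.Agent.DBC.U_SDH) (h3 : T_XB5) : T_NER := by
  intro G c₂ H K δ ε hK0 hδ hε
  obtain ⟨δ₁, hδ₁⟩ : ∃ δ₁ : ℝ, δ₁ = min δ 1 := ⟨_, rfl⟩
  have hδ0 : 0 < δ₁ := by rw [hδ₁]; exact lt_min hδ one_pos
  have hδa : δ₁ ≤ δ := by rw [hδ₁]; exact min_le_left _ _
  have hδb : δ₁ ≤ 1 := by rw [hδ₁]; exact min_le_right _ _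
  rw [← hδ₁]
  obtain ⟨η₀, lam₀, hη₀, hlam₀, hgauss⟩ := gauss h2 (ρ := δ₁ / 4) (by positivity)
  have hc2 : 0 < c₂ := H.c0
  set ε' : ℝ := min (min (ε / 10) (η₀ / 4)) (δ₁ / 2) with hε'
  have hε'0 : 0 < ε' := lt_min (lt_min (by positivity) (by positivity)) (by positivity)
  have hε'1 : 10 * ε' ≤ ε := by
    have h4 : ε' ≤ ε / 10 := (min_le_left _ _).trans (min_le_left _ _)
    linarith
  have hε'2 : 4 * ε' ≤ η₀ := by
    have h4 : ε' ≤ η₀ / 4 := (min_le_left _ _).trans (min_le_right _ _)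
    linarith
  have hε'3 : ε' ≤ δ₁ / 2 := min_le_right _ _
  clear_value ε'
  obtain ⟨T₁, hT₁2, hxb⟩ := h3 G c₂ H ε' (K + 1) hε'0 (by linarith)
  obtain ⟨T₂, hT₂⟩ := H.big (max lam₀ (1 / ε'))
  refine ⟨max (max T₁ T₂) (Real.exp 1),
    hT₁2.trans ((le_max_left _ _).trans (le_max_left _ _)), ?_⟩
  intro t t' T k x τ hTG hT ht0 htt h6 h7 h8
  have hTa : T₁ ≤ T := ((le_max_left _ _).trans (le_max_left _ _)).trans hT
  have hTb : T₂ ≤ T := ((le_max_right _ _).trans (le_max_left _ _)).trans hT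
  have hTc : Real.exp 1 ≤ T := (le_max_right _ _).trans hT
  have hT0 : 0 < T := by linarith
  have hL1 : 1 ≤ Real.log T := by rwa [Real.le_log_iff_exp_le hT0]
  have hL0 : 0 < Real.log T := by linarith
  have ht'0 : 0 < t' := H.ht t' T k hTG
  have hk0 : 0 < k := lt_of_lt_of_le (by positivity) (H.hk t' T k hTG)
  have hbig := hT₂ t' T k hTG hTb
  have hm1 : lam₀ ≤ mt t' T := (le_max_left _ _).trans hbig
  have hm2 : 1 / ε' ≤ mt t' T := (le_max_right _ _).trans hbig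
  have hsz0 : 0 < size T := by unfold size; positivity
  have hmt : mt t T = t * Real.log T ^ 2 := rfl
  have hmt' : mt t' T = t' * Real.log T ^ 2 := rfl
  set L := Real.log T with hLdef
  obtain ⟨R, hR⟩ : ∃ R : ℝ, R = t' * L := ⟨_, rfl⟩
  have hR0 : 0 < R := by rw [hR]; positivity
  have htR : t * L ≤ R := by rw [hR]; gcongr
  have htL0 : 0 < t * L := by positivity
  rw [← hR] at h6 h7 h8 ⊢
  have hm0 : 0 < mt t' T := by rw [hmt']; positivity
  have hlamR : mt t' T ≤ R ^ 2 / t := by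
    rw [le_div_iff₀ ht0, hmt', hR]
    have h9 : t' * L ^ 2 * t ≤ t' * L ^ 2 * t' := by gcongr
    calc t' * L ^ 2 * t ≤ t' * L ^ 2 * t' := h9
      _ = (t' * L) ^ 2 := by ring
  set s : ℂ := Pool.Agent.DBC.pt x τ with hs
  have hsre : s.re = 1 / 2 + x := by rw [hs, Pool.Agent.DBC.pt]; simp
  have hsim : s.im = τ := by rw [hs, Pool.Agent.DBC.pt]; simp
  set s' : ℂ := s + sd t T with hs'
  have hre : s'.re = 1 / 2 + x + t * L / 4 := by
    rw [hs', add_re, hsre, ofReal_re, sd]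
  have him : s'.im = τ := by
    rw [hs', add_im, hsim, ofReal_im, add_zero]
  have hδR : δ₁ * R ≤ δ * R := by gcongr
  have hδR1 : δ₁ * R ≤ 1 * R := by gcongr
  have hxiv : ∀ v : ℂ, ‖v‖ < δ₁ * R / 2 →
      k * (size T * Real.exp ((s'.re + v.re - 1 / 2) / 2 * L - ε' * mt t' T)) ≤ ‖xi (s' + v)‖ ∧
        ‖xi (s' + v)‖ ≤
          k * (size T * Real.exp ((s'.re + v.re - 1 / 2) / 2 * L + ε' * mt t' T)) := by
    intro v hv
    have hvr := abs_le.mp ((abs_re_le_norm v).trans hv.le)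
    have hvi := (abs_im_le_norm v).trans hv.le
    have h10 : ε' * R ≤ δ₁ / 2 * R := by gcongr
    have h9 := hxb t' T k (s' + v) hTG hTa (by
      rw [add_re, hre, ← hLdef, ← hR]
      linarith [hvr.1]) (by
      rw [add_re, hre, ← hLdef, ← hR]
      linarith [hvr.2]) (by
      rw [add_im, him, ← hLdef, ← hR]
      calc |τ + v.im - T| = |(τ - T) + v.im| := by ring_nf
        _ ≤ |τ - T| + |v.im| := abs_add_le _ _
        _ ≤ K * R + δ₁ * R / 2 := add_le_add h8 hvi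
        _ ≤ _ := by linarith)
    rwa [add_re] at h9
  have hxi0 := (hxiv 0 (by rw [norm_zero]; positivity)).1
  rw [zero_re, add_zero, add_zero] at hxi0
  set g : ℂ → ℂ := fun v => exp (-(v / 2) * (L : ℝ)) * xi (s' + v) with hg
  have hg0 : g 0 = xi s' := by
    simp [hg]
  have hgd : DifferentiableOn ℂ g (Metric.ball 0 (δ₁ * R / 2)) := by
    have hxid : Differentiable ℂ xi := NEA_.differentiable_xi'
    have : Differentiable ℂ g := by
      rw [hg]
      fun_prop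
    exact this.differentiableOn
  have hM : 0 < 2 * ε' * mt t' T := by positivity
  obtain ⟨h, ⟨hh1, hh2, hh3⟩, hh4⟩ := h1 g (δ₁ * R / 2) (2 * ε' * mt t' T) (by positivity) hM
    hgd (by
    intro v hv
    rw [mem_ball_zero_iff] at hv
    obtain ⟨h9, h10⟩ := hxiv v hv
    have h11 : 0 < ‖xi (s' + v)‖ := lt_of_lt_of_le (by positivity) h9
    constructor
    · simp only [hg]
      exact mul_ne_zero (exp_ne_zero _) (norm_pos_iff.mp h11)
    · rw [hg0]
      simp only [hg]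
      rw [norm_mul, Complex.norm_exp]
      have h12 : (-(v / 2) * ((L : ℝ) : ℂ)).re = -(v.re / 2) * L := by
        rw [re_mul_ofReal, neg_re]
        congr 2
        simp
      rw [h12]
      calc Real.exp (-(v.re / 2) * L) * ‖xi (s' + v)‖
          ≤ Real.exp (-(v.re / 2) * L) *
            (k * (size T * Real.exp ((s'.re + v.re - 1 / 2) / 2 * L + ε' * mt t' T))) := by
            gcongr
        _ = Real.exp (2 * ε' * mt t' T) *
            (k * (size T * Real.exp ((s'.re - 1 / 2) / 2 * L - ε' * mt t' T))) := by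
            have h13 : Real.exp (-(v.re / 2) * L) *
                Real.exp ((s'.re + v.re - 1 / 2) / 2 * L + ε' * mt t' T) =
                Real.exp (2 * ε' * mt t' T) *
                  Real.exp ((s'.re - 1 / 2) / 2 * L - ε' * mt t' T) := by
              rw [← Real.exp_add, ← Real.exp_add]
              congr 1
              ring
            linear_combination k * size T * h13
        _ ≤ Real.exp (2 * ε' * mt t' T) * ‖xi s'‖ := by gcongr)
  have hball : Metric.ball (0 : ℂ) (R * (δ₁ / 4)) ⊆ Metric.ball 0 (δ₁ * R / 2) :=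
    Metric.ball_subset_ball (by nlinarith [mul_pos hδ0 hR0])
  have hkey := hgauss (4 * ε' * mt t' T) t R h (by positivity) ht0 hR0 (by
    calc 4 * ε' * mt t' T ≤ η₀ * mt t' T := by gcongr
      _ ≤ η₀ * (R ^ 2 / t) := by gcongr) (hm1.trans hlamR) (hh1.mono hball) (by
    intro v hv
    have hv' : ‖v‖ < R * (δ₁ / 4) := by rwa [mem_ball_zero_iff] at hv
    calc ‖h v‖ ≤ 2 * (2 * ε' * mt t' T) * ‖v‖ / (δ₁ * R / 2 - ‖v‖) := hh4 v (hball hv)
      _ ≤ 2 * (2 * ε' * mt t' T) := by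
          rw [div_le_iff₀ (by nlinarith [mul_pos hδ0 hR0])]
          gcongr
          nlinarith [mul_pos hδ0 hR0]
      _ = 4 * ε' * mt t' T := by ring)
  have hrr : R * (δ₁ / 4 / 2) = δ₁ / 8 * R := by ring
  rw [hrr] at hkey
  have hint := NE22_.main_int (s := s) (h := h) (r := δ₁ / 8 * R) ht0 hT0 (by positivity) (by
    intro v hv
    have hv' : (v : ℂ) ∈ Metric.ball (0 : ℂ) (δ₁ * R / 2) := by
      rw [mem_ball_zero_iff, Complex.norm_real, Real.norm_eq_abs]
      nlinarith [mul_pos hδ0 hR0]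
    have h9 := hh3 v hv'
    rw [hg0] at h9
    exact h9)
  rw [← hs'] at hint
  rw [hint, norm_mul, norm_mul, Complex.norm_real, Real.norm_of_nonneg (Real.exp_pos _).le]
  have e2 : Real.exp (-(sd t T ^ 2 / t)) = Real.exp (-(mt t T / 16)) := by
    congr 1
    unfold sd
    rw [← hLdef, hmt]
    field_simp
    ring
  have hlast1 : Real.exp (-(ε' * mt t' T)) ≤ 1 / 2 := by
    have h9 : 1 ≤ ε' * mt t' T := by
      rw [div_le_iff₀ hε'0] at hm2
      linarith
    have h10 : Real.exp (-(ε' * mt t' T)) ≤ Real.exp (-1) := Real.exp_le_exp.2 (by linarith)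
    refine h10.trans ?_
    rw [Real.exp_neg, one_div]
    exact inv_anti₀ (by norm_num) (by linarith [Real.exp_one_gt_d9])
  have hst : 0 ≤ √t := Real.sqrt_nonneg t
  calc √t * (k * EF t t' T x (-ε))
      ≤ √t * (k * (size T * (Real.exp (-(mt t T / 16)) *
          Real.exp ((s'.re - 1 / 2) / 2 * L - ε' * mt t' T) *
          (Real.exp (-(ε' * mt t' T)) * Real.exp (-(2 * (4 * ε' * mt t' T))))))) := by
        unfold EF
        rw [← Real.exp_add, ← Real.exp_add, ← Real.exp_add]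
        refine mul_le_mul_of_nonneg_left (mul_le_mul_of_nonneg_left
          (mul_le_mul_of_nonneg_left (Real.exp_le_exp.2 ?_) hsz0.le) hk0.le) hst
        rw [hre, ← hLdef]
        have h16 : 10 * ε' * mt t' T ≤ ε * mt t' T := by gcongr
        have h17 : (1 / 2 + x + t * L / 4 - 1 / 2) / 2 * L = x / 2 * L + mt t T / 8 := by
          rw [hmt]
          ring
        rw [h17]
        linarith
    _ = Real.exp (-(mt t T / 16)) *
          (k * (size T * Real.exp ((s'.re - 1 / 2) / 2 * L - ε' * mt t' T))) *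
          (√t * Real.exp (-(ε' * mt t' T)) * Real.exp (-(2 * (4 * ε' * mt t' T)))) := by ring
    _ ≤ Real.exp (-(mt t T / 16)) * ‖xi s'‖ *
          (√t * (1 / 2) * Real.exp (-(2 * (4 * ε' * mt t' T)))) := by gcongr
    _ = Real.exp (-(mt t T / 16)) * ‖xi s'‖ *
          (√t / 2 * Real.exp (-(2 * (4 * ε' * mt t' T)))) := by ring
    _ ≤ Real.exp (-(mt t T / 16)) * ‖xi s'‖ *
          ‖∫ v in Ioo (-(δ₁ / 8 * R)) (δ₁ / 8 * R), exp (-(1 / t * v ^ 2 : ℝ) + h v)‖ := by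
        gcongr
    _ = _ := by rw [e2]

end Pool.Agent.DBB
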