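import Pool.Agent.DBB.Targets7
import Pool.Agent.DBB.P_OA2

/-!
# DBB, OAR: away from the saddle point, two times
-/

set_option autoImplicit false

namespace Pool.Agent.DBB

open Complex MeasureTheory Set Filter
open Pool.Agent.DBN Pool.Agent.DBC

namespace OAR_

lemma pw {t t' L x u ε δ ρ g : ℝ} (ht : 0 < t) (htt : t ≤ t') (hL : 0 < L) (hε0 : 0 < ε)
    (hε : ε ≤ 1 / 8) (hερ : ε ≤ ρ ^ 2 / 8) (hεδ : ε ≤ δ / 4) (hg1 : g ≤ ρ ^ 2 / 8)
    (hg2 : g ≤ δ / 4) (hρ : 0 < ρ) (hx : δ * (t' * L) ≤ x)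
    (hu : ρ * (t' * L) ≤ |u - t * L / 4|) :
    (|x + u| / 2 * L - (1 - ε) * (u ^ 2 / t) + ε * (t' * L ^ 2) ≤
      x / 2 * L + t * L ^ 2 / 16 - 2 * g * (t' * L ^ 2) + -(1 / (4 * t)) * (u - t * L / 4) ^ 2) ∨
    (|x + u| / 2 * L - (1 - ε) * (u ^ 2 / t) + ε * (t' * L ^ 2) ≤
      x / 2 * L + t * L ^ 2 / 16 - 2 * g * (t' * L ^ 2) +
        -(1 / (4 * t)) * (u + t * L / 4) ^ 2) := by
  have ht' : 0 < t' := by linarith
  have hm : t * L ^ 2 ≤ t' * L ^ 2 := by gcongr
  have hm' : 0 < t' * L ^ 2 := by positivity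
  obtain ⟨M, hM⟩ : ∃ M : ℝ, M = t' * L ^ 2 := ⟨_, rfl⟩
  obtain ⟨m, hmm⟩ : ∃ m : ℝ, m = t * L ^ 2 := ⟨_, rfl⟩
  have hm0 : 0 < m := by rw [hmm]; positivity
  rw [← hM, ← hmm] at hm
  rw [← hM] at hm'
  rw [← hM, ← hmm]
  rcases le_or_gt 0 (x + u) with h | h
  · left
    rw [abs_of_nonneg h]
    obtain ⟨P, hP⟩ : ∃ P : ℝ, P = (u - t * L / 4) ^ 2 / t := ⟨_, rfl⟩
    have hP0 : 0 ≤ P := by rw [hP]; positivity
    have e1 : u ^ 2 / t = P + u * L / 2 - m / 16 := by
      rw [hP, hmm]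
      field_simp
      ring
    have e2 : u ^ 2 / t ≤ 2 * P + m / 8 := by
      have h3 : 0 ≤ (u - t * L / 2) ^ 2 / t := by positivity
      have h4 : 2 * P + m / 8 - u ^ 2 / t = (u - t * L / 2) ^ 2 / t := by
        rw [hP, hmm]
        field_simp
        ring
      linarith
    have e3 : ρ ^ 2 * M ≤ P := by
      rw [hP, le_div_iff₀ ht, ← sq_abs (u - t * L / 4)]
      have h3 : (ρ * (t' * L)) ^ 2 ≤ |u - t * L / 4| ^ 2 := by
        have : 0 ≤ ρ * (t' * L) := by positivity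
        gcongr
      calc ρ ^ 2 * M * t ≤ ρ ^ 2 * M * t' := by gcongr
        _ = (ρ * (t' * L)) ^ 2 := by rw [hM]; ring
        _ ≤ _ := h3
    have e4 : -(1 / (4 * t)) * (u - t * L / 4) ^ 2 = -(P / 4) := by
      rw [hP]
      field_simp
    rw [e4]
    have f1 : ε * (u ^ 2 / t) ≤ ε * (2 * P + m / 8) := by gcongr
    have f2 : ε * m ≤ ε * M := by gcongr
    have f3 : ε * P ≤ 1 / 8 * P := by gcongr
    have f4 : ε * M ≤ ρ ^ 2 / 8 * M := by gcongr
    have f5 : g * M ≤ ρ ^ 2 / 8 * M := by gcongr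
    nlinarith
  · right
    rw [abs_of_neg h]
    obtain ⟨P, hP⟩ : ∃ P : ℝ, P = (u + t * L / 4) ^ 2 / t := ⟨_, rfl⟩
    have hP0 : 0 ≤ P := by rw [hP]; positivity
    have e1 : u ^ 2 / t = P - u * L / 2 - m / 16 := by
      rw [hP, hmm]
      field_simp
      ring
    have e2 : u ^ 2 / t ≤ 2 * P + m / 8 := by
      have h3 : 0 ≤ (u + t * L / 2) ^ 2 / t := by positivity
      have h4 : 2 * P + m / 8 - u ^ 2 / t = (u + t * L / 2) ^ 2 / t := by
        rw [hP, hmm]
        field_simp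
        ring
      linarith
    have e4 : -(1 / (4 * t)) * (u + t * L / 4) ^ 2 = -(P / 4) := by
      rw [hP]
      field_simp
    rw [e4]
    have f0 : δ * M ≤ x * L := by
      have h3 : δ * (t' * L) * L ≤ x * L := by gcongr
      calc δ * M = δ * (t' * L) * L := by rw [hM]; ring
        _ ≤ _ := h3
    have f1 : ε * (u ^ 2 / t) ≤ ε * (2 * P + m / 8) := by gcongr
    have f2 : ε * m ≤ ε * M := by gcongr
    have f3 : ε * P ≤ 1 / 8 * P := by gcongr
    have f4 : ε * M ≤ δ / 4 * M := by gcongr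
    have f5 : g * M ≤ δ / 4 * M := by gcongr
    nlinarith

end OAR_

open OAR_ in
theorem p_OAR (h1 : T_BD7) : T_OAR := by
  intro G c₂ hH K δ ρ hK hδ hρ
  obtain ⟨g, hg⟩ : ∃ g : ℝ, g = min (ρ ^ 2 / 8) (δ / 4) := ⟨_, rfl⟩
  have hg0 : 0 < g := by rw [hg]; exact lt_min (by positivity) (by positivity)
  have hg1 : g ≤ ρ ^ 2 / 8 := by rw [hg]; exact min_le_left _ _
  have hg2 : g ≤ δ / 4 := by rw [hg]; exact min_le_right _ _
  obtain ⟨ε, hε⟩ : ∃ ε : ℝ, ε = min (1 / 8) g := ⟨_, rfl⟩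
  have hε0 : 0 < ε := by rw [hε]; exact lt_min (by norm_num) hg0
  have hε1 : ε ≤ 1 / 8 := by rw [hε]; exact min_le_left _ _
  have hε2 : ε ≤ g := by rw [hε]; exact min_le_right _ _
  obtain ⟨T₀, hT₀, hb⟩ := h1 G c₂ hH ε K hε0 (by linarith) hK
  obtain ⟨T₁, hT₁⟩ := hH.big (2 * (4 * √Real.pi) / (2 * g))
  refine ⟨g, max T₀ T₁, hg0, hT₀.trans (le_max_left _ _), ?_⟩
  intro t t' T k x τ hG hT ht htt hx1 hx2 hτ
  have hTa : T₀ ≤ T := (le_max_left _ _).trans hT
  have hTb : T₁ ≤ T := (le_max_right _ _).trans hT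
  have hT2 : 2 ≤ T := hT₀.trans hTa
  have ht' : 0 < t' := by linarith
  have hk : 0 < k := lt_of_lt_of_le (Real.rpow_pos_of_pos (by linarith) _) (hH.hk t' T k hG)
  have hL : 0 < Real.log T := Real.log_pos (by linarith)
  have hR : 0 < t' * Real.log T := mul_pos ht' hL
  have hm := hT₁ t' T k hG hTb
  have hx : |x| ≤ K * (t' * Real.log T) := by
    rw [abs_of_nonneg (le_trans (by positivity) hx1)]
    exact hx2
  have hsz : 0 ≤ size T := Pool.Agent.DBC.OFA_.size_nonneg' hT2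
  set A : ℝ := k * (size T * Real.exp (x / 2 * Real.log T + t * Real.log T ^ 2 / 16 -
    2 * g * (t' * Real.log T ^ 2))) with hA
  have hA0 : 0 ≤ A := by positivity
  have hc : 0 < 1 / (4 * t) := by positivity
  have i1 : Integrable (fun u : ℝ => Real.exp (-(1 / (4 * t)) * (u - t * Real.log T / 4) ^ 2)) :=
    (integrable_exp_neg_mul_sq hc).comp_sub_right (t * Real.log T / 4)
  have i2 : Integrable (fun u : ℝ => Real.exp (-(1 / (4 * t)) * (u + t * Real.log T / 4) ^ 2)) :=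
    (integrable_exp_neg_mul_sq hc).comp_add_right (t * Real.log T / 4)
  have i3 : Integrable (fun u : ℝ => A * (Real.exp (-(1 / (4 * t)) * (u - t * Real.log T / 4) ^ 2)
      + Real.exp (-(1 / (4 * t)) * (u + t * Real.log T / 4) ^ 2))) := (i1.add i2).const_mul A
  have v1 : ∫ u : ℝ, Real.exp (-(1 / (4 * t)) * (u - t * Real.log T / 4) ^ 2) =
      2 * (√t * √Real.pi) := by
    rw [integral_sub_right_eq_self (fun u : ℝ => Real.exp (-(1 / (4 * t)) * u ^ 2))
      (t * Real.log T / 4), integral_gaussian]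
    have : Real.pi / (1 / (4 * t)) = 2 ^ 2 * (t * Real.pi) := by
      field_simp
      ring
    rw [this, Real.sqrt_mul (by norm_num), Real.sqrt_sq (by norm_num), Real.sqrt_mul ht.le]
  have v2 : ∫ u : ℝ, Real.exp (-(1 / (4 * t)) * (u + t * Real.log T / 4) ^ 2) =
      2 * (√t * √Real.pi) := by
    rw [integral_add_right_eq_self (fun u : ℝ => Real.exp (-(1 / (4 * t)) * u ^ 2))
      (t * Real.log T / 4), integral_gaussian]
    have : Real.pi / (1 / (4 * t)) = 2 ^ 2 * (t * Real.pi) := by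
      field_simp
      ring
    rw [this, Real.sqrt_mul (by norm_num), Real.sqrt_sq (by norm_num), Real.sqrt_mul ht.le]
  have hp : ∀ u : ℝ, ρ * (t' * Real.log T) ≤ |u - t * Real.log T / 4| →
      Real.exp (-(u ^ 2 / t)) * ‖xi (Pool.Agent.DBC.pt x τ + u)‖ ≤
        A * (Real.exp (-(1 / (4 * t)) * (u - t * Real.log T / 4) ^ 2) +
          Real.exp (-(1 / (4 * t)) * (u + t * Real.log T / 4) ^ 2)) := by
    intro u hru
    refine (hb t t' T k x τ u hG hTa ht htt hx hτ).trans ?_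
    have h3 := pw ht htt hL hε0 hε1 (hε2.trans hg1) (hε2.trans hg2) hg1 hg2 hρ hx1 hru
    rw [hA, mul_assoc, mul_assoc]
    refine mul_le_mul_of_nonneg_left (mul_le_mul_of_nonneg_left ?_ hsz) hk.le
    rw [mul_add, ← Real.exp_add, ← Real.exp_add]
    unfold mt
    rcases h3 with h3 | h3
    · exact (Real.exp_le_exp.2 h3).trans (le_add_of_nonneg_right (Real.exp_pos _).le)
    · exact (Real.exp_le_exp.2 h3).trans (le_add_of_nonneg_left (Real.exp_pos _).le)
  have h6 : ∫ u in (Ioo (sd t T - ρ * (t' * Real.log T)) (sd t T + ρ * (t' * Real.log T)))ᶜ,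
      Real.exp (-(u ^ 2 / t)) * ‖xi (Pool.Agent.DBC.pt x τ + u)‖ ≤
      A * (2 * (√t * √Real.pi) + 2 * (√t * √Real.pi)) := by
    calc ∫ u in (Ioo (sd t T - ρ * (t' * Real.log T)) (sd t T + ρ * (t' * Real.log T)))ᶜ,
          Real.exp (-(u ^ 2 / t)) * ‖xi (Pool.Agent.DBC.pt x τ + u)‖
        ≤ ∫ u in (Ioo (sd t T - ρ * (t' * Real.log T)) (sd t T + ρ * (t' * Real.log T)))ᶜ,
          A * (Real.exp (-(1 / (4 * t)) * (u - t * Real.log T / 4) ^ 2) +
            Real.exp (-(1 / (4 * t)) * (u + t * Real.log T / 4) ^ 2)) := by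
          refine integral_mono_of_nonneg ?_ i3.integrableOn ?_
          · filter_upwards with u
            positivity
          · filter_upwards [ae_restrict_mem measurableSet_Ioo.compl] with u hu
            refine hp u ?_
            by_contra h7
            push Not at h7
            rw [abs_lt] at h7
            exact hu ⟨by unfold sd; linarith, by unfold sd; linarith⟩
      _ ≤ ∫ u : ℝ, A * (Real.exp (-(1 / (4 * t)) * (u - t * Real.log T / 4) ^ 2) +
            Real.exp (-(1 / (4 * t)) * (u + t * Real.log T / 4) ^ 2)) := by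
          refine setIntegral_le_integral i3 ?_
          filter_upwards with u
          positivity
      _ = _ := by
          rw [integral_const_mul, integral_add i1 i2, v1, v2]
  refine h6.trans ?_
  have h8 : 4 * √Real.pi ≤ Real.exp (2 * g / 2 * mt t' T) :=
    OA2_.absorb (by positivity) hm
  have e2 : k * EF t t' T x (-g) = A * Real.exp (2 * g / 2 * mt t' T) := by
    rw [hA, EF, mul_assoc, mul_assoc, ← Real.exp_add]
    unfold mt
    congr 3
    ring
  rw [e2]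
  calc A * (2 * (√t * √Real.pi) + 2 * (√t * √Real.pi)) = √t * (A * (4 * √Real.pi)) := by ring
    _ ≤ √t * (A * Real.exp (2 * g / 2 * mt t' T)) := by gcongr

end Pool.Agent.DBB
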