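import Pool.Agent.DBB.Targets7
import Pool.Agent.DBB.P_UP5

/-!
# DBB, target `T_UPR`: crude upper bound for the flow at the time `t` on the scale of `t'`
-/

set_option autoImplicit false

namespace Pool.Agent.DBB

open Complex MeasureTheory Set Filter Topology
open Pool.Agent.DBN Pool.Agent.DBC

open UP2_ in
theorem p_UPR (h1 : T_FLW) (h2 : T_BD7) : T_UPR := by
  intro G c₂ hG K hK
  obtain ⟨T₁, hT₁, hB⟩ := h2 G c₂ hG (1 / 4) K (by norm_num) (by norm_num) hK
  obtain ⟨T₂, hM⟩ := hG.big 1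
  refine ⟨max T₁ T₂, hT₁.trans (le_max_left _ _), ?_⟩
  intro t t' T k x τ hTG hT ht htt hx hτ
  have hT1 : T₁ ≤ T := (le_max_left _ _).trans hT
  have hT2 : T₂ ≤ T := (le_max_right _ _).trans hT
  have hT3 : 2 ≤ T := hT₁.trans hT1
  have hk : 0 ≤ k := by
    have h3 := hG.hk t' T k hTG
    have h4 : 0 ≤ T ^ (-2 : ℝ) := Real.rpow_nonneg (by linarith) _
    linarith
  have hL : 0 < Real.log T := Real.log_pos (by linarith)
  have hs := size_nn hT3
  have hm1 : 1 ≤ mt t' T := hM t' T k hTG hT2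
  obtain ⟨m, hm⟩ : ∃ m : ℝ, m = mt t' T := ⟨_, rfl⟩
  have hm2 : t' * Real.log T ^ 2 = m := by
    rw [hm, mt]
  have hxm : |x| / 2 * Real.log T ≤ K / 2 * m := by
    rw [← hm2]
    have := mul_le_mul_of_nonneg_right hx hL.le
    nlinarith
  have htm : t * Real.log T ^ 2 ≤ m := by
    rw [← hm2]
    exact mul_le_mul_of_nonneg_right htt (by positivity)
  obtain ⟨A, hAe⟩ : ∃ A : ℝ, A = k * (size T * Real.exp ((K / 2 + 1 / 2) * m)) := ⟨_, rfl⟩
  have hA : 0 ≤ A := by
    rw [hAe]
    positivity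
  have hp : ∀ u : ℝ,
      ‖((Real.exp (-(u ^ 2 / t)) : ℝ) : ℂ) * xi (Pool.Agent.DBC.pt x τ + u)‖ ≤
      A * Real.exp (-(1 / (2 * t)) * u ^ 2) := by
    intro u
    rw [norm_mul, Complex.norm_real, Real.norm_of_nonneg (Real.exp_pos _).le, hAe]
    refine (hB t t' T k x τ u hTG hT1 ht htt hx hτ).trans ?_
    rw [mul_assoc, mul_assoc, ← Real.exp_add]
    refine mul_le_mul_of_nonneg_left (mul_le_mul_of_nonneg_left (Real.exp_le_exp.2 ?_) hs) hk
    have e1 : |x + u| / 2 * Real.log T ≤ |x| / 2 * Real.log T + |u| / 2 * Real.log T := by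
      have h3 := mul_le_mul_of_nonneg_right (abs_add_le x u) hL.le
      nlinarith
    have e2 : |u| / 2 * Real.log T ≤ u ^ 2 / (4 * t) + t * Real.log T ^ 2 / 4 := by
      have h3 : 0 ≤ (|u| - t * Real.log T) ^ 2 / (4 * t) := by positivity
      have h4 : (|u| - t * Real.log T) ^ 2 / (4 * t) =
          u ^ 2 / (4 * t) + t * Real.log T ^ 2 / 4 - |u| / 2 * Real.log T := by
        rw [← sq_abs u]
        field_simp
        ring
      linarith
    have e3 : (1 - 1 / 4) * (u ^ 2 / t) = 3 * (u ^ 2 / (4 * t)) := by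
      field_simp
      ring
    have e4 : -(1 / (2 * t)) * u ^ 2 = -(2 * (u ^ 2 / (4 * t))) := by
      field_simp
      ring
    rw [← hm, e3, e4]
    linarith
  have hb : 0 < 1 / (2 * t) := by positivity
  have hint : Integrable (fun u : ℝ => A * Real.exp (-(1 / (2 * t)) * u ^ 2)) :=
    (integrable_exp_neg_mul_sq hb).const_mul A
  have h6 := norm_integral_le_of_norm_le hint (Filter.Eventually.of_forall hp)
  rw [integral_const_mul, integral_gaussian] at h6
  rw [h1 t _ ht, norm_mul, Complex.norm_real, Real.norm_of_nonneg (by positivity)]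
  have hpt : 0 < √(Real.pi * t) := Real.sqrt_pos.2 (by positivity)
  have e5 : √(Real.pi / (1 / (2 * t))) = √2 * √(Real.pi * t) := by
    rw [← Real.sqrt_mul (by norm_num)]
    congr 1
    field_simp
  have e6 : √2 ≤ Real.exp (1 / 2 * m) := by
    have h7 : √2 ≤ 3 / 2 := by
      rw [Real.sqrt_le_left (by norm_num)]
      norm_num
    have h8 := Real.add_one_le_exp (1 / 2 * m)
    rw [← hm] at hm1
    linarith
  calc (√(Real.pi * t))⁻¹ * ‖∫ u : ℝ, ((Real.exp (-(u ^ 2 / t)) : ℝ) : ℂ) *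
        xi (Pool.Agent.DBC.pt x τ + u)‖
      ≤ (√(Real.pi * t))⁻¹ * (A * √(Real.pi / (1 / (2 * t)))) := by
        refine mul_le_mul_of_nonneg_left h6 (by positivity)
    _ = A * √2 := by
        rw [e5]
        field_simp
    _ ≤ A * Real.exp (1 / 2 * m) := mul_le_mul_of_nonneg_left e6 hA
    _ = k * (size T * Real.exp ((K / 2 + 1) * mt t' T)) := by
        rw [hAe, ← hm, mul_assoc, mul_assoc, ← Real.exp_add]
        congr 3
        ring

end Pool.Agent.DBB
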