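import Pool.Agent.DBB.Targets5
import Pool.Agent.DBN.Down2
import Pool.Agent.DBN.Xi

/-!
# DBB, target `T_XU5`: upper bound for `xi` on the scale of the time, relative to `k`
-/

set_option autoImplicit false

namespace Pool.Agent.DBB

open Complex MeasureTheory Set Filter
open Pool.Agent.DBN Pool.Agent.DBC

namespace XU5_

theorem norm_xi_abs (T : ℝ) (w : ℂ) : ‖xi (1 / 2 + T * I + w)‖ =
    ‖xi (((1 / 2 + |w.re| : ℝ) : ℂ) + ((T + w.im : ℝ) : ℂ) * I)‖ := by
  rcases le_total 0 w.re with h | h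
  · rw [abs_of_nonneg h]
    congr 2
    apply Complex.ext <;> simp
  · rw [abs_of_nonpos h, ← norm_xi_symm]
    congr 2
    apply Complex.ext
    · simp
      ring
    · simp

/-- The point with the real part reflected. -/
theorem norm_refl (w : ℂ) : ‖((|w.re| : ℝ) : ℂ) + (w.im : ℂ) * I‖ = ‖w‖ := by
  rw [Complex.norm_eq_sqrt_sq_add_sq, Complex.norm_eq_sqrt_sq_add_sq]
  simp

theorem norm_two {w : ℂ} {K : ℝ} (h1 : |w.re| ≤ K) (h2 : |w.im| ≤ K) : ‖w‖ ≤ 2 * K :=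
  (Complex.norm_le_abs_re_add_abs_im w).trans (by linarith)

end XU5_

open XU5_ in
theorem p_XU5 : T_XU5 := by
  intro G c₂ hH ε K hε hK
  obtain ⟨T₁, h2⟩ := hH.up (ε / 2) (2 * K) (half_pos hε) (by linarith)
  obtain ⟨C₂, hC21, h3⟩ := xi_two (K + 1)
  have hC₂ : 0 < C₂ := by linarith
  set E : ℝ := 2 ^ (7 / 4 : ℝ) * Real.exp (Real.pi * K / 4) with hE
  have hE0 : 0 < E := by positivity
  set Q : ℝ := C₂ * ((2 : ℝ) ^ (K / 2) * E) with hQ
  have hQ0 : 0 < Q := by positivity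
  obtain ⟨T₂, h9⟩ := hH.big (Real.log Q * 2 / ε)
  refine ⟨max (max T₁ T₂) (2 * K + 4),
    (by linarith : (2 : ℝ) ≤ 2 * K + 4).trans (le_max_right _ _),
    fun t T k w hG hT hw1 hw => ?_⟩
  have hTa : T₁ ≤ T := (le_max_left _ _).trans ((le_max_left _ _).trans hT)
  have hTc : T₂ ≤ T := (le_max_right _ _).trans ((le_max_left _ _).trans hT)
  have hTb : 2 * K + 4 ≤ T := (le_max_right _ _).trans hT
  have hT0 : 0 < T := by linarith
  have ht0 : 0 < t := hH.ht t T k hG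
  have hk0 : 0 < k := (Real.rpow_pos_of_pos hT0 _).trans_le (hH.hk t T k hG)
  have hs := size_pos hT0
  obtain ⟨hw2, hw3⟩ := abs_le.mp hw
  set T' : ℝ := T + w.im with hT'
  set x : ℝ := 1 / 2 + |w.re| with hxd
  have hx0 : 0 ≤ |w.re| := abs_nonneg _
  have hT'2 : 2 ≤ T' := by linarith
  have hT'0 : 0 < T' := by linarith
  have hs' := size_pos hT'0
  obtain ⟨h4, -⟩ := h3 x T' (by rw [abs_of_pos (by linarith)]; linarith) hT'2
  have hn : 0 ≤ ‖w‖ ^ 2 / t := by positivity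
  have h5 : ‖riemannZeta ((x : ℂ) + (T' : ℂ) * I)‖ ≤
      k * Real.exp (ε / 2 * (mt t T + ‖w‖ ^ 2 / t)) := by
    have h51 := h2 t T k (((|w.re| : ℝ) : ℂ) + (w.im : ℂ) * I) hG hTa (by simp)
      (by rw [norm_refl]; exact norm_two hw1 hw)
    rw [norm_refl] at h51
    have h52 : (1 / 2 + (T : ℂ) * I + (((|w.re| : ℝ) : ℂ) + (w.im : ℂ) * I)) =
        (x : ℂ) + (T' : ℂ) * I := by
      rw [hxd, hT']
      push_cast
      ring
    rw [h52] at h51
    exact h51
  have he : (x - 1 / 2) / 2 = |w.re| / 2 := by rw [hxd]; ring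
  rw [he] at h4
  have h6 : T' ^ (|w.re| / 2) ≤ 2 ^ (K / 2) * T ^ (|w.re| / 2) := by
    refine (rpow_shift_le hT0 (by linarith) (by linarith) _).trans ?_
    refine mul_le_mul_of_nonneg_right ?_ (Real.rpow_nonneg hT0.le _)
    rw [abs_of_nonneg (by linarith)]
    exact Real.rpow_le_rpow_of_exponent_le (by norm_num) (by linarith)
  have h7 : size T' ≤ E * size T := by
    refine size_shift_le hT0 (by linarith) (by linarith) ?_
    rw [hT', add_sub_cancel_left]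
    exact hw
  have h8 : T ^ (|w.re| / 2) = Real.exp (|w.re| / 2 * Real.log T) := by
    rw [Real.rpow_def_of_pos hT0, mul_comm]
  have h10 : Q ≤ Real.exp (ε / 2 * mt t T) := by
    rw [← Real.log_le_iff_le_exp hQ0]
    have h11 := h9 t T k hG hTc
    rw [div_le_iff₀ hε] at h11
    linarith
  have h12 : Real.exp (|w.re| / 2 * Real.log T) *
        (Real.exp (ε / 2 * mt t T) * Real.exp (ε / 2 * (mt t T + ‖w‖ ^ 2 / t))) ≤
      Real.exp (|w.re| / 2 * Real.log T + ε * (mt t T + ‖w‖ ^ 2 / t)) := by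
    rw [← Real.exp_add, ← Real.exp_add]
    refine Real.exp_le_exp.2 ?_
    have : 0 ≤ ε / 2 * (‖w‖ ^ 2 / t) := mul_nonneg (half_pos hε).le hn
    linarith
  rw [norm_xi_abs]
  calc ‖xi ((x : ℂ) + (T' : ℂ) * I)‖
      ≤ C₂ * (T' ^ (|w.re| / 2) * size T' * ‖riemannZeta ((x : ℂ) + (T' : ℂ) * I)‖) := h4
    _ ≤ C₂ * ((2 ^ (K / 2) * T ^ (|w.re| / 2)) * (E * size T) *
          (k * Real.exp (ε / 2 * (mt t T + ‖w‖ ^ 2 / t)))) := by gcongr
    _ = Q * (k * (size T * (T ^ (|w.re| / 2) *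
          Real.exp (ε / 2 * (mt t T + ‖w‖ ^ 2 / t))))) := by rw [hQ]; ring
    _ ≤ Real.exp (ε / 2 * mt t T) * (k * (size T * (T ^ (|w.re| / 2) *
          Real.exp (ε / 2 * (mt t T + ‖w‖ ^ 2 / t))))) := by
        gcongr
    _ = k * (size T * (Real.exp (|w.re| / 2 * Real.log T) *
          (Real.exp (ε / 2 * mt t T) * Real.exp (ε / 2 * (mt t T + ‖w‖ ^ 2 / t))))) := by
        rw [h8]
        ring
    _ ≤ k * (size T *
          Real.exp (|w.re| / 2 * Real.log T + ε * (mt t T + ‖w‖ ^ 2 / t))) := by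
        gcongr

end Pool.Agent.DBB
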