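import Pool.Agent.DBB.Defs
import Pool.Agent.DBC.Targets2

/-!
# All times `t ≥ A log log T / (log T)²`: targets of the local part

(MP_4e5e8a_nt, addition to DBNFlow.) Deliver `theorem p_X : T_X` (targets named in brackets are
hypotheses) in the NEW file `Pool/Agent/DBB/P_X.lean` which imports this file, namespace
`Pool.Agent.DBB`, helper lemmas in the sub-namespace `X_`. There `L = log T`,
`m = t L² = mt t T`, `sd t T = t L / 4`. All targets are copies of the landed theorems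
`Pool/Agent/DBC/S_*.lean` (`Y_*` in DBC/Targets4.lean) on the scale of `t`: `T^ε` becomes
`exp (ε m)`, the widths `δ`, `r` become `δ t L`, `r t L`, all integrals keep a factor `√t`, and
constants are absorbed by `C ≤ exp (ε m)` (field `big`). `t → 0` as `t L ≤ c₂`.
-/

set_option autoImplicit false

namespace Pool.Agent.DBB

open Complex MeasureTheory Set Filter
open Pool.Agent.DBN Pool.Agent.DBC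

/-- XU2 (30 min, edit of DBC/S_XU.lean). Upper bound for `xi`. PROOF. For `0 ≤ Re w ≤ K`: `xi_two`,
the field `up` with `ε/2`, `K + 1`, and the comparison of `Im s` with `T` as in S_XU / Q_XBD; the
constants are `≤ exp (ε m / 2)` by `big`. For `Re w < 0`: `norm_xi_symm`. -/
def T_XU2 : Prop := ∀ (G : Set (ℝ × ℝ)) (c₂ : ℝ), HypP G c₂ → ∀ ε K : ℝ, 0 < ε → 0 < K →
  ∃ T₀ : ℝ, 2 ≤ T₀ ∧ ∀ (t T : ℝ) (w : ℂ), (t, T) ∈ G → T₀ ≤ T → |w.re| ≤ K → |w.im| ≤ K →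
    ‖xi (1 / 2 + T * I + w)‖ ≤ size T * Real.exp (|w.re| / 2 * Real.log T + ε * mt t T)

/-- XB2 (30 min, edit of DBC/S_XL.lean). Two-sided bounds. PROOF. As S_XL, with the fields `up`,
`lo` (`ε/2`) in place of `UpZ`, `LoZ`; constants `≤ exp (ε m / 2)` by `big`. -/
def T_XB2 : Prop := ∀ (G : Set (ℝ × ℝ)) (c₂ : ℝ), HypP G c₂ → ∀ ε K : ℝ, 0 < ε → 0 < K →
  ∃ T₀ : ℝ, 2 ≤ T₀ ∧ ∀ (t T : ℝ) (s : ℂ), (t, T) ∈ G → T₀ ≤ T →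
    1 / 2 + ε * (t * Real.log T) ≤ s.re → s.re ≤ K → |s.im - T| ≤ K →
    size T * Real.exp ((s.re - 1 / 2) / 2 * Real.log T - ε * mt t T) ≤ ‖xi s‖ ∧
      ‖xi s‖ ≤ size T * Real.exp ((s.re - 1 / 2) / 2 * Real.log T + ε * mt t T)

/-- BD2 (from XU2; 40 min). Pointwise bound. PROOF. `w = y + u + i (τ - T)`. For `u ≤ U`: XU2 with
`K + U` (and `u²/t ≥ 0`). For `u ≥ U`: `xi_quarter_le` (DBN/ZA.lean) with `ε = 1`,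
`κ = ε/(4 c₂)`, `‖w‖² ≤ 2 u² + 3 K²` and `max (|y+u|/2) (1/4) ≤ |y+u|/2 + 1/4`: it remains
`C T^(5/4) exp (κ (2 u² + 3 K²) L) ≤ exp (ε u²/t)`, true since `u²/t ≥ u² L/c₂`, if
`ε U²/(2 c₂) ≥ 5/4 + 3 κ K² + 1` and `T ≥ C`. -/
def T_BD2 : Prop := ∀ (G : Set (ℝ × ℝ)) (c₂ : ℝ), HypP G c₂ → ∀ ε K : ℝ, 0 < ε → ε ≤ 1 → 0 < K →
  ∃ T₀ : ℝ, 2 ≤ T₀ ∧ ∀ t T y τ u : ℝ, (t, T) ∈ G → T₀ ≤ T → |y| ≤ K → |τ - T| ≤ K → 0 ≤ u →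
    Real.exp (-(u ^ 2 / t)) * ‖xi (Pool.Agent.DBC.pt y τ + u)‖ ≤
      size T * Real.exp (|y + u| / 2 * Real.log T - (1 - ε) * (u ^ 2 / t) + ε * mt t T)

/-- INE (40 min). Elementary inequalities. PROOF. Put `y = t L y'`, `u = t L u'` and divide by
`t L²` (`u²/t = t L² u'²`). (a) If `y' + u' ≥ 0` the left side is
`y'/2 + 1/16 - (u' - 1/4)² + ε u'² + ε`, and `(u' - 1/4)² ≥ g + (κ + ε) u'² + ε` for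
`|u' - 1/4| ≥ r` and small `g, κ, ε` (`u'² ≤ 2 (u' - 1/4)² + 1/8`); if `y' + u' < 0` then
`u' ≤ 1/64`, `|y' + u'| ≤ -y' ≤ 1/64`: clear. (b) `u' ≥ y'`: the difference of the right and the
left side is `y' + (u' - 1/4)² - g - (κ + ε) u'² - ε > 0` (`y' ≥ δ`); `u' < y'`: it is
`1/16 + u'/2 + u'² - g - (κ + ε) u'² - ε > 0`. (c) As (a), with `ε₁` in place of `-g`. -/
def T_INE : Prop :=
  (∀ r : ℝ, 0 < r → ∃ ε₀ g κ : ℝ, 0 < ε₀ ∧ ε₀ ≤ 1 ∧ 0 < g ∧ 0 < κ ∧ ∀ ε t L y u : ℝ, 0 < ε →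
    ε ≤ ε₀ → 0 < t → 0 < L → -(1 / 64 * (t * L)) ≤ y → 0 ≤ u → r * (t * L) ≤ |u - t * L / 4| →
    |y + u| / 2 * L - (1 - ε) * (u ^ 2 / t) + ε * (t * L ^ 2) ≤
      y / 2 * L + (1 / 16 - g) * (t * L ^ 2) - κ * (u ^ 2 / t)) ∧
  (∀ δ : ℝ, 0 < δ → ∃ ε₀ g κ : ℝ, 0 < ε₀ ∧ ε₀ ≤ 1 ∧ 0 < g ∧ 0 < κ ∧ ∀ ε t L y u : ℝ, 0 < ε →
    ε ≤ ε₀ → 0 < t → 0 < L → δ * (t * L) ≤ y → 0 ≤ u →
    |u - y| / 2 * L - (1 - ε) * (u ^ 2 / t) + ε * (t * L ^ 2) ≤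
      y / 2 * L + (1 / 16 - g) * (t * L ^ 2) - κ * (u ^ 2 / t)) ∧
  (∀ ε₁ : ℝ, 0 < ε₁ → ∃ ε₀ κ : ℝ, 0 < ε₀ ∧ ε₀ ≤ 1 ∧ 0 < κ ∧ ∀ ε t L y u : ℝ, 0 < ε →
    ε ≤ ε₀ → 0 < t → 0 < L → -(1 / 64 * (t * L)) ≤ y → 0 ≤ u →
    |y + u| / 2 * L - (1 - ε) * (u ^ 2 / t) + ε * (t * L ^ 2) ≤
      y / 2 * L + (1 / 16 + ε₁) * (t * L ^ 2) - κ * (u ^ 2 / t))

/-- OA2 (from BD2, INE; 30 min, edit of DBC/S_OA.lean). PROOF. INE (a) with `r = 1/64`, BD2 with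
`ε = ε₀`: the integrand is `≤ size T exp (x/2 L + (1/16 - g₀) m) exp (-κ u²/t)`, and
`∫_0^∞ exp (-κ u²/t) du = √(π t/κ)/2 ≤ √t exp (g₀ m / 2)` by `big`; `g = g₀/2`. -/
def T_OA2 : Prop := ∀ (G : Set (ℝ × ℝ)) (c₂ : ℝ), HypP G c₂ → ∀ K : ℝ, 0 < K → ∃ g : ℝ, 0 < g ∧
  EvP G K (1 / 64) (fun t T x τ =>
    ∫ u in Ioi (0 : ℝ) \ Ioo (sd t T - t * Real.log T / 64) (sd t T + t * Real.log T / 64),
      Real.exp (-(u ^ 2 / t)) * ‖xi (Pool.Agent.DBC.pt x τ + u)‖ ≤ √t * EE t T x (-g))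

/-- OB2 (from BD2, INE; 30 min, edit of DBC/S_OB.lean). PROOF. As OA2 with INE (b), `y = -x` in BD2
(`|-x + u| = |u - x|`). -/
def T_OB2 : Prop := ∀ (G : Set (ℝ × ℝ)) (c₂ : ℝ), HypP G c₂ → ∀ K δ : ℝ, 0 < K → 0 < δ →
  ∃ g T₀ : ℝ, 0 < g ∧ 2 ≤ T₀ ∧ ∀ t T x τ : ℝ, (t, T) ∈ G → T₀ ≤ T →
    δ * (t * Real.log T) ≤ x → x ≤ K → |τ - T| ≤ K →
    ‖W t (Pool.Agent.DBC.pt (-x) τ)‖ ≤ √t * EE t T x (-g)

/-- UP2 (from BD2, INE; 30 min, edit of DBC/S_UP.lean). PROOF. As OA2 with INE (c),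
`ε₁ = ε/2`. -/
def T_UP2 : Prop := ∀ (G : Set (ℝ × ℝ)) (c₂ : ℝ), HypP G c₂ → ∀ K ε : ℝ, 0 < K → 0 < ε →
  EvP G K (1 / 64) (fun t T x τ => ‖W t (Pool.Agent.DBC.pt x τ)‖ ≤ √t * EE t T x ε)

/-- NE2 (from BCL, SDH, XB2; 45 min, edit of DBC/S_NE.lean). The saddle. PROOF. `q = t L`,
`s' = pt x τ + sd t T`. For `‖v‖ < q/16`: `Re (s' + v) ≥ 1/2 + q (1/4 - 1/64 - 1/16)`, so XB2 (`ε'`,
`K + c₂ + 2`; `ε' ≤ 1/8`) gives `g v = exp (-(v/2) L) xi (s' + v)` without zeros and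
`‖g v‖ ≤ exp (2 ε' m) ‖g 0‖`; BCL: `g v = g 0 * exp (h v)` on the ball of radius `q/16`,
`‖h v‖ ≤ 4 ε' m` for `‖v‖ < q/32`. SDH for `ρ = 1/32` (fixed!), the function
`v' ↦ h (q v')`, `lam = q²/t = m` (`≥ lam₀` by `big`), `η = 4 ε' ≤ η₀`:
`‖∫_{|v'| < 1/64} exp (-m v'² + h (q v')) dv'‖ ≥ 1/(2 √m) exp (-8 ε' m)`. Substitution `v = q v'`:
`‖∫_{|v| < q/64} exp (-v²/t + h v) dv‖ ≥ q/(2 √m) exp (-8 ε' m) = √t/2 exp (-8 ε' m)`. The integral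
of the target is `exp (-sd²/t) xi s'` times this (`NE22_.main_int`), `exp (-sd²/t) = exp (-m/16)`,
`‖xi s'‖ ≥ size T exp ((x + q/4)/2 L - ε' m)`, `q L/8 = m/8`; `1/2 ≥ exp (-ε' m)`. Take
`10 ε' ≤ ε`. -/
def T_NE2 : Prop := ∀ (G : Set (ℝ × ℝ)) (c₂ : ℝ), HypP G c₂ → ∀ K ε : ℝ, 0 < K → 0 < ε →
  EvP G K (1 / 64) (fun t T x τ => √t * EE t T x (-ε) ≤
    ‖∫ u in Ioo (sd t T - t * Real.log T / 64) (sd t T + t * Real.log T / 64),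
      ((Real.exp (-(u ^ 2 / t)) : ℝ) : ℂ) * xi (Pool.Agent.DBC.pt x τ + u)‖)

/-- LO2 (from IGR, NE2, OA2; 25 min, edit of DBC/S_LO.lean). PROOF. `Ioi 0` is the disjoint union of
the interval and the rest; NE2 with `min (ε/2) (g/2)`; `exp (-g m) ≤ exp (-g m/2)/2` and
`1/2 ≥ exp (-ε m/2)` for large `T` (`big`). -/
def T_LO2 : Prop := ∀ (G : Set (ℝ × ℝ)) (c₂ : ℝ), HypP G c₂ → ∀ K ε : ℝ, 0 < K → 0 < ε →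
  EvP G K (1 / 64) (fun t T x τ => √t * EE t T x (-ε) ≤ ‖W t (Pool.Agent.DBC.pt x τ)‖)

/-- GD2 (from BCL, DER, UP2, LO2; 40 min, edit of DBC/S_GD.lean). PROOF. UP2, LO2 with `K + c₂`,
`e`; `δ = q/128`, `q = t L ≤ c₂`: for `‖v‖ < δ` the point `x + Re v ≥ -q/64`. `GD22_.logd` with
`M = 2 e m`, `δ = q/128`: the difference is at most `C e m/(q/128) = 128 C e L` times `‖W‖`
(`m/q = L`); take `e` small. -/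
def T_GD2 : Prop := ∀ (G : Set (ℝ × ℝ)) (c₂ : ℝ), HypP G c₂ → ∀ K ε : ℝ, 0 < K → 0 < ε →
  EvP G K (1 / 128) (fun t T x τ => W t (Pool.Agent.DBC.pt x τ) ≠ 0 ∧
    ‖deriv (W t) (Pool.Agent.DBC.pt x τ) -
      (Real.log T / 2 : ℝ) * W t (Pool.Agent.DBC.pt x τ)‖ ≤
      ε * Real.log T * ‖W t (Pool.Agent.DBC.pt x τ)‖ ∧
    √t * EE t T x (-ε) ≤ ‖W t (Pool.Agent.DBC.pt x τ)‖)

/-- CM2 (from DER, GD2, OB2; 25 min, edit of DBC/S_CM.lean). PROOF. For `0 < x ≤ t L/128`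
monotonicity (GD2, `ε = 1/4`), for `x ≥ t L/128` OB2 with `δ = 1/128` and the third part of GD2 with
`ε = g/2`. -/
def T_CM2 : Prop := ∀ (G : Set (ℝ × ℝ)) (c₂ : ℝ), HypP G c₂ → ∀ K : ℝ, 0 < K → ∃ T₀ : ℝ, 2 ≤ T₀ ∧
  ∀ t T x τ : ℝ, (t, T) ∈ G → T₀ ≤ T → 0 < x → x ≤ K → |τ - T| ≤ K →
    ‖W t (Pool.Agent.DBC.pt (-x) τ)‖ < ‖W t (Pool.Agent.DBC.pt x τ)‖

/-- ZE2 (from SPL, CNJ, DER, GD2, CM2; 10 min, copy of DBC/S_ZE.lean). -/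
def T_ZE2 : Prop := ∀ (G : Set (ℝ × ℝ)) (c₂ : ℝ), HypP G c₂ → ∀ K : ℝ, 0 < K → ∃ T₀ : ℝ, 2 ≤ T₀ ∧
  ∀ t T x τ : ℝ, (t, T) ∈ G → T₀ ≤ T → |x| ≤ K → |τ - T| ≤ K →
    flow t (Pool.Agent.DBC.pt x τ) = 0 → x = 0 ∧ deriv (flow t) (Pool.Agent.DBC.pt x τ) ≠ 0

/-- SP2 (from SPL, CNJ, DER, GD2, ANG; 15 min, copy of DBC/S_SP.lean). -/
def T_SP2 : Prop := ∀ (G : Set (ℝ × ℝ)) (c₂ : ℝ), HypP G c₂ → ∀ K ε : ℝ, 0 < K → 0 < ε →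
  ∃ T₀ : ℝ, 2 ≤ T₀ ∧ ∀ t T y : ℝ, (t, T) ∈ G → T₀ ≤ T → |y - T| ≤ K →
    (∀ y' : ℝ, y < y' → flow t (Pool.Agent.DBC.pt 0 y) = 0 →
      flow t (Pool.Agent.DBC.pt 0 y') = 0 → 2 * Real.pi - ε ≤ (y' - y) * Real.log T) ∧
    ∃ y' : ℝ, y ≤ y' ∧ (y' - y) * Real.log T ≤ 2 * Real.pi + ε ∧
      flow t (Pool.Agent.DBC.pt 0 y') = 0

/-- HT2 (from ZE2, SP2; 10 min, copy of DBC/S_HT.lean). -/
def T_HT2 : Prop := ∀ (G : Set (ℝ × ℝ)) (c₂ : ℝ), HypP G c₂ → ∀ K ε : ℝ, 0 < K → 0 < ε →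
  ∃ T₀ : ℝ, 2 ≤ T₀ ∧ ∀ t T : ℝ, (t, T) ∈ G → T₀ ≤ T → CrysAt K ε t T

/-- DG2 (from HT2; 30 min, edit of DBC/S_DG.lean). Diagonal argument. PROOF. If the claim is false
there are `t n`, `T n ≥ n` with `Lv n (t n) (T n)`, `t n * log (T n) ≤ c₂`, not `CrysAt`.
`G = {(t n, T n)}` satisfies `HypP G c₂`: for a given `N` let `T₀ > T n` for all `n ≤ N`; then
`T₀ ≤ T n` implies `n > N`. -/
def T_DG2 : Prop := ∀ c₂ K ε : ℝ, 0 < c₂ → 0 < K → 0 < ε → ∃ n : ℕ, ∀ t T : ℝ, (n : ℝ) ≤ T →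
  t * Real.log T ≤ c₂ → Lv n t T → CrysAt K ε t T

/-- polylogarithmic bounds at almost all heights -/
def T_AR2 : Prop := ∀ K D : ℝ, 0 < K → 0 < D → ∃ B X₀ : ℝ, 0 < B ∧ ∀ X : ℝ, X₀ ≤ X →
  volume {T : ℝ | X ≤ T ∧ T ≤ 2 * X ∧ ¬ PL B K T} ≤ ENNReal.ofReal (X / Real.log X ^ D)

/-- FN2 (from DG2, AR2; 25 min). PROOF. `n` from DG2; `B`, `X₀` from AR2 with `K = n + 1`;
`A = (n + 1) (B + 1)`. If `T` is not in the exceptional set of AR2, `T` large and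
`t ≥ A log log T/L²`, then `mt t T ≥ A log log T`, so `L^B = exp (B log log T) ≤
exp (mt t T/(n + 1))`, `B log log T/L ≤ t L/(n + 1)`, `n ≤ mt t T`: `Lv n t T`, and DG2. -/
def T_FN2 : Prop := ∀ c : ℝ, 0 < c → Sharp c

end Pool.Agent.DBB
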