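import Pool.Agent.DBB.Targets
import Pool.Agent.DBA.Targets
import Pool.Agent.DBC.Targets5

/-!
# All times `t ≥ A log log T / (log T)²`: targets of the arithmetic part

(MP_4e5e8a_nt, addition to DBNFlow.) `Mo Y s = ∑_{k ≤ Y} μ(k) k^(-s)` (the same as `Mp` of DBA),
`am Y n = ∑_{k | n, k ≤ Y} μ(k)` and `GG Y t = -∑_{k ≤ Y} μ(k) {1/(k t)} - 1_{t ≤ 1}` are those of
DBC/Defs4.lean. Mean square of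
`ζ Mo - 1` on `Re s = σ > 1/2` with a mollifier of length `Y ≤ X^(1/4)` and a saving
`Y^(-(2 σ - 1))`, UNIFORMLY in `σ` (so linear in the distance to the line): Plancherel
(`Y_PL`, `Y_MF`), and for `t = 1/x`, `x > X`, the variance of `∑_{x < n ≤ x + H} am Y n` (pair
correlation of the sawtooth functions). Deliver `theorem p_X : T_X` (targets in brackets are
hypotheses) in the NEW file `Pool/Agent/DBB/P_X.lean` which imports this file, namespace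
`Pool.Agent.DBB`, helper lemmas in the sub-namespace `X_`.
-/

set_option autoImplicit false

namespace Pool.Agent.DBB

open Complex MeasureTheory Set Filter
open Pool.Agent.DBN Pool.Agent.DBC
open scoped ENNReal

/-- the increment of the sawtooth function -/
noncomputable def ph (H : ℝ) (k : ℕ) (x : ℝ) : ℝ := Int.fract ((x + H) / k) - Int.fract (x / k)

/-- the difference of `GG` for the ratio `1 + θ` -/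
noncomputable def DG (Y : ℕ) (θ t : ℝ) : ℝ := GG Y (Real.exp (-Real.log (1 + θ)) * t) - GG Y t

/-! ### A. The variance -/

/-- HER (20 min). PROOF. The difference of both sides is `1/q`-periodic in `y` (shift of `j`, and
`fract` is `1`-periodic), and for `0 ≤ y < 1/q` all `y + j/q` are in `[0, 1)`, `q y` is in `[0, 1)`:
`q y + (q - 1)/2 - q/2 = q y - 1/2`. -/
def T_HER : Prop := ∀ (q : ℕ) (y : ℝ), 1 ≤ q →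
  ∑ j ∈ Finset.range q, (Int.fract (y + j / q) - 1 / 2) = Int.fract (q * y) - 1 / 2

/-- COR (from HER; 50 min). PROOF. `g = gcd k l`, `q = l/g`. `ph H l x` has period `l`, and by HER
`∑_{j < q} ph H l (x + j k) = ph H g x`: `(x + j k)/l = x/l + j (k/g)/q`, `k/g` is prime to `q`,
so `j ↦ j (k/g) mod q` is a permutation, and `fract` is `1`-periodic; `q x/l = x/g`. `lcm = k q`.
So `∫_0^{lcm} ph k * ph l = ∑_{j < q} ∫_{j k}^{(j+1) k} = ∫_0^k ph H k x * ph H g x dx`, and in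
the same way (sum over the `k/g` translates by `g`, period `g` of `ph H g`) it is `∫_0^g (ph H g
x)² dx`. `|ph| ≤ 1` gives `≤ g`, which is `≤ H` if `H ≥ g`; if `H < g` then on `[0, g)` `ph H g`
is `H/g` for `x < g - H` and `H/g - 1` otherwise, so the integral is `H (1 - H/g) ≤ H`. -/
def T_COR : Prop := ∀ (k l : ℕ) (H : ℝ), 1 ≤ k → 1 ≤ l → 0 ≤ H →
  0 ≤ ∫ x in (0 : ℝ)..(Nat.lcm k l : ℝ), ph H k x * ph H l x ∧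
  (∫ x in (0 : ℝ)..(Nat.lcm k l : ℝ), ph H k x * ph H l x) ≤ H

/-- CZV (from COR; 30 min). PROOF. The product has the period `ℓ = lcm k l` and norm at most `1`;
`[Z, 2 Z]` consists of `⌊Z/ℓ⌋` full periods (`Function.Periodic.intervalIntegral_add_eq`,
`Function.Periodic.intervalIntegral_add_zsmul_eq`), each with an integral in `[0, H]`, and a rest of
length at most `ℓ`. -/
def T_CZV : Prop := ∀ (k l : ℕ) (H Z : ℝ), 1 ≤ k → 1 ≤ l → 0 ≤ H → 0 ≤ Z →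
  |∫ x in Z..(2 * Z), ph H k x * ph H l x| ≤ Z * H / (Nat.lcm k l : ℝ) + (Nat.lcm k l : ℝ)

/-- GSM (30 min). PROOF. `1/lcm k l = g/(k l)`, `g = gcd k l ≤ Y`; `(k, l) ↦ (g, k/g, l/g)` is
injective into `[1, Y]³` and `g/(k l) = 1/(g k' l')`: the sum is at most `(∑_{n ≤ Y} 1/n)³ ≤
(1 + log Y)³` (`harmonic_le_one_add_log`). -/
def T_GSM : Prop := ∀ Y : ℕ, 1 ≤ Y →
  ∑ k ∈ Finset.Icc 1 Y, ∑ l ∈ Finset.Icc 1 Y, 1 / (Nat.lcm k l : ℝ) ≤ (1 + Real.log Y) ^ 3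

/-- VAR (from CZV, GSM; 25 min). PROOF. Expand the square, `|μ| ≤ 1`, CZV, `lcm k l ≤ Y²` for the
second term (`Y²` pairs), GSM for the first. -/
def T_VAR : Prop := ∀ (Y : ℕ) (H Z : ℝ), 1 ≤ Y → 0 ≤ H → 0 ≤ Z →
  (∫ x in Z..(2 * Z), (∑ k ∈ Finset.Icc 1 Y,
    ((ArithmeticFunction.moebius k : ℤ) : ℝ) * ph H k x) ^ 2) ≤
      Z * H * (1 + Real.log Y) ^ 3 + (Y : ℝ) ^ 4

/-! ### B. The coefficients -/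

/-- DV4 (40 min). PROOF. `d(n)²` is the number of pairs `(a, b)` of divisors of `n`; with
`g = gcd a b` the map `(n, a, b) ↦ (g, a/g, b/g, n/lcm a b)` is injective into `[1, N]⁴` and
`n = g (a/g) (b/g) (n/lcm a b)`. So the sum is at most `(∑_{m ≤ N} 1/m)⁴ ≤ (1 + log N)⁴`. -/
def T_DV4 : Prop := ∀ N : ℕ, 1 ≤ N →
  ∑ n ∈ Finset.Icc 1 N, ((n.divisors.card : ℝ)) ^ 2 / n ≤ (1 + Real.log N) ^ 4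

/-- AM2 (from DV4; 25 min, compare DBC/S_AR.lean). PROOF. `am Y n = 0` for `2 ≤ n ≤ Y`,
`|am Y n| ≤ d(n)`, and `n^(-2σ) = n^(-1) n^(-(2σ-1)) ≤ n^(-1) Y^(-(2σ-1))` for `n > Y`. -/
def T_AM2 : Prop := ∀ (Y N : ℕ) (σ : ℝ), 1 ≤ Y → 1 ≤ N → 1 / 2 ≤ σ →
  ∑ n ∈ Finset.Icc 2 N, am Y n ^ 2 * (n : ℝ) ^ (-(2 * σ)) ≤
    (Y : ℝ) ^ (-(2 * σ - 1)) * (1 + Real.log N) ^ 4

/-! ### C. The mollified mean square -/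

/-- GXA (20 min). PROOF. Definition of `GG` (`Defs4`): `1/(k t/(1 + θ)) = x (1 + θ)/k`, and both
indicators are `1` for `x ≥ 1`. -/
def T_GXA : Prop := ∀ (Y : ℕ) (θ x : ℝ), 0 ≤ θ → 1 ≤ x →
  DG Y θ (1 / x) = -∑ k ∈ Finset.Icc 1 Y,
    ((ArithmeticFunction.moebius k : ℤ) : ℝ) * ph (θ * x) k x

/-- GXB (30 min, edit of DBC/S_GT.lean). PROOF. As in S_GT with `1 + θ` in place of `exp h`: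
`DG Y θ t = -c θ x + ∑_{n ≥ 2, x < n ≤ x (1 + θ)} am Y n`, `x = 1/t`, `c = ∑_{k ≤ Y} μ(k)/k`,
`|c| ≤ 1 + log Y`; `θ x ≤ θ X < 1`: at most one `n`, and `n ≤ 2 X`. -/
def T_GXB : Prop := ∀ (Y : ℕ) (X θ t : ℝ), 1 ≤ Y → 1 ≤ X → 0 < θ → 3 * θ * X ≤ 1 → 1 / X ≤ t →
  DG Y θ t ^ 2 ≤ 2 * ∑ n ∈ Finset.Icc 2 ⌊2 * X⌋₊, am Y n ^ 2 *
    (if 1 / (n : ℝ) < t ∧ t ≤ (1 + θ) / n then 1 else 0) +
      2 * ((1 + Real.log Y) * θ / t) ^ 2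

/-- LT2 (from GXB, AM2; 40 min, edit of DBC/S_LT.lean). PROOF.
`∫_{1/n}^{(1+θ)/n} t^(2σ-1) dt ≤ 4 θ n^(-2σ)`, AM2 with `N = ⌊2 X⌋`, `1 + log (2 X) ≤
2 (1 + log X)`; `∫_{1/X}^∞ t^(2σ-3) dt = X^(2-2σ)/(2-2σ) ≤ 2 X^(2-2σ)` (`σ ≤ 3/4`). -/
def T_LT2 : Prop := ∃ C : ℝ, 0 < C ∧ ∀ (Y : ℕ) (X θ σ : ℝ), 1 ≤ Y → 1 ≤ X → 0 < θ →
  3 * θ * X ≤ 1 → 1 / 2 < σ → σ ≤ 3 / 4 →
  ∫⁻ t in Ici (1 / X), ENNReal.ofReal (t ^ (2 * σ - 1) * DG Y θ t ^ 2) ≤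
    ENNReal.ofReal (C * (θ * (Y : ℝ) ^ (-(2 * σ - 1)) * (1 + Real.log X) ^ 4 +
      (1 + Real.log Y) ^ 2 * θ ^ 2 * X ^ (2 - 2 * σ)))

/-- LT3 (from VAR, GXA; 60 min). PROOF. `t = 1/x`: the inner integral is
`∫_{x > X} x^(-2σ-1) DG Y θ (1/x)² dx`. Let `E H x = ∑ μ(k) ph H k x`; by GXA `DG = -E (θ x) x`.
Dyadic blocks `Z = 2^j X`: for `x ∈ [Z, 2 Z]`
`∫_{θ₀}^{2θ₀} E(θ x, x)² dθ = (1/x) ∫_{θ₀ x}^{2 θ₀ x} E(H, x)² dH ≤ (1/Z) ∫_0^{4 θ₀ Z} E(H, x)² dH`.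
Tonelli and VAR: the block is at most `Z^(-2σ-1) (1/Z) ∫_0^{4θ₀Z} (Z H ℓ³ + Y⁴) dH =
Z^(-2σ-1) (8 θ₀² Z² ℓ³ + 4 θ₀ Y⁴)`, `ℓ = 1 + log Y`. Sum over `j`:
`∑ (2^j X)^(1-2σ) ≤ C X^(1-2σ)/(2σ-1)` and `∑ (2^j X)^(-2σ-1) ≤ 2 X^(-2σ-1)`. -/
def T_LT3 : Prop := ∃ C : ℝ, 0 < C ∧ ∀ (Y : ℕ) (X θ₀ σ : ℝ), 1 ≤ Y → 1 ≤ X → 0 < θ₀ → θ₀ ≤ 1 →
  1 / 2 < σ → σ ≤ 3 / 4 →
  ∫⁻ θ in Icc θ₀ (2 * θ₀), ∫⁻ t in Ioo 0 (1 / X),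
    ENNReal.ofReal (t ^ (2 * σ - 1) * DG Y θ t ^ 2) ≤
    ENNReal.ofReal (C * θ₀ * (θ₀ * X ^ (1 - 2 * σ) * (1 + Real.log Y) ^ 3 / (2 * σ - 1) +
      (Y : ℝ) ^ 4 * X ^ (-(2 * σ) - 1)))

/-- MM2 (from PL, MF, LT2, LT3; 60 min, compare DBC/S_MM.lean). PROOF. `θ₀ = 1/(6 X)`,
`θ ∈ [θ₀, 2 θ₀]`, `h = log (1 + θ) ∈ [θ/2, θ]`, `3 θ X ≤ 1`. For `X/2 ≤ τ ≤ 3 X`:
`h τ ∈ [1/24, 1]`, `‖exp (h s) - 1‖ ≥ e^(h σ) sin (h τ) ≥ sin (1/24) ≥ 1/30`, `‖s‖ ≤ 4 X`, so by MF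
`‖ζ Mo - 1‖ ≤ 120 X ‖mellin (DG Y θ) s‖`. Square, integrate over `τ` (PL) and average over `θ` in
`[θ₀, 2 θ₀]`: the integral is at most `C X² (1/θ₀) ∫_{θ₀}^{2θ₀} ∫_0^∞ t^(2σ-1) DG² dt dθ`. LT2, LT3:
at most `C' X² (X⁻¹ Y^(-(2σ-1)) ℓ⁴ + ℓ² X⁻² X^(2-2σ) + X⁻¹ X^(1-2σ) ℓ³/(2σ-1) + Y⁴ X^(-2σ-1))`,
`ℓ = 1 + log X`, `Y⁴ ≤ X` and `X^(2-2σ) = X X^(-(2σ-1)) ≤ X Y^(-(2σ-1))`. -/
def T_MM2 : Prop := ∃ C : ℝ, 0 < C ∧ ∀ (Y : ℕ) (X σ : ℝ), 1 ≤ Y → 4 ≤ X → (Y : ℝ) ^ 4 ≤ X →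
  1 / 2 < σ → σ ≤ 3 / 4 →
  (∫ τ in X..(2 * X), ‖riemannZeta (Pool.Agent.DBA.pt σ τ) *
    Pool.Agent.DBA.Mp Y (Pool.Agent.DBA.pt σ τ) - 1‖ ^ 2) ≤
      C * (1 + Real.log X) ^ 4 / (2 * σ - 1) * X * (Y : ℝ) ^ (-(2 * σ - 1))

/-! ### D. Almost all heights -/

/-- ZMP (from DBA REM, MVS; 30 min, edit of DBA/P_ZMS.lean). PROOF. As `p_ZMS`:
`T^(2-2σ) ≤ e² T` and `n^(1-2σ) (T + n) ≤ C T` for `n ≤ N ≤ 2 T + 1`, as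
`n^(2/log T) ≤ C`. Second: MVS with `a n = μ(n) n^(-σ)` for `n ≤ Y`. -/
def T_ZMP : Prop := ∃ C : ℝ, 0 < C ∧ ∀ T σ : ℝ, 2 ≤ T → 1 / 2 - 1 / Real.log T ≤ σ → 1 / 4 ≤ σ →
  σ ≤ 3 →
  (∫ t in T..(2 * T), ‖riemannZeta (Pool.Agent.DBA.pt σ t)‖ ^ 2) ≤
    C * T * (1 + Real.log T) ^ 3 ∧
  ∀ Y : ℕ, 1 ≤ Y → (Y : ℝ) ≤ T →
    (∫ t in T..(2 * T), ‖Pool.Agent.DBA.Mp Y (Pool.Agent.DBA.pt σ t)‖ ^ 2) ≤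
      C * T * (1 + Real.log T) ^ 3

/-- UZP (from ZMP, DBA DSC, MRK; 45 min, edit of DBA/P_SMA.lean). PROOF. `L = log X`, `r = 1/(4
L)`, box `[1/2 - r, 3]`, window `K + 1`, `V = C X L^3` (`T ≤ 2 X`, `r ≤ 1/log T`), MRK with `λ =
L^(D + 4)`: measure at most `C' X L^3/L^(D+4) ≤ X/(2 L^D)`. Outside: for `1/2 ≤ Re s ≤ 2` DSC
gives `‖ζ s‖² ≤ C (4 L)² L^(D+4) ≤ L^(2 B)`, and `‖ζ s‖ ≤ 2` for `Re s ≥ 2`. The same for `Mp Y`,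
`Y = ⌊X^(1/8)⌋`, `1/2 ≤ Re s ≤ 1`. The union of the two sets. -/
def T_UZP : Prop := ∀ K D : ℝ, 0 < K → 0 < D → ∃ B X₀ : ℝ, 0 < B ∧ ∀ X : ℝ, X₀ ≤ X →
  volume {T : ℝ | X ≤ T ∧ T ≤ 2 * X ∧ ¬ ((∀ s : ℂ, |s.im - T| ≤ K → 1 / 2 ≤ s.re →
    ‖riemannZeta s‖ ≤ Real.log X ^ B) ∧ ∀ s : ℂ, |s.im - T| ≤ K → 1 / 2 ≤ s.re → s.re ≤ 1 →
      ‖Pool.Agent.DBA.Mp ⌊X ^ (1 / 8 : ℝ)⌋₊ s‖ ≤ Real.log X ^ B)} ≤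
    ENNReal.ofReal (X / Real.log X ^ D)

/-- FSP (from MM2, DBA DSC, MRK; 45 min, edit of DBA/P_NZR.lean). PROOF. `L = log X`, `Y =
⌊X^(1/8)⌋`, so `Y⁴ ≤ X/2` and `Y ≥ X^(1/8)/2`; `r = 1/L`, box `[a, 3/4]` with `a = 1/2 + (B - 1)
log log X/L`, window `K + 1`. MM2 for `X/2`, `X`, `2 X`: for `σ ≥ a` `Y^(-(2σ-1)) ≤ 2
X^(-(2σ-1)/8) ≤ 2 L^(-(B-1)/4)`, `1/(2σ-1) ≤ L`: `V = C X L^(5 - (B-1)/4)`. MRK with `λ = r²/(4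
C')` (`C'` of DSC): measure at most `C'' X L^(7 - (B-1)/4) ≤ X/L^D` for large `B`. Outside, for
`1/2 + B log log X/L ≤ Re s ≤ 5/8`, DSC: `‖ζ Mp - 1‖² < 1/4`. -/
def T_FSP : Prop := ∀ K D : ℝ, 0 < K → 0 < D → ∃ B X₀ : ℝ, 0 < B ∧ ∀ X : ℝ, X₀ ≤ X →
  volume {T : ℝ | X ≤ T ∧ T ≤ 2 * X ∧ ¬ ∀ s : ℂ, |s.im - T| ≤ K →
    1 / 2 + B * Real.log (Real.log X) / Real.log X ≤ s.re → s.re ≤ 5 / 8 →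
      ‖riemannZeta s * Pool.Agent.DBA.Mp ⌊X ^ (1 / 8 : ℝ)⌋₊ s - 1‖ ≤ 1 / 2} ≤
    ENNReal.ofReal (X / Real.log X ^ D)

/-- BCP (from BCL; 30 min, edit of DBA/P_LZG.lean). PROOF. For `Re s ≥ 2`: `‖ζ s‖ ≥ c₀`
(`SPZ.s4`). For `5/8 ≤ Re s ≤ 2`: `s₁ = 5 + i Im s`, ball of radius `ρ = 5 - 19/32`, where
`ζ ≠ 0` and `‖ζ‖ ≤ L^B`, `L = log T`; `‖ζ s₁‖ ≥ c₀`, so Borel-Caratheodory with
`M = 2 B log L` (`T` large): `‖v‖ = 5 - Re s ≤ ρ - 1/32`, `‖h v‖ ≤ 2 M ρ * 32 ≤ C B log L`. -/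
def T_BCP : Prop := ∀ K : ℝ, 0 < K → ∃ C₁ : ℝ, 0 < C₁ ∧ ∀ B : ℝ, 1 ≤ B → ∃ T₀ : ℝ, ∀ T : ℝ,
  T₀ ≤ T →
  (∀ s : ℂ, |s.im - T| ≤ K + 6 → 1 / 2 ≤ s.re → ‖riemannZeta s‖ ≤ Real.log T ^ B) →
  (∀ s : ℂ, |s.im - T| ≤ K + 6 → 9 / 16 ≤ s.re → riemannZeta s ≠ 0) →
  ∀ s : ℂ, |s.im - T| ≤ K → 5 / 8 ≤ s.re → Real.log T ^ (-(C₁ * B)) ≤ ‖riemannZeta s‖

/-- AR3 (from DBA FIN, UZP, FSP, BCP; 40 min). PROOF. UZP with `K + 6`, `D + 1`: `B₁`; FSP with `K`,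
`D + 1`: `B₂`; FIN with `e = 1/16`, `K + 6`. `T ∈ [X, 2 X]` outside the three sets (total measure at
most `X/L^D`): `log X ≤ log T ≤ 2 log X`. `‖ζ s‖ ≤ (log X)^B₁ ≤ (log T)^B₁`. BCP with `max B₁ 1` for
`Re s ≥ 5/8`. For `1/2 + B log log T/log T ≤ Re s ≤ 5/8` (`B ≥ 2 B₂`, so
`B log log T/log T ≥ B₂ log log X/log X`): `‖ζ Mp - 1‖ ≤ 1/2`, so `‖ζ‖ ≥ 1/(2 ‖Mp‖) ≥
(log X)^(-B₁)/2 ≥ (log T)^(-B)`. -/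
def T_AR3 : Prop := T_AR2

end Pool.Agent.DBB
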