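import Pool.Agent.DBB.Defs3
import Pool.Agent.DBC.Targets2
import Pool.Agent.DBA.Targets3

/-!
# All times `t ≥ A log log T / (log T)²`: long windows and the number of exceptional zeros

(MP_4e5e8a_nt, addition to DBNFlow.) Deliver `theorem p_X : T_X` (targets named in brackets are
hypotheses) in the NEW file `Pool/Agent/DBB/P_X.lean` which imports this file, namespace
`Pool.Agent.DBB`, helper lemmas in the sub-namespace `X_`. `L = log T`, `c = t L`, `sd t T = c/4`.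
Most blocks are edits of `Pool/Agent/DBA/P_*.lean` (part 3).
-/

set_option autoImplicit false

namespace Pool.Agent.DBB

open Complex MeasureTheory Set Filter
open Pool.Agent.DBN Pool.Agent.DBC

/-- the bad heights in `[X / 2, 4 X]` -/
def SX (A c K ε X : ℝ) : Set ℝ :=
  {T : ℝ | X / 2 ≤ T ∧ T ≤ 4 * X ∧ ∃ t : ℝ, A * Real.log (Real.log T) / Real.log T ^ 2 ≤ t ∧
    t * Real.log T ≤ c ∧ ¬ CrysAt K ε t T}

/-! ### A. The number of zeros near `2 T`, uniformly for `0 < t ≤ c / log T` -/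

/-- IN3 (20 min). Elementary inequality. PROOF. If `x + u ≥ 1/2`: the left side is
`x/2 + c/16 - (u - c/4)²/c`, and half of the square gives `r²/(2 c₂)`, the other half absorbs
`κ u²/c` (`u² ≤ 2 (u - c/4)² + c²/8`). If `|x + u| < 1/2`: `u² ≥ 1/4`, the left side is
`1/4 - u²/c ≤ x/2 - 1/4 - u²/c`. If `x + u ≤ -1/2`: it is `(-x - u)/2 - u²/c ≤
-x/2 + c/16 - (|u| - c/4)²/c` with `|u| ≥ x ≥ 1`, and `-x/2 ≤ x/2 - 1`; use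
`κ u²/c ≤ (|u| - c/4)²/c + 1/2`, for small `κ`. -/
def T_IN3 : Prop := ∀ c₂ r : ℝ, 0 < c₂ → 0 < r → ∃ g κ : ℝ, 0 < g ∧ 0 < κ ∧ ∀ c x u : ℝ, 0 < c →
  c ≤ c₂ → 1 ≤ x → r ≤ |u - c / 4| →
    max (|x + u| / 2) (1 / 4) - u ^ 2 / c ≤ c / 16 + x / 2 - g - κ * (u ^ 2 / c)

/-- LW3 (from LOC, GAU, IN3; 60 min). Lower bound. PROOF. `flow t s = (√(π t))⁻¹ ∫_ℝ e^(-u²/t)
xi (s + u) du` (see the proof of SPL, DBC/P_SPL.lean, or add SPL: `W t s + W t (1 - s)`), `s = pt x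
τ`, `s' = s + sd t T`, `Re s' ≥ 3/2`. `r` from LOC (`δ = 1/2`). The part `|u - sd| < r`:
`NEA_.local_est` (DBC/P_NEA.lean) and GAU give `e^(-sd²/t) xi s' (√(π t) + o(√t))` uniformly
(`t ≤ c₂/L → 0`; `NEA_.small_err`), and `‖xi s'‖ ≥ C⁻¹ size T * T^(x/2 + c/8)`,
`e^(-sd²/t) = T^(-c/16)`: norm at least `c₃ √t size T * T^(c/16 + x/2)`. The part `|u - sd| ≥ r`:
`xi_quarter_le` (DBN/ZA.lean) with `ε = g/4` and `κ'` small (`κ' ‖w‖² L ≤ κ u²/(2 t) + g L/4`,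
`1/t ≥ L/c₂`) and IN3: at most `C size T * T^(c/16 + x/2 - g/2) ∫ e^(-κ u²/(2 t)) du`, the integral
is `C' √t`. So `‖flow‖ ≥ c₄ size T * T^(x/2) ≥ size T` for large `T`. -/
def T_LW3 : Prop := ∀ c₂ K : ℝ, 0 < c₂ → 0 < K → ∃ T₀ : ℝ, 2 ≤ T₀ ∧
  ∀ t T x τ : ℝ, T₀ ≤ T → 0 < t → t * Real.log T ≤ c₂ → 1 ≤ x → x ≤ K →
    |τ - T| ≤ K → size T ≤ ‖flow t (Pool.Agent.DBC.pt x τ)‖

/-- UW3 (from SPL, CNJ; 30 min, edit of DBA/P_UPX.lean). PROOF. As `p_UPX`, with the Gaussian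
integral `∫_0^∞ e^(-κ u²/t) du ≤ C √t` in place of `∫ e^(-κ u²) du` (`t ≤ 1`), so that
`(√(π t))⁻¹` is cancelled. -/
def T_UW3 : Prop := ∀ c₂ K : ℝ, 0 < c₂ → 0 < K → ∃ A T₀ : ℝ, 0 < A ∧ 2 ≤ T₀ ∧
  ∀ t T x τ : ℝ, T₀ ≤ T → 0 < t → t * Real.log T ≤ c₂ → |x| ≤ K → |τ - T| ≤ K →
    ‖flow t (Pool.Agent.DBC.pt x τ)‖ ≤ size T * T ^ A

/-- JN3 (from LW3, UW3; 10 min, copy of DBA/P_JNX.lean). -/
def T_JN3 : Prop := ∀ c₂ K : ℝ, 0 < c₂ → 0 < K → ∃ C T₀ : ℝ, 0 < C ∧ 2 ≤ T₀ ∧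
  ∀ t T : ℝ, T₀ ≤ T → 0 < t → t * Real.log T ≤ c₂ →
    (zeroCount (H t) (2 * T) K : ℝ) ≤ C * Real.log T

/-! ### B. Counting and covering -/

/-- MX3 (20 min, edit of DBA/P_MAX.lean). PROOF. `SX` is contained in the union of the three sets of
`Sharp` (with `D + 1`) for `X/2`, `X`, `2 X`; `Y/(log Y)^(D+1) ≤ 2 X/(log X/2)^(D+1)` for each of
them, so the sum is at most `6 X 2^(D+1)/(log X)^(D+1) ≤ X/(log X)^D` for `X` large. -/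
def T_MX3 : Prop := ∀ c : ℝ, Sharp c → ∀ K ε D : ℝ, 0 < K → 0 < ε → 0 < D →
  ∃ A X₀ : ℝ, 0 < A ∧ 2 ≤ X₀ ∧ ∀ X : ℝ, X₀ ≤ X →
    volume (SX A c K ε X) ≤ ENNReal.ofReal (X / Real.log X ^ D)

/-- CI3 (20 min, edit of DBA/P_CIA.lean). PROOF. For `|T'' - z.re/2| ≤ 1/2`: `X/2 ≤ T'' ≤ 4 X`,
`log X/2 ≤ log T'' ≤ 2 log X`, and for large `X` `A log log T''/(log T'')² ≤
2 A log log X/(log X)² ≤ t` (`log T''/log X → 1`); `‖z - 2 T''‖ ≤ K + 1`. -/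
def T_CI3 : Prop := ∀ A c K : ℝ, 0 < A → 0 < c → 0 < K → ∃ X₀ : ℝ, 2 ≤ X₀ ∧
  ∀ (t X : ℝ) (z : ℂ), X₀ ≤ X → 2 * A * Real.log (Real.log X) / Real.log X ^ 2 ≤ t →
    t * Real.log X ≤ c → H t z = 0 →
    X ≤ z.re / 2 → z.re / 2 ≤ 2 * X → |z.im| ≤ K → (z.im = 0 → deriv (H t) z = 0) →
    Icc (z.re / 2 - 1 / 2) (z.re / 2 + 1 / 2) ⊆ SX A (2 * c) (K + 2) 1 X

/-- CN3 (from DBA CVJ, DBA ORD, MX3, CI3, JN3; 40 min, edit of DBA/P_CNF.lean). PROOF. MX3 for `2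
c`, `K + 2`, `1`, `D + 2` gives `A`; the time constant of the claim is `2 A`. As `p_CNF`: `card J
≤ 2 X/(log X)^(D+2)` (CVJ), each `j` contributes at most `C log (2 X)` (ORD, JN3 for `T = j/2`, `2
c`, `K + 1`; `t > 0`, `t log (j/2) ≤ 2 c`). -/
def T_CN3 : Prop := ∀ c : ℝ, 0 < c → Sharp (2 * c) → SharpFew c

/-- WI3 (40 min, edit of DBA/P_WIA.lean). PROOF. As `p_WIA`, with `R = (log T)^D ≤ (log (2 X))^D` in
place of `T^δ`, and `A log log T''/(log T'')² ≤ 2 A log log T/(log T)² ≤ t` for large `X`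
(`|T'' - T| ≤ (log (2 X))^D + 1`). -/
def T_WI3 : Prop := ∀ A c K ε D : ℝ, 0 < A → 0 < c → 0 < K → 0 < ε → 0 < D →
  ∃ X₀ : ℝ, 2 ≤ X₀ ∧ ∀ X T : ℝ, X₀ ≤ X → X ≤ T → T ≤ 2 * X →
    (∃ t : ℝ, 2 * A * Real.log (Real.log T) / Real.log T ^ 2 ≤ t ∧ t * Real.log T ≤ c ∧
      ¬ CrysR (Real.log T ^ D) K ε t T) →
    ∃ T' : ℝ, |T' - T| ≤ Real.log (2 * X) ^ D ∧
      Icc (T' - 1 / 2) (T' + 1 / 2) ⊆ SX A (2 * c) (K + 2) (ε / 2) X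

/-- WD3 (from DBA COV, MX3, WI3; 25 min, edit of DBA/P_WID.lean). PROOF. MX3 for `2 c`, `K + 2`,
`ε/2`, `2 D + 1`; COV with `R = (log (2 X))^D`, `V = X/(log X)^(2D+1)`:
`4 (R + 1) V ≤ X/(log X)^D` for large `X`. -/
def T_WD3 : Prop := ∀ c : ℝ, 0 < c → Sharp (2 * c) → SharpWide c

end Pool.Agent.DBB
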