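import Pool.Agent.DBB.Defs4
import Pool.Agent.DBB.Targets2
import Pool.Agent.DBB.Targets3

/-!
# The uniform version: targets

(MP_4e5e8a_nt, addition to DBNFlow.) All blocks are edits of landed files `Pool/Agent/DBB/P_*.lean`.
Deliver `theorem p_X : T_X` (targets named in brackets are hypotheses) in the NEW file
`Pool/Agent/DBB/P_X.lean` which imports this file, namespace `Pool.Agent.DBB`, helper lemmas in the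
sub-namespace `X_`. There `L = log X`, `m = t₀ L²`, `λ = log log X`.
-/

set_option autoImplicit false

namespace Pool.Agent.DBB

open Complex MeasureTheory Set Filter
open Pool.Agent.DBN Pool.Agent.DBC

/-! ### A. Arithmetic -/

/-- UZ4 (from ZMP, DBA DSC, MRK; 30 min, edit of P_UZP.lean). PROOF. As `p_UZP` with `λ = v²/L²` in
MRK: measure at most `C X L³ L²/v²` twice, `≤ X L⁶/v²` for `X` large; outside DSC gives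
`‖ζ s‖² ≤ C' (4 L)² v²/L² = 16 C' v²`. `‖ζ s‖ ≤ 2 ≤ C v` for `Re s ≥ 2`. -/
def T_UZ4 : Prop := ∀ K : ℝ, 0 < K → ∃ C X₀ : ℝ, 0 < C ∧ ∀ X v : ℝ, X₀ ≤ X → 1 ≤ v →
  volume {T : ℝ | X ≤ T ∧ T ≤ 2 * X ∧ ¬ ((∀ s : ℂ, |s.im - T| ≤ K → 1 / 2 ≤ s.re →
    ‖riemannZeta s‖ ≤ C * v) ∧ ∀ s : ℂ, |s.im - T| ≤ K → 1 / 2 ≤ s.re → s.re ≤ 1 →
      ‖Pool.Agent.DBA.Mp ⌊X ^ (1 / 8 : ℝ)⌋₊ s‖ ≤ C * v)} ≤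
    ENNReal.ofReal (X * Real.log X ^ 6 / v ^ 2)

/-- FS4 (from MM2, DBA DSC, MRK; 30 min, edit of P_FSP.lean). PROOF. As `p_FSP`, box
`[1/2 + y, 3/4]`, `r = 1/L ≤ y` (`λ ≥ 1`), `Y^(-(2σ-1)) ≤ 2 X^(-y/4)` for `σ ≥ 1/2 + y`
(`Y ≥ X^(1/8)/2`), `1/(2σ-1) ≤ L`: `V = C X L⁵ X^(-y/4)`, MRK with `λ = r²/(4 C')`: measure at most
`C'' X L⁷ X^(-y/4) ≤ X L⁸ X^(-y/4)`. -/
def T_FS4 : Prop := ∀ K : ℝ, 0 < K → ∃ X₀ : ℝ, ∀ X y : ℝ, X₀ ≤ X →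
  Real.log (Real.log X) / Real.log X ≤ y → y ≤ 1 / 16 →
  volume {T : ℝ | X ≤ T ∧ T ≤ 2 * X ∧ ¬ ∀ s : ℂ, |s.im - T| ≤ K → 1 / 2 + 2 * y ≤ s.re →
    s.re ≤ 5 / 8 → ‖riemannZeta s * Pool.Agent.DBA.Mp ⌊X ^ (1 / 8 : ℝ)⌋₊ s - 1‖ ≤ 1 / 2} ≤
    ENNReal.ofReal (X * Real.log X ^ 8 * X ^ (-(y / 4)))

/-- BC4 (from BCL; 20 min, edit of P_BCP.lean). PROOF. As `p_BCP` with `v` in place of
`(log T)^B`: `M = 2 log v` (`v/c₀ ≤ v²` as `v ≥ log T ≥ 1/c₀`). -/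
def T_BC4 : Prop := ∀ K : ℝ, 0 < K → ∃ C₁ T₀ : ℝ, 0 < C₁ ∧ ∀ T v : ℝ, T₀ ≤ T → Real.log T ≤ v →
  (∀ s : ℂ, |s.im - T| ≤ K + 6 → 1 / 2 ≤ s.re → ‖riemannZeta s‖ ≤ v) →
  (∀ s : ℂ, |s.im - T| ≤ K + 6 → 9 / 16 ≤ s.re → riemannZeta s ≠ 0) →
  ∀ s : ℂ, |s.im - T| ≤ K → 5 / 8 ≤ s.re → Real.exp (-(C₁ * Real.log v)) ≤ ‖riemannZeta s‖

/-- bounds `exp (± a m)` for `ζ` near the height `T` -/
def PE (a K X m T : ℝ) : Prop := ∀ s : ℂ, |s.im - T| ≤ K → s.re ≤ K →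
  (1 / 2 ≤ s.re → ‖riemannZeta s‖ ≤ Real.exp (a * m)) ∧
  (1 / 2 + a * m / Real.log X ≤ s.re → Real.exp (-(a * m)) ≤ ‖riemannZeta s‖)

/-- AR4 (from DBA FIN, UZ4, FS4, BC4; 45 min, edit of P_AR3.lean). PROOF. `C₁` from BC4 (`K`), `C`
from UZ4 (`K + 6`); `b = a/(4 (C₁ + 1))`, `v = exp (b m)`; `C v ≤ exp (2 b m)` and
`C v ≥ log T` for `m ≥ A λ`, `A`, `X` large. `y = β m/L`, `β = min (a/2) (1/(16 c))`: `y ≤ 1/16`,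
`y ≥ λ/L` for `A ≥ 1/β`, `2 y ≤ a m/L`. The exceptional sets: UZ4 `X L⁶ exp (-2 b m)`, FS4
`X L⁸ exp (-β m/4)` (`X^(-y/4) = exp (-y L/4)`), FIN (`e = 1/16`, `K + 6`) `X^(1-d) ≤
X exp (-d m/c)`; `L⁸ = exp (8 λ) ≤ exp (8 m/A)`; so the sum is at most `X exp (-κ m)`,
`κ = min b (min (β/8) (d/(2 c)))/2`, `A` large. Outside: `‖ζ‖ ≤ C v ≤ exp (a m)`; for `Re s ≥ 5/8`
BC4 with `C v`: `‖ζ‖ ≥ exp (-C₁ 2 b m) ≥ exp (-a m)`; for `1/2 + a m/L ≤ Re s ≤ 5/8`: `‖ζ Mp - 1‖ ≤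
1/2`, so `‖ζ‖ ≥ 1/(2 C v) ≥ exp (-a m)`. -/
def T_AR4 : Prop := ∀ K a c : ℝ, 0 < K → 0 < a → 0 < c → ∃ A κ X₀ : ℝ, 0 < A ∧ 0 < κ ∧
  ∀ X m : ℝ, X₀ ≤ X → A * Real.log (Real.log X) ≤ m → m ≤ c * Real.log X →
    volume {T : ℝ | X ≤ T ∧ T ≤ 2 * X ∧ ¬ PE a K X m T} ≤
      ENNReal.ofReal (X * Real.exp (-(κ * m)))

/-- FN4 (from DG2, AR4; 25 min, edit of P_FN2.lean). PROOF. `n` from DG2 (`c₂ = c`); AR4 with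
`a = 1/(n + 1)`, `K = n + 1`, `m = t₀ L²` (`≤ c L`). For `T` outside the set, `t ≥ t₀`:
`mt t T = t (log T)² ≥ m`, `t log T ≥ t₀ log X = m/L`, so `Lv n t T` (`n ≤ mt t T` as
`m ≥ A λ` is large), and DG2 (`n ≤ T`). -/
def T_FN4 : Prop := ∀ c : ℝ, 0 < c → Uni c

/-! ### B. Windows and counting -/

/-- the bad heights in `[X / 2, 4 X]` -/
def UX (t₀ c K ε X : ℝ) : Set ℝ :=
  {T : ℝ | X / 2 ≤ T ∧ T ≤ 4 * X ∧ ∃ t : ℝ, t₀ ≤ t ∧ t * Real.log T ≤ c ∧ ¬ CrysAt K ε t T}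

/-- MX4 (25 min, edit of P_MX3.lean). PROOF. `UX` is contained in the union of the three sets of
`Uni` for `Y = X/2`, `X`, `2 X` and the same `t₀`: `A₀ log log Y/(log Y)² ≤
5 A₀ log log X/L² ≤ t₀` with `A = 5 A₀` for `X` large, `t₀ log Y ≤ c`, and
`Y exp (-κ₀ t₀ (log Y)²) ≤ 2 X exp (-κ₀ t₀ L²/4)` (`log Y ≥ L/2`). `6 exp (-κ₀ m/4) ≤
exp (-κ₀ m/8)` since `m ≥ A λ` is large. -/
def T_MX4 : Prop := ∀ c : ℝ, Uni c → ∀ K ε : ℝ, 0 < K → 0 < ε → ∃ A κ X₀ : ℝ, 0 < A ∧ 0 < κ ∧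
  2 ≤ X₀ ∧ ∀ X t₀ : ℝ, X₀ ≤ X → A * Real.log (Real.log X) / Real.log X ^ 2 ≤ t₀ →
    t₀ * Real.log (2 * X) ≤ c →
    volume (UX t₀ c K ε X) ≤ ENNReal.ofReal (X * Real.exp (-(κ * (t₀ * Real.log X ^ 2))))

/-- CI4 (15 min, edit of P_CI3.lean). PROOF. For `|T'' - z.re/2| ≤ 1/2`: `X/2 ≤ T'' ≤ 4 X`,
`0 < log T'' ≤ 2 log X`, so `t log T'' ≤ 2 c`; `‖z - 2 T''‖ ≤ K + 1`. -/
def T_CI4 : Prop := ∀ c K : ℝ, 0 < c → 0 < K → ∃ X₀ : ℝ, 2 ≤ X₀ ∧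
  ∀ (t X : ℝ) (z : ℂ), X₀ ≤ X → 0 < t → t * Real.log X ≤ c → H t z = 0 →
    X ≤ z.re / 2 → z.re / 2 ≤ 2 * X → |z.im| ≤ K → (z.im = 0 → deriv (H t) z = 0) →
    Icc (z.re / 2 - 1 / 2) (z.re / 2 + 1 / 2) ⊆ UX t (2 * c) (K + 2) 1 X

/-- CN4 (from DBA CVJ, DBA ORD, MX4, CI4, JN3; 30 min, edit of P_CN3.lean). PROOF. MX4 for `2 c`,
`K + 2`, `1`, `t₀ = t` (`t log (2 X) ≤ 2 c`); `card J ≤ 2 X exp (-κ₀ m)`, each `j` contributes at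
most `C log (2 X)`, and `2 C log (2 X) ≤ exp (κ₀ m/2)` as `m ≥ A λ`, `A` large. -/
def T_CN4 : Prop := ∀ c : ℝ, 0 < c → Uni (2 * c) → UniFew c

/-- WI4 (30 min, edit of P_WI3.lean). PROOF. `R = exp (κ m) ≤ X^(1/4)` as `κ c ≤ 1/4`; as `p_WI3`
(`|log T'' - log T| ≤ ε/8` for `|T'' - T| ≤ R + 1`, `t log T'' ≤ 2 c`). -/
def T_WI4 : Prop := ∀ c K ε κ : ℝ, 0 < c → 0 < K → 0 < ε → 0 < κ → κ * c ≤ 1 / 4 →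
  ∃ X₀ : ℝ, 2 ≤ X₀ ∧ ∀ X T t₀ : ℝ, X₀ ≤ X → X ≤ T → T ≤ 2 * X → 0 < t₀ → t₀ * Real.log X ≤ c →
    (∃ t : ℝ, t₀ ≤ t ∧ t * Real.log T ≤ c ∧
      ¬ CrysR (Real.exp (κ * (t₀ * Real.log X ^ 2))) K ε t T) →
    ∃ T' : ℝ, |T' - T| ≤ Real.exp (κ * (t₀ * Real.log X ^ 2)) ∧
      Icc (T' - 1 / 2) (T' + 1 / 2) ⊆ UX t₀ (2 * c) (K + 2) (ε / 2) X

/-- WD4 (from DBA COV, MX4, WI4; 25 min, edit of P_WD3.lean). PROOF. MX4 for `2 c`, `K + 2`, `ε/2`: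
`κ₀`; `κ = min (κ₀/4) (1/(4 c))`; COV with `R = exp (κ m)`, `V = X exp (-κ₀ m)`:
`4 (R + 1) V ≤ 8 X exp (-(κ₀ - κ) m) ≤ X exp (-κ m)` as `m ≥ A λ` is large. -/
def T_WD4 : Prop := ∀ c : ℝ, 0 < c → Uni (2 * c) → UniWide c

end Pool.Agent.DBB
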