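import Pool.Agent.DBB.Defs5
import Pool.Agent.DBB.Targets

/-!
# The time scale `1 / (log X)²`: targets of the local part and of the counting

(MP_4e5e8a_nt, addition to DBNFlow.) Deliver `theorem p_X : T_X` (targets named in brackets are
hypotheses) in the NEW file `Pool/Agent/DBB/P_X.lean` which imports this file, namespace
`Pool.Agent.DBB`, helper lemmas in the sub-namespace `X_`. All targets of part A are edits of the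
landed files `Pool/Agent/DBB/P_*2.lean`: pairs `(t, T)` become triples `(t, T, k)`, all sizes get
the factor `k > 0` (`k ≥ T⁻²`), the windows `K` become `K q`, where `L = log T`, `q = t L ≤ c₂`,
`m = t L² = mt t T`. Always `q²/t = m`. Constants are absorbed by `exp (ε m)` (field `big`).
-/

set_option autoImplicit false

namespace Pool.Agent.DBB

open Complex MeasureTheory Set Filter
open Pool.Agent.DBN Pool.Agent.DBC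

/-! ### A. Local part -/

/-- XU5 (30 min, edit of P_XU2.lean). PROOF. Field `up` with `ε/2`, `2 K` for
`w' = |Re w| + i Im w`, `‖w'‖ = ‖w‖ ≤ 2 K`; the rest as in P_XU2 with the factor
`k exp (ε/2 ‖w‖²/t)`. -/
def T_XU5 : Prop := ∀ (G : Set (ℝ × ℝ × ℝ)) (c₂ : ℝ), HypR G c₂ → ∀ ε K : ℝ, 0 < ε → 0 < K →
  ∃ T₀ : ℝ, 2 ≤ T₀ ∧ ∀ (t T k : ℝ) (w : ℂ), (t, T, k) ∈ G → T₀ ≤ T → |w.re| ≤ K →
    |w.im| ≤ K → ‖xi (1 / 2 + T * I + w)‖ ≤ k * (size T *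
      Real.exp (|w.re| / 2 * Real.log T + ε * (mt t T + ‖w‖ ^ 2 / t)))

/-- XB5 (35 min, edit of P_XB2.lean). PROOF. `w = s - 1/2 - i T`, `0 ≤ Re w ≤ K q`,
`|Im w| ≤ K q`, `‖w‖²/t ≤ 2 K² q²/t = 2 K² m`, `‖w‖ ≤ 2 K c₂`. Field `up` with
`ε/(2 (1 + 2 K²))`, `2 K c₂ + 1`, field `lo` with `ε/2`, `K`; otherwise as P_XB2 with `K c₂ + 1` in
place of `K`. -/
def T_XB5 : Prop := ∀ (G : Set (ℝ × ℝ × ℝ)) (c₂ : ℝ), HypR G c₂ → ∀ ε K : ℝ, 0 < ε → 0 < K →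
  ∃ T₀ : ℝ, 2 ≤ T₀ ∧ ∀ (t T k : ℝ) (s : ℂ), (t, T, k) ∈ G → T₀ ≤ T →
    1 / 2 + ε * (t * Real.log T) ≤ s.re → s.re ≤ 1 / 2 + K * (t * Real.log T) →
    |s.im - T| ≤ K * (t * Real.log T) →
    k * (size T * Real.exp ((s.re - 1 / 2) / 2 * Real.log T - ε * mt t T)) ≤ ‖xi s‖ ∧
      ‖xi s‖ ≤ k * (size T * Real.exp ((s.re - 1 / 2) / 2 * Real.log T + ε * mt t T))

/-- BD5 (from XU5; 45 min, edit of P_BD2.lean). PROOF. `w = y + u + i (τ - T)`,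
`‖w‖² ≤ 2 u² + 3 K² q²`, `‖w‖²/t ≤ 2 u²/t + 3 K² m`. For `u ≤ U`: XU5 with
`ε₁ = ε/(2 (1 + 3 K²))` and `2 K c₂ + U`: the exponent is at most `ε m + ε u²/t`. For `u ≥ U`:
`xi_quarter_le` (DBN/ZA.lean) with `ε = 1`, `κ = ε/(8 c₂)`, `T^(-2) ≤ k` and
`max (|y+u|/2) (1/4) ≤ |y+u|/2 + 1/4`: it remains `C T^(5/4 + 2) exp (κ (2 u² + 3 K² c₂²) L) ≤
exp (ε u²/t)`, true since `u²/t ≥ u² L/c₂`, if `U` and `T` are large. -/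
def T_BD5 : Prop := ∀ (G : Set (ℝ × ℝ × ℝ)) (c₂ : ℝ), HypR G c₂ → ∀ ε K : ℝ, 0 < ε → ε ≤ 1 →
  0 < K → ∃ T₀ : ℝ, 2 ≤ T₀ ∧ ∀ t T k y τ u : ℝ, (t, T, k) ∈ G → T₀ ≤ T →
    |y| ≤ K * (t * Real.log T) → |τ - T| ≤ K * (t * Real.log T) → 0 ≤ u →
    Real.exp (-(u ^ 2 / t)) * ‖xi (Pool.Agent.DBC.pt y τ + u)‖ ≤ k * (size T *
      Real.exp (|y + u| / 2 * Real.log T - (1 - ε) * (u ^ 2 / t) + ε * mt t T))

/-- OA5 (from BD5, INE; 20 min, edit of P_OA2.lean). -/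
def T_OA5 : Prop := ∀ (G : Set (ℝ × ℝ × ℝ)) (c₂ : ℝ), HypR G c₂ → ∀ K : ℝ, 0 < K → ∃ g : ℝ,
  0 < g ∧ EvR G K (1 / 64) (fun t T k x τ =>
    ∫ u in Ioi (0 : ℝ) \ Ioo (sd t T - t * Real.log T / 64) (sd t T + t * Real.log T / 64),
      Real.exp (-(u ^ 2 / t)) * ‖xi (Pool.Agent.DBC.pt x τ + u)‖ ≤ √t * (k * EE t T x (-g)))

/-- OB5 (from BD5, INE; 20 min, edit of P_OB2.lean). -/
def T_OB5 : Prop := ∀ (G : Set (ℝ × ℝ × ℝ)) (c₂ : ℝ), HypR G c₂ → ∀ K δ : ℝ, 0 < K → 0 < δ →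
  ∃ g T₀ : ℝ, 0 < g ∧ 2 ≤ T₀ ∧ ∀ t T k x τ : ℝ, (t, T, k) ∈ G → T₀ ≤ T →
    δ * (t * Real.log T) ≤ x → x ≤ K * (t * Real.log T) → |τ - T| ≤ K * (t * Real.log T) →
    ‖W t (Pool.Agent.DBC.pt (-x) τ)‖ ≤ √t * (k * EE t T x (-g))

/-- UP5 (from BD5, INE; 20 min, edit of P_UP2.lean). -/
def T_UP5 : Prop := ∀ (G : Set (ℝ × ℝ × ℝ)) (c₂ : ℝ), HypR G c₂ → ∀ K ε : ℝ, 0 < K → 0 < ε →
  EvR G K (1 / 64) (fun t T k x τ =>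
    ‖W t (Pool.Agent.DBC.pt x τ)‖ ≤ √t * (k * EE t T x ε))

/-- NE5 (from BCL, SDH, XB5; 35 min, edit of P_NE2.lean; you may import P_NE2 for the lemmas of
`NE2_`). XB5 with `K + 2`: for `‖v‖ < q/16` the point `s' + v` has the real part at most
`1/2 + (K + 1/4 + 1/16) q`, and `|τ + Im v - T| ≤ (K + 1) q`. -/
def T_NE5 : Prop := ∀ (G : Set (ℝ × ℝ × ℝ)) (c₂ : ℝ), HypR G c₂ → ∀ K ε : ℝ, 0 < K → 0 < ε →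
  EvR G K (1 / 64) (fun t T k x τ => √t * (k * EE t T x (-ε)) ≤
    ‖∫ u in Ioo (sd t T - t * Real.log T / 64) (sd t T + t * Real.log T / 64),
      ((Real.exp (-(u ^ 2 / t)) : ℝ) : ℂ) * xi (Pool.Agent.DBC.pt x τ + u)‖)

/-- LO5 (from IGR, NE5, OA5; 20 min, edit of P_LO2.lean). -/
def T_LO5 : Prop := ∀ (G : Set (ℝ × ℝ × ℝ)) (c₂ : ℝ), HypR G c₂ → ∀ K ε : ℝ, 0 < K → 0 < ε →
  EvR G K (1 / 64) (fun t T k x τ =>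
    √t * (k * EE t T x (-ε)) ≤ ‖W t (Pool.Agent.DBC.pt x τ)‖)

/-- GD5 (from BCL, DER, UP5, LO5; 25 min, edit of P_GD2.lean). UP5, LO5 with `K + 1` in place of
`K + c₂` (`δ = q/128 ≤ q`). -/
def T_GD5 : Prop := ∀ (G : Set (ℝ × ℝ × ℝ)) (c₂ : ℝ), HypR G c₂ → ∀ K ε : ℝ, 0 < K → 0 < ε →
  EvR G K (1 / 128) (fun t T k x τ => W t (Pool.Agent.DBC.pt x τ) ≠ 0 ∧
    ‖deriv (W t) (Pool.Agent.DBC.pt x τ) -
      (Real.log T / 2 : ℝ) * W t (Pool.Agent.DBC.pt x τ)‖ ≤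
      ε * Real.log T * ‖W t (Pool.Agent.DBC.pt x τ)‖ ∧
    √t * (k * EE t T x (-ε)) ≤ ‖W t (Pool.Agent.DBC.pt x τ)‖)

/-- CM5 (from DER, GD5, OB5; 15 min, edit of P_CM2.lean). -/
def T_CM5 : Prop := ∀ (G : Set (ℝ × ℝ × ℝ)) (c₂ : ℝ), HypR G c₂ → ∀ K : ℝ, 0 < K → ∃ T₀ : ℝ,
  2 ≤ T₀ ∧ ∀ t T k x τ : ℝ, (t, T, k) ∈ G → T₀ ≤ T → 0 < x → x ≤ K * (t * Real.log T) →
    |τ - T| ≤ K * (t * Real.log T) →
    ‖W t (Pool.Agent.DBC.pt (-x) τ)‖ < ‖W t (Pool.Agent.DBC.pt x τ)‖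

/-- ZE5 (from SPL, CNJ, DER, GD5, CM5; 10 min, edit of P_ZE2.lean). -/
def T_ZE5 : Prop := ∀ (G : Set (ℝ × ℝ × ℝ)) (c₂ : ℝ), HypR G c₂ → ∀ K : ℝ, 0 < K → ∃ T₀ : ℝ,
  2 ≤ T₀ ∧ ∀ t T k x τ : ℝ, (t, T, k) ∈ G → T₀ ≤ T → |x| ≤ K * (t * Real.log T) →
    |τ - T| ≤ K * (t * Real.log T) →
    flow t (Pool.Agent.DBC.pt x τ) = 0 → x = 0 ∧ deriv (flow t) (Pool.Agent.DBC.pt x τ) ≠ 0

/-- SP5 (from SPL, CNJ, DER, GD5, ANG; 20 min, edit of P_SP2.lean). The interval `[y, y + 1]`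
becomes `[y, y + q]` (GD5 with `K + 1`); `(2 π + ε)/L ≤ q` since `m = q L ≥ 2 π + ε` by `big`. -/
def T_SP5 : Prop := ∀ (G : Set (ℝ × ℝ × ℝ)) (c₂ : ℝ), HypR G c₂ → ∀ K ε : ℝ, 0 < K → 0 < ε →
  ∃ T₀ : ℝ, 2 ≤ T₀ ∧ ∀ t T k y : ℝ, (t, T, k) ∈ G → T₀ ≤ T → |y - T| ≤ K * (t * Real.log T) →
    (∀ y' : ℝ, y < y' → flow t (Pool.Agent.DBC.pt 0 y) = 0 →
      flow t (Pool.Agent.DBC.pt 0 y') = 0 → 2 * Real.pi - ε ≤ (y' - y) * Real.log T) ∧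
    ∃ y' : ℝ, y ≤ y' ∧ (y' - y) * Real.log T ≤ 2 * Real.pi + ε ∧
      flow t (Pool.Agent.DBC.pt 0 y') = 0

/-- HT5 (from ZE5, SP5; 10 min, edit of P_HT2.lean). -/
def T_HT5 : Prop := ∀ (G : Set (ℝ × ℝ × ℝ)) (c₂ : ℝ), HypR G c₂ → ∀ K ε : ℝ, 0 < K → 0 < ε →
  ∃ T₀ : ℝ, 2 ≤ T₀ ∧ ∀ t T k : ℝ, (t, T, k) ∈ G → T₀ ≤ T → CrysS K ε t T

/-- DG5 (from HT5; 30 min, edit of P_DG2.lean). `G` is the set of the triples `(t n, T n, k n)`,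
`k n` the number `ν` of `RLv n (t n) (T n)`. -/
def T_DG5 : Prop := ∀ c₂ K ε : ℝ, 0 < c₂ → 0 < K → 0 < ε → ∃ n : ℕ, ∀ t T : ℝ, (n : ℝ) ≤ T →
  t * Real.log T ≤ c₂ → RLv n t T → CrysS K ε t T

/-! ### B. Measure and counting -/

/-- the arithmetic part (project DBS, helper11) -/
def T_ARR : Prop := ∀ (n : ℕ) (c δ : ℝ), 0 < c → 0 < δ → ∃ A X₀ : ℝ, 0 < A ∧ ∀ t X : ℝ,
  X₀ ≤ X → A ≤ t * Real.log X ^ 2 → t * Real.log X ≤ c →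
  volume {T : ℝ | X ≤ T ∧ T ≤ 2 * X ∧ ¬ RLv n t T} ≤ ENNReal.ofReal (δ * X)

/-- SC5 (from DG5, ARR; 15 min). PROOF. `n` from DG5 with `c₂ = 2 c` (`t log T ≤ t log (2 X) ≤
2 t log X` for `X ≥ 2`), then ARR with `δ = η`; monotonicity of the measure, `X ≥ n`. -/
def T_SC5 : Prop := ∀ c : ℝ, 0 < c → Scale c

/-- CEL (45 min). Elementary counting. PROOF. Let `ε ≤ 1`, `η = min 1 (ε/4)`,
`δ = ε η/(64 π)`, `l = (4 π + 2 η)/L`, `L = log X`, `N = ⌊2 X/l⌋`. For `k < N` let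
`S k = [X + k l/2, X + k l/2 + η/(4 L)]`; these are disjoint subsets of `[X, 2 X]` with the measure
`η/(4 L)`. If `S k ⊄ B`, choose `T ∈ S k`, `T ∉ B` and `x`: `2 X + k l ≤ 2 T ≤ x ≤
2 T + (4 π + η)/L ≤ 2 X + k l + η/(2 L) + (4 π + η)/L < 2 X + (k + 1) l`, since
`log T ≥ log X`; so different `k` give different `x`, all in `[2 X, 4 X]`. The number of the `k` with
`S k ⊆ B` is at most `δ X/(η/(4 L)) = 4 δ X L/η = ε X L/(16 π)`. So `F` has at least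
`2 X L/(4 π + 2 η) - 1 - ε X L/(16 π) ≥ (1 - ε) X L/(2 π)` elements, `X` large
(`1/(4 π + 2 η) ≥ (1 - η/(2 π))/(4 π)`). -/
def T_CEL : Prop := ∀ ε : ℝ, 0 < ε → ∃ δ η X₀ : ℝ, 0 < δ ∧ 0 < η ∧ 2 ≤ X₀ ∧
  ∀ (X : ℝ) (B : Set ℝ) (P : ℝ → Prop), X₀ ≤ X → volume B ≤ ENNReal.ofReal (δ * X) →
    (∀ T : ℝ, X ≤ T → T ≤ 2 * X → T ∉ B → ∃ x : ℝ, 2 * T ≤ x ∧
      (x - 2 * T) * Real.log T ≤ 4 * Real.pi + η ∧ P x) →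
    ∃ F : Finset ℝ, (∀ x ∈ F, P x ∧ 2 * X ≤ x ∧ x ≤ 4 * X) ∧
      (1 - ε) * (X * Real.log X / (2 * Real.pi)) ≤ (F.card : ℝ)

/-- MC5 (from SC5, CEL; 20 min). PROOF. `δ`, `η` from CEL, Scale with `K = 1`, `ε = η`, `η = δ`,
`B = {T | X ≤ T ∧ T ≤ 2 X ∧ ¬ CrysS 1 η t T}`, `P x = (H t x = 0 ∧ deriv (H t) x ≠ 0)`. For
`T ∉ B` the third part of `CrysS` with `x = 2 T` gives `y`, and `y - 2 T ≤ (4 π + η)/log T ≤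
t log T` since `t (log T)² ≥ t (log X)² ≥ A ≥ 4 π + η` (increase `A`), so the first part gives
`deriv ≠ 0`. -/
def T_MC5 : Prop := ∀ c : ℝ, 0 < c → ManyReal3 c

end Pool.Agent.DBB
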