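import Pool.Agent.DBB.Targets5

/-!
# Two times: the flow at the time `t` on the scale of a later time `t'`

(MP_4e5e8a_nt, addition to DBNFlow, local part for `DBS.T_DGR`.) Deliver `theorem p_X : T_X`
(targets named in brackets are hypotheses, in this order) in the NEW file
`Pool/Agent/DBB/P_X.lean` which imports this file, namespace `Pool.Agent.DBB`, helper lemmas in the
sub-namespace `X_`. `(t', T, k)` is a triple of a set `G` with `HypR G c₂`, and `0 < t ≤ t'`.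
Here `L = log T`, `R = t' L`, `m' = mt t' T = t' L²`, `m = mt t T = t L²`,
`sd t T = t L/4`. Always `R²/t' = m'`, `R²/t ≥ m'`, `m ≤ m'`, `R ≤ c₂`. Constants are absorbed by
`exp (ε m')` (field `big` of `HypR`).
-/

set_option autoImplicit false

namespace Pool.Agent.DBB

open Complex MeasureTheory Set Filter
open Pool.Agent.DBN Pool.Agent.DBC

/-- the main size at the time `t`, with the exponent `a` relative to the time `t'` -/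
noncomputable def EF (t t' T x a : ℝ) : ℝ :=
  size T * Real.exp (x / 2 * Real.log T + mt t T / 16 + a * mt t' T)

/-- FLW (10 min). PROOF. Definition of `flow` (`√(-t) = 0`), substitution `u ↦ u/√t` (see the proof
of SPL, DBC/P_SPL.lean: probably contained there as a lemma). -/
def T_FLW : Prop := ∀ (t : ℝ) (s : ℂ), 0 < t →
  flow t s = (((√(Real.pi * t))⁻¹ : ℝ) : ℂ) *
    ∫ u : ℝ, ((Real.exp (-(u ^ 2 / t)) : ℝ) : ℂ) * xi (s + u)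

/-- BD7 (from BD5; 20 min). PROOF. `u ≥ 0`: BD5 for `t'`, multiplied by `exp (u²/t' - u²/t)`: the
exponent is `|y+u|/2 L + ε u²/t' + ε m' - u²/t`, and `ε u²/t' ≤ ε u²/t`. `u < 0`:
`‖xi (pt y τ + u)‖ = ‖xi (pt (-y) τ + (-u))‖` by the functional equation and conjugation
(`1 - conj (pt y τ + u) = pt (-y) τ - u`), so it is the case `-y`, `-u ≥ 0`. -/
def T_BD7 : Prop := ∀ (G : Set (ℝ × ℝ × ℝ)) (c₂ : ℝ), HypR G c₂ → ∀ ε K : ℝ, 0 < ε → ε ≤ 1 →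
  0 < K → ∃ T₀ : ℝ, 2 ≤ T₀ ∧ ∀ t t' T k y τ u : ℝ, (t', T, k) ∈ G → T₀ ≤ T → 0 < t → t ≤ t' →
    |y| ≤ K * (t' * Real.log T) → |τ - T| ≤ K * (t' * Real.log T) →
    Real.exp (-(u ^ 2 / t)) * ‖xi (Pool.Agent.DBC.pt y τ + u)‖ ≤ k * (size T *
      Real.exp (|y + u| / 2 * Real.log T - (1 - ε) * (u ^ 2 / t) + ε * mt t' T))

/-- OAR (from BD7; 35 min, compare P_OA5.lean). Away from the saddle point. PROOF. BD7 with
`ε = min (1/8) (min (ρ²/8) (δ/4))`. Let `E = |x+u| L/2 - (1-ε) u²/t + ε m'`, `v = u - sd`,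
`|v| ≥ ρ R`. If `x + u ≥ 0`: `u L/2 - u²/t = -v²/t + m/16`, `u² ≤ 2 v² + 2 sd²`,
`2 sd²/t = m/8 ≤ m'/8`, so `E ≤ x L/2 + m/16 - (1-2ε) v²/t + (9/8) ε m'`, and
`(3/4) v²/t ≥ v²/(4 t) + ρ² m'/2` (`v²/t ≥ ρ² R²/t' = ρ² m'`):
`E ≤ x L/2 + m/16 - v²/(4 t) - ρ² m'/4`. If `x + u < 0`: with `v₁ = u + sd`,
`-u L/2 - u²/t = -v₁²/t + m/16`, `-x L/2 ≤ x L/2 - δ m'`:
`E ≤ x L/2 + m/16 - (1-2ε) v₁²/t - δ m' + (9/8) ε m' ≤ x L/2 + m/16 - v₁²/(4 t) - δ m'/2`. So the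
integrand is at most `k size T exp (x L/2 + m/16 - 2 g m') (exp (-v²/(4 t)) + exp (-v₁²/(4 t)))`,
`g = min (ρ²/8) (δ/4)`, and `∫ = 2 √(4 π t)`; `4 √π ≤ exp (g m')` for large `T`
(no integrability is needed: `DBC.OA4_.int_bound` or `integral_mono_of_nonneg`). -/
def T_OAR : Prop := ∀ (G : Set (ℝ × ℝ × ℝ)) (c₂ : ℝ), HypR G c₂ → ∀ K δ ρ : ℝ, 0 < K → 0 < δ →
  0 < ρ → ∃ g T₀ : ℝ, 0 < g ∧ 2 ≤ T₀ ∧ ∀ t t' T k x τ : ℝ, (t', T, k) ∈ G → T₀ ≤ T → 0 < t →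
    t ≤ t' → δ * (t' * Real.log T) ≤ x → x ≤ K * (t' * Real.log T) →
    |τ - T| ≤ K * (t' * Real.log T) →
    ∫ u in (Ioo (sd t T - ρ * (t' * Real.log T)) (sd t T + ρ * (t' * Real.log T)))ᶜ,
      Real.exp (-(u ^ 2 / t)) * ‖xi (Pool.Agent.DBC.pt x τ + u)‖ ≤ √t * (k * EF t t' T x (-g))

/-- NER (from BCL, SDH, XB5; 40 min, edit of P_NE5.lean). Near the saddle point. PROOF. Let
`δ₁ = min δ 1`, `s = pt x τ`, `s' = s + sd`. On the ball of radius `δ₁ R/2` around `s'` the real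
part is at least `1/2 + δ R - δ₁ R/2 ≥ 1/2 + (δ₁/2) R` and at most `1/2 + (K + 1) R`, the imaginary
part within `(K + 1) R` of `T`; XB5 for the triple `(t', T, k)` with `ε' ≤ δ₁/2`, `K + 1`. BCL for
`g v = exp (-(v/2) L) xi (s' + v)` with radius `δ₁ R/2`, `M = 2 ε' m'`: `‖h v‖ ≤ 4 ε' m'` for
`‖v‖ < δ₁ R/4`. The integral is `exp (-sd²/t) g(0) ∫_{|v| < δ₁ R/8} exp (-v²/t + h v) dv`
(`NE22_.main_int` with `r = δ₁ R/8`; `sd²/t = m/16`). Substitution `v = R v'`: `lam = R²/t ≥ m'`,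
SDH with `ρ = δ₁/4`, `η = 4 ε' m'/lam ≤ 4 ε'` (`≤ η₀`): the integral is at least
`R/(2 √lam) exp (-8 ε' m') = (√t/2) exp (-8 ε' m')` (`NE2_.gauss` is the case `R = t L`; do the
substitution as there). Finally `1/2 ≥ exp (-ε' m')`, `10 ε' ≤ ε`. -/
def T_NER : Prop := ∀ (G : Set (ℝ × ℝ × ℝ)) (c₂ : ℝ), HypR G c₂ → ∀ K δ ε : ℝ, 0 < K → 0 < δ →
  0 < ε → ∃ T₀ : ℝ, 2 ≤ T₀ ∧ ∀ t t' T k x τ : ℝ, (t', T, k) ∈ G → T₀ ≤ T → 0 < t →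
    t ≤ t' → δ * (t' * Real.log T) ≤ x → x ≤ K * (t' * Real.log T) →
    |τ - T| ≤ K * (t' * Real.log T) → √t * (k * EF t t' T x (-ε)) ≤
    ‖∫ u in Ioo (sd t T - min δ 1 / 8 * (t' * Real.log T))
        (sd t T + min δ 1 / 8 * (t' * Real.log T)),
      ((Real.exp (-(u ^ 2 / t)) : ℝ) : ℂ) * xi (Pool.Agent.DBC.pt x τ + u)‖

/-- LOR (from FLW, IGR, NER, OAR; 20 min, edit of P_LO5.lean). PROOF. OAR with
`ρ = min δ 1/8` gives `g`; NER with `ε₁ = min (ε/2) (g/2)`. `integral_add_compl`: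
`‖∫‖ ≥ √t k (EF (-ε₁) - EF (-g)) ≥ (√t/2) k EF (-ε₁)` and
`(π t)^(-1/2) √t/2 exp (-ε₁ m') ≥ exp (-ε m')`, `m'` large. -/
def T_LOR : Prop := ∀ (G : Set (ℝ × ℝ × ℝ)) (c₂ : ℝ), HypR G c₂ → ∀ K δ ε : ℝ, 0 < K → 0 < δ →
  0 < ε → ∃ T₀ : ℝ, 2 ≤ T₀ ∧ ∀ t t' T k x τ : ℝ, (t', T, k) ∈ G → T₀ ≤ T → 0 < t →
    t ≤ t' → δ * (t' * Real.log T) ≤ x → x ≤ K * (t' * Real.log T) →
    |τ - T| ≤ K * (t' * Real.log T) → k * EF t t' T x (-ε) ≤ ‖flow t (Pool.Agent.DBC.pt x τ)‖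

/-- UPR (from FLW, BD7; 20 min). Crude upper bound. PROOF. BD7 with `ε = 1/4`: the exponent is at
most `K m'/2 + |u| L/2 - (3/4) u²/t + m'/4` (`|x| L ≤ K m'`), `|u| L/2 ≤ u²/(4 t) + m/4`, so at most
`(K/2 + 1/2) m' - u²/(2 t)`; `∫ exp (-u²/(2 t)) du = √(2 π t)`,
`√2 exp ((K/2 + 1/2) m') ≤ exp ((K/2 + 1) m')` for `m' ≥ 1`. `C = K/2 + 1`. -/
def T_UPR : Prop := ∀ (G : Set (ℝ × ℝ × ℝ)) (c₂ : ℝ), HypR G c₂ → ∀ K : ℝ, 0 < K →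
  ∃ T₀ : ℝ, 2 ≤ T₀ ∧ ∀ t t' T k x τ : ℝ, (t', T, k) ∈ G → T₀ ≤ T → 0 < t → t ≤ t' →
    |x| ≤ K * (t' * Real.log T) → |τ - T| ≤ K * (t' * Real.log T) →
    ‖flow t (Pool.Agent.DBC.pt x τ)‖ ≤ k * (size T * Real.exp ((K / 2 + 1) * mt t' T))

/-- JNR (from LOR, UPR; 30 min, edit of P_JN3.lean). PROOF. `ZC1Aux.jensen` as in P_JN3 with all
lengths multiplied by `R = t' L`: `r = K R/2`, `ρ = (K/2 + 1) R`, `R = (K/2 + 2) R`, `w₁ = R`,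
`l = 1`, `b₀ = log (k size T)` (`k > 0`). Upper bound: UPR with `K + 3`,
`‖flow‖ exp (1/2 + Re w)/(k size T) ≤ exp ((K/2 + 5/2) m' + 1/2 + (K + 3) c₂) ≤ exp (b)`,
`b = C₁ m'` for `m' ≥ 1`, `C₁ = K + 4 + (K + 3) c₂`. Lower bound: LOR with `K + 3`, `δ = 1`,
`ε = 1`, `x = R`: `‖flow‖ exp (1/2 + R)/(k size T) ≥ exp (-m')`. `log (ρ/r)`-type constant as in
P_JN3 (the scale `R` cancels). -/
def T_JNR : Prop := ∀ (G : Set (ℝ × ℝ × ℝ)) (c₂ : ℝ), HypR G c₂ → ∀ K : ℝ, 0 < K →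
  ∃ C T₀ : ℝ, 0 < C ∧ 2 ≤ T₀ ∧ ∀ t t' T k : ℝ, (t', T, k) ∈ G → T₀ ≤ T → 0 < t → t ≤ t' →
    (zeroCount (H t) (2 * T) (K * (t' * Real.log T)) : ℝ) ≤ C * (t' * Real.log T ^ 2)

end Pool.Agent.DBB
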